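import Pool.Agent.Herst.Targets

set_option autoImplicit false

/-! Radical normal subgroups (MP_176fb9_al), J11: additive commutators. -/

namespace Pool.Agent.Herst

universe u

open Polynomial

namespace A_

variable {D : Type u} [DivisionRing D]

lemma AC_comm (a b : D) : a * b - b * a ∈ AC D := AddSubgroup.subset_closure ⟨a, b, rfl⟩

lemma center_comm {f : D} (hf : f ∈ Subring.center D) (x : D) : f * x = x * f :=
  ((Subring.mem_center_iff.1 hf) x).symm

/-- the additive group of commutators is a subspace -/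
lemma AC_smul {f : D} (hf : f ∈ Subring.center D) {x : D} (hx : x ∈ AC D) : f * x ∈ AC D := by
  induction hx using AddSubgroup.closure_induction with
  | mem x hx =>
    obtain ⟨a, b, rfl⟩ := hx
    have : f * (a * b - b * a) = (f * a) * b - b * (f * a) := by
      rw [mul_sub, ← mul_assoc, ← mul_assoc, center_comm hf b, mul_assoc b f a]
    rw [this]
    exact AC_comm _ _
  | zero => rw [mul_zero]; exact zero_mem _
  | add x y _ _ hx hy => rw [mul_add]; exact add_mem hx hy
  | neg x _ hx => rw [mul_neg]; exact neg_mem hx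

lemma integral_of_pow {x : D} {n : ℕ} (hn : 1 ≤ n) (h : x ^ n ∈ Subring.center D) :
    IsIntegral (Subring.center D) x := by
  refine IsIntegral.of_pow (n := n) (by omega) ?_
  have : x ^ n = algebraMap (Subring.center D) D ⟨x ^ n, h⟩ := rfl
  rw [this]
  exact isIntegral_algebraMap

lemma Rad.integral {N : Set D} (hN : Rad N) {x : D} (hx : x ∈ N) :
    IsIntegral (Subring.center D) x := by
  obtain ⟨n, hn, h⟩ := hN.rad x hx
  exact integral_of_pow hn h

lemma center_mem (A : Subalgebra (Subring.center D) D) {f : D} (hf : f ∈ Subring.center D) :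
    f ∈ A := A.algebraMap_mem ⟨f, hf⟩

end A_

open A_ in
theorem pA (h1 : tCBH.{u}) (h2 : tT4.{u}) (h3 : tN.{u}) (h5 : tR4.{u}) :
    tA.{u} := by
  intro D _ N hN hex
  obtain ⟨z, hzN, hz⟩ := hex
  have hnz : ∀ a : D, a ∉ Subring.center D → ∃ b ∈ N, a * b ≠ b * a := by
    intro a ha
    by_contra hcon
    push Not at hcon
    exact ha (h1 D N hN.conj ⟨z, hzN, hz⟩ a hcon)
  obtain ⟨g, hgN, hg⟩ := hnz z hz
  have hg0 : g ≠ 0 := hN.ne g hgN
  have hz0 : z ≠ 0 := hN.ne z hzN
  have h1z : 1 + z ≠ 0 := by
    intro h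
    apply hz
    have : z = -1 := by rw [eq_neg_iff_add_eq_zero, add_comm]; exact h
    rw [this]
    exact neg_mem (one_mem _)
  have hone : (1 : D) ∈ Subring.center D := one_mem _
  set z' := g * z * g⁻¹ with hz'
  set c := g * (1 + z) * g⁻¹ * (1 + z)⁻¹ with hc
  have hcN : c ∈ N := by
    have h : c = g * ((1 + z) * g⁻¹ * (1 + z)⁻¹) := by rw [hc]; simp only [mul_assoc]
    rw [h]
    exact hN.mul g hgN _ (hN.conj _ (hN.inv g hgN) _ h1z)
  have hcz : c * (1 + z) = 1 + z' := by
    rw [hc, inv_mul_cancel_right₀ h1z, mul_add, add_mul, mul_one, mul_inv_cancel₀ hg0]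
  have hzint := Rad.integral hN hzN
  have hzadj : z ∈ Algebra.adjoin (Subring.center D) {z} := Algebra.self_mem_adjoin_singleton _ z
  have hz'not : z' ∉ Algebra.adjoin (Subring.center D) {z} := fun h =>
    hg (h3 D N hN z hzN g hg0 h).symm
  have hcF : c ∉ Subring.center D := by
    intro h
    apply hz'not
    have : z' = c * (1 + z) - 1 := by rw [hcz]; abel
    rw [this]
    exact sub_mem (mul_mem (center_mem _ h) (add_mem (one_mem _) hzadj)) (one_mem _)
  have hczF : c * z ∉ Subring.center D := by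
    intro h
    apply hz'not
    have : z' = (c * z) * z⁻¹ + c * z - 1 := by
      rw [mul_inv_cancel_right₀ hz0]
      have : c + c * z = 1 + z' := by rw [← hcz, mul_add, mul_one]
      rw [this]; abel
    rw [this]
    exact sub_mem (add_mem (mul_mem (center_mem _ h) hzint.inv_mem_adjoin) (center_mem _ h))
      (one_mem _)
  have hz'N : z' ∈ N := hN.conj z hzN g hg0
  have hz'F : z' ∉ Subring.center D := fun h => hz'not (center_mem _ h)
  have h1AC : (1 : D) ∈ AC D := by
    have : (1 : D) = c + c * z - z' := by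
      have : c + c * z = 1 + z' := by rw [← hcz, mul_add, mul_one]
      rw [this]; abel
    rw [this]
    exact sub_mem (add_mem (h5 D N hN c hcN hcF) (h5 D N hN (c * z) (hN.mul c hcN z hzN) hczF))
      (h5 D N hN z' hz'N hz'F)
  have hFAC : ∀ f ∈ Subring.center D, f ∈ AC D := by
    intro f hf
    have := AC_smul hf h1AC
    rwa [mul_one] at this
  have hNAC : ∀ x ∈ N, x ∈ AC D := by
    intro x hx
    by_cases h : x ∈ Subring.center D
    · exact hFAC x h
    · exact h5 D N hN x hx h
  -- the algebra generated by `N`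
  have hspan : ∀ x ∈ Submodule.span (Subring.center D) N, x ∈ AC D := by
    intro x hx
    induction hx using Submodule.span_induction with
    | mem x hx => exact hNAC x hx
    | zero => exact zero_mem _
    | add x y _ _ hx hy => exact add_mem hx hy
    | smul a x _ hx => exact AC_smul a.2 hx
  have hadj : ∀ x ∈ Algebra.adjoin (Subring.center D) N, x ∈ AC D := by
    intro x hx
    apply hspan
    have h : x ∈ Subalgebra.toSubmodule (Algebra.adjoin (Subring.center D) N) := hx
    rw [Algebra.adjoin_eq_span] at h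
    refine Submodule.span_mono ?_ h
    intro y hy
    induction hy using Submonoid.closure_induction with
    | mem y hy => exact hy
    | one => exact hN.cen 1 hone one_ne_zero
    | mul a b _ _ ha hb => exact hN.mul a ha b hb
  intro y
  by_cases hy : y ∈ Subring.center D
  · exact hFAC y hy
  obtain ⟨b, hbN, hb⟩ := hnz y hy
  have hb0 : b ≠ 0 := hN.ne b hbN
  obtain ⟨hy0, hy1, hu1, hu1', hid⟩ := h2 D y b hb0 hb
  have hcomm : ∀ p : D, p ≠ 0 → p⁻¹ * b * p * b⁻¹ ∈ N := by
    intro p hp
    have h := hN.conj b hbN p⁻¹ (inv_ne_zero hp)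
    rw [inv_inv] at h
    exact hN.mul _ h _ (hN.inv b hbN)
  have hp1 : (1 - y⁻¹) ≠ 0 := by
    intro h
    apply hy1
    have : y⁻¹ = 1 := (sub_eq_zero.1 h).symm
    rw [← inv_inv y, this, inv_one]
  have hp2 : y - 1 ≠ 0 := sub_ne_zero.2 hy1
  have huN := hcomm _ hp1
  have huN' := hcomm _ hp2
  generalize (1 - y⁻¹)⁻¹ * b * (1 - y⁻¹) * b⁻¹ = u at hu1 hid huN
  generalize (y - 1)⁻¹ * b * (y - 1) * b⁻¹ = u' at hu1' hid huN'
  apply hadj
  have hA : ∀ x ∈ N, x ∈ Algebra.adjoin (Subring.center D) N := fun x hx =>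
    Algebra.subset_adjoin hx
  have hY : b * y * b⁻¹ ∈ Algebra.adjoin (Subring.center D) N := by
    rw [hid]
    refine mul_mem ?_ (sub_mem (one_mem _) (hA _ huN'))
    have hint : IsIntegral (Subring.center D) (1 - u) := by
      have h := Rad.integral hN huN
      exact IsIntegral.of_mem_of_fg _ h.fg_adjoin_singleton _
        (sub_mem (one_mem _) (Algebra.self_mem_adjoin_singleton _ u))
    exact hint.inv_mem (sub_mem (one_mem _) (hA _ huN))
  have : y = b⁻¹ * (b * y * b⁻¹) * b := by
    rw [mul_assoc b y, inv_mul_cancel_left₀ hb0, inv_mul_cancel_right₀ hb0]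
  rw [this]
  exact mul_mem (mul_mem (hA _ (hN.inv b hbN)) hY) (hA _ hbN)

end Pool.Agent.Herst
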