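import Pool.Agent.Herst.All

set_option autoImplicit false

/-! Quasi-homomorphisms of `D*` whose restriction to the centre is a (generalised) logarithm of an
absolute value. -/

namespace Pool.Agent.Herst

open Polynomial

universe u v

namespace AQ_

variable {D : Type u} [DivisionRing D] {k : Type v} [Field k] [LinearOrder k]
  [IsStrictOrderedRing k]

/-- the hypotheses -/
structure Q (L : D → k) (K : k) : Prop where
  mul : ∀ x y : D, x ≠ 0 → y ≠ 0 → |L (x * y) - L x - L y| ≤ K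
  add : ∀ a ∈ Subring.center D, ∀ b ∈ Subring.center D, a ≠ 0 → b ≠ 0 → a + b ≠ 0 →
    L (a + b) ≤ K + max (L a) (L b)

variable {L : D → k} {K : k} {N : Set D}

namespace Q

theorem K0 (h : Q L K) : 0 ≤ K := (abs_nonneg _).trans (h.mul 1 1 one_ne_zero one_ne_zero)

theorem one (h : Q L K) : |L 1| ≤ K := by
  have := h.mul 1 1 one_ne_zero one_ne_zero
  rw [one_mul, sub_self, zero_sub, abs_neg] at this
  exact this

theorem mul_le (h : Q L K) {x y : D} (hx : x ≠ 0) (hy : y ≠ 0) :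
    L (x * y) ≤ L x + L y + K := by
  have := (abs_le.1 (h.mul x y hx hy)).2
  linarith

theorem mul_ge (h : Q L K) {x y : D} (hx : x ≠ 0) (hy : y ≠ 0) :
    L x + L y - K ≤ L (x * y) := by
  have := (abs_le.1 (h.mul x y hx hy)).1
  linarith

theorem inv_le (h : Q L K) {x : D} (hx : x ≠ 0) : L x⁻¹ ≤ 2 * K - L x := by
  have h1 := h.mul_ge hx (inv_ne_zero hx)
  rw [mul_inv_cancel₀ hx] at h1
  have := (abs_le.1 h.one).2
  linarith

theorem inv_ge (h : Q L K) {x : D} (hx : x ≠ 0) : -(2 * K) - L x ≤ L x⁻¹ := by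
  have h1 := h.mul_le hx (inv_ne_zero hx)
  rw [mul_inv_cancel₀ hx] at h1
  have := (abs_le.1 h.one).1
  linarith

theorem neg_one (h : Q L K) : |L (-1)| ≤ K := by
  have h0 : (-1 : D) ≠ 0 := neg_ne_zero.2 one_ne_zero
  have h1 := h.mul_le h0 h0
  have h2 := h.mul_ge h0 h0
  rw [neg_mul_neg, one_mul] at h1 h2
  have h3 := abs_le.1 h.one
  rw [abs_le]
  constructor <;> linarith [h3.1, h3.2]

theorem neg_le (h : Q L K) {x : D} (hx : x ≠ 0) : L (-x) ≤ L x + 2 * K := by
  have h0 : (-1 : D) ≠ 0 := neg_ne_zero.2 one_ne_zero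
  have h1 := h.mul_le h0 hx
  rw [neg_one_mul] at h1
  have := (abs_le.1 h.neg_one).2
  linarith

theorem sub_le (h : Q L K) {x y : D} (hx : x - y ≠ 0) : L (y - x) ≤ L (x - y) + 2 * K := by
  rw [← neg_sub]
  exact h.neg_le hx

theorem conj_le (h : Q L K) {g x : D} (hg : g ≠ 0) (hx : x ≠ 0) :
    L (g * x * g⁻¹) ≤ L x + 4 * K := by
  have h1 := h.mul_le (mul_ne_zero hg hx) (inv_ne_zero hg)
  have h2 := h.mul_le hg hx
  have h3 := h.inv_le hg
  linarith

theorem conj_ge (h : Q L K) {g x : D} (hg : g ≠ 0) (hx : x ≠ 0) :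
    L x - 4 * K ≤ L (g * x * g⁻¹) := by
  have h1 := h.mul_ge (mul_ne_zero hg hx) (inv_ne_zero hg)
  have h2 := h.mul_ge hg hx
  have h3 := h.inv_ge hg
  linarith

theorem pow_le (h : Q L K) {x : D} (hx : x ≠ 0) (n : ℕ) :
    L (x ^ n) ≤ n * L x + (n + 1) * K := by
  induction n with
  | zero =>
    have := (abs_le.1 h.one).2
    simpa using this
  | succ n ih =>
    have := h.mul_le (pow_ne_zero n hx) hx
    rw [pow_succ]
    push_cast
    linarith

theorem pow_ge (h : Q L K) {x : D} (hx : x ≠ 0) (n : ℕ) :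
    n * L x - (n + 1) * K ≤ L (x ^ n) := by
  induction n with
  | zero =>
    have := (abs_le.1 h.one).1
    simpa using this
  | succ n ih =>
    have := h.mul_ge (pow_ne_zero n hx) hx
    rw [pow_succ]
    push_cast
    linarith

theorem list (h : Q L K) (c z : D) (hc : c ∈ Subring.center D) (hcz : c - z ≠ 0) (l : List D)
    (hl : ∀ g ∈ l, g ≠ 0) :
    (l.map (fun g => c - g * z * g⁻¹)).prod ≠ 0 ∧
    |L (l.map (fun g => c - g * z * g⁻¹)).prod - l.length * L (c - z)| ≤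
      (5 * l.length + 1) * K := by
  induction l with
  | nil =>
    have := h.one
    simpa using this
  | cons g l ih =>
    have hg : g ≠ 0 := hl g List.mem_cons_self
    obtain ⟨h0, h1⟩ := ih (fun a ha => hl a (List.mem_cons_of_mem _ ha))
    have e : c - g * z * g⁻¹ = g * (c - z) * g⁻¹ := by
      rw [mul_sub, sub_mul, ← Main_.center_comm hc g, mul_assoc c, mul_inv_cancel₀ hg, mul_one]
    have e0 : g * (c - z) * g⁻¹ ≠ 0 := mul_ne_zero (mul_ne_zero hg hcz) (inv_ne_zero hg)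
    rw [List.map_cons, List.prod_cons, List.length_cons, e]
    refine ⟨mul_ne_zero e0 h0, ?_⟩
    have h2 := h.mul_le e0 h0
    have h3 := h.mul_ge e0 h0
    have h4 := h.conj_le hg hcz
    have h5 := h.conj_ge hg hcz
    rw [abs_le] at h1 ⊢
    push_cast
    constructor <;> linarith [h1.1, h1.2]

theorem norm (h : Q L K) (hN : Rad N) {z : D} (hz : z ∈ N) (hzc : z ∉ Subring.center D) :
    ∃ M : ℕ, 2 ≤ M ∧ (M : D) ≠ 0 ∧ z ^ M ∈ Subring.center D ∧
      ∀ c ∈ Subring.center D, c ^ M - z ^ M ≠ 0 ∧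
        |L (c ^ M - z ^ M) - M * L (c - z)| ≤ 6 * M * K := by
  obtain ⟨M, f, hM, hM0, hf, hmin⟩ := qR3 D N hN z hz hzc
  have hint : IsIntegral (Subring.center D) z := by
    by_contra h
    have := minpoly.eq_zero h
    rw [hmin] at this
    exact X_pow_sub_C_ne_zero (by omega) f this
  obtain ⟨l, hlen, hl, hprod, -⟩ := qNT D z hint
  refine ⟨M, hM, hM0, hf ▸ f.2, fun c hc => ?_⟩
  have hcz : c - z ≠ 0 := by
    intro h
    rw [sub_eq_zero] at h
    exact hzc (h ▸ hc)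
  have h1 := hprod ⟨c, hc⟩
  rw [hmin] at h1 hlen
  rw [natDegree_X_pow_sub_C] at hlen
  obtain ⟨h2, h3⟩ := h.list c z hc hcz l hl
  simp only [eval_sub, eval_pow, eval_X, eval_C] at h1
  have h4 : (l.map (fun g => c - g * z * g⁻¹)).prod = c ^ M - z ^ M := by
    rw [h1, ← hf]
    push_cast
    rfl
  rw [h4] at h2 h3
  rw [hlen] at h3
  refine ⟨h2, h3.trans ?_⟩
  have hK := h.K0
  have hM1 : (1 : k) ≤ M := by exact_mod_cast (by omega : 1 ≤ M)
  nlinarith

end Q

/-- size at most `r` -/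
def Le (L : D → k) (x : D) (r : k) : Prop := x = 0 ∨ L x ≤ r

theorem Le.mono {x : D} {r s : k} (h : Le L x r) (hrs : r ≤ s) : Le L x s :=
  h.imp id fun h => h.trans hrs

theorem Le.of {x : D} {r : k} (h : Le L x r) (hx : x ≠ 0) : L x ≤ r := h.resolve_left hx

theorem Le.mul (h : Q L K) {x y : D} {r s : k} (hx : Le L x r) (hy : Le L y s) :
    Le L (x * y) (r + s + K) := by
  by_cases hx0 : x = 0
  · left; rw [hx0, zero_mul]
  by_cases hy0 : y = 0
  · left; rw [hy0, mul_zero]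
  right
  have := h.mul_le hx0 hy0
  linarith [hx.of hx0, hy.of hy0]

theorem Le.add (h : Q L K) {a b : D} (ha : a ∈ Subring.center D) (hb : b ∈ Subring.center D)
    {r : k} (hx : Le L a r) (hy : Le L b r) : Le L (a + b) (r + K) := by
  have hK := h.K0
  by_cases hx0 : a = 0
  · rw [hx0, zero_add]; exact hy.mono (by linarith)
  by_cases hy0 : b = 0
  · rw [hy0, add_zero]; exact hx.mono (by linarith)
  by_cases hab : a + b = 0
  · exact Or.inl hab
  right
  have := h.add a ha b hb hx0 hy0 hab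
  have h2 := max_le (hx.of hx0) (hy.of hy0)
  linarith

theorem Le.neg (h : Q L K) {a : D} {r : k} (hx : Le L a r) : Le L (-a) (r + 2 * K) := by
  by_cases hx0 : a = 0
  · left; rw [hx0, neg_zero]
  right
  have := h.neg_le hx0
  linarith [hx.of hx0]

theorem Le.one (h : Q L K) : Le L 1 K := Or.inr (abs_le.1 h.one).2

theorem Q.le_N (h : Q L K) (hN : Rad N) {z : D} (hz : z ∈ N) (h1 : L z ≤ 17 * K) :
    Le L (1 - z) (26 * K) := by
  have hK := h.K0
  have hz0 := hN.ne z hz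
  by_cases hzc : z ∈ Subring.center D
  · have h2 : Le L (-z) (19 * K) := (Le.neg h (Or.inr h1)).mono (by linarith)
    have h3 := Le.add h (one_mem _) (neg_mem hzc) ((Le.one h).mono (by linarith)) h2
    rw [← sub_eq_add_neg] at h3
    exact h3.mono (by linarith)
  · obtain ⟨M, hM, hM0, hf, hn⟩ := h.norm hN hz hzc
    obtain ⟨h2, h3⟩ := hn 1 (one_mem _)
    rw [one_pow] at h2 h3
    have hM2 : (2 : k) ≤ M := by exact_mod_cast hM
    have h4 := h.pow_le hz0 M
    have h5 : (M : k) * L z ≤ M * (17 * K) := mul_le_mul_of_nonneg_left h1 (by linarith)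
    have h6 : L (z ^ M) ≤ 18 * (M * K) + K := by linarith
    have h7 : Le L (-z ^ M) (18 * (M * K) + 3 * K) :=
      (Le.neg h (Or.inr h6)).mono (by linarith)
    have hMK : 2 * K ≤ M * K := mul_le_mul_of_nonneg_right hM2 hK
    have h8 := Le.add h (one_mem _) (neg_mem hf) ((Le.one h).mono (by linarith)) h7
    rw [← sub_eq_add_neg] at h8
    have h9 := h8.of h2
    have h10 : (M : k) * L (1 - z) ≤ M * (26 * K) := by
      have := (abs_le.1 h3).1
      linarith
    right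
    exact le_of_mul_le_mul_left h10 (by linarith)

theorem Q.w_le (h : Q L K) {x g : D} (hx : x ≠ 0) (hg : g ≠ 0) :
    |L (g * x * g⁻¹ * x⁻¹)| ≤ 7 * K := by
  have h0 : g * x * g⁻¹ ≠ 0 := mul_ne_zero (mul_ne_zero hg hx) (inv_ne_zero hg)
  have h1 := h.mul_le h0 (inv_ne_zero hx)
  have h2 := h.mul_ge h0 (inv_ne_zero hx)
  have h3 := h.conj_le hg hx
  have h4 := h.conj_ge hg hx
  have h5 := h.inv_le hx
  have h6 := h.inv_ge hx
  rw [abs_le]
  constructor <;> linarith

theorem w_mem (hN : Rad N) {x g : D} (hx : x ∈ N) (hg : g ≠ 0) : g * x * g⁻¹ * x⁻¹ ∈ N :=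
  hN.mul _ (hN.conj x hx g hg) _ (hN.inv x hx)

theorem w_sub {x g c : D} (hx : x ≠ 0) (hgc : g + c ≠ 0) (hc : c ∈ Subring.center D) :
    (g + c) * x * (g + c)⁻¹ * x⁻¹ - 1 = (g * x - x * g) * ((g + c)⁻¹ * x⁻¹) := by
  have e : g * x - x * g = (g + c) * x - x * (g + c) := by
    rw [add_mul, mul_add, Main_.center_comm hc x]; abel
  have e2 : x * (g + c) * ((g + c)⁻¹ * x⁻¹) = 1 := by
    rw [mul_assoc, mul_inv_cancel_left₀ hgc, mul_inv_cancel₀ hx]
  rw [e, sub_mul, e2]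
  simp only [mul_assoc]

theorem Q.star1 (h : Q L K) (hN : Rad N) {x g c : D} (hx : x ∈ N) (hc : c ∈ Subring.center D)
    (hgc : g + c ≠ 0) (hgx : g * x - x * g ≠ 0) :
    L (g * x - x * g) ≤ L (g + c) + L x + 30 * K := by
  have hK := h.K0
  have hx0 := hN.ne x hx
  set w := (g + c) * x * (g + c)⁻¹ * x⁻¹ with hw
  have hs := w_sub hx0 hgc hc
  rw [← hw] at hs
  have hw0 : w - 1 ≠ 0 := by
    rw [hs]
    exact mul_ne_zero hgx (mul_ne_zero (inv_ne_zero hgc) (inv_ne_zero hx0))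
  have hw0' : 1 - w ≠ 0 := by
    rw [← neg_sub]; exact neg_ne_zero.2 hw0
  have h1 := (h.le_N hN (w_mem hN hx hgc)
    (by linarith [(abs_le.1 (h.w_le hx0 hgc)).2])).of hw0'
  have h2 := h.sub_le hw0'
  have e : g * x - x * g = (w - 1) * (x * (g + c)) := by
    rw [hs, mul_assoc, mul_assoc, inv_mul_cancel_left₀ hx0, inv_mul_cancel₀ hgc, mul_one]
  have h3 := h.mul_le hw0 (mul_ne_zero hx0 hgc)
  have h4 := h.mul_le hx0 hgc
  rw [← e] at h3
  linarith

theorem Q.star2 (h : Q L K) (hN : Rad N) {x g c c' : D} (hx : x ∈ N)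
    (hc : c ∈ Subring.center D) (hc' : c' ∈ Subring.center D)
    (hgc : g + c ≠ 0) (hgc' : g + c' ≠ 0) (hgx : g * x - x * g ≠ 0) (hcc : c - c' ≠ 0) :
    L (g * x - x * g) + L (c - c') ≤ L (g + c) + L (g + c') + L x + 38 * K := by
  have hK := h.K0
  have hx0 := hN.ne x hx
  set w := (g + c) * x * (g + c)⁻¹ * x⁻¹ with hw
  set w' := (g + c') * x * (g + c')⁻¹ * x⁻¹ with hw'
  have hwN : w ∈ N := w_mem hN hx hgc
  have hwN' : w' ∈ N := w_mem hN hx hgc'
  have hw1 := abs_le.1 (h.w_le hx0 hgc)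
  have hw1' := abs_le.1 (h.w_le hx0 hgc')
  rw [← hw] at hw1
  rw [← hw'] at hw1'
  have hw0 : w ≠ 0 := hN.ne _ hwN
  have hw0' : w' ≠ 0 := hN.ne _ hwN'
  have e2 : w' - w = (g * x - x * g) * ((g + c')⁻¹ * (c - c') * (g + c)⁻¹ * x⁻¹) := by
    have e3 : w' - w = (w' - 1) - (w - 1) := by abel
    have e4 : (g + c')⁻¹ * (c - c') * (g + c)⁻¹ = (g + c')⁻¹ - (g + c)⁻¹ := by
      have e5 : c - c' = (g + c) - (g + c') := by abel
      rw [e5, mul_sub, sub_mul, inv_mul_cancel₀ hgc', mul_assoc, mul_inv_cancel₀ hgc, mul_one,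
        one_mul]
    rw [e3, w_sub hx0 hgc hc, w_sub hx0 hgc' hc', e4, sub_mul (g + c')⁻¹,
      mul_sub (g * x - x * g)]
  have hne : w' - w ≠ 0 := by
    rw [e2]
    exact mul_ne_zero hgx (mul_ne_zero (mul_ne_zero (mul_ne_zero (inv_ne_zero hgc') hcc)
      (inv_ne_zero hgc)) (inv_ne_zero hx0))
  have e1 : (1 - w * w'⁻¹) * w' = w' - w := by
    rw [sub_mul, one_mul, mul_assoc, inv_mul_cancel₀ hw0', mul_one]
  have hv : 1 - w * w'⁻¹ ≠ 0 := by
    intro h0
    rw [h0, zero_mul] at e1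
    exact hne e1.symm
  have h1 := (h.le_N hN (hN.mul _ hwN _ (hN.inv _ hwN')) (by
    have h2 := h.mul_le hw0 (inv_ne_zero hw0')
    have h3 := h.inv_le hw0'
    linarith [hw1.2, hw1'.1])).of hv
  have h2 := h.mul_le hv hw0'
  rw [e1] at h2
  have e6 : (g * x - x * g) * (c - c') = (w' - w) * (x * ((g + c) * (g + c'))) := by
    have hcc' := Main_.center_comm (sub_mem hc hc') (D := D)
    rw [e2]
    have e7 : (g + c')⁻¹ * (c - c') * (g + c)⁻¹ * x⁻¹ * (x * ((g + c) * (g + c'))) = c - c' := by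
      rw [mul_assoc _ x⁻¹, inv_mul_cancel_left₀ hx0, mul_assoc _ (g + c)⁻¹,
        inv_mul_cancel_left₀ hgc, mul_assoc, hcc', inv_mul_cancel_left₀ hgc']
    rw [mul_assoc, e7]
  have h3 := h.mul_ge hgx hcc
  rw [e6] at h3
  have h4 := h.mul_le hne (mul_ne_zero hx0 (mul_ne_zero hgc hgc'))
  have h5 := h.mul_le hx0 (mul_ne_zero hgc hgc')
  have h6 := h.mul_le hgc hgc'
  linarith [hw1.2, hw1'.2]

/-! ### Natural numbers -/

theorem Q.nat_le (h : Q L K) (n : ℕ) : Le L (n : D) ((n + 1) * K) := by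
  have hK := h.K0
  induction n with
  | zero => left; simp
  | succ n ih =>
    push_cast
    have hn : (0 : k) ≤ n := Nat.cast_nonneg n
    have h1 : (0 : k) ≤ n * K := mul_nonneg hn hK
    exact (Le.add h (natCast_mem _ n) (one_mem _) ih ((Le.one h).mono (by linarith))).mono
      (by linarith)

theorem Q.nat_log (h : Q L K) : ∀ j m : ℕ, m < 2 ^ j → Le L (m : D) (4 * j * K)
  | 0, m, hm => by
    have : m = 0 := by simpa using hm
    left; simp [this]
  | j + 1, m, hm => by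
    have hK := h.K0
    have h2 : Le L ((2 : ℕ) : D) (2 * K) := by
      have := Le.add h (one_mem _) (one_mem _) (Le.one h) (Le.one h)
      have e : ((2 : ℕ) : D) = 1 + 1 := by norm_num
      rw [e]
      exact this.mono (by linarith)
    have h3 : m = 2 * (m / 2) + m % 2 := (Nat.div_add_mod m 2).symm
    have h4 : m / 2 < 2 ^ j := by
      rw [pow_succ] at hm; omega
    have hj : (0 : k) ≤ j * K := mul_nonneg (Nat.cast_nonneg j) hK
    have h5 : Le L ((m % 2 : ℕ) : D) K := by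
      rcases Nat.mod_two_eq_zero_or_one m with h6 | h6
      · left; rw [h6]; simp
      · rw [h6, Nat.cast_one]; exact Le.one h
    have h6 := Le.mul h h2 (h.nat_log j _ h4)
    rw [h3, Nat.cast_add, Nat.cast_mul]
    refine (Le.add h (mul_mem (natCast_mem _ _) (natCast_mem _ _)) (natCast_mem _ _) h6
      (h5.mono (by linarith))).mono ?_
    push_cast
    linarith

/-- very small primes -/
def Ty (L : D → k) (K : k) (p : ℕ) : Prop := (p : D) = 0 ∨ L (p : D) < -(16 * p * K)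

theorem Q.sum_one (h : Q L K) {a b : D} (ha : a ∈ Subring.center D) (hb : b ∈ Subring.center D)
    (hab : a + b = 1) : (a ≠ 0 ∧ -(2 * K) ≤ L a) ∨ (b ≠ 0 ∧ -(2 * K) ≤ L b) := by
  have hK := h.K0
  have h1 := (abs_le.1 h.one).1
  by_cases ha0 : a = 0
  · right
    rw [ha0, zero_add] at hab
    rw [hab]
    exact ⟨one_ne_zero, by linarith⟩
  by_cases hb0 : b = 0
  · left
    rw [hb0, add_zero] at hab
    rw [hab]
    exact ⟨one_ne_zero, by linarith⟩
  have h2 := h.add a ha b hb ha0 hb0 (by rw [hab]; exact one_ne_zero)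
  rw [hab] at h2
  rcases max_choice (L a) (L b) with h3 | h3 <;> rw [h3] at h2
  · left; exact ⟨ha0, by linarith⟩
  · right; exact ⟨hb0, by linarith⟩

theorem Q.tiny (h : Q L K) {p q : ℕ} (hp : p.Prime) (hq : q.Prime) (hpq : p < q)
    (h1 : Ty L K p) (h2 : Ty L K q) : False := by
  have hK := h.K0
  set j := q / (8 * p) + 1 with hj
  have hp0 : 0 < 8 * p := by have := hp.pos; omega
  have hj0 : 1 ≤ j := Nat.le_add_left 1 _
  have hj1 : q + 1 ≤ 8 * p * j := by
    have := Nat.lt_mul_div_succ q hp0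
    rw [hj]; exact this
  have hj2 : 8 * p * j ≤ q + 8 * p := by
    rw [hj, mul_add, mul_one]
    have := Nat.mul_div_le q (8 * p)
    omega
  have e8 : 8 * p * j = 8 * (p * j) := by ring
  have hpj1 : 2 * j ≤ p * j := Nat.mul_le_mul_right j hp.two_le
  have hj3 : 4 * (p * j) + 5 ≤ 16 * q := by
    have := hq.two_le
    omega
  have hj4 : q + j + 4 ≤ 16 * (p * j) := by omega
  have hcop : Nat.Coprime (p ^ j) q :=
    Nat.Coprime.pow_left j ((Nat.coprime_primes hp hq).2 (Nat.ne_of_lt hpq))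
  obtain ⟨x, hx, hx2⟩ := Nat.exists_mul_mod_eq_one_of_coprime hcop hq.one_lt
  obtain ⟨y, hy⟩ : ∃ y, p ^ j * x = 1 + y * q := by
    refine ⟨p ^ j * x / q, ?_⟩
    have := Nat.div_add_mod (p ^ j * x) q
    rw [hx2] at this
    rw [mul_comm _ q]
    omega
  have hpj : 0 < p ^ j := Nat.pow_pos hp.pos
  have hyl : y < p ^ j := by
    by_contra hcon
    push Not at hcon
    have h3 : p ^ j * x < p ^ j * q := Nat.mul_lt_mul_of_pos_left hx hpj
    have h4 : p ^ j * q ≤ y * q := Nat.mul_le_mul_right q hcon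
    omega
  have hyl2 : y < 2 ^ (p * j) := by
    refine hyl.trans_le ?_
    rw [pow_mul]
    exact Nat.pow_le_pow_left (Nat.lt_two_pow_self).le j
  have hD : ((p : D) ^ j * (x : D)) + (-((y : D) * (q : D))) = 1 := by
    have h3 : ((p ^ j * x : ℕ) : D) = ((1 + y * q : ℕ) : D) := by rw [hy]
    push_cast at h3
    rw [h3]; abel
  have c1 : (((16 * (p * j) : ℕ) : k)) * K ≥ ((q + j + 4 : ℕ) : k) * K :=
    mul_le_mul_of_nonneg_right (Nat.cast_le.2 hj4) hK
  have c2 : (((16 * q : ℕ) : k)) * K ≥ ((4 * (p * j) + 5 : ℕ) : k) * K :=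
    mul_le_mul_of_nonneg_right (Nat.cast_le.2 hj3) hK
  push_cast at c1 c2
  have hjk : (1 : k) ≤ j := by exact_mod_cast hj0
  rcases h.sum_one (mul_mem (pow_mem (natCast_mem _ p) j) (natCast_mem _ x))
    (neg_mem (mul_mem (natCast_mem _ y) (natCast_mem _ q))) hD with ⟨h3, h4⟩ | ⟨h3, h4⟩
  · have hpD : (p : D) ≠ 0 := by
      intro h0
      rw [h0, zero_pow (by omega), zero_mul] at h3
      exact h3 rfl
    have hxD : (x : D) ≠ 0 := right_ne_zero_of_mul h3
    have h5 := h1.resolve_left hpD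
    have h6 := h.mul_le (pow_ne_zero j hpD) hxD
    have h7 := h.pow_le hpD j
    have h8 := (h.nat_le x).of hxD
    have h9 : ((x : k) + 1) * K ≤ q * K :=
      mul_le_mul_of_nonneg_right (by exact_mod_cast hx) hK
    have h10 : (j : k) * L (p : D) < j * (-(16 * p * K)) :=
      mul_lt_mul_of_pos_left h5 (by linarith)
    nlinarith
  · have hyq : (y : D) * (q : D) ≠ 0 := neg_ne_zero.1 h3
    have hyD : (y : D) ≠ 0 := left_ne_zero_of_mul hyq
    have hqD : (q : D) ≠ 0 := right_ne_zero_of_mul hyq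
    have h5 := h2.resolve_left hqD
    have h6 := h.neg_le hyq
    have h7 := h.mul_le hyD hqD
    have h8 := (h.nat_log _ _ hyl2).of hyD
    push_cast at h8
    linarith

theorem Q.nat_ge (h : Q L K) : ∃ μ : k, K ≤ μ ∧
    (μ ≤ 16 * K ∨ ∃ l : D, l ≠ 0 ∧ μ ≤ 16 * K - L l) ∧
    ∀ n : ℕ, (n : D) ≠ 0 → -(2 * n * μ) ≤ L (n : D) := by
  have hK := h.K0
  obtain ⟨μ, h16, hv, hμ⟩ : ∃ μ : k, 16 * K ≤ μ ∧
      (μ ≤ 16 * K ∨ ∃ l : D, l ≠ 0 ∧ μ ≤ 16 * K - L l) ∧
      ∀ p : ℕ, p.Prime → (p : D) ≠ 0 → -(p * μ) ≤ L (p : D) := by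
    by_cases hex : ∃ l : ℕ, l.Prime ∧ (l : D) ≠ 0 ∧ Ty L K l
    · obtain ⟨l, hl, hl0, hlt⟩ := hex
      have hlt' := hlt.resolve_left hl0
      have hlK : (0 : k) ≤ 16 * l * K := by positivity
      refine ⟨16 * K - L (l : D), by linarith, Or.inr ⟨l, hl0, le_rfl⟩, ?_⟩
      intro p hp hp0
      have hp1 : (1 : k) ≤ p := by exact_mod_cast hp.one_lt.le
      by_cases ht : Ty L K p
      · have hpl : p = l := by
          rcases lt_trichotomy p l with h1 | h1 | h1
          · exact (h.tiny hp hl h1 ht hlt).elim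
          · exact h1
          · exact (h.tiny hl hp h1 hlt ht).elim
        subst hpl
        nlinarith
      · have h1 : -(16 * p * K) ≤ L (p : D) := not_lt.1 fun h2 => ht (Or.inr h2)
        nlinarith
    · refine ⟨16 * K, le_rfl, Or.inl le_rfl, ?_⟩
      intro p hp hp0
      have h1 : -(16 * p * K) ≤ L (p : D) := not_lt.1 fun h2 => hex ⟨p, hp, hp0, Or.inr h2⟩
      linarith
  have hμ0 : K ≤ μ := by linarith
  refine ⟨μ, hμ0, hv, ?_⟩
  have key : ∀ n : ℕ, (n : D) ≠ 0 → -((2 * n - 1) * μ) ≤ L (n : D) := by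
    intro n
    induction n using Nat.strong_induction_on with
    | _ n ih =>
      intro hn
      by_cases hn0 : n = 0
      · rw [hn0, Nat.cast_zero] at hn
        exact absurd rfl hn
      by_cases hn1 : n = 1
      · rw [hn1, Nat.cast_one, Nat.cast_one]
        have := (abs_le.1 h.one).1
        linarith
      obtain ⟨p, hp, m, rfl⟩ := Nat.exists_prime_and_dvd hn1
      rw [Nat.cast_mul] at hn
      have hp0 : (p : D) ≠ 0 := left_ne_zero_of_mul hn
      have hm0 : (m : D) ≠ 0 := right_ne_zero_of_mul hn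
      have hpμ := hμ p hp hp0
      have hp2 : (2 : k) ≤ p := by exact_mod_cast hp.two_le
      by_cases hm1 : m = 1
      · rw [hm1, mul_one]
        nlinarith
      have hm2 : 2 ≤ m := by
        rcases Nat.eq_zero_or_pos m with h1 | h1
        · rw [h1, mul_zero] at hn0; exact absurd rfl hn0
        · omega
      have hmlt : m < p * m := by
        have := hp.two_le
        nlinarith
      have hm2' : (2 : k) ≤ m := by exact_mod_cast hm2
      have h1 := h.mul_ge hp0 hm0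
      have h2 := ih m hmlt hm0
      rw [Nat.cast_mul, Nat.cast_mul]
      have h3 : ((p : k) - 1) * (m - 1) ≥ 1 := by nlinarith
      nlinarith
  intro n hn
  have := key n hn
  nlinarith

/-! ### Elements of `N` close to the centre -/

theorem Q.newton (h : Q L K) (s : Subring.center D) (hs1 : Le L (s : D) 0) (n : ℕ) :
    ∃ t : Subring.center D, (1 + s) ^ n = 1 + n * s + s ^ 2 * t ∧
      Le L (t : D) (4 * n * K) := by
  have hK := h.K0
  have hs2 : Le L (1 + (s : D)) (2 * K) :=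
    (Le.add h (one_mem _) s.2 (Le.one h) (hs1.mono hK)).mono (by linarith)
  induction n with
  | zero => exact ⟨0, by simp, Or.inl (by simp)⟩
  | succ n ih =>
    obtain ⟨t, h1, h2⟩ := ih
    have hn : (0 : k) ≤ n * K := mul_nonneg (Nat.cast_nonneg n) hK
    refine ⟨n + (1 + s) * t, ?_, ?_⟩
    · rw [pow_succ, h1]
      push_cast
      ring
    · push_cast
      have h3 := Le.mul h hs2 h2
      refine (Le.add h (natCast_mem _ n) (mul_mem (add_mem (one_mem _) s.2) t.2)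
        ((h.nat_le n).mono (s := 4 * (n * K) + 3 * K) ?_) (h3.mono ?_)).mono ?_ <;> linarith

theorem Q.close (h : Q L K) (hN : Rad N) {μ : k}
    (hm : ∀ n : ℕ, (n : D) ≠ 0 → -(2 * n * μ) ≤ L (n : D)) {W : D} (hW : W ∈ N)
    (hWc : W ∉ Subring.center D) (hWm : L (1 - W) ≤ -(8 * K + 2 * μ)) :
    ∃ c ∈ Subring.center D, L (c - W) ≤ 2 * L (1 - W) + 27 * K + 4 * μ := by
  have hK := h.K0
  obtain ⟨n, hn, hn0, hnc, hne⟩ := h.norm hN hW hWc
  set b : Subring.center D := ⟨W ^ n, hnc⟩ with hb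
  have hn0' : (n : Subring.center D) ≠ 0 := by
    intro h
    apply hn0
    have := congrArg (Subring.subtype (Subring.center D)) h
    simpa using this
  set s : Subring.center D := (b - 1) * (n : Subring.center D)⁻¹ with hs
  have hns : (n : Subring.center D) * s = b - 1 := by
    rw [hs, mul_comm, mul_assoc, inv_mul_cancel₀ hn0', mul_one]
  obtain ⟨h1, h2⟩ := hne 1 (one_mem _)
  rw [one_pow] at h1 h2
  have hnsD : (n : D) * (s : D) = W ^ n - 1 := by
    have := congrArg (Subring.subtype (Subring.center D)) hns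
    simpa using this
  have h1' : (n : D) * (s : D) ≠ 0 := by
    rw [hnsD, ← neg_sub]; exact neg_ne_zero.2 h1
  have hs0 : (s : D) ≠ 0 := right_ne_zero_of_mul h1'
  have h3 := h.mul_ge hn0 hs0
  have h4 := h.sub_le h1
  rw [hnsD] at h3
  have hn2 : (2 : k) ≤ n := by exact_mod_cast hn
  have hnK : 2 * K ≤ n * K := mul_le_mul_of_nonneg_right hn2 hK
  have h5 := hm n hn0
  have h6 := (abs_le.1 h2).2
  have h7 : L (s : D) ≤ n * (L (1 - W) + 8 * K + 2 * μ) := by
    linarith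
  have h8 : L (s : D) ≤ 0 := by
    refine h7.trans ?_
    have : L (1 - W) + 8 * K + 2 * μ ≤ 0 := by linarith
    nlinarith
  obtain ⟨t, ht1, ht2⟩ := h.newton s (Or.inr h8) n
  refine ⟨((1 + s : Subring.center D) : D), (1 + s).2, ?_⟩
  obtain ⟨h9, h10⟩ := hne _ (1 + s).2
  have h11 : ((1 + s : Subring.center D) : D) ^ n - W ^ n = (s : D) * (s : D) * t := by
    have h12 : (1 + s) ^ n - b = s * s * t := by
      rw [ht1, hns]; ring
    have := congrArg (Subring.subtype (Subring.center D)) h12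
    simpa using this
  have hss : Le L (s : D) (L (s : D)) := Or.inr le_rfl
  have h13 := Le.mul h (Le.mul h hss hss) ht2
  rw [← h11] at h13
  have h14 := h13.of h9
  have h15 := (abs_le.1 h10).1
  have h16 : (n : k) * L (((1 + s : Subring.center D) : D) - W) ≤
      n * (2 * L (1 - W) + 27 * K + 4 * μ) := by
    linarith
  exact le_of_mul_le_mul_left h16 (by linarith)

/-! ### Large central elements -/

/-- bounds which are exceeded by central elements -/
def Bd (L : D → k) (R : k) : Prop := ∃ c ∈ Subring.center D, c ≠ 0 ∧ R < L c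

theorem Bd.mono {R S : k} (h : Bd L S) (hRS : R ≤ S) : Bd L R := by
  obtain ⟨c, hc, hc0, h1⟩ := h
  exact ⟨c, hc, hc0, hRS.trans_lt h1⟩

theorem Bd.add (h : Q L K) (hF : ∀ j : ℕ, Bd L (j * K)) {R S : k} (hR : Bd L R)
    (hS : Bd L S) : Bd L (R + S) := by
  obtain ⟨c, hc, hc0, h1⟩ := hR
  obtain ⟨e, he, he0, h2⟩ := hS
  obtain ⟨f, hf, hf0, h3⟩ := hF 2
  refine ⟨c * e * f, mul_mem (mul_mem hc he) hf, mul_ne_zero (mul_ne_zero hc0 he0) hf0, ?_⟩
  have h4 := h.mul_ge (mul_ne_zero hc0 he0) hf0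
  have h5 := h.mul_ge hc0 he0
  push_cast at h3
  linarith

theorem exists_nc (hN : Rad N) (hne : ∃ z ∈ N, z ∉ Subring.center D) {a : D}
    (ha : a ∉ Subring.center D) : ∃ b ∈ N, a * b ≠ b * a := by
  by_contra hcon
  push Not at hcon
  exact ha (pCBH D N hN.conj hne a hcon)

theorem add_ne {g c : D} (hg : g ∉ Subring.center D) (hc : c ∈ Subring.center D) : g + c ≠ 0 := by
  intro h
  apply hg
  rw [eq_neg_of_add_eq_zero_left h]
  exact neg_mem hc

/-- the values are controlled by the values on the centre -/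
theorem Q.control (h : Q L K) (hN : Rad N) (hne : ∃ z ∈ N, z ∉ Subring.center D) {y : D}
    (hy : y ∉ Subring.center D) :
    ∃ a ∈ Subring.center D, a ≠ 0 ∧ L y ≤ 39 * K + max 0 (-L a) := by
  have hK := h.K0
  obtain ⟨b, hb, hyb⟩ := exists_nc hN hne hy
  have hb0 := hN.ne b hb
  obtain ⟨hy0, hy1, hu, hu', hE⟩ := pT4 D y b hb0 hyb
  have hs1 : (1 - y⁻¹) ≠ 0 := by
    intro h
    apply hy1
    have := sub_eq_zero.1 h
    rw [← inv_inv y, ← this, inv_one]
  have hs2 : (y - 1) ≠ 0 := sub_ne_zero.2 hy1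
  have hw : ∀ p : D, p ≠ 0 → p⁻¹ * b * p * b⁻¹ ∈ N ∧ |L (p⁻¹ * b * p * b⁻¹)| ≤ 7 * K := by
    intro p hp
    have h1 := w_mem hN hb (inv_ne_zero hp)
    have h2 := h.w_le hb0 (inv_ne_zero hp)
    rw [inv_inv] at h1 h2
    exact ⟨h1, h2⟩
  obtain ⟨hm1, hm1'⟩ := hw _ hs1
  obtain ⟨hm2, hm2'⟩ := hw _ hs2
  set w1 := (1 - y⁻¹)⁻¹ * b * (1 - y⁻¹) * b⁻¹ with hw1
  set w2 := (y - 1)⁻¹ * b * (y - 1) * b⁻¹ with hw2
  have hn1 : 1 - w1 ≠ 0 := sub_ne_zero.2 (Ne.symm hu)
  have hn2 : 1 - w2 ≠ 0 := sub_ne_zero.2 (Ne.symm hu')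
  have hlow : ∃ a ∈ Subring.center D, a ≠ 0 ∧ -L (1 - w1) ≤ 6 * K + max 0 (-L a) := by
    by_cases hwc : w1 ∈ Subring.center D
    · refine ⟨1 - w1, sub_mem (one_mem _) hwc, hn1, ?_⟩
      linarith [le_max_right 0 (-L (1 - w1))]
    · obtain ⟨M, hM, hM0, hf, hn⟩ := h.norm hN hm1 hwc
      obtain ⟨h2, h3⟩ := hn 1 (one_mem _)
      rw [one_pow] at h2 h3
      refine ⟨1 - w1 ^ M, sub_mem (one_mem _) hf, h2, ?_⟩
      have h4 := (abs_le.1 h3).2
      have hM1 : (1 : k) ≤ M := by exact_mod_cast (by omega : 1 ≤ M)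
      have h5 : (M : k) * (-L (1 - w1)) ≤ M * (6 * K + max 0 (-L (1 - w1 ^ M))) := by
        have h6 : max 0 (-L (1 - w1 ^ M)) ≤ M * max 0 (-L (1 - w1 ^ M)) :=
          le_mul_of_one_le_left (le_max_left _ _) hM1
        have h7 := le_max_right 0 (-L (1 - w1 ^ M))
        linarith
      exact le_of_mul_le_mul_left h5 (by linarith)
  obtain ⟨a, ha, ha0, h1⟩ := hlow
  refine ⟨a, ha, ha0, ?_⟩
  have h2 := (h.le_N hN hm2 (by linarith [(abs_le.1 hm2').2])).of hn2
  have h3 := h.conj_ge hb0 hy0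
  have h4 := h.mul_le (inv_ne_zero hn1) hn2
  have h5 := h.inv_le hn1
  rw [hE] at h3
  linarith

theorem Q.unbounded (h : Q L K) (hN : Rad N) (hne : ∃ z ∈ N, z ∉ Subring.center D)
    (hunb : ∀ j : ℕ, ∃ x : D, x ≠ 0 ∧ j * K < L x) (j : ℕ) : Bd L (j * K) := by
  have hK := h.K0
  by_contra hcon
  have hc : ∀ c ∈ Subring.center D, c ≠ 0 → L c ≤ j * K := fun c hc hc0 =>
    not_lt.1 fun h1 => hcon ⟨c, hc, hc0, h1⟩
  obtain ⟨x, hx0, hx⟩ := hunb (j + 41)
  push_cast at hx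
  have hjK : (0 : k) ≤ j * K := mul_nonneg (Nat.cast_nonneg j) hK
  by_cases hxc : x ∈ Subring.center D
  · have := hc x hxc hx0
    linarith
  · obtain ⟨a, ha, ha0, h1⟩ := h.control hN hne hxc
    have h2 := hc a⁻¹ (Set.inv_mem_center ha) (inv_ne_zero ha0)
    have h3 := h.inv_ge ha0
    have h4 : max 0 (-L a) ≤ j * K + 2 * K := max_le (by linarith) (by linarith)
    linarith

theorem Q.bd (h : Q L K) (hN : Rad N) (hne : ∃ z ∈ N, z ∉ Subring.center D)
    (hF : ∀ j : ℕ, Bd L (j * K)) {y : D} (hy : y ≠ 0) : Bd L (L y) := by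
  have hK := h.K0
  have hself : ∀ a ∈ Subring.center D, a ≠ 0 → Bd L (L a) := by
    intro a ha ha0
    obtain ⟨f, hf, hf0, h3⟩ := hF 1
    refine ⟨a * f, mul_mem ha hf, mul_ne_zero ha0 hf0, ?_⟩
    have := h.mul_ge ha0 hf0
    push_cast at h3
    linarith
  by_cases hyc : y ∈ Subring.center D
  · exact hself y hyc hy
  · obtain ⟨a, ha, ha0, h1⟩ := h.control hN hne hyc
    have h2 := Bd.add h hF (hF 41) (hself a⁻¹ (Set.inv_mem_center ha) (inv_ne_zero ha0))
    have h3 := h.inv_ge ha0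
    rcases max_choice 0 (-L a) with h4 | h4 <;> rw [h4] at h1
    · refine (hF 39).mono ?_
      push_cast
      linarith
    · refine h2.mono ?_
      push_cast
      linarith

theorem Q.bd_neg (h : Q L K) (hN : Rad N) (hne : ∃ z ∈ N, z ∉ Subring.center D)
    (hF : ∀ j : ℕ, Bd L (j * K)) {y : D} (hy : y ≠ 0) : Bd L (-L y) := by
  refine (Bd.add h hF (hF 2) (h.bd hN hne hF (inv_ne_zero hy))).mono ?_
  have := h.inv_ge hy
  push_cast
  linarith

/-- properties of all central elements of large value -/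
def Ev (L : D → k) (P : D → Prop) : Prop :=
  ∃ R : k, Bd L R ∧ ∀ c ∈ Subring.center D, c ≠ 0 → R < L c → P c

theorem Ev.and {P S : D → Prop} (hP : Ev L P) (hS : Ev L S) : Ev L fun c => P c ∧ S c := by
  obtain ⟨R, hR, h1⟩ := hP
  obtain ⟨T, hT, h2⟩ := hS
  rcases le_total R T with h | h
  · exact ⟨T, hT, fun c hc hc0 h3 => ⟨h1 c hc hc0 (h.trans_lt h3), h2 c hc hc0 h3⟩⟩
  · exact ⟨R, hR, fun c hc hc0 h3 => ⟨h1 c hc hc0 h3, h2 c hc hc0 (h.trans_lt h3)⟩⟩

theorem Ev.mono {P S : D → Prop} (hP : Ev L P)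
    (h : ∀ c ∈ Subring.center D, c ≠ 0 → P c → S c) : Ev L S := by
  obtain ⟨R, hR, h1⟩ := hP
  exact ⟨R, hR, fun c hc hc0 h3 => h c hc hc0 (h1 c hc hc0 h3)⟩

theorem Ev.gt {R : k} (hR : Bd L R) : Ev L fun c => R < L c := ⟨R, hR, fun _ _ _ h => h⟩

theorem Ev.ex {P : D → Prop} (hP : Ev L P) : ∃ c ∈ Subring.center D, c ≠ 0 ∧ P c := by
  obtain ⟨R, ⟨c, hc, hc0, h1⟩, h2⟩ := hP
  exact ⟨c, hc, hc0, h2 c hc hc0 h1⟩

/-- the value of `g + c` for large central `c` -/
theorem Q.ev_add (h : Q L K) (hN : Rad N) {g : D} (hg : g ∈ N) (hgc : g ∉ Subring.center D)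
    (hbd : Bd L (L g + 7 * K)) : Ev L fun c => L c ≤ L (g + c) + 12 * K := by
  have hK := h.K0
  obtain ⟨m, hm, hm0, hmc, hne⟩ := h.norm hN hg hgc
  refine ⟨L g + 7 * K, hbd, fun c hc hc0 h1 => ?_⟩
  have hg0 := hN.ne g hg
  obtain ⟨h2, h3⟩ := hne (-c) (neg_mem hc)
  have h3' := abs_le.1 h3
  have hgc0 : g + c ≠ 0 := add_ne hgc hc
  have e1 : -c - g = -(g + c) := by abel
  rw [e1] at h3'
  have h4 := h.neg_le hgc0
  have hnc : -c ≠ 0 := neg_ne_zero.2 hc0
  have h5 := h.pow_ge hnc m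
  have h6 := h.neg_le hnc
  rw [neg_neg] at h6
  have h7 := h.pow_le hg0 m
  have h8 := h.add ((-c) ^ m - g ^ m) (sub_mem (pow_mem (neg_mem hc) m) hmc) (g ^ m) hmc h2
    (pow_ne_zero m hg0) (by rw [sub_add_cancel]; exact pow_ne_zero m hnc)
  rw [sub_add_cancel] at h8
  have hm2 : (2 : k) ≤ m := by exact_mod_cast hm
  have hmK : 2 * K ≤ m * K := mul_le_mul_of_nonneg_right hm2 hK
  have h9 : (m : k) * L c ≤ m * (L (-c) + 2 * K) :=
    mul_le_mul_of_nonneg_left h6 (by linarith)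
  rcases max_choice (L ((-c) ^ m - g ^ m)) (L (g ^ m)) with h10 | h10 <;> rw [h10] at h8
  · have h11 : (m : k) * L (-(g + c)) ≤ m * (L (g + c) + 2 * K) :=
      mul_le_mul_of_nonneg_left h4 (by linarith)
    have h12 : (m : k) * L c ≤ m * (L (g + c) + 12 * K) := by linarith
    exact le_of_mul_le_mul_left h12 (by linarith)
  · have h12 : (m : k) * L c ≤ m * (L g + 6 * K) := by linarith
    have h13 := le_of_mul_le_mul_left h12 (by linarith)
    exact absurd h1 (not_lt.2 (by linarith))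

theorem Q.core (h : Q L K) (hN : Rad N) (hne : ∃ z ∈ N, z ∉ Subring.center D)
    (hunb : ∀ j : ℕ, ∃ x : D, x ≠ 0 ∧ j * K < L x) : False := by
  have hK := h.K0
  have hF := h.unbounded hN hne hunb
  have hbdK : ∀ j : ℕ, Bd L (j * K) := hF
  have hadd : ∀ {R S : k}, Bd L R → Bd L S → Bd L (R + S) := fun hR hS => Bd.add h hF hR hS
  obtain ⟨μ, hKμ, hμv, hm⟩ := h.nat_ge
  have hbμ : Bd L μ := by
    rcases hμv with h1 | ⟨l, hl, h1⟩
    · exact (hbdK 16).mono (by push_cast; linarith)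
    · exact (hadd (hbdK 16) (h.bd_neg hN hne hF hl)).mono (by push_cast; linarith)
  obtain ⟨x, hx, hxc⟩ := hne
  have hne : ∃ z ∈ N, z ∉ Subring.center D := ⟨x, hx, hxc⟩
  have hx0 := hN.ne x hx
  obtain ⟨g, hg, hxg⟩ := exists_nc hN hne hxc
  have hg0 := hN.ne g hg
  have hgc : g ∉ Subring.center D := fun h => hxg (Main_.center_comm h x).symm
  set E := g * x - x * g with hE
  have hE0 : E ≠ 0 := sub_ne_zero.2 (Ne.symm hxg)
  set W : D → D := fun c => (g + c) * x * (g + c)⁻¹ * x⁻¹ with hW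
  have hgc0 : ∀ c ∈ Subring.center D, g + c ≠ 0 := fun c hc => add_ne hgc hc
  have hWN : ∀ c ∈ Subring.center D, W c ∈ N := fun c hc => w_mem hN hx (hgc0 c hc)
  have hWs : ∀ c ∈ Subring.center D, W c - 1 = E * ((g + c)⁻¹ * x⁻¹) :=
    fun c hc => w_sub hx0 (hgc0 c hc) hc
  have hW0 : ∀ c ∈ Subring.center D, W c - 1 ≠ 0 := by
    intro c hc
    rw [hWs c hc]
    exact mul_ne_zero hE0 (mul_ne_zero (inv_ne_zero (hgc0 c hc)) (inv_ne_zero hx0))
  have hWc : ∀ c ∈ Subring.center D, W c ∉ Subring.center D := by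
    intro c hc h
    have h1 : (g + c) * x * (g + c)⁻¹ = W c * x := by
      simp only [hW]
      rw [mul_assoc _ x⁻¹, inv_mul_cancel₀ hx0, mul_one]
    have h2 : (g + c) * x * (g + c)⁻¹ ∈ Algebra.adjoin (Subring.center D) {x} := by
      rw [h1]
      have := Subalgebra.smul_mem (Algebra.adjoin (Subring.center D) {x})
        (Algebra.subset_adjoin (Set.mem_singleton x)) (⟨W c, h⟩ : Subring.center D)
      exact this
    have h3 := qN D N hN x hx (g + c) (hgc0 c hc) h2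
    apply hxg
    rw [add_mul, mul_add, Main_.center_comm hc x] at h3
    exact (add_right_cancel h3).symm
  -- `W c` tends to `1`
  have hE1 : Ev L fun c => L c ≤ L (g + c) + 12 * K :=
    h.ev_add hN hg hgc ((hadd (h.bd hN hne hF hg0) (hbdK 7)).mono (by push_cast; linarith))
  have hE2 : Ev L fun c => L (1 - W c) ≤ -(8 * K + 2 * μ) := by
    have hb : Bd L (L E + L x⁻¹ + (26 : ℕ) * K + (μ + μ)) :=
      hadd (hadd (hadd (h.bd hN hne hF hE0) (h.bd hN hne hF (inv_ne_zero hx0))) (hbdK 26))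
        (hadd hbμ hbμ)
    refine (hE1.and (Ev.gt hb)).mono ?_
    rintro c hc hc0 ⟨h1, h2⟩
    have h3 := h.sub_le (hW0 c hc)
    have h4 := h.mul_le hE0 (mul_ne_zero (inv_ne_zero (hgc0 c hc)) (inv_ne_zero hx0))
    have h5 := h.mul_le (inv_ne_zero (hgc0 c hc)) (inv_ne_zero hx0)
    have h6 := h.inv_le (hgc0 c hc)
    rw [← hWs c hc] at h4
    push_cast at h2
    linarith
  set A := x * E⁻¹ with hA
  set B := x * g * E⁻¹ with hB
  have hinv : ∀ c ∈ Subring.center D, (W c - 1)⁻¹ = c * A + B := by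
    intro c hc
    rw [hWs c hc, mul_inv_rev, mul_inv_rev, inv_inv, inv_inv, mul_add, add_mul, hA, hB,
      ← Main_.center_comm hc x, mul_assoc c, add_comm]
  have hAc : A ∉ Subring.center D := by
    intro h
    have hA0 : A ≠ 0 := mul_ne_zero hx0 (inv_ne_zero hE0)
    have h1 : x = A * E := by rw [hA, mul_assoc, inv_mul_cancel₀ hE0, mul_one]
    have h2 : x * g * x⁻¹ = g - A⁻¹ := by
      have h3 : A⁻¹ * x = g * x - x * g := by
        rw [← hE]
        nth_rewrite 1 [h1]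
        rw [← mul_assoc, inv_mul_cancel₀ hA0, one_mul]
      have h4 : x * g = (g - A⁻¹) * x := by rw [sub_mul, h3]; abel
      rw [h4, mul_assoc, mul_inv_cancel₀ hx0, mul_one]
    have h5 : x * g * x⁻¹ ∈ Algebra.adjoin (Subring.center D) {g} := by
      rw [h2]
      refine sub_mem (Algebra.subset_adjoin (Set.mem_singleton g)) ?_
      exact Subalgebra.algebraMap_mem _ (⟨A⁻¹, Set.inv_mem_center h⟩ : Subring.center D)
    exact hxg (qN D N hN g hg x hx0 h5)
  obtain ⟨y, hy, hAy⟩ := exists_nc hN hne hAc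
  have hy0 := hN.ne y hy
  set A1 := y * A - A * y with hA1
  set B1 := y * B - B * y with hB1
  have hA10 : A1 ≠ 0 := sub_ne_zero.2 (Ne.symm hAy)
  have hlin : ∀ c ∈ Subring.center D,
      c * A1 + B1 = (W c - 1)⁻¹ * (W c * y - y * W c) * (W c - 1)⁻¹ := by
    intro c hc
    have h0 := hW0 c hc
    have e1 : W c * y - y * W c = (W c - 1) * y - y * (W c - 1) := by
      rw [sub_mul, mul_sub, one_mul, mul_one]; abel
    have e2 : (W c - 1)⁻¹ * (W c * y - y * W c) * (W c - 1)⁻¹ =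
        y * (W c - 1)⁻¹ - (W c - 1)⁻¹ * y := by
      rw [e1, mul_sub, sub_mul, ← mul_assoc, inv_mul_cancel₀ h0, one_mul, mul_assoc _ _ (W c - 1)⁻¹,
        mul_assoc y, mul_inv_cancel₀ h0, mul_one]
    have e3 : y * (c * A) = c * (y * A) := by
      rw [← mul_assoc, ← Main_.center_comm hc y, mul_assoc]
    rw [e2, hinv c hc, hA1, hB1, mul_add, add_mul, e3, mul_assoc c A y, mul_sub]
    abel
  have hE3 : Ev L fun c => Le L (c * A1 + B1) (4 * μ + L y + 69 * K) := by
    refine hE2.mono ?_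
    intro c hc hc0 h1
    rw [hlin c hc]
    by_cases hWy : W c * y - y * W c = 0
    · left; rw [hWy, mul_zero, zero_mul]
    right
    have hW0' := hW0 c hc
    obtain ⟨c', hc', h2⟩ := h.close hN hm (hWN c hc) (hWc c hc) h1
    have hcW : W c + -c' ≠ 0 := add_ne (hWc c hc) (neg_mem hc')
    have h3 := h.star1 hN hy (neg_mem hc') hcW hWy
    have e1 : W c + -c' = W c - c' := (sub_eq_add_neg _ _).symm
    rw [e1] at h3 hcW
    have hcW' : c' - W c ≠ 0 := by rw [← neg_sub]; exact neg_ne_zero.2 hcW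
    have h4 := h.sub_le hcW'
    have h5 := h.sub_le hW0'
    have hW1 : (1 : D) - W c ≠ 0 := by rw [← neg_sub]; exact neg_ne_zero.2 hW0'
    have h5' := h.sub_le hW1
    have h6 := h.inv_le hW0'
    have h7 := h.mul_le (mul_ne_zero (inv_ne_zero hW0') hWy) (inv_ne_zero hW0')
    have h8 := h.mul_le (inv_ne_zero hW0') hWy
    linarith
  -- the contradiction
  set G := A1⁻¹ * B1 with hG
  set τ := L A1⁻¹ + (4 * μ + L y + 69 * K) + K with hτ
  have hE4 : Ev L fun c => Le L (G + c) τ := by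
    refine hE3.mono ?_
    intro c hc hc0 h1
    have e1 : G + c = A1⁻¹ * (c * A1 + B1) := by
      rw [mul_add, Main_.center_comm hc A1, inv_mul_cancel_left₀ hA10, hG, add_comm]
    rw [e1]
    exact Le.mul h (Or.inr le_rfl) h1
  have hbτ : Bd L τ := by
    have h1 := hadd (hadd (hadd (h.bd hN hne hF (inv_ne_zero hA10)) (h.bd hN hne hF hy0))
      (hadd (hadd hbμ hbμ) (hadd hbμ hbμ))) (hbdK 70)
    refine h1.mono ?_
    push_cast
    linarith
  have hbτ2 : ∀ j : ℕ, Bd L (τ + j * K) := fun j => hadd hbτ (hbdK j)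
  by_cases hGc : G ∈ Subring.center D
  · have hneg : ∃ r : k, Bd L (r + K) ∧ Le L (-G) r := by
      by_cases hG0 : G = 0
      · exact ⟨K, (hbdK 2).mono (by push_cast; linarith), Or.inl (by rw [hG0, neg_zero])⟩
      · exact ⟨L G + 2 * K, (hadd (h.bd hN hne hF hG0) (hbdK 3)).mono (by push_cast; linarith),
          Or.inr (h.neg_le hG0)⟩
    obtain ⟨r, hr, hGr⟩ := hneg
    obtain ⟨c, hc, hc0, ⟨h1, h2⟩, h3⟩ := ((hE4.and (Ev.gt (hbτ2 1))).and (Ev.gt hr)).ex
    have h4 := Le.add h (add_mem hGc hc) (neg_mem hGc) (h1.mono (le_max_left τ r))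
      (hGr.mono (le_max_right τ r))
    have e1 : G + c + -G = c := by abel
    rw [e1] at h4
    have h5 := h4.of hc0
    push_cast at h2
    rcases max_choice τ r with h6 | h6 <;> rw [h6] at h5 <;> linarith
  · obtain ⟨x', hx', hGx⟩ := exists_nc hN hne hGc
    have hE0' : G * x' - x' * G ≠ 0 := sub_ne_zero.2 hGx
    have hx0' := hN.ne x' hx'
    obtain ⟨c', hc', hc0', h0⟩ := hE4.ex
    have hb1 : Bd L (L c' + K) :=
      (hadd (h.bd hN hne hF hc0') (hbdK 1)).mono (by push_cast; linarith)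
    have hb2 : Bd L (τ + τ + L x' + (39 : ℕ) * K + -L (G * x' - x' * G)) :=
      hadd (hadd (hadd (hadd hbτ hbτ) (h.bd hN hne hF hx0')) (hbdK 39)) (h.bd_neg hN hne hF hE0')
    obtain ⟨c, hc, hc0, ⟨h1, h2⟩, h3⟩ := ((hE4.and (Ev.gt hb1)).and (Ev.gt hb2)).ex
    have hcc : c - c' ≠ 0 := by
      intro h6
      rw [sub_eq_zero] at h6
      rw [h6] at h2
      linarith
    have hGc0 := add_ne hGc hc
    have hGc0' := add_ne hGc hc'
    have h4 := h.star2 hN hx' hc hc' hGc0 hGc0' hE0' hcc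
    have h5 := h.add (c - c') (sub_mem hc hc') c' hc' hcc hc0' (by rw [sub_add_cancel]; exact hc0)
    rw [sub_add_cancel] at h5
    have h6 := h1.of hGc0
    have h7 := h0.of hGc0'
    push_cast at h3
    rcases max_choice (L (c - c')) (L c') with h8 | h8 <;> rw [h8] at h5 <;> linarith

end AQ_

/-- quasi-homomorphisms of `D*` whose restriction to the centre is the logarithm of a generalised
absolute value -/
theorem qAQ (D : Type u) [DivisionRing D] {k : Type v} [Field k] [LinearOrder k]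
    [IsStrictOrderedRing k] (L : D → k) (K : k)
    (hmul : ∀ x y : D, x ≠ 0 → y ≠ 0 → |L (x * y) - L x - L y| ≤ K)
    (hadd : ∀ a ∈ Subring.center D, ∀ b ∈ Subring.center D, a ≠ 0 → b ≠ 0 → a + b ≠ 0 →
      L (a + b) ≤ K + max (L a) (L b))
    (hunb : ∀ j : ℕ, ∃ x : D, x ≠ 0 ∧ j * K < L x) (N : Subgroup Dˣ) (hN : N.Normal)
    (hr : ∀ x ∈ N, ∃ n : ℕ, 1 ≤ n ∧ ((x : D) ^ n) ∈ Subring.center D) :
    ∀ x ∈ N, (x : D) ∈ Subring.center D := by
  by_contra hcon
  push Not at hcon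
  obtain ⟨x₀, hx₀, hx₀c⟩ := hcon
  exact (AQ_.Q.mk hmul hadd).core (Main_.rad_ext N hN hr)
    ⟨x₀, ⟨x₀.ne_zero, x₀, hx₀, 1, one_mem _, by rw [mul_one]⟩, hx₀c⟩ hunb

end Pool.Agent.Herst
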