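import Mathlib

set_option autoImplicit false

/-! Lower bounds for generalised absolute values of natural numbers. -/

namespace Pool.Agent.Herst.AVNat

universe v

variable {Γ₀ : Type v} [LinearOrderedCommGroupWithZero Γ₀]

/-- the properties which are used -/
structure GAV (a : ℕ → Γ₀) (C : Γ₀) : Prop where
  zero : a 0 = 0
  one : a 1 = 1
  mul : ∀ m n, a (m * n) = a m * a n
  add : ∀ m n, a (m + n) ≤ C * max (a m) (a n)
  sub : ∀ m n, a m ≤ C * max (a (m + n)) (a n)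

variable {a : ℕ → Γ₀} {C : Γ₀}

theorem GAV.one_le (h : GAV a C) : 1 ≤ C := by
  have h1 := h.add 1 0
  rw [h.zero, add_zero, h.one, max_eq_left zero_le, mul_one] at h1
  exact h1

theorem GAV.le_pow (h : GAV a C) : ∀ n, a n ≤ C ^ n
  | 0 => by rw [h.zero]; exact zero_le
  | n + 1 => by
    refine (h.add n 1).trans ?_
    rw [h.one, pow_succ']
    exact mul_le_mul_right (max_le (h.le_pow n) (one_le_pow₀ h.one_le)) C

theorem GAV.le_pow_size (h : GAV a C) : ∀ k m, m < 2 ^ k → a m ≤ C ^ (2 * k)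
  | 0, m, hm => by
    have : m = 0 := by simpa using hm
    rw [this, h.zero]
    exact zero_le
  | k + 1, m, hm => by
    have h2 : a 2 ≤ C := by
      have := h.add 1 1
      rwa [h.one, max_self, mul_one] at this
    have h3 : m = 2 * (m / 2) + m % 2 := (Nat.div_add_mod m 2).symm
    have h4 : m / 2 < 2 ^ k := by
      rw [pow_succ] at hm; omega
    have h5 : a (m % 2) ≤ 1 := by
      rcases Nat.mod_two_eq_zero_or_one m with h6 | h6
      · rw [h6, h.zero]; exact zero_le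
      · rw [h6, h.one]
    rw [h3]
    refine (h.add _ _).trans ?_
    rw [h.mul]
    have h6 : a 2 * a (m / 2) ≤ C ^ (2 * k + 1) := by
      rw [pow_succ, mul_comm]
      exact mul_le_mul' (h.le_pow_size k _ h4) h2
    have h7 : (1 : Γ₀) ≤ C ^ (2 * k + 1) := one_le_pow₀ h.one_le
    calc C * max (a 2 * a (m / 2)) (a (m % 2)) ≤ C * C ^ (2 * k + 1) :=
          mul_le_mul' le_rfl (max_le h6 (h5.trans h7))
      _ = C ^ (2 * (k + 1)) := by rw [← pow_succ']; congr 1

/-- at most one prime is very small -/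
theorem GAV.tiny (h : GAV a C) {p q : ℕ} (hp : p.Prime) (hq : q.Prime) (hpq : p < q)
    (h1 : a p * C ^ (4 * p) < 1) (h2 : a q * C ^ (4 * q) < 1) : False := by
  set j := q / (4 * p) + 1 with hj
  have hp0 : 0 < 4 * p := by have := hp.pos; omega
  have hj1 : q + 1 ≤ 4 * p * j := by
    have := Nat.lt_mul_div_succ q hp0
    rw [hj]; exact this
  have hj2 : 4 * p * j ≤ q + 4 * p := by
    rw [hj, mul_add, mul_one]
    have := Nat.mul_div_le q (4 * p)
    omega
  have hj3 : 2 * (p * j) + 1 ≤ 4 * q := by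
    have h3 : 4 * p * j = 4 * (p * j) := by ring
    have := hq.two_le
    omega
  have hcop : Nat.Coprime (p ^ j) q :=
    Nat.Coprime.pow_left j ((Nat.coprime_primes hp hq).2 (Nat.ne_of_lt hpq))
  obtain ⟨x, hx, hx2⟩ := Nat.exists_mul_mod_eq_one_of_coprime hcop hq.one_lt
  obtain ⟨y, hy⟩ : ∃ y, p ^ j * x = 1 + y * q := by
    refine ⟨p ^ j * x / q, ?_⟩
    have := Nat.div_add_mod (p ^ j * x) q
    rw [hx2] at this
    rw [mul_comm _ q]
    omega
  have hpj : 0 < p ^ j := Nat.pow_pos hp.pos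
  have hyl : y < p ^ j := by
    by_contra hcon
    push Not at hcon
    have h3 : p ^ j * x < p ^ j * q := Nat.mul_lt_mul_of_pos_left hx hpj
    have h4 : p ^ j * q ≤ y * q := Nat.mul_le_mul_right q hcon
    omega
  have hyl2 : y < 2 ^ (p * j) := by
    refine hyl.trans_le ?_
    rw [pow_mul]
    exact Nat.pow_le_pow_left (Nat.lt_two_pow_self).le j
  have hpow : ∀ i, a (p ^ i) = a p ^ i := by
    intro i
    induction i with
    | zero => rw [pow_zero, pow_zero, h.one]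
    | succ i ih => rw [pow_succ, h.mul, ih, pow_succ]
  have hb := h.sub 1 (y * q)
  rw [← hy, h.one, h.mul, hpow, h.mul] at hb
  have hC1 := h.one_le
  have hx1 : a x ≤ C ^ q := (h.le_pow x).trans (pow_le_pow_right₀ hC1 hx.le)
  have hy1 : a y ≤ C ^ (2 * (p * j)) := h.le_pow_size _ _ hyl2
  rcases le_total (a p ^ j * a x) (a y * a q) with h3 | h3
  · rw [max_eq_right h3] at hb
    have h4 : C * (a y * a q) ≤ a q * C ^ (4 * q) := by
      calc C * (a y * a q) ≤ C * (C ^ (2 * (p * j)) * a q) :=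
            mul_le_mul' le_rfl (mul_le_mul' hy1 le_rfl)
        _ = a q * C ^ (2 * (p * j) + 1) := by rw [pow_succ C]; ac_rfl
        _ ≤ a q * C ^ (4 * q) := mul_le_mul' le_rfl (pow_le_pow_right₀ hC1 hj3)
    exact absurd (hb.trans h4) (not_le.2 h2)
  · rw [max_eq_left h3] at hb
    have h4 : C * (a p ^ j * a x) ≤ (a p * C ^ (4 * p)) ^ j := by
      calc C * (a p ^ j * a x) ≤ C * (a p ^ j * C ^ q) :=
            mul_le_mul' le_rfl (mul_le_mul' le_rfl hx1)
        _ = a p ^ j * C ^ (q + 1) := by rw [pow_succ C]; ac_rfl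
        _ ≤ a p ^ j * C ^ (4 * p * j) := mul_le_mul' le_rfl (pow_le_pow_right₀ hC1 hj1)
        _ = (a p * C ^ (4 * p)) ^ j := by rw [mul_pow, ← pow_mul]
    have h5 : (a p * C ^ (4 * p)) ^ j < 1 := pow_lt_one₀ zero_le h1 (Nat.succ_ne_zero _)
    exact absurd (hb.trans h4) (not_le.2 h5)

/-- the lower bound -/
theorem GAV.lower (h : GAV a C) : ∃ μ : Γ₀, μ ≠ 0 ∧ μ ≤ 1 ∧
    (μ = C⁻¹ ^ 4 ∨ ∃ l, μ = a l) ∧ ∀ n, a n ≠ 0 → μ ^ n ≤ a n := by
  have hC1 := h.one_le
  have hC0 : C ≠ 0 := (zero_lt_one.trans_le hC1).ne'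
  have hCi : C⁻¹ ≤ 1 := inv_le_one_of_one_le₀ hC1
  -- one bound for all primes
  obtain ⟨μ, hμ0, hμ1, hμv, hμ⟩ : ∃ μ : Γ₀, μ ≠ 0 ∧ μ ≤ 1 ∧ (μ = C⁻¹ ^ 4 ∨ ∃ l, μ = a l) ∧
      ∀ p : ℕ, p.Prime → a p ≠ 0 → μ ^ p ≤ a p := by
    have hgen : ∀ p : ℕ, ¬ a p * C ^ (4 * p) < 1 → (C⁻¹ ^ 4) ^ p ≤ a p := by
      intro p hp
      rw [not_lt] at hp
      have hX : C ^ (4 * p) ≠ 0 := pow_ne_zero _ hC0
      calc (C⁻¹ ^ 4) ^ p = 1 * (C ^ (4 * p))⁻¹ := by rw [← pow_mul, inv_pow, one_mul]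
        _ ≤ a p * C ^ (4 * p) * (C ^ (4 * p))⁻¹ := mul_le_mul' hp le_rfl
        _ = a p := by rw [mul_assoc, mul_inv_cancel₀ hX, mul_one]
    by_cases hex : ∃ l : ℕ, l.Prime ∧ a l ≠ 0 ∧ a l * C ^ (4 * l) < 1
    · obtain ⟨l, hl, hl0, hlt⟩ := hex
      have hl1 : a l ≤ 1 := by
        calc a l = a l * 1 := (mul_one _).symm
          _ ≤ a l * C ^ (4 * l) := mul_le_mul' le_rfl (one_le_pow₀ hC1)
          _ ≤ 1 := hlt.le
      refine ⟨min (C⁻¹ ^ 4) (a l), ?_, ?_, ?_, ?_⟩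
      · rcases min_choice (C⁻¹ ^ 4) (a l) with h1 | h1 <;> rw [h1]
        · exact pow_ne_zero _ (inv_ne_zero hC0)
        · exact hl0
      · exact (min_le_right _ _).trans hl1
      · rcases min_choice (C⁻¹ ^ 4) (a l) with h1 | h1 <;> rw [h1]
        · exact Or.inl rfl
        · exact Or.inr ⟨l, rfl⟩
      · intro p hp hp0
        by_cases ht : a p * C ^ (4 * p) < 1
        · have hpl : p = l := by
            rcases lt_trichotomy p l with h1 | h1 | h1
            · exact (h.tiny hp hl h1 ht hlt).elim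
            · exact h1
            · exact (h.tiny hl hp h1 hlt ht).elim
          subst hpl
          calc min (C⁻¹ ^ 4) (a p) ^ p ≤ a p ^ p :=
                pow_le_pow_left₀ zero_le (min_le_right _ _) _
            _ ≤ a p ^ 1 := pow_le_pow_of_le_one zero_le hl1 hp.one_lt.le
            _ = a p := pow_one _
        · exact (pow_le_pow_left₀ zero_le (min_le_left _ _) _).trans (hgen p ht)
    · refine ⟨C⁻¹ ^ 4, pow_ne_zero _ (inv_ne_zero hC0), pow_le_one₀ zero_le hCi, Or.inl rfl, ?_⟩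
      intro p hp hp0
      refine hgen p fun ht => hex ⟨p, hp, hp0, ht⟩
  refine ⟨μ, hμ0, hμ1, hμv, ?_⟩
  intro n
  induction n using Nat.strong_induction_on with
  | _ n ih =>
    intro hn
    by_cases hn0 : n = 0
    · rw [hn0, h.zero] at hn
      exact absurd rfl hn
    by_cases hn1 : n = 1
    · rw [hn1, pow_one, h.one]
      exact hμ1
    obtain ⟨p, hp, m, rfl⟩ := Nat.exists_prime_and_dvd hn1
    rw [h.mul] at hn ⊢
    have hp0 : a p ≠ 0 := left_ne_zero_of_mul hn
    have hm0 : a m ≠ 0 := right_ne_zero_of_mul hn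
    by_cases hm1 : m = 1
    · rw [hm1, mul_one, h.one, mul_one]
      exact hμ p hp hp0
    have hm2 : 2 ≤ m := by
      rcases Nat.eq_zero_or_pos m with h1 | h1
      · rw [h1, mul_zero] at hn0; exact absurd rfl hn0
      · omega
    have hp2 := hp.two_le
    have hmlt : m < p * m := by nlinarith
    have hle : p + m ≤ p * m := by nlinarith
    calc μ ^ (p * m) ≤ μ ^ (p + m) := pow_le_pow_of_le_one zero_le hμ1 hle
      _ = μ ^ p * μ ^ m := pow_add _ _ _
      _ ≤ a p * a m := mul_le_mul' (hμ p hp hp0) (ih m hmlt hm0)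

end Pool.Agent.Herst.AVNat
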