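import Pool.Agent.Herst.All
import Pool.Agent.Herst.AVNat

set_option autoImplicit false

/-! Multiplicative maps of `D` whose restriction to the centre is a (generalised) absolute value. -/

namespace Pool.Agent.Herst

open Polynomial

universe u v

namespace AV_

variable {D : Type u} [DivisionRing D] {Γ₀ : Type v} [LinearOrderedCommGroupWithZero Γ₀]

/-- the restriction of the multiplicative map to the centre is a generalised absolute value -/
def Cen (χ : D →*₀ Γ₀) (d : D) : Prop :=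
  ∀ a ∈ Subring.center D, ∀ b ∈ Subring.center D, χ (a + b) ≤ χ d * max (χ a) (χ b)

variable {χ : D →*₀ Γ₀} {d : D} {N : Set D}

theorem one_le (h : Cen χ d) : 1 ≤ χ d := by
  have h1 := h 1 (one_mem _) 0 (zero_mem _)
  rw [add_zero, map_one, map_zero, max_eq_left zero_le, mul_one] at h1
  exact h1

theorem d_ne (h : Cen χ d) : d ≠ 0 := by
  rintro rfl
  have := one_le h
  rw [map_zero] at this
  exact absurd this (not_le.2 zero_lt_one)

theorem chi_neg_one (χ : D →*₀ Γ₀) : χ (-1) = 1 := by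
  have h : χ (-1) ^ 2 = 1 := by rw [← map_pow]; simp
  exact (pow_eq_one_iff_of_nonneg zero_le two_ne_zero).1 h

theorem chi_neg (x : D) : χ (-x) = χ x := by
  rw [← neg_one_mul, map_mul, chi_neg_one, one_mul]

theorem chi_sub (x y : D) : χ (x - y) = χ (y - x) := by
  rw [← neg_sub, chi_neg]

theorem chi_conj {g x : D} (hg : g ≠ 0) : χ (g * x * g⁻¹) = χ x := by
  rw [map_mul, map_mul, map_inv₀, mul_comm (χ g), mul_assoc, mul_inv_cancel₀, mul_one]
  exact (map_ne_zero χ).2 hg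

theorem list_chi (c z : D) (hc : c ∈ Subring.center D) (l : List D) (hl : ∀ g ∈ l, g ≠ 0) :
    χ (l.map (fun g => c - g * z * g⁻¹)).prod = χ (c - z) ^ l.length := by
  induction l with
  | nil => simp
  | cons g l ih =>
    have hg : g ≠ 0 := hl g List.mem_cons_self
    have e : c - g * z * g⁻¹ = g * (c - z) * g⁻¹ := by
      rw [mul_sub, sub_mul, ← Main_.center_comm hc g, mul_assoc c, mul_inv_cancel₀ hg, mul_one]
    rw [List.map_cons, List.prod_cons, map_mul, ih (fun a ha => hl a (List.mem_cons_of_mem _ ha)),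
      e, chi_conj hg, List.length_cons, pow_succ']

theorem norm_eq (hN : Rad N) {z : D} (hz : z ∈ N) (hzc : z ∉ Subring.center D)
    (χ : D →*₀ Γ₀) :
    ∃ M : ℕ, 2 ≤ M ∧ (M : D) ≠ 0 ∧ z ^ M ∈ Subring.center D ∧
      ∀ c ∈ Subring.center D, χ (c - z) ^ M = χ (c ^ M - z ^ M) := by
  obtain ⟨M, f, hM, hM0, hf, hmin⟩ := qR3 D N hN z hz hzc
  have hint : IsIntegral (Subring.center D) z := by
    by_contra h
    have := minpoly.eq_zero h
    rw [hmin] at this
    exact X_pow_sub_C_ne_zero (by omega) f this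
  obtain ⟨l, hlen, hl, hprod, -⟩ := qNT D z hint
  refine ⟨M, hM, hM0, hf ▸ f.2, fun c hc => ?_⟩
  have h1 := hprod ⟨c, hc⟩
  rw [hmin] at h1 hlen
  rw [natDegree_X_pow_sub_C] at hlen
  have h2 := list_chi (χ := χ) c z hc l hl
  rw [hlen] at h2
  rw [← h2]
  simp only [eval_sub, eval_pow, eval_X, eval_C] at h1
  rw [h1, ← hf]
  push_cast
  rfl

theorem chi_le (hχ : Cen χ d) (hN : Rad N) {z : D} (hz : z ∈ N) (h1 : χ z = 1) :
    χ (1 - z) ≤ χ d := by
  have key : ∀ b ∈ Subring.center D, χ b = 1 → χ (1 - b) ≤ χ d := by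
    intro b hb hb1
    have := hχ 1 (one_mem _) (-b) (neg_mem hb)
    rwa [← sub_eq_add_neg, map_one, chi_neg, hb1, max_self, mul_one] at this
  by_cases hzc : z ∈ Subring.center D
  · exact key z hzc h1
  · obtain ⟨M, hM, hM0, hf, hn⟩ := norm_eq hN hz hzc χ
    by_contra hcon
    push Not at hcon
    have h2 := hn 1 (one_mem _)
    have h3 : χ (1 - z ^ M) ≤ χ d := key _ hf (by rw [map_pow, h1, one_pow])
    rw [one_pow] at h2
    have h4 : χ (1 - z) ≤ χ (1 - z) ^ M :=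
      le_self_pow₀ ((one_le hχ).trans hcon.le) (by omega)
    rw [h2] at h4
    exact absurd (h4.trans h3) (not_le.2 hcon)

theorem w_mem (hN : Rad N) {x g : D} (hx : x ∈ N) (hg : g ≠ 0) : g * x * g⁻¹ * x⁻¹ ∈ N :=
  hN.mul _ (hN.conj x hx g hg) _ (hN.inv x hx)

theorem w_chi {x g : D} (hx : x ≠ 0) (hg : g ≠ 0) : χ (g * x * g⁻¹ * x⁻¹) = 1 := by
  rw [map_mul, chi_conj hg, map_inv₀, mul_inv_cancel₀]
  exact (map_ne_zero χ).2 hx

theorem w_sub {x g c : D} (hx : x ≠ 0) (hgc : g + c ≠ 0) (hc : c ∈ Subring.center D) :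
    (g + c) * x * (g + c)⁻¹ * x⁻¹ - 1 = (g * x - x * g) * ((g + c)⁻¹ * x⁻¹) := by
  have e : g * x - x * g = (g + c) * x - x * (g + c) := by
    rw [add_mul, mul_add, Main_.center_comm hc x]; abel
  have e2 : x * (g + c) * ((g + c)⁻¹ * x⁻¹) = 1 := by
    rw [mul_assoc, mul_inv_cancel_left₀ hgc, mul_inv_cancel₀ hx]
  rw [e, sub_mul, e2]
  simp only [mul_assoc]

theorem star1 (hχ : Cen χ d) (hN : Rad N) {x g c : D} (hx : x ∈ N) (hc : c ∈ Subring.center D)
    (hgc : g + c ≠ 0) : χ (g * x - x * g) ≤ χ d * χ (g + c) * χ x := by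
  have hx0 := hN.ne x hx
  have h1 := chi_le hχ hN (w_mem hN hx hgc) (w_chi hx0 hgc)
  rw [chi_sub, w_sub hx0 hgc hc, map_mul, map_mul, map_inv₀, map_inv₀] at h1
  have a0 : χ (g + c) ≠ 0 := (map_ne_zero χ).2 hgc
  have b0 : χ x ≠ 0 := (map_ne_zero χ).2 hx0
  calc χ (g * x - x * g) = χ (g * x - x * g) * ((χ (g + c))⁻¹ * (χ x)⁻¹) * (χ (g + c) * χ x) := by
        rw [mul_assoc, mul_mul_mul_comm, inv_mul_cancel₀ a0, inv_mul_cancel₀ b0, mul_one, mul_one]
    _ ≤ χ d * (χ (g + c) * χ x) := mul_le_mul' h1 le_rfl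
    _ = χ d * χ (g + c) * χ x := (mul_assoc _ _ _).symm

theorem star2 (hχ : Cen χ d) (hN : Rad N) {x g c c' : D} (hx : x ∈ N)
    (hc : c ∈ Subring.center D) (hc' : c' ∈ Subring.center D)
    (hgc : g + c ≠ 0) (hgc' : g + c' ≠ 0) :
    χ (g * x - x * g) * χ (c - c') ≤ χ d * χ (g + c) * χ (g + c') * χ x := by
  have hx0 := hN.ne x hx
  set w := (g + c) * x * (g + c)⁻¹ * x⁻¹ with hw
  set w' := (g + c') * x * (g + c')⁻¹ * x⁻¹ with hw'
  have hwN : w ∈ N := w_mem hN hx hgc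
  have hwN' : w' ∈ N := w_mem hN hx hgc'
  have hw1 : χ w = 1 := w_chi hx0 hgc
  have hw1' : χ w' = 1 := w_chi hx0 hgc'
  have h1 := chi_le hχ hN (hN.mul _ hwN _ (hN.inv _ hwN'))
    (by rw [map_mul, map_inv₀, hw1, hw1', inv_one, mul_one])
  have hw0' : w' ≠ 0 := hN.ne _ hwN'
  have e1 : 1 - w * w'⁻¹ = (w' - w) * w'⁻¹ := by
    rw [sub_mul, mul_inv_cancel₀ hw0']
  rw [e1, map_mul, map_inv₀, hw1', inv_one, mul_one] at h1
  have e2 : w' - w = (g * x - x * g) * ((g + c')⁻¹ * (c - c') * (g + c)⁻¹ * x⁻¹) := by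
    have e3 : w' - w = (w' - 1) - (w - 1) := by abel
    have e4 : (g + c')⁻¹ * (c - c') * (g + c)⁻¹ = (g + c')⁻¹ - (g + c)⁻¹ := by
      have e5 : c - c' = (g + c) - (g + c') := by abel
      rw [e5, mul_sub, sub_mul, inv_mul_cancel₀ hgc', mul_assoc, mul_inv_cancel₀ hgc, mul_one,
        one_mul]
    rw [e3, w_sub hx0 hgc hc, w_sub hx0 hgc' hc', e4, sub_mul (g + c')⁻¹, mul_sub (g * x - x * g)]
  rw [e2, map_mul, map_mul, map_mul, map_mul, map_inv₀, map_inv₀, map_inv₀] at h1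
  have a0 : χ (g + c) ≠ 0 := (map_ne_zero χ).2 hgc
  have a0' : χ (g + c') ≠ 0 := (map_ne_zero χ).2 hgc'
  have b0 : χ x ≠ 0 := (map_ne_zero χ).2 hx0
  calc χ (g * x - x * g) * χ (c - c')
      = χ (g * x - x * g) * ((χ (g + c'))⁻¹ * χ (c - c') * (χ (g + c))⁻¹ * (χ x)⁻¹) *
          (χ (g + c) * χ (g + c') * χ x) := by
        field_simp
    _ ≤ χ d * (χ (g + c) * χ (g + c') * χ x) := mul_le_mul' h1 le_rfl
    _ = χ d * χ (g + c) * χ (g + c') * χ x := by simp only [mul_assoc]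

theorem chi_commutator (χ : D →*₀ Γ₀) {y : Dˣ} (hy : y ∈ commutator Dˣ) : χ (y : D) = 1 := by
  have h1 : Units.map (χ : D →* Γ₀) y = 1 :=
    MonoidHom.mem_ker.1 (Abelianization.commutator_subset_ker (Units.map (χ : D →* Γ₀)) hy)
  have h2 := congrArg Units.val h1
  simpa using h2

/-- if the map is trivial on the centre, it is trivial -/
theorem trivial_of (hN : Rad N) (hne : ∃ z ∈ N, z ∉ Subring.center D)
    (h : ∀ c ∈ Subring.center D, c ≠ 0 → χ c = 1) {x : D} (hx : x ≠ 0) : χ x = 1 := by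
  obtain ⟨k, f, hk, hf, hm⟩ := qB D N hN hne (Units.mk0 x hx)
  have h1 := chi_commutator χ hm
  rw [Units.val_mul, Units.val_pow_eq_pow_val, Units.val_mk0, map_mul, map_pow,
    h f hf f.ne_zero, mul_one] at h1
  exact (pow_eq_one_iff_of_nonneg zero_le (by omega)).1 h1

/-- the values of central elements are cofinal -/
theorem unb (hN : Rad N) (hne : ∃ z ∈ N, z ∉ Subring.center D)
    (hc : ∃ c ∈ Subring.center D, 1 < χ c) (u : D) : ∃ c ∈ Subring.center D, χ u < χ c := by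
  obtain ⟨c, hc, hc1⟩ := hc
  rcases le_or_gt (χ u) 1 with h1 | h1
  · exact ⟨c, hc, h1.trans_lt hc1⟩
  · have hu : u ≠ 0 := by
      rintro rfl
      rw [map_zero] at h1
      exact absurd h1 (not_lt.2 zero_le)
    obtain ⟨k, f, hk, hf, hm⟩ := qB D N hN hne (Units.mk0 u hu)
    have h2 := chi_commutator χ hm
    rw [Units.val_mul, Units.val_pow_eq_pow_val, Units.val_mk0, map_mul, map_pow] at h2
    have hf0 : χ (f : D) ≠ 0 := (map_ne_zero χ).2 f.ne_zero
    have h3 : χ ((f : D)⁻¹) = χ u ^ k := by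
      rw [map_inv₀]
      exact (eq_inv_of_mul_eq_one_left h2).symm
    refine ⟨(f : D)⁻¹ * c, mul_mem (Set.inv_mem_center hf) hc, ?_⟩
    rw [map_mul, h3]
    calc χ u ≤ χ u ^ k := le_self_pow₀ h1.le (by omega)
      _ = χ u ^ k * 1 := (mul_one _).symm
      _ < χ u ^ k * χ c := mul_lt_mul_of_pos_left hc1 (pow_pos (zero_lt_one.trans h1) k)

/-- properties of all central elements of large value -/
def Ev (χ : D →*₀ Γ₀) (P : D → Prop) : Prop :=
  ∃ K : D, ∀ c ∈ Subring.center D, χ K < χ c → P c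

theorem Ev.and {P Q : D → Prop} (hP : Ev χ P) (hQ : Ev χ Q) : Ev χ fun c => P c ∧ Q c := by
  obtain ⟨K, hK⟩ := hP
  obtain ⟨L, hL⟩ := hQ
  rcases le_total (χ K) (χ L) with h | h
  · exact ⟨L, fun c hc h1 => ⟨hK c hc (h.trans_lt h1), hL c hc h1⟩⟩
  · exact ⟨K, fun c hc h1 => ⟨hK c hc h1, hL c hc (h.trans_lt h1)⟩⟩

theorem Ev.mono {P Q : D → Prop} (hP : Ev χ P) (h : ∀ c ∈ Subring.center D, P c → Q c) :
    Ev χ Q := by
  obtain ⟨K, hK⟩ := hP
  exact ⟨K, fun c hc h1 => h c hc (hK c hc h1)⟩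

theorem Ev.gt (u : D) : Ev χ fun c => χ u < χ c := ⟨u, fun _ _ h => h⟩

/-- powers of `1 + s` -/
theorem newton (hχ : Cen χ d) (s : Subring.center D) (hs1 : χ (s : D) ≤ 1) (k : ℕ) :
    ∃ t : Subring.center D, (1 + s) ^ k = 1 + k * s + s ^ 2 * t ∧
      χ (t : D) ≤ χ d ^ (2 * k) := by
  have hd := one_le hχ
  have hk : ∀ k : ℕ, χ (k : D) ≤ χ d ^ k := by
    intro k
    induction k with
    | zero => rw [Nat.cast_zero, map_zero]; exact zero_le
    | succ k ih =>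
      rw [Nat.cast_succ, pow_succ']
      refine (hχ _ (natCast_mem _ k) _ (one_mem _)).trans (mul_le_mul' le_rfl (max_le ih ?_))
      rw [map_one]
      exact one_le_pow₀ hd
  have hs2 : χ (1 + (s : D)) ≤ χ d := by
    have := hχ 1 (one_mem _) s s.2
    rwa [map_one, max_eq_left hs1, mul_one] at this
  induction k with
  | zero => exact ⟨0, by simp, by simp⟩
  | succ k ih =>
    obtain ⟨t, h1, h2⟩ := ih
    refine ⟨k + (1 + s) * t, ?_, ?_⟩
    · rw [pow_succ, h1]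
      push_cast
      ring
    · push_cast
      refine (hχ _ (natCast_mem _ k) _ (mul_mem (add_mem (one_mem _) s.2) t.2)).trans ?_
      have e1 : χ ((1 + (s : D)) * t) ≤ χ d ^ (2 * k + 1) := by
        rw [map_mul, pow_succ']
        exact mul_le_mul' hs2 h2
      have e2 : χ (k : D) ≤ χ d ^ (2 * k + 1) :=
        (hk k).trans (pow_le_pow_right₀ hd (by omega))
      calc χ d * max (χ (k : D)) (χ ((1 + (s : D)) * t)) ≤ χ d * χ d ^ (2 * k + 1) :=
            mul_le_mul' le_rfl (max_le e2 e1)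
        _ = χ d ^ (2 * (k + 1)) := by rw [← pow_succ']; congr 1

/-- lower bounds for integers -/
theorem lower (hχ : Cen χ d) : ∃ m : D, χ m ≠ 0 ∧ χ m ≤ 1 ∧
    ∀ n : ℕ, (n : D) ≠ 0 → χ m ^ n ≤ χ (n : D) := by
  have h : AVNat.GAV (fun n : ℕ => χ (n : D)) (χ d) := by
    refine ⟨?_, ?_, ?_, ?_, ?_⟩
    · simp
    · simp
    · intro m n; simp
    · intro m n
      simp only [Nat.cast_add]
      exact hχ _ (natCast_mem _ m) _ (natCast_mem _ n)
    · intro m n
      have h1 := hχ ((m + n : ℕ) : D) (natCast_mem _ _) (-(n : D)) (neg_mem (natCast_mem _ n))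
      have h2 : ((m + n : ℕ) : D) + -(n : D) = m := by push_cast; abel
      rwa [h2, chi_neg] at h1
  obtain ⟨μ, h0, h1, hv, hn⟩ := h.lower
  have hm : ∃ m : D, χ m = μ := by
    rcases hv with rfl | ⟨l, rfl⟩
    · exact ⟨d⁻¹ ^ 4, by rw [map_pow, map_inv₀]⟩
    · exact ⟨(l : D), rfl⟩
  obtain ⟨m, rfl⟩ := hm
  exact ⟨m, h0, h1, fun n hn0 => hn n ((map_ne_zero χ).2 hn0)⟩

/-- an element of `N` which is close to `1` is very close to the centre -/
theorem close (hχ : Cen χ d) (hN : Rad N) {m : D} (hm0 : χ m ≠ 0)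
    (hm : ∀ n : ℕ, (n : D) ≠ 0 → χ m ^ n ≤ χ (n : D)) {W : D} (hW : W ∈ N)
    (hWc : W ∉ Subring.center D) (hWm : χ (1 - W) ≤ χ m) :
    ∃ c ∈ Subring.center D, χ (c - W) ≤ (χ (1 - W) * χ d / χ m) ^ 2 := by
  obtain ⟨n, hn, hn0, hnc, hne⟩ := norm_eq hN hW hWc χ
  set b : Subring.center D := ⟨W ^ n, hnc⟩ with hb
  have hn0' : (n : Subring.center D) ≠ 0 := by
    intro h
    apply hn0
    have := congrArg (Subring.subtype (Subring.center D)) h
    simpa using this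
  set s : Subring.center D := (b - 1) * (n : Subring.center D)⁻¹ with hs
  have hns : (n : Subring.center D) * s = b - 1 := by
    rw [hs, mul_comm, mul_assoc, inv_mul_cancel₀ hn0', mul_one]
  have hχn : χ (n : D) ≠ 0 := (map_ne_zero χ).2 hn0
  have h1 : χ (1 - W) ^ n = χ (1 - W ^ n) := by
    have := hne 1 (one_mem _)
    rwa [one_pow] at this
  have h2 : χ (n : D) * χ (s : D) = χ (1 - W) ^ n := by
    rw [h1, chi_sub, ← map_mul]
    have := congrArg (Subring.subtype (Subring.center D)) hns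
    simp only [map_mul, map_natCast, map_sub, map_one, Subring.subtype_apply] at this
    rw [this]
  have h3 : χ (s : D) = χ (1 - W) ^ n / χ (n : D) := by
    rw [← h2, mul_div_cancel_left₀ _ hχn]
  have h4 : χ (s : D) ≤ (χ (1 - W) / χ m) ^ n := by
    rw [h3, div_pow]
    exact div_le_div_of_nonneg_left zero_le (pow_pos (zero_lt_iff.2 hm0) n) (hm n hn0)
  have h5 : χ (1 - W) / χ m ≤ 1 := by
    rw [div_le_one₀ (zero_lt_iff.2 hm0)]; exact hWm
  have h6 : χ (s : D) ≤ 1 := h4.trans (pow_le_one₀ zero_le h5)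
  obtain ⟨t, ht1, ht2⟩ := newton hχ s h6 n
  refine ⟨((1 + s : Subring.center D) : D), (1 + s).2, ?_⟩
  have h7 : χ (((1 + s : Subring.center D) : D) - W) ^ n = χ (s : D) ^ 2 * χ (t : D) := by
    rw [hne _ (1 + s).2, ← map_pow, ← map_mul]
    congr 1
    have h8 : (1 + s) ^ n - b = s ^ 2 * t := by
      rw [ht1, hns]; ring
    have := congrArg (Subring.subtype (Subring.center D)) h8
    simpa using this
  have h9 : χ (((1 + s : Subring.center D) : D) - W) ^ n ≤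
      ((χ (1 - W) * χ d / χ m) ^ 2) ^ n := by
    rw [h7]
    calc χ (s : D) ^ 2 * χ (t : D) ≤ ((χ (1 - W) / χ m) ^ n) ^ 2 * χ d ^ (2 * n) :=
          mul_le_mul' (pow_le_pow_left₀ zero_le h4 2) ht2
      _ = ((χ (1 - W) * χ d / χ m) ^ 2) ^ n := by
        rw [mul_comm (χ (1 - W)), mul_div_assoc, mul_pow, mul_pow, ← pow_mul, ← pow_mul, ← pow_mul,
          mul_comm, mul_comm 2 n]
  exact le_of_pow_le_pow_left₀ (by omega) zero_le h9

theorem exists_nc (hN : Rad N) (hne : ∃ z ∈ N, z ∉ Subring.center D) {a : D}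
    (ha : a ∉ Subring.center D) : ∃ b ∈ N, a * b ≠ b * a := by
  by_contra hcon
  push Not at hcon
  exact ha (pCBH D N hN.conj hne a hcon)

theorem add_ne {g c : D} (hg : g ∉ Subring.center D) (hc : c ∈ Subring.center D) : g + c ≠ 0 := by
  intro h
  apply hg
  rw [eq_neg_of_add_eq_zero_left h]
  exact neg_mem hc

/-- the value of `g + c` for large central `c` -/
theorem ev_add (hχ : Cen χ d) (hN : Rad N) {g : D} (hg : g ∈ N) (hgc : g ∉ Subring.center D) :
    Ev χ fun c => χ c ≤ χ d * χ (g + c) := by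
  obtain ⟨m, hm, hm0, hmc, hne⟩ := norm_eq hN hg hgc χ
  have hd := one_le hχ
  have hpow : ∀ t : Γ₀, χ d * t ^ m ≤ (χ d * t) ^ m := by
    intro t
    rw [mul_pow]
    exact mul_le_mul' (le_self_pow₀ hd (by omega)) le_rfl
  refine ⟨d * g, fun c hc h1 => ?_⟩
  rw [map_mul] at h1
  have h2 := hne (-c) (neg_mem hc)
  have e1 : -c - g = -(g + c) := by abel
  rw [e1, chi_neg] at h2
  have h3 := hχ ((-c) ^ m - g ^ m) (sub_mem (pow_mem (neg_mem hc) m) hmc) (g ^ m) hmc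
  rw [sub_add_cancel, map_pow, chi_neg, ← h2, map_pow] at h3
  rcases le_total (χ (g + c) ^ m) (χ g ^ m) with h4 | h4
  · rw [max_eq_right h4] at h3
    have h5 : χ c ≤ χ d * χ g := le_of_pow_le_pow_left₀ (by omega) zero_le (h3.trans (hpow _))
    exact absurd h5 (not_le.2 h1)
  · rw [max_eq_left h4] at h3
    exact le_of_pow_le_pow_left₀ (by omega) zero_le (h3.trans (hpow _))

theorem core (hχ : Cen χ d) (hN : Rad N) (hne : ∃ z ∈ N, z ∉ Subring.center D)
    (hnt : ∃ x : D, x ≠ 0 ∧ χ x ≠ 1) : False := by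
  have hd := one_le hχ
  have hd0 := d_ne hχ
  have hχd0 : χ d ≠ 0 := (map_ne_zero χ).2 hd0
  have hc0 : ∃ c ∈ Subring.center D, 1 < χ c := by
    by_contra hcon
    push Not at hcon
    obtain ⟨x, hx, hx1⟩ := hnt
    refine hx1 (trivial_of hN hne (fun c hc hc0 => le_antisymm (hcon c hc) ?_) hx)
    have h1 := hcon c⁻¹ (Set.inv_mem_center hc)
    rw [map_inv₀] at h1
    exact (inv_le_one₀ (zero_lt_iff.2 ((map_ne_zero χ).2 hc0))).1 h1
  obtain ⟨m, hm0, hm1, hm⟩ := lower hχ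
  have hm0' : m ≠ 0 := (map_ne_zero χ).1 hm0
  obtain ⟨x, hx, hxc⟩ := hne
  have hne : ∃ z ∈ N, z ∉ Subring.center D := ⟨x, hx, hxc⟩
  have hx0 := hN.ne x hx
  obtain ⟨g, hg, hxg⟩ := exists_nc hN hne hxc
  have hgc : g ∉ Subring.center D := fun h => hxg (Main_.center_comm h x).symm
  set E := g * x - x * g with hE
  have hE0 : E ≠ 0 := sub_ne_zero.2 (Ne.symm hxg)
  have hχE0 : χ E ≠ 0 := (map_ne_zero χ).2 hE0
  have hχx0 : χ x ≠ 0 := (map_ne_zero χ).2 hx0
  set W : D → D := fun c => (g + c) * x * (g + c)⁻¹ * x⁻¹ with hW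
  have hgc0 : ∀ c ∈ Subring.center D, g + c ≠ 0 := fun c hc => add_ne hgc hc
  have hWN : ∀ c ∈ Subring.center D, W c ∈ N := fun c hc => w_mem hN hx (hgc0 c hc)
  have hWs : ∀ c ∈ Subring.center D, W c - 1 = E * ((g + c)⁻¹ * x⁻¹) :=
    fun c hc => w_sub hx0 (hgc0 c hc) hc
  have hW0 : ∀ c ∈ Subring.center D, W c - 1 ≠ 0 := by
    intro c hc
    rw [hWs c hc]
    exact mul_ne_zero hE0 (mul_ne_zero (inv_ne_zero (hgc0 c hc)) (inv_ne_zero hx0))
  have hWc : ∀ c ∈ Subring.center D, W c ∉ Subring.center D := by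
    intro c hc h
    have h1 : (g + c) * x * (g + c)⁻¹ = W c * x := by
      simp only [hW]
      rw [mul_assoc _ x⁻¹, inv_mul_cancel₀ hx0, mul_one]
    have h2 : (g + c) * x * (g + c)⁻¹ ∈ Algebra.adjoin (Subring.center D) {x} := by
      rw [h1]
      have := Subalgebra.smul_mem (Algebra.adjoin (Subring.center D) {x})
        (Algebra.subset_adjoin (Set.mem_singleton x)) (⟨W c, h⟩ : Subring.center D)
      exact this
    have h3 := qN D N hN x hx (g + c) (hgc0 c hc) h2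
    apply hxg
    rw [add_mul, mul_add, Main_.center_comm hc x] at h3
    exact (add_right_cancel h3).symm
  have hρ : ∀ c ∈ Subring.center D, χ (1 - W c) = χ E * ((χ (g + c))⁻¹ * (χ x)⁻¹) := by
    intro c hc
    rw [chi_sub, hWs c hc, map_mul, map_mul, map_inv₀, map_inv₀]
  -- `W c` tends to `1`
  have hE2 : Ev χ fun c => χ (1 - W c) ≤ χ m := by
    refine ((ev_add hχ hN hg hgc).and (Ev.gt (d * (E * x⁻¹ * m⁻¹)))).mono ?_
    rintro c hc ⟨h1, h2⟩
    rw [hρ c hc]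
    have h3 : χ d * χ (E * x⁻¹ * m⁻¹) ≤ χ d * χ (g + c) := by
      rw [← map_mul]; exact h2.le.trans h1
    have h4 : χ (E * x⁻¹ * m⁻¹) ≤ χ (g + c) :=
      le_of_mul_le_mul_left h3 (zero_lt_iff.2 hχd0)
    rw [map_mul, map_mul, map_inv₀, map_inv₀] at h4
    have hg0 : χ (g + c) ≠ 0 := (map_ne_zero χ).2 (hgc0 c hc)
    calc χ E * ((χ (g + c))⁻¹ * (χ x)⁻¹)
        = (χ E * (χ x)⁻¹ * (χ m)⁻¹) * (χ (g + c))⁻¹ * χ m := by field_simp
      _ ≤ χ (g + c) * (χ (g + c))⁻¹ * χ m := mul_le_mul' (mul_le_mul' h4 le_rfl) le_rfl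
      _ = χ m := by rw [mul_inv_cancel₀ hg0, one_mul]
  set A := x * E⁻¹ with hA
  set B := x * g * E⁻¹ with hB
  have hinv : ∀ c ∈ Subring.center D, (W c - 1)⁻¹ = c * A + B := by
    intro c hc
    rw [hWs c hc, mul_inv_rev, mul_inv_rev, inv_inv, inv_inv, mul_add, add_mul, hA, hB,
      ← Main_.center_comm hc x, mul_assoc c, add_comm]
  have hAc : A ∉ Subring.center D := by
    intro h
    have hA0 : A ≠ 0 := mul_ne_zero hx0 (inv_ne_zero hE0)
    have h1 : x = A * E := by rw [hA, mul_assoc, inv_mul_cancel₀ hE0, mul_one]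
    have h2 : x * g * x⁻¹ = g - A⁻¹ := by
      have h3 : A⁻¹ * x = g * x - x * g := by
        rw [← hE]
        nth_rewrite 1 [h1]
        rw [← mul_assoc, inv_mul_cancel₀ hA0, one_mul]
      have h4 : x * g = (g - A⁻¹) * x := by rw [sub_mul, h3]; abel
      rw [h4, mul_assoc, mul_inv_cancel₀ hx0, mul_one]
    have h5 : x * g * x⁻¹ ∈ Algebra.adjoin (Subring.center D) {g} := by
      rw [h2]
      refine sub_mem (Algebra.subset_adjoin (Set.mem_singleton g)) ?_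
      exact Subalgebra.algebraMap_mem _ (⟨A⁻¹, Set.inv_mem_center h⟩ : Subring.center D)
    exact hxg (qN D N hN g hg x hx0 h5)
  obtain ⟨y, hy, hAy⟩ := exists_nc hN hne hAc
  have hy0 := hN.ne y hy
  set A1 := y * A - A * y with hA1
  set B1 := y * B - B * y with hB1
  have hA10 : A1 ≠ 0 := sub_ne_zero.2 (Ne.symm hAy)
  have hlin : ∀ c ∈ Subring.center D,
      c * A1 + B1 = (W c - 1)⁻¹ * (W c * y - y * W c) * (W c - 1)⁻¹ := by
    intro c hc
    have h0 := hW0 c hc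
    have e1 : W c * y - y * W c = (W c - 1) * y - y * (W c - 1) := by
      rw [sub_mul, mul_sub, one_mul, mul_one]; abel
    have e2 : (W c - 1)⁻¹ * (W c * y - y * W c) * (W c - 1)⁻¹ =
        y * (W c - 1)⁻¹ - (W c - 1)⁻¹ * y := by
      rw [e1, mul_sub, sub_mul, ← mul_assoc, inv_mul_cancel₀ h0, one_mul, mul_assoc _ _ (W c - 1)⁻¹,
        mul_assoc y, mul_inv_cancel₀ h0, mul_one]
    have e3 : y * (c * A) = c * (y * A) := by
      rw [← mul_assoc, ← Main_.center_comm hc y, mul_assoc]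
    rw [e2, hinv c hc, hA1, hB1, mul_add, add_mul, e3, mul_assoc c A y, mul_sub]
    abel
  set L := d * (d * m⁻¹) ^ 2 * y with hL
  have hE3 : Ev χ fun c => χ (c * A1 + B1) ≤ χ L := by
    refine hE2.mono ?_
    intro c hc h1
    obtain ⟨c', hc', h2⟩ := close hχ hN hm0 hm (hWN c hc) (hWc c hc) h1
    have h3 := star1 hχ hN hy (neg_mem hc') (add_ne (hWc c hc) (neg_mem hc'))
    rw [← sub_eq_add_neg, chi_sub (W c) c'] at h3
    have hρ0 : χ (1 - W c) ≠ 0 := by
      rw [chi_sub]; exact (map_ne_zero χ).2 (hW0 c hc)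
    rw [hlin c hc, map_mul, map_mul, map_inv₀, chi_sub (W c) 1, hL]
    rw [map_mul, map_mul, map_pow, map_mul, map_inv₀]
    calc (χ (1 - W c))⁻¹ * χ (W c * y - y * W c) * (χ (1 - W c))⁻¹
        ≤ (χ (1 - W c))⁻¹ * (χ d * (χ (1 - W c) * χ d / χ m) ^ 2 * χ y) * (χ (1 - W c))⁻¹ :=
          mul_le_mul' (mul_le_mul' le_rfl (h3.trans (mul_le_mul' (mul_le_mul' le_rfl h2) le_rfl)))
            le_rfl
      _ = χ d * (χ d * (χ m)⁻¹) ^ 2 * χ y := by
        field_simp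
  -- the contradiction
  set G := A1⁻¹ * B1 with hG
  have hE4 : Ev χ fun c => χ (G + c) ≤ χ (A1⁻¹ * L) := by
    refine hE3.mono ?_
    intro c hc h1
    have e1 : G + c = A1⁻¹ * (c * A1 + B1) := by
      rw [mul_add, Main_.center_comm hc A1, inv_mul_cancel_left₀ hA10, hG, add_comm]
    rw [e1, map_mul, map_mul]
    exact mul_le_mul' le_rfl h1
  set T := A1⁻¹ * L with hT
  have hex : ∀ P : D → Prop, Ev χ P → ∃ c ∈ Subring.center D, P c := by
    rintro P ⟨K, hK⟩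
    obtain ⟨c, hc, h1⟩ := unb hN hne hc0 K
    exact ⟨c, hc, hK c hc h1⟩
  by_cases hGc : G ∈ Subring.center D
  · obtain ⟨c, hc, ⟨h1, h2⟩, h3⟩ := hex _ ((hE4.and (Ev.gt (d * T))).and (Ev.gt (d * G)))
    have h4 := hχ (G + c) (add_mem hGc hc) (-G) (neg_mem hGc)
    have e1 : G + c + -G = c := by abel
    rw [e1, chi_neg] at h4
    rw [map_mul] at h2 h3
    rcases max_choice (χ (G + c)) (χ G) with h5 | h5 <;> rw [h5] at h4
    · exact absurd (h4.trans (mul_le_mul' le_rfl h1)) (not_le.2 h2)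
    · exact absurd h4 (not_le.2 h3)
  · obtain ⟨x', hx', hGx⟩ := exists_nc hN hne hGc
    set E' := G * x' - x' * G with hE'
    have hE0' : E' ≠ 0 := sub_ne_zero.2 hGx
    have hχE0' : χ E' ≠ 0 := (map_ne_zero χ).2 hE0'
    obtain ⟨c', hc', h0⟩ := hex _ hE4
    obtain ⟨c, hc, ⟨h1, h2⟩, h3⟩ :=
      hex _ ((hE4.and (Ev.gt (d * c'))).and (Ev.gt (d * (d * T * T * x' * E'⁻¹))))
    have h4 := star2 hχ hN hx' hc hc' (add_ne hGc hc) (add_ne hGc hc')
    have h5 := hχ (c - c') (sub_mem hc hc') c' hc'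
    rw [sub_add_cancel] at h5
    rw [map_mul] at h2
    have h6 : χ c ≤ χ d * χ (c - c') := by
      rcases max_choice (χ (c - c')) (χ c') with h7 | h7 <;> rw [h7] at h5
      · exact h5
      · exact absurd h5 (not_le.2 h2)
    have h7 : χ (c - c') ≤ χ d * χ T * χ T * χ x' * (χ E')⁻¹ := by
      calc χ (c - c') = χ E' * χ (c - c') * (χ E')⁻¹ := by
            rw [mul_comm (χ E'), mul_assoc, mul_inv_cancel₀ hχE0', mul_one]
        _ ≤ χ d * χ (G + c) * χ (G + c') * χ x' * (χ E')⁻¹ := mul_le_mul' h4 le_rfl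
        _ ≤ χ d * χ T * χ T * χ x' * (χ E')⁻¹ :=
          mul_le_mul' (mul_le_mul' (mul_le_mul' (mul_le_mul' le_rfl h1) h0) le_rfl) le_rfl
    have h8 : χ (d * (d * T * T * x' * E'⁻¹)) = χ d * (χ d * χ T * χ T * χ x' * (χ E')⁻¹) := by
      simp only [map_mul, map_inv₀]
    rw [h8] at h3
    exact absurd (h6.trans (mul_le_mul' le_rfl h7)) (not_le.2 h3)

end AV_

/-- multiplicative maps of `D` whose restriction to the centre is a generalised absolute value -/
theorem qAV (D : Type u) [DivisionRing D] {Γ₀ : Type v} [LinearOrderedCommGroupWithZero Γ₀]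
    (χ : D →*₀ Γ₀) (d : D)
    (hχ : ∀ a ∈ Subring.center D, ∀ b ∈ Subring.center D, χ (a + b) ≤ χ d * max (χ a) (χ b))
    (hnt : ∃ x : D, x ≠ 0 ∧ χ x ≠ 1) (N : Subgroup Dˣ) (hN : N.Normal)
    (hr : ∀ x ∈ N, ∃ n : ℕ, 1 ≤ n ∧ ((x : D) ^ n) ∈ Subring.center D) :
    ∀ x ∈ N, (x : D) ∈ Subring.center D := by
  by_contra hcon
  push Not at hcon
  obtain ⟨x₀, hx₀, hx₀c⟩ := hcon
  exact AV_.core hχ (Main_.rad_ext N hN hr)
    ⟨x₀, ⟨x₀.ne_zero, x₀, hx₀, 1, one_mem _, by rw [mul_one]⟩, hx₀c⟩ hnt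

end Pool.Agent.Herst
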