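import Pool.Agent.Herst.Targets

set_option autoImplicit false

/-! J12: abelianisation of `D*` in presence of a noncentral radical normal subgroup. -/

namespace Pool.Agent.Herst

open Polynomial

universe u

namespace J12

variable {D : Type u} [DivisionRing D]

/-- torsion modulo the centre in the abelianisation -/
def T (x : Dˣ) : Prop :=
  ∃ (k : ℕ) (f : Dˣ), 1 ≤ k ∧ (f : D) ∈ Subring.center D ∧
    (Abelianization.of x) ^ k * Abelianization.of f = 1

theorem inv_cen {f : Dˣ} (hf : (f : D) ∈ Subring.center D) : ((f⁻¹ : Dˣ) : D) ∈ Subring.center D := by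
  rw [Subring.mem_center_iff] at hf ⊢
  intro g
  have h := hf g
  have h2 : g * ((f⁻¹ : Dˣ) : D) = ((f⁻¹ : Dˣ) : D) * (f * g) * ((f⁻¹ : Dˣ) : D) := by
    rw [← mul_assoc, Units.inv_mul, one_mul]
  rw [h2, ← h]
  simp [mul_assoc]

theorem pow_cen {f : Dˣ} (hf : (f : D) ∈ Subring.center D) (n : ℕ) :
    ((f ^ n : Dˣ) : D) ∈ Subring.center D := by
  rw [Units.val_pow_eq_pow_val]
  exact Subring.pow_mem _ hf n

theorem T_mul {x y : Dˣ} (hx : T x) (hy : T y) : T (x * y) := by
  obtain ⟨k, f, hk, hf, h1⟩ := hx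
  obtain ⟨l, g, hl, hg, h2⟩ := hy
  refine ⟨k * l, f ^ l * g ^ k, Nat.mul_pos hk hl, ?_, ?_⟩
  · rw [Units.val_mul]
    exact Subring.mul_mem _ (pow_cen hf l) (pow_cen hg k)
  · have e1 : (Abelianization.of x ^ k * Abelianization.of f) ^ l = 1 := by rw [h1, one_pow]
    have e2 : (Abelianization.of y ^ l * Abelianization.of g) ^ k = 1 := by rw [h2, one_pow]
    rw [map_mul, map_mul, map_pow, map_pow]
    calc (Abelianization.of x * Abelianization.of y) ^ (k * l) *
          (Abelianization.of f ^ l * Abelianization.of g ^ k)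
        = (Abelianization.of x ^ k * Abelianization.of f) ^ l *
          (Abelianization.of y ^ l * Abelianization.of g) ^ k := by
          rw [mul_pow, mul_pow, mul_pow, ← pow_mul, ← pow_mul, mul_comm l k]
          exact mul_mul_mul_comm _ _ _ _
      _ = 1 := by rw [e1, e2, one_mul]

theorem T_inv {x : Dˣ} (hx : T x) : T x⁻¹ := by
  obtain ⟨k, f, hk, hf, h1⟩ := hx
  refine ⟨k, f⁻¹, hk, inv_cen hf, ?_⟩
  rw [map_inv, map_inv, inv_pow, ← mul_inv, h1, inv_one]

theorem T_conj {x g : Dˣ} (hx : T (g * x * g⁻¹)) : T x := by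
  obtain ⟨k, f, hk, hf, h1⟩ := hx
  refine ⟨k, f, hk, hf, ?_⟩
  rw [map_mul, map_mul, map_inv, mul_comm (Abelianization.of g), mul_inv_cancel_right] at h1
  exact h1

theorem T_cen {x : Dˣ} (hx : (x : D) ∈ Subring.center D) : T x := by
  refine ⟨1, x⁻¹, le_refl _, inv_cen hx, ?_⟩
  rw [pow_one, map_inv, mul_inv_cancel]

theorem isIntegral_of_rad {N : Set D} (hN : Rad N) {w : D} (hw : w ∈ N) :
    IsIntegral (Subring.center D) w := by
  obtain ⟨n, hn, hc⟩ := hN.rad w hw
  have h1 : IsIntegral (Subring.center D) (w ^ n) := by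
    have : w ^ n = algebraMap (Subring.center D) D ⟨w ^ n, hc⟩ := rfl
    rw [this]
    exact isIntegral_algebraMap
  exact h1.of_pow hn

theorem list_prod {x : Dˣ} (l : List D) (hl : ∀ g ∈ l, g ≠ 0) :
    ∃ P : Dˣ, (P : D) = (l.map (fun g => g * (x : D) * g⁻¹)).prod ∧
      Abelianization.of P = Abelianization.of x ^ l.length := by
  induction l with
  | nil => exact ⟨1, by simp, by simp⟩
  | cons g l ih =>
    obtain ⟨P, hP, hA⟩ := ih (fun a ha => hl a (List.mem_cons_of_mem _ ha))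
    have hg : g ≠ 0 := hl g List.mem_cons_self
    refine ⟨Units.mk0 g hg * x * (Units.mk0 g hg)⁻¹ * P, ?_, ?_⟩
    · rw [Units.val_mul, hP]
      simp
    · rw [map_mul, hA, map_mul, map_mul, map_inv, mul_comm (Abelianization.of (Units.mk0 g hg)),
        mul_inv_cancel_right, List.length_cons, pow_succ']

theorem T_one_sub (h3 : tNT.{u}) {N : Set D} (hN : Rad N) {w : D} (hw : w ∈ N) {x : Dˣ}
    (hx : (x : D) = 1 - w) : T x := by
  have hint := isIntegral_of_rad hN hw
  obtain ⟨l, hlen, hl, hprod, -⟩ := h3 D w hint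
  have h1 := hprod 1
  have h2 : (l.map (fun g => ((1 : Subring.center D) : D) - g * w * g⁻¹)) =
      l.map (fun g => g * (x : D) * g⁻¹) := by
    apply List.map_congr_left
    intro g hg
    have hg0 := hl g hg
    rw [hx, mul_sub, sub_mul, mul_one, mul_inv_cancel₀ hg0]
    rfl
  rw [h2] at h1
  obtain ⟨P, hP, hA⟩ := list_prod (x := x) l hl
  rw [← hP] at h1
  have hPc : (P : D) ∈ Subring.center D := by
    rw [h1]
    exact Subtype.property _
  refine ⟨l.length, P⁻¹, ?_, inv_cen hPc, ?_⟩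
  · rw [hlen]
    exact minpoly.natDegree_pos hint
  · rw [map_inv, hA, mul_inv_cancel]

end J12

open J12

theorem pB (h1 : tCBH.{u}) (h2 : tT4.{u}) (h3 : tNT.{u}) : tB.{u} := by
  intro D _ N hN hz x
  have key : T x := by
    by_cases hx : (x : D) ∈ Subring.center D
    · exact T_cen hx
    · obtain ⟨b, hb, hxb⟩ : ∃ b ∈ N, (x : D) * b ≠ b * x := by
        by_contra hcon
        push Not at hcon
        exact hx (h1 D N hN.conj hz x hcon)
      have hb0 : b ≠ 0 := hN.ne b hb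
      obtain ⟨hy0, hy1, hu, hu', hE⟩ := h2 D x b hb0 hxb
      have hs1 : (1 - (x : D)⁻¹) ≠ 0 := by
        intro h
        apply hy1
        have := sub_eq_zero.1 h
        rw [← inv_inv (x : D), ← this, inv_one]
      have hs2 : ((x : D) - 1) ≠ 0 := sub_ne_zero.2 hy1
      have hbi := hN.inv b hb
      have hm1 : (1 - (x : D)⁻¹)⁻¹ * b * (1 - (x : D)⁻¹) * b⁻¹ ∈ N := by
        have := hN.conj b hb (1 - (x : D)⁻¹)⁻¹ (inv_ne_zero hs1)
        rw [inv_inv] at this
        exact hN.mul _ this _ hbi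
      have hm2 : ((x : D) - 1)⁻¹ * b * ((x : D) - 1) * b⁻¹ ∈ N := by
        have := hN.conj b hb ((x : D) - 1)⁻¹ (inv_ne_zero hs2)
        rw [inv_inv] at this
        exact hN.mul _ this _ hbi
      set w1 := (1 - (x : D)⁻¹)⁻¹ * b * (1 - (x : D)⁻¹) * b⁻¹ with hw1
      set w2 := ((x : D) - 1)⁻¹ * b * ((x : D) - 1) * b⁻¹ with hw2
      have hn1 : 1 - w1 ≠ 0 := sub_ne_zero.2 (Ne.symm hu)
      have hn2 : 1 - w2 ≠ 0 := sub_ne_zero.2 (Ne.symm hu')
      have t1 : T (Units.mk0 (1 - w1) hn1) := T_one_sub h3 hN hm1 rfl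
      have t2 : T (Units.mk0 (1 - w2) hn2) := T_one_sub h3 hN hm2 rfl
      have t3 : T ((Units.mk0 (1 - w1) hn1)⁻¹ * Units.mk0 (1 - w2) hn2) := T_mul (T_inv t1) t2
      have e : (Units.mk0 (1 - w1) hn1)⁻¹ * Units.mk0 (1 - w2) hn2 =
          Units.mk0 b hb0 * x * (Units.mk0 b hb0)⁻¹ := by
        apply Units.ext
        simp only [Units.val_mul, Units.val_inv_eq_inv_val, Units.val_mk0]
        exact hE.symm
      rw [e] at t3
      exact T_conj t3
  obtain ⟨k, f, hk, hf, h⟩ := key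
  refine ⟨k, f, hk, hf, ?_⟩
  rw [← Abelianization.ker_of, MonoidHom.mem_ker, map_mul, map_pow]
  exact h

theorem pC (h1 : tN.{u}) (h2 : tR1.{u}) (h3 : tR3.{u}) : tC.{u} := by
  intro D _ N hN hz
  obtain ⟨n, hn, hnc⟩ := hz
  have hn0 : n ≠ 0 := hN.ne n hn
  have hni : n⁻¹ ∈ N := hN.inv n hn
  obtain ⟨g, hg0, hu⟩ : ∃ g : D, g ≠ 0 ∧ n * (g * n⁻¹ * g⁻¹) ∉ Subring.center D := by
    by_contra hcon
    push Not at hcon
    apply hnc
    have hcomm : ∀ g : D, g * n⁻¹ = n⁻¹ * g := by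
      intro g
      by_cases hg : g = 0
      · simp [hg]
      · have hc := hcon g hg
        apply h1 D N hN n⁻¹ hni g hg
        have e : g * n⁻¹ * g⁻¹ =
            (⟨n * (g * n⁻¹ * g⁻¹), hc⟩ : Subring.center D) • n⁻¹ := by
          rw [Subring.smul_def]
          show _ = n * (g * n⁻¹ * g⁻¹) * n⁻¹
          have hcc := (Subring.mem_center_iff.1 hc) n⁻¹
          rw [← hcc, ← mul_assoc, inv_mul_cancel₀ hn0, one_mul]
        rw [e]
        exact Subalgebra.smul_mem _ (Algebra.self_mem_adjoin_singleton _ _) _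
    rw [Subring.mem_center_iff]
    intro g
    have h := hcomm g
    calc g * n = n * (n⁻¹ * g) * n := by rw [← mul_assoc, mul_inv_cancel₀ hn0, one_mul]
      _ = n * (g * n⁻¹) * n := by rw [h]
      _ = n * g := by rw [mul_assoc, mul_assoc, inv_mul_cancel₀ hn0, mul_one]
  have huN : n * (g * n⁻¹ * g⁻¹) ∈ N := hN.mul _ hn _ (hN.conj _ hni g hg0)
  obtain ⟨M, f, hM, -, hf, -⟩ := h3 D N hN _ huN hu
  set U : Dˣ := Units.mk0 n hn0 * Units.mk0 g hg0 * (Units.mk0 n hn0)⁻¹ *
    (Units.mk0 g hg0)⁻¹ with hU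
  have hUv : (U : D) = n * (g * n⁻¹ * g⁻¹) := by
    rw [hU]
    simp [mul_assoc]
  refine ⟨U ^ M, ?_, ?_, ?_⟩
  · rw [Units.val_pow_eq_pow_val, hUv, ← hf]
    exact f.2
  · apply Subgroup.pow_mem
    rw [← Abelianization.ker_of, MonoidHom.mem_ker, hU, map_mul, map_mul, map_mul, map_inv,
      map_inv, mul_comm (Abelianization.of (Units.mk0 n hn0)), mul_inv_cancel_right,
      mul_inv_cancel]
  · intro k hk h
    apply hu
    apply h2 D N hN _ huN (M * k) (Nat.mul_pos (by omega) hk)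
    have : ((U ^ M) ^ k : Dˣ) = 1 := h
    rw [← pow_mul] at this
    have h5 := congrArg (Units.val) this
    rw [Units.val_pow_eq_pow_val, hUv, Units.val_one] at h5
    exact h5

end Pool.Agent.Herst
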