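import Pool.Agent.Herst.Targets

set_option autoImplicit false

/-! Radical normal subgroups (MP_176fb9_al), J7: Cartan-Brauer-Hua and the main identity. -/

namespace Pool.Agent.Herst

universe u

open Polynomial

theorem pCBH : tCBH.{u} := by
  intro D _ N hN hex a ha
  obtain ⟨z, hzN, hz⟩ := hex
  -- the centraliser of `N`
  let K : Set D := {a | ∀ b ∈ N, a * b = b * a}
  have haK : a ∈ K := ha
  have hadd : ∀ x ∈ K, ∀ y ∈ K, x + y ∈ K := fun x hx y hy b hb => by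
    rw [add_mul, mul_add, hx b hb, hy b hb]
  have hsub : ∀ x ∈ K, ∀ y ∈ K, x - y ∈ K := fun x hx y hy b hb => by
    rw [sub_mul, mul_sub, hx b hb, hy b hb]
  have hmul : ∀ x ∈ K, ∀ y ∈ K, x * y ∈ K := fun x hx y hy b hb => by
    rw [mul_assoc, hy b hb, ← mul_assoc, hx b hb, mul_assoc]
  have hinv : ∀ x ∈ K, x⁻¹ ∈ K := fun x hx b hb => by
    have : Commute x b := hx b hb
    exact this.inv_left₀
  have hconj : ∀ x ∈ K, ∀ g : D, g ≠ 0 → g * x * g⁻¹ ∈ K := fun x hx g hg b hb => by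
    have h1 := hx (g⁻¹ * b * g) (by
      have := hN b hb g⁻¹ (inv_ne_zero hg)
      rwa [inv_inv] at this)
    have h2 : g * x * g⁻¹ * b = g * (x * (g⁻¹ * b * g)) * g⁻¹ := by
      simp only [mul_assoc]
      rw [mul_inv_cancel₀ hg, mul_one]
    rw [h2, h1]
    simp only [mul_assoc]
    rw [mul_inv_cancel_left₀ hg]
  obtain ⟨x₀, hx₀⟩ : ∃ x, x ∉ K := by
    by_contra hcon
    push Not at hcon
    exact hz (Subring.mem_center_iff.2 fun g => hcon g z hzN)
  have hout : ∀ x, x ∉ K → a * x = x * a := by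
    intro x hx
    have h0 : x ≠ 0 := by
      rintro rfl
      exact hx fun b _ => by rw [zero_mul, mul_zero]
    have h1 : 1 + x ≠ 0 := by
      intro h
      apply hx
      have : x = -1 := by rw [eq_neg_iff_add_eq_zero, add_comm]; exact h
      rw [this]
      intro b _
      rw [neg_one_mul, mul_neg_one]
    have e1 : x * a = (x * a * x⁻¹) * x := by rw [inv_mul_cancel_right₀ h0]
    have e2 : (1 + x) * a = ((1 + x) * a * (1 + x)⁻¹) * (1 + x) := by
      rw [inv_mul_cancel_right₀ h1]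
    have k1 := hconj a haK x h0
    have k2 := hconj a haK (1 + x) h1
    generalize x * a * x⁻¹ = a' at e1 k1
    generalize (1 + x) * a * (1 + x)⁻¹ = a'' at e2 k2
    have e3 : (a' - a'') * x = a'' - a := by
      have : a + a' * x = a'' + a'' * x := by
        rw [← e1, add_mul, one_mul] at *
        rw [e2, mul_add, mul_one]
      rw [sub_mul, sub_eq_sub_iff_add_eq_add]
      rw [add_comm (a' * x), this]
    have e4 : a' = a'' := by
      by_contra hne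
      apply hx
      have hne' : a' - a'' ≠ 0 := sub_ne_zero.2 hne
      have : x = (a' - a'')⁻¹ * (a'' - a) := by rw [← e3, inv_mul_cancel_left₀ hne']
      rw [this]
      exact hmul _ (hinv _ (hsub _ k1 _ k2)) _ (hsub _ k2 _ haK)
    rw [e4, sub_self, zero_mul] at e3
    rw [e1, e4, sub_eq_zero.1 e3.symm]
  refine Subring.mem_center_iff.2 fun y => ?_
  by_cases hy : y ∈ K
  · have h1 : x₀ + y ∉ K := by
      intro h
      apply hx₀
      have := hsub _ h _ hy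
      rwa [add_sub_cancel_right] at this
    have h2 := hout _ h1
    have h3 := hout _ hx₀
    rw [mul_add, add_mul, h3, add_left_cancel_iff] at h2
    exact h2.symm
  · exact (hout y hy).symm

theorem pT4 : tT4.{u} := by
  intro D _ y b hb hyb
  have hy0 : y ≠ 0 := by rintro rfl; exact hyb (by rw [zero_mul, mul_zero])
  have hy1 : y ≠ 1 := by rintro rfl; exact hyb (by rw [one_mul, mul_one])
  have hy1' : y - 1 ≠ 0 := sub_ne_zero.2 hy1
  have hyi : 1 - y⁻¹ ≠ 0 := by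
    intro h
    apply hy1
    have : y⁻¹ = 1 := (sub_eq_zero.1 h).symm
    rw [← inv_inv y, this, inv_one]
  set Y := b * y * b⁻¹ with hY
  have hYy : y - Y ≠ 0 := by
    intro h
    apply hyb
    have h1 : y = b * y * b⁻¹ := sub_eq_zero.1 h
    calc y * b = b * y * b⁻¹ * b := by rw [← h1]
      _ = b * y := inv_mul_cancel_right₀ hb _
  have hY0 : Y ≠ 0 := mul_ne_zero (mul_ne_zero hb hy0) (inv_ne_zero hb)
  have hYi : b * (1 - y⁻¹) * b⁻¹ = 1 - Y⁻¹ := by
    rw [hY, mul_sub, sub_mul, mul_one, mul_inv_cancel₀ hb, mul_inv_rev, mul_inv_rev, inv_inv,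
      mul_assoc b]
  have hY1 : b * (y - 1) * b⁻¹ = Y - 1 := by
    rw [hY, mul_sub, sub_mul, mul_one, mul_inv_cancel₀ hb]
  have e1 : 1 - (1 - y⁻¹)⁻¹ * b * (1 - y⁻¹) * b⁻¹ = (1 - y⁻¹)⁻¹ * (y⁻¹ * (y - Y) * Y⁻¹) := by
    have h1 : (1 - y⁻¹)⁻¹ * b * (1 - y⁻¹) * b⁻¹ = (1 - y⁻¹)⁻¹ * (1 - Y⁻¹) := by
      rw [← hYi]; simp only [mul_assoc]
    have h2 : y⁻¹ * (y - Y) * Y⁻¹ = (1 - y⁻¹) - (1 - Y⁻¹) := by
      rw [mul_sub, sub_mul, inv_mul_cancel₀ hy0, one_mul, mul_inv_cancel_right₀ hY0]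
      abel
    rw [h1, h2, mul_sub _ (1 - y⁻¹), inv_mul_cancel₀ hyi]
  have e2 : 1 - (y - 1)⁻¹ * b * (y - 1) * b⁻¹ = (y - 1)⁻¹ * (y - Y) := by
    have h1 : (y - 1)⁻¹ * b * (y - 1) * b⁻¹ = (y - 1)⁻¹ * (Y - 1) := by
      rw [← hY1]; simp only [mul_assoc]
    have h2 : y - Y = (y - 1) - (Y - 1) := by abel
    rw [h1, h2, mul_sub _ (y - 1), inv_mul_cancel₀ hy1']
  refine ⟨hy0, hy1, ?_, ?_, ?_⟩
  · intro h
    have h1 : (1 - y⁻¹)⁻¹ * (y⁻¹ * (y - Y) * Y⁻¹) = 0 := by rw [← e1, h, sub_self]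
    exact mul_ne_zero (inv_ne_zero hyi)
      (mul_ne_zero (mul_ne_zero (inv_ne_zero hy0) hYy) (inv_ne_zero hY0)) h1
  · intro h
    have h1 : (y - 1)⁻¹ * (y - Y) = 0 := by rw [← e2, h, sub_self]
    exact mul_ne_zero (inv_ne_zero hy1') hYy h1
  · rw [e1, e2]
    clear_value Y
    have h3 : (1 - y⁻¹) * (y - 1)⁻¹ = y⁻¹ := by
      have : 1 - y⁻¹ = y⁻¹ * (y - 1) := by rw [mul_sub, inv_mul_cancel₀ hy0, mul_one]
      rw [this, mul_inv_cancel_right₀ hy1']
    rw [mul_inv_rev, inv_inv, mul_inv_rev, mul_inv_rev, inv_inv, inv_inv]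
    have h4 : Y * ((y - Y)⁻¹ * y) * (1 - y⁻¹) * ((y - 1)⁻¹ * (y - Y)) =
        Y * ((y - Y)⁻¹ * y) * ((1 - y⁻¹) * (y - 1)⁻¹) * (y - Y) := by
      simp only [mul_assoc]
    rw [h4, h3]
    simp only [mul_assoc]
    rw [mul_inv_cancel_left₀ hy0, inv_mul_cancel₀ hYy, mul_one]

end Pool.Agent.Herst
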