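import Pool.Agent.Herst.Targets

/-! Finite dimensional domains (job J3 of MP_176fb9_al). -/

set_option autoImplicit false

namespace Pool.Agent.Herst

open Polynomial

universe u

namespace J3_

variable {E Δ : Type u} [Field E] [Ring Δ] [IsDomain Δ] [Algebra E Δ] [FiniteDimensional E Δ]

/-- The order in `Δ` of the elements which act by matrices with entries in `V`. -/
noncomputable def S (Δ : Type u) [Ring Δ] [IsDomain Δ] [Algebra E Δ] [FiniteDimensional E Δ]
    (V : ValuationSubring E) : Subring Δ :=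
  (V.toSubring.matrix).comap (Algebra.leftMulMatrix (Module.finBasis E Δ)).toRingHom

lemma mem_S {V : ValuationSubring E} {d : Δ} :
    d ∈ S Δ V ↔ ∀ i j, Algebra.leftMulMatrix (Module.finBasis E Δ) d i j ∈ V := Iff.rfl

lemma nonempty_fin (E Δ : Type u) [Field E] [Ring Δ] [IsDomain Δ] [Algebra E Δ]
    [FiniteDimensional E Δ] : Nonempty (Fin (Module.finrank E Δ)) :=
  ⟨⟨0, Module.finrank_pos⟩⟩

lemma algebraMap_mem_S {V : ValuationSubring E} {e : E} :
    algebraMap E Δ e ∈ S Δ V ↔ e ∈ V := by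
  rw [mem_S]
  have h : Algebra.leftMulMatrix (Module.finBasis E Δ) (algebraMap E Δ e) =
      algebraMap E (Matrix (Fin (Module.finrank E Δ)) (Fin (Module.finrank E Δ)) E) e :=
    AlgHom.commutes _ _
  rw [h]
  constructor
  · intro h
    obtain ⟨i⟩ := nonempty_fin E Δ
    have := h i i
    rwa [Matrix.algebraMap_matrix_apply, if_pos rfl] at this
  · intro h i j
    rw [Matrix.algebraMap_matrix_apply]
    split_ifs
    · exact h
    · exact V.zero_mem

lemma smul_mem_S {V : ValuationSubring E} {e : E} (he : e ∈ V) {d : Δ} (hd : d ∈ S Δ V) :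
    e • d ∈ S Δ V := by
  rw [Algebra.smul_def]
  exact mul_mem (algebraMap_mem_S.2 he) hd

/-- Elements of `Δ` can be multiplied into `S`. -/
lemma exists_smul (V : ValuationSubring E) (y y' : Δ) :
    ∃ l : E, l ≠ 0 ∧ l • y ∈ S Δ V ∧ l • y' ∈ S Δ V := by
  obtain ⟨b, hb⟩ := IsLocalization.exist_integer_multiples (nonZeroDivisors V) Finset.univ
    (fun k : (Fin (Module.finrank E Δ) × Fin (Module.finrank E Δ)) ⊕
      (Fin (Module.finrank E Δ) × Fin (Module.finrank E Δ)) =>
      (Sum.elim (fun p => Algebra.leftMulMatrix (Module.finBasis E Δ) y p.1 p.2)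
        (fun p => Algebra.leftMulMatrix (Module.finBasis E Δ) y' p.1 p.2) k : E))
  have hb0 : ((b : V) : E) ≠ 0 := by
    have := nonZeroDivisors.ne_zero b.2
    intro h
    exact this (Subtype.ext h)
  refine ⟨((b : V) : E), hb0, ?_, ?_⟩
  · rw [mem_S]
    intro i j
    obtain ⟨v, hv⟩ := hb (Sum.inl (i, j)) (Finset.mem_univ _)
    rw [map_smul, Matrix.smul_apply]
    have : (((b : V) : E) • Algebra.leftMulMatrix (Module.finBasis E Δ) y i j) = (v : E) := hv.symm
    rw [this]
    exact v.2
  · rw [mem_S]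
    intro i j
    obtain ⟨v, hv⟩ := hb (Sum.inr (i, j)) (Finset.mem_univ _)
    rw [map_smul, Matrix.smul_apply]
    have : (((b : V) : E) • Algebra.leftMulMatrix (Module.finBasis E Δ) y' i j) = (v : E) :=
      hv.symm
    rw [this]
    exact v.2

/-- `1 + t y` is invertible in `S`. -/
lemma exists_inv {V : ValuationSubring E} {t : E} (ht : t ∈ V) (htn : t⁻¹ ∉ V) {y : Δ}
    (hy : y ∈ S Δ V) : ∃ k ∈ S Δ V, (1 + t • y) * k = 1 ∧ k * (1 + t • y) = 1 := by
  classical
  -- the matrix over `V`
  rw [mem_S] at hy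
  let Y : Matrix (Fin (Module.finrank E Δ)) (Fin (Module.finrank E Δ)) V := fun i j => ⟨_, hy i j⟩
  let T : V := ⟨t, ht⟩
  have hT : ¬ IsUnit T := by
    intro h
    obtain ⟨s, hs⟩ := h.exists_right_inv
    have h1 : t * (s : E) = 1 := congrArg Subtype.val hs
    apply htn
    rw [← eq_inv_of_mul_eq_one_right h1]
    exact s.2
  have hdet : IsUnit (1 + T • Y).det := by
    rw [← IsLocalRing.residue_ne_zero_iff_isUnit]
    have h1 : IsLocalRing.residue V (1 + T • Y).det = 1 := by
      rw [RingHom.map_det]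
      have h2 : (IsLocalRing.residue V).mapMatrix (1 + T • Y) = 1 := by
        ext i j
        rw [RingHom.mapMatrix_apply, Matrix.map_apply, Matrix.add_apply, map_add, Matrix.smul_apply,
          smul_eq_mul, map_mul]
        have h3 : IsLocalRing.residue V T = 0 := by
          rw [IsLocalRing.residue_eq_zero_iff]
          exact hT
        rw [h3, zero_mul, add_zero, Matrix.one_apply, Matrix.one_apply]
        split_ifs <;> simp
      rw [h2, Matrix.det_one]
    rw [h1]
    exact one_ne_zero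
  obtain ⟨U, hU⟩ := ((1 + T • Y).isUnit_iff_isUnit_det.2 hdet).exists_right_inv
  set ρ := Algebra.leftMulMatrix (Module.finBasis E Δ) with hρ
  have hρi : Function.Injective ρ := Algebra.leftMulMatrix_injective _
  -- the image in matrices over `E`
  let j : V →+* E := V.subtype
  have e1 : (1 + T • Y).map j = ρ (1 + t • y) := by
    ext a b
    rw [Matrix.map_apply, map_add, map_one, map_smul, Matrix.add_apply, Matrix.add_apply, map_add,
      Matrix.smul_apply, Matrix.smul_apply, smul_eq_mul, smul_eq_mul, map_mul, Matrix.one_apply,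
      Matrix.one_apply]
    congr 1
    split_ifs <;> simp
  have e2 : ρ (1 + t • y) * U.map j = 1 := by
    rw [← e1, ← Matrix.map_mul, hU, Matrix.map_one _ (map_zero j) (map_one j)]
  have hne : 1 + t • y ≠ 0 := by
    intro h
    rw [h, map_zero, zero_mul] at e2
    have := nonempty_fin E Δ
    exact zero_ne_one e2
  obtain ⟨k, hk⟩ := FiniteDimensional.exists_mul_eq_one E hne
  have hk' : k * (1 + t • y) = 1 := by
    have hk0 : k ≠ 0 := right_ne_zero_of_mul_eq_one hk
    have : (k * (1 + t • y) - 1) * k = 0 := by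
      rw [sub_mul, mul_assoc, hk, mul_one, one_mul, sub_self]
    rcases mul_eq_zero.1 this with h | h
    · exact sub_eq_zero.1 h
    · exact absurd h hk0
  refine ⟨k, ?_, hk, hk'⟩
  have e3 : ρ k = U.map j := by
    calc ρ k = ρ k * (ρ (1 + t • y) * U.map j) := by rw [e2, mul_one]
      _ = ρ (k * (1 + t • y)) * U.map j := by rw [map_mul, mul_assoc]
      _ = U.map j := by rw [hk', map_one, one_mul]
  rw [mem_S]
  intro a b
  have : ρ k a b = ((U a b : V) : E) := by rw [e3]; rfl
  rw [← hρ, this]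
  exact (U a b).2

/-- `1 + t S` is closed under products. -/
lemma pow_mem {V : ValuationSubring E} {t : E} (ht : t ∈ V) {u : Δ}
    (hu : ∃ s ∈ S Δ V, u = 1 + t • s) (k : ℕ) : ∃ s ∈ S Δ V, u ^ k = 1 + t • s := by
  obtain ⟨s, hs, rfl⟩ := hu
  induction k with
  | zero => exact ⟨0, zero_mem _, by simp⟩
  | succ k ih =>
    obtain ⟨s', hs', h⟩ := ih
    refine ⟨s' + s + t • (s' * s), add_mem (add_mem hs' hs) (smul_mem_S ht (mul_mem hs' hs)), ?_⟩
    rw [pow_succ, h, add_mul, one_mul, mul_add, mul_one, smul_add, smul_add, smul_mul_smul_comm,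
      smul_smul]
    abel

/-- Torsion in `1 + t S`. -/
lemma eq_one {V : ValuationSubring E} {t : E} (ht : t ∈ V) (ht0 : t ≠ 0)
    (hq : ∀ q : ℕ, q.Prime → (q : E) ≠ 0 → ∀ v ∈ V, (q : E) ≠ t * v) {u : Δ}
    (hu : ∃ s ∈ S Δ V, u = 1 + t • s) {k : ℕ} (hk : 1 ≤ k) (huk : u ^ k = 1) : u = 1 := by
  by_contra hne
  have hfin : IsOfFinOrder u := isOfFinOrder_iff_pow_eq_one.2 ⟨k, hk, huk⟩
  have ho1 : orderOf u ≠ 1 := fun h => hne (orderOf_eq_one_iff.1 h)
  obtain ⟨r, hr, hrd⟩ := Nat.exists_prime_and_dvd ho1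
  have ho : 0 < orderOf u := hfin.orderOf_pos
  obtain ⟨c, hc⟩ := hrd
  have hc0 : 0 < c := by
    rcases Nat.eq_zero_or_pos c with h | h
    · rw [h, mul_zero] at hc; omega
    · exact h
  set v := u ^ c with hv
  have hvr : v ^ r = 1 := by
    rw [hv, ← pow_mul, mul_comm, ← hc, pow_orderOf_eq_one]
  have hv1 : v ≠ 1 := by
    intro h
    have h1 := orderOf_dvd_of_pow_eq_one h
    have h2 := Nat.le_of_dvd hc0 h1
    have h3 := hr.two_le
    have h4 : 2 * c ≤ r * c := Nat.mul_le_mul_right c h3
    omega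
  have hsum : ∑ i ∈ Finset.range r, v ^ i = 0 := by
    have h1 := geom_sum_mul v r
    rw [hvr, sub_self] at h1
    rcases mul_eq_zero.1 h1 with h | h
    · exact h
    · exact absurd (sub_eq_zero.1 h) hv1
  have hvm := pow_mem ht hu c
  rw [← hv] at hvm
  choose s hs hse using fun i => pow_mem ht hvm i
  have h1 : (r : Δ) + t • ∑ i ∈ Finset.range r, s i = 0 := by
    rw [← hsum, Finset.smul_sum]
    have : (r : Δ) = ∑ _i ∈ Finset.range r, (1 : Δ) := by simp
    rw [this, ← Finset.sum_add_distrib]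
    exact Finset.sum_congr rfl fun i _ => (hse i).symm
  by_cases hr0 : (r : E) = 0
  · have hrΔ : (r : Δ) = 0 := by
      rw [← map_natCast (algebraMap E Δ), hr0, map_zero]
    have := Fact.mk hr
    have : CharP Δ r := (CharP.charP_iff_prime_eq_zero hr).2 hrΔ
    have h2 : (v - 1) ^ r = 0 := by
      rw [sub_pow_char_of_commute r (Commute.one_right v), hvr, one_pow, sub_self]
    exact hv1 (sub_eq_zero.1 (pow_eq_zero_iff hr.ne_zero |>.1 h2))
  · have h2 : algebraMap E Δ ((r : E) / t) = -∑ i ∈ Finset.range r, s i := by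
      have h3 : t • algebraMap E Δ ((r : E) / t) = (r : Δ) := by
        rw [← map_natCast (algebraMap E Δ), Algebra.smul_def, ← map_mul, mul_div_cancel₀ _ ht0]
      have h4 : t • (algebraMap E Δ ((r : E) / t) + ∑ i ∈ Finset.range r, s i) = 0 := by
        rw [smul_add, h3, h1]
      rcases smul_eq_zero.1 h4 with h | h
      · exact absurd h ht0
      · exact eq_neg_of_add_eq_zero_left h
    have h3 : (r : E) / t ∈ V := by
      rw [← algebraMap_mem_S (Δ := Δ), h2]
      exact neg_mem (sum_mem fun i _ => hs i)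
    exact hq r hr hr0 _ h3 (mul_div_cancel₀ _ ht0).symm

end J3_

open J3_ in
/-- J3 -/
theorem pCF (h1 : tVal.{u}) (h2 : tJac.{u}) : tCF.{u} := by
  intro E Δ _ _ _ _ _ z zi hz hz' H
  by_cases hE : ∀ p : ℕ, p.Prime → CharP E p → ∃ x : E, x ≠ 0 ∧ ∀ k : ℕ, 1 ≤ k → x ^ k ≠ 1
  swap
  · push Not at hE
    obtain ⟨p, hp, hc, hx⟩ := hE
    intro x
    exact h2 E Δ p hp hc hx z x
  obtain ⟨V, t, ht, ht0, hq⟩ := h1 E hE
  have htn : t⁻¹ ∉ V := by
    intro h
    have h3 : ∀ q : ℕ, q.Prime → (q : E) = 0 := by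
      intro q hqp
      by_contra hq0
      refine hq q hqp hq0 (t⁻¹ * q) (V.mul_mem _ _ h (natCast_mem V q)) ?_
      rw [mul_inv_cancel_left₀ ht0]
    have e2 := h3 2 Nat.prime_two
    have e3 := h3 3 Nat.prime_three
    have : (1 : E) = 0 := by
      calc (1 : E) = ((3 : ℕ) : E) - ((2 : ℕ) : E) := by norm_num
        _ = 0 := by rw [e2, e3, sub_self]
    exact one_ne_zero this
  -- the case of elements of `S`
  have key : ∀ y : Δ, y ∈ S Δ V → z * y * zi ∈ S Δ V → z * y = y * z := by
    intro y hy hy'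
    obtain ⟨k, hk, hk1, hk2⟩ := exists_inv ht htn hy
    obtain ⟨m, hm, c, hc⟩ := H (1 + t • y) k hk1 hk2
    set u := z * (1 + t • y) * zi * k with hu
    have hzh : z * (1 + t • y) * zi = 1 + t • (z * y * zi) := by
      rw [mul_add, mul_one, add_mul, hz, mul_smul_comm, smul_mul_assoc]
    have hu1 : ∃ s ∈ S Δ V, u = 1 + t • s := by
      refine ⟨(z * y * zi - y) * k, mul_mem (sub_mem hy' hy) hk, ?_⟩
      have : (1 + t • y) * k = 1 := hk1
      calc u = (1 + t • (z * y * zi)) * k := by rw [hu, hzh]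
        _ = (1 + t • y) * k + (t • (z * y * zi) - t • y) * k := by
            rw [← add_mul]; congr 1; abel
        _ = 1 + t • ((z * y * zi - y) * k) := by rw [this, ← smul_sub, smul_mul_assoc]
    -- the norm of `u` is `1`
    have hN : Algebra.norm E u = 1 := by
      have e1 : Algebra.norm E z * Algebra.norm E zi = 1 := by rw [← map_mul, hz, map_one]
      have e2 : Algebra.norm E (1 + t • y) * Algebra.norm E k = 1 := by
        rw [← map_mul, hk1, map_one]
      rw [hu, map_mul, map_mul, map_mul]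
      calc Algebra.norm E z * Algebra.norm E (1 + t • y) * Algebra.norm E zi * Algebra.norm E k =
          (Algebra.norm E z * Algebra.norm E zi) * (Algebra.norm E (1 + t • y) *
            Algebra.norm E k) := by ring
        _ = 1 := by rw [e1, e2, one_mul]
    have hcd : c ^ Module.finrank E Δ = 1 := by
      rw [← Algebra.norm_algebraMap, ← hc, map_pow, hN, one_pow]
    have hum : u ^ (m * Module.finrank E Δ) = 1 := by
      rw [pow_mul, hc, ← map_pow, hcd, map_one]
    have hmd : 1 ≤ m * Module.finrank E Δ :=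
      Nat.mul_pos hm Module.finrank_pos
    have hu2 := eq_one ht ht0 hq hu1 hmd hum
    -- `z y zi = y`
    have e3 : z * (1 + t • y) * zi = 1 + t • y := by
      calc z * (1 + t • y) * zi = z * (1 + t • y) * zi * (k * (1 + t • y)) := by
            rw [hk2, mul_one]
        _ = u * (1 + t • y) := by rw [hu, ← mul_assoc]
        _ = 1 + t • y := by rw [hu2, one_mul]
    rw [hzh] at e3
    have e4 : z * y * zi = y := by
      have := add_left_cancel e3
      exact smul_right_injective Δ ht0 this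
    calc z * y = z * y * (zi * z) := by rw [hz', mul_one]
      _ = z * y * zi * z := by rw [mul_assoc, mul_assoc, mul_assoc]
      _ = y * z := by rw [e4]
  intro x
  obtain ⟨l, hl0, hl1, hl2⟩ := exists_smul V x (z * x * zi)
  have h := key (l • x) hl1 (by rwa [mul_smul_comm, smul_mul_assoc])
  rw [mul_smul_comm, smul_mul_assoc] at h
  exact smul_right_injective Δ hl0 h

end Pool.Agent.Herst
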