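import Pool.Agent.Herst.Targets

set_option autoImplicit false

/-! J14: roots of unity with real part in the centre, see Blueprint.lean.txt. -/

namespace Pool.Agent.Herst

open Polynomial

universe u

namespace J14_

/-- conjugation by `a` as a linear map over the centre -/
def phi {D : Type u} [DivisionRing D] (a : D) : D →ₗ[Subring.center D] D where
  toFun w := a * w * a⁻¹
  map_add' x y := by rw [mul_add, add_mul]
  map_smul' c x := by
    have hc : (c : D) ∈ Subring.center D := c.2
    have h2 := Subring.mem_center_iff.mp hc a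
    change a * ((c : D) * x) * a⁻¹ = (c : D) * (a * x * a⁻¹)
    rw [← mul_assoc a (c : D) x, h2]
    simp only [mul_assoc]

theorem phi_apply {D : Type u} [DivisionRing D] (a w : D) : phi a w = a * w * a⁻¹ := rfl

theorem phi_pow {D : Type u} [DivisionRing D] (a w : D) (i : ℕ) :
    (phi a ^ i) w = a ^ i * w * (a ^ i)⁻¹ := by
  induction i with
  | zero => simp
  | succ n ih =>
    rw [pow_succ', Module.End.mul_apply, ih, phi_apply, pow_succ', mul_inv_rev]
    simp only [mul_assoc]

theorem central_of_coprime {D : Type u} [DivisionRing D] (a : D) (m n : ℕ)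
    (hm : a ^ m ∈ Subring.center D) (hn : a ^ n ∈ Subring.center D) (h : Nat.Coprime m n) :
    a ∈ Subring.center D := by
  by_cases ha : a = 0
  · rw [ha]; exact Subring.zero_mem _
  have hinv : ∀ x : D, x ∈ Subring.center D → x⁻¹ ∈ Subring.center D := by
    intro x hx
    rw [Subring.mem_center_iff] at hx ⊢
    intro g
    by_cases hx0 : x = 0
    · rw [hx0]; simp
    · have h1 := hx g
      calc g * x⁻¹ = x⁻¹ * (x * g) * x⁻¹ := by
            rw [← mul_assoc, inv_mul_cancel₀ hx0, one_mul]
        _ = x⁻¹ * (g * x) * x⁻¹ := by rw [h1]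
        _ = x⁻¹ * g := by rw [mul_assoc, mul_assoc, mul_inv_cancel₀ hx0, mul_one]
  have hz : ∀ x : D, x ∈ Subring.center D → ∀ k : ℤ, x ^ k ∈ Subring.center D := by
    intro x hx k
    obtain ⟨j, rfl | rfl⟩ := k.eq_nat_or_neg
    · rw [zpow_natCast]; exact Subring.pow_mem _ hx j
    · rw [zpow_neg, zpow_natCast]; exact hinv _ (Subring.pow_mem _ hx j)
  have hb := Nat.gcd_eq_gcd_ab m n
  rw [Nat.Coprime] at h
  rw [h] at hb
  have h1 : a = (a ^ m) ^ (Nat.gcdA m n) * (a ^ n) ^ (Nat.gcdB m n) := by
    rw [← zpow_natCast a m, ← zpow_natCast a n, ← zpow_mul, ← zpow_mul, ← zpow_add₀ ha, ← hb]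
    simp
  rw [h1]
  exact Subring.mul_mem _ (hz _ hm _) (hz _ hn _)

end J14_

open J14_

theorem pF (h1 : tN.{u}) (h2 : tR1.{u}) (h3 : tR3.{u}) (h4 : tLI.{u}) : tF.{u} := by
  intro D _ N hN q hq hq2 hqD hτ a ha haq
  by_contra hac
  obtain ⟨τ, hτ⟩ := hτ
  obtain ⟨Q, hQ⟩ := hτ
  have ha0 : a ≠ 0 := hN.ne a ha
  have : Fact q.Prime := ⟨hq⟩
  have hintN : ∀ x ∈ N, IsIntegral (Subring.center D) x := by
    intro x hx
    obtain ⟨n, hn, hxn⟩ := hN.rad x hx
    refine ⟨X ^ n - C (⟨x ^ n, hxn⟩ : Subring.center D), ?_, ?_⟩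
    · exact monic_X_pow_sub_C _ (by omega)
    · rw [eval₂_sub, eval₂_X_pow, eval₂_C]
      exact sub_self _
  obtain ⟨M, f, hM2, hMD, hf, hmin⟩ := h3 D N hN a ha hac
  -- M = q
  have hMq : M ≤ q := by
    have hd : minpoly (Subring.center D) a ∣ X ^ q - C (⟨a ^ q, haq⟩ : Subring.center D) := by
      apply minpoly.dvd
      rw [map_sub, map_pow, aeval_X, aeval_C]
      exact sub_self _
    have hne : (X ^ q - C (⟨a ^ q, haq⟩ : Subring.center D) : (Subring.center D)[X]) ≠ 0 :=
      (monic_X_pow_sub_C _ hq.ne_zero).ne_zero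
    have := natDegree_le_of_dvd hd hne
    rw [hmin, natDegree_X_pow_sub_C, natDegree_X_pow_sub_C] at this
    exact this
  have hMq' : M = q := by
    by_contra hne
    have hlt : M < q := lt_of_le_of_ne hMq hne
    have hcop : Nat.Coprime M q := by
      rw [Nat.coprime_comm]
      exact (Nat.Prime.coprime_iff_not_dvd hq).mpr (fun hd => by
        have := Nat.le_of_dvd (by omega) hd
        omega)
    exact hac (central_of_coprime a M q (hf ▸ f.2) haq hcop)
  subst hMq'
  have hdeg : (minpoly (Subring.center D) a).natDegree = M := by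
    rw [hmin, natDegree_X_pow_sub_C]
  -- the polynomials
  set P : (Subring.center D)[X] := X ^ 2 - C τ * X + 1 with hP
  set R : (Subring.center D)[X] := Q * (X - 1) with hR
  have hPR : P * R = X ^ M - 1 := by
    rw [hR, ← mul_assoc, ← hQ, cyclotomic_prime_mul_X_sub_one]
  have hXM : (X ^ M - 1 : (Subring.center D)[X]) ≠ 0 := by
    have := (monic_X_pow_sub_C (1 : Subring.center D) hq.ne_zero).ne_zero
    rwa [C_1] at this
  have hR0 : R ≠ 0 := by
    intro h0
    rw [h0, mul_zero] at hPR
    exact hXM hPR.symm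
  have hPdeg : P.natDegree = 2 := by
    rw [hP]
    compute_degree!
  have hP0 : P ≠ 0 := by
    intro h0
    rw [h0] at hPdeg
    simp at hPdeg
  have hRdeg : R.natDegree < M := by
    have e1 : (P * R).natDegree = P.natDegree + R.natDegree := natDegree_mul hP0 hR0
    rw [hPR, hPdeg] at e1
    have e2 : (X ^ M - 1 : (Subring.center D)[X]).natDegree = M := by
      have := natDegree_X_pow_sub_C (n := M) (r := (1 : Subring.center D))
      rwa [C_1] at this
    rw [e2] at e1
    omega
  -- the operator is nonzero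
  have hw : ∃ w : D, aeval (phi a) R w ≠ 0 := by
    by_contra hall
    push Not at hall
    have hli : LinearIndependent (Subring.center D) (fun i : Fin M => a ^ (M - 1 - (i : ℕ))) := by
      have hl := linearIndependent_pow (K := Subring.center D) a
      rw [hdeg] at hl
      have := hl.comp (Fin.rev : Fin M → Fin M) Fin.rev_injective
      convert this using 1
      funext i
      simp only [Function.comp, Fin.val_rev]
      congr 1
      omega
    have hz := h4 D M (fun i => ((R.coeff i : Subring.center D) : D) * a ^ (i : ℕ))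
      (fun i : Fin M => a ^ (M - 1 - (i : ℕ))) hli (by
        intro w
        have hs := hall w
        rw [aeval_eq_sum_range' hRdeg, LinearMap.sum_apply] at hs
        have hs2 := congrArg (fun t => t * a ^ (M - 1)) hs
        simp only [zero_mul] at hs2
        rw [Finset.sum_mul] at hs2
        rw [← hs2, Finset.sum_range]
        refine Finset.sum_congr rfl (fun i _ => ?_)
        rw [LinearMap.smul_apply, phi_pow]
        change _ = ((R.coeff i : Subring.center D) : D) * (a ^ (i : ℕ) * w * (a ^ (i : ℕ))⁻¹) *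
          a ^ (M - 1)
        have hi : (M - 1) = (i : ℕ) + (M - 1 - (i : ℕ)) := by
          have := i.2
          omega
        have hpow : (a ^ (i : ℕ))⁻¹ * a ^ (M - 1) = a ^ (M - 1 - (i : ℕ)) := by
          conv_lhs => rw [hi, pow_add]
          rw [← mul_assoc, inv_mul_cancel₀ (pow_ne_zero _ ha0), one_mul]
        rw [mul_assoc _ _ (a ^ (M - 1)), mul_assoc _ _ (a ^ (M - 1)), hpow]
        simp only [mul_assoc])
    apply hR0
    ext k
    rw [coeff_zero]
    by_cases hk : k < M
    · have := hz ⟨k, hk⟩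
      simp only [mul_eq_zero] at this
      rcases this with h | h
      · exact congrArg _ (Subtype.ext h)
      · exact absurd h (pow_ne_zero _ ha0)
    · rw [coeff_eq_zero_of_natDegree_lt (by omega)]
  obtain ⟨w, hw⟩ := hw
  set y : D := aeval (phi a) R w with hy
  have hy0 : y ≠ 0 := hw
  have hPy : aeval (phi a) P y = 0 := by
    rw [hy, ← Module.End.mul_apply, ← map_mul, hPR, map_sub, map_pow, aeval_X, map_one,
      LinearMap.sub_apply, phi_pow, Module.End.one_apply]
    have hc := Subring.mem_center_iff.mp haq w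
    rw [← hc, mul_assoc, mul_inv_cancel₀ (pow_ne_zero _ ha0), mul_one, sub_self]
  have hphi2 : phi a (phi a y) - (τ : D) * phi a y + y = 0 := by
    have h := hPy
    rw [hP, map_add, map_sub, map_mul, map_pow, aeval_X, aeval_C, map_one] at h
    have h' : phi a (phi a y) - (algebraMap (Subring.center D) D) τ * phi a y + y = 0 := by
      simpa [pow_two, Algebra.smul_def] using h
    exact h'
  set v : D := phi a y with hv
  have hv0 : v ≠ 0 := by
    rw [hv, phi_apply]
    exact mul_ne_zero (mul_ne_zero ha0 hy0) (inv_ne_zero ha0)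
  set c : D := a * y * a⁻¹ * y⁻¹ with hc
  have hcv : c = v * y⁻¹ := by rw [hc, hv, phi_apply]
  have hcN : c ∈ N := by
    have : c = a * (y * a⁻¹ * y⁻¹) := by rw [hc]; simp only [mul_assoc]
    rw [this]
    exact hN.mul _ ha _ (hN.conj _ (hN.inv _ ha) _ hy0)
  have hc0 : c ≠ 0 := hN.ne _ hcN
  have hcinv : c⁻¹ = y * v⁻¹ := by rw [hcv, mul_inv_rev, inv_inv]
  have hconj : a * c * a⁻¹ = (τ : D) - c⁻¹ := by
    have e1 : a * c * a⁻¹ = phi a v * v⁻¹ := by
      rw [hcv, phi_apply]
      have : v⁻¹ = a * y⁻¹ * a⁻¹ := by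
        rw [hv, phi_apply, mul_inv_rev, mul_inv_rev, inv_inv, mul_assoc]
      rw [this]
      have e : a⁻¹ * (a * y⁻¹ * a⁻¹) = y⁻¹ * a⁻¹ := by
        rw [mul_assoc, ← mul_assoc, inv_mul_cancel₀ ha0, one_mul]
      rw [mul_assoc (a * v), e]
      simp only [mul_assoc]
    have e2 : phi a v = (τ : D) * v - y := by
      have := hphi2
      have h3 : phi a v = (phi a v - (τ : D) * v + y) + ((τ : D) * v - y) := by abel
      rw [h3, this, zero_add]
    rw [e1, e2, sub_mul, mul_assoc, mul_inv_cancel₀ hv0, mul_one, hcinv]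
  have hac2 : a * c = c * a := by
    apply h1 D N hN c hcN a ha0
    rw [hconj]
    exact Subalgebra.sub_mem _ (Subalgebra.algebraMap_mem _ τ) (hintN c hcN).inv_mem_adjoin
  have hcc : c = (τ : D) - c⁻¹ := by
    rw [← hconj, hac2, mul_assoc, mul_inv_cancel₀ ha0, mul_one]
  have hPc : aeval c P = 0 := by
    rw [hP, map_add, map_sub, map_mul, map_pow, aeval_X, aeval_C, map_one]
    have e : c * c = ((τ : D) - c⁻¹) * c := by rw [← hcc]
    rw [sub_mul, inv_mul_cancel₀ hc0] at e
    rw [pow_two, e]
    change (τ : D) * c - 1 - (τ : D) * c + 1 = 0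
    abel
  have hcq : c ^ M = 1 := by
    have e : aeval c (P * R) = 0 := by rw [map_mul, hPc, zero_mul]
    rw [hPR, map_sub, map_pow, aeval_X, map_one] at e
    exact sub_eq_zero.mp e
  have hccen : c ∈ Subring.center D := h2 D N hN c hcN M (by omega) hcq
  have hcy : y⁻¹ * a * (y⁻¹)⁻¹ = c * a := by
    rw [inv_inv]
    have e : c * y * a = a * y := by
      rw [hc]
      have : a * y * a⁻¹ * y⁻¹ * y * a = a * y := by
        rw [mul_assoc _ y⁻¹ y, inv_mul_cancel₀ hy0, mul_one, mul_assoc, inv_mul_cancel₀ ha0,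
          mul_one]
      exact this
    have e2 := Subring.mem_center_iff.mp hccen y
    rw [mul_assoc, ← e, ← e2, ← mul_assoc, ← mul_assoc, inv_mul_cancel₀ hy0, one_mul]
  have hay : y⁻¹ * a = a * y⁻¹ := by
    apply h1 D N hN a ha (y⁻¹) (inv_ne_zero hy0)
    rw [hcy]
    exact Subalgebra.mul_mem _ (Subalgebra.algebraMap_mem _ (⟨c, hccen⟩ : Subring.center D))
      (Algebra.subset_adjoin rfl)
  have hc1 : c = 1 := by
    have e : y⁻¹ * a * (y⁻¹)⁻¹ = a := by
      rw [hay, mul_assoc, mul_inv_cancel₀ (inv_ne_zero hy0), mul_one]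
    rw [hcy] at e
    have : c * a = 1 * a := by rw [e, one_mul]
    exact mul_right_cancel₀ ha0 this
  have hP1 : P.eval 1 = 0 := by
    have e : aeval (1 : D) P = 0 := by rw [← hc1]; exact hPc
    have e2 : aeval (algebraMap (Subring.center D) D 1) P = algebraMap (Subring.center D) D (P.eval 1) := by
      rw [aeval_algebraMap_apply_eq_algebraMap_eval]
    rw [map_one, e] at e2
    have := e2.symm
    exact (map_eq_zero_iff _ (algebraMap (Subring.center D) D).injective).mp this
  have hq1 : eval 1 (cyclotomic M (Subring.center D)) = 0 := by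
    rw [hQ, eval_mul, hP1, zero_mul]
  rw [eval_one_cyclotomic_prime] at hq1
  apply hqD
  have := congrArg (fun t : Subring.center D => (t : D)) hq1
  simpa using this

end Pool.Agent.Herst
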