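import Pool.Agent.Herst.Targets

set_option autoImplicit false

/-! J2: finite dimensional domains over algebraic extensions of finite fields are commutative,
see Blueprint.lean.txt. -/

namespace Pool.Agent.Herst

open Polynomial

universe u

theorem pJac : tJac.{u} := by
  intro E Δ _ _ _ _ _ p hp hchar hE x y
  have : Fact p.Prime := ⟨hp⟩
  let _ : Algebra (ZMod p) E := ZMod.algebra E p
  let b := Module.finBasis E Δ
  have hint : ∀ e : E, IsIntegral (ZMod p) e := by
    intro e
    by_cases he : e = 0
    · rw [he]; exact isIntegral_zero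
    · obtain ⟨k, hk, hek⟩ := hE e he
      refine ⟨X ^ k - 1, ?_, ?_⟩
      · have := monic_X_pow_sub_C (1 : ZMod p) (n := k) (by omega)
        rwa [C_1] at this
      · simp [hek]
  let S : Set E := (Set.range (fun i => b.repr x i) ∪ Set.range (fun i => b.repr y i)) ∪
    (Set.range (fun i => b.repr 1 i) ∪
      Set.range (fun t : (Fin (Module.finrank E Δ) × Fin (Module.finrank E Δ)) ×
        Fin (Module.finrank E Δ) => b.repr (b t.1.1 * b t.1.2) t.2))
  have hSfin : S.Finite :=
    ((Set.finite_range _).union (Set.finite_range _)).union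
      ((Set.finite_range _).union (Set.finite_range _))
  let A : Subalgebra (ZMod p) E := Algebra.adjoin (ZMod p) S
  have hfg : (Subalgebra.toSubmodule A).FG := fg_adjoin_of_finite hSfin (fun e _ => hint e)
  have hAmod : Module.Finite (ZMod p) (Subalgebra.toSubmodule A) := Module.Finite.iff_fg.mpr hfg
  have hAfin : Finite (Subalgebra.toSubmodule A) := Module.finite_of_finite (ZMod p)
  have hx : ∀ i, b.repr x i ∈ A := fun i =>
    Algebra.subset_adjoin (Or.inl (Or.inl ⟨i, rfl⟩))
  have hy : ∀ i, b.repr y i ∈ A := fun i =>
    Algebra.subset_adjoin (Or.inl (Or.inr ⟨i, rfl⟩))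
  have h1 : ∀ i, b.repr 1 i ∈ A := fun i =>
    Algebra.subset_adjoin (Or.inr (Or.inl ⟨i, rfl⟩))
  have hbb : ∀ i j l, b.repr (b i * b j) l ∈ A := fun i j l =>
    Algebra.subset_adjoin (Or.inr (Or.inr ⟨((i, j), l), rfl⟩))
  let Δ0 : Subring Δ :=
    { carrier := {d | ∀ i, b.repr d i ∈ A}
      zero_mem' := by
        intro i
        simp only [map_zero, Finsupp.coe_zero, Pi.zero_apply]
        exact A.zero_mem
      one_mem' := h1
      add_mem' := by
        intro d e hd he i
        simp only [map_add, Finsupp.coe_add, Pi.add_apply]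
        exact A.add_mem (hd i) (he i)
      neg_mem' := by
        intro d hd i
        simp only [map_neg, Finsupp.coe_neg, Pi.neg_apply]
        exact A.neg_mem (hd i)
      mul_mem' := by
        intro d e hd he l
        have hde : d * e = ∑ i, ∑ j, (b.repr d i * b.repr e j) • (b i * b j) := by
          conv_lhs => rw [← b.sum_repr d, ← b.sum_repr e]
          rw [Finset.sum_mul_sum]
          refine Finset.sum_congr rfl (fun i _ => Finset.sum_congr rfl (fun j _ => ?_))
          rw [smul_mul_smul_comm]
        rw [hde, map_sum, Finsupp.finsetSum_apply]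
        refine A.sum_mem (fun i _ => ?_)
        rw [map_sum, Finsupp.finsetSum_apply]
        refine A.sum_mem (fun j _ => ?_)
        rw [map_smul, Finsupp.smul_apply, smul_eq_mul]
        exact A.mul_mem (A.mul_mem (hd i) (he j)) (hbb i j l) }
  have hfin : Finite Δ0 := by
    let F : Δ0 → (Fin (Module.finrank E Δ) → Subalgebra.toSubmodule A) :=
      fun d i => ⟨b.repr (d : Δ) i, d.2 i⟩
    have hF : Function.Injective F := by
      intro d e hde
      apply Subtype.ext
      apply b.repr.injective
      ext i
      have := congrFun hde i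
      exact congrArg Subtype.val this
    exact Finite.of_injective F hF
  have hfield : IsField Δ0 := Finite.isDomain_to_isField Δ0
  have := hfield.mul_comm ⟨x, hx⟩ ⟨y, hy⟩
  exact congrArg Subtype.val this

end Pool.Agent.Herst
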