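import Pool.Agent.Herst.Targets

set_option autoImplicit false

/-! J4: normalisers of `F(z)`. -/

namespace Pool.Agent.Herst

open Polynomial

universe u

namespace J4_

/-- Conjugation by `g`. -/
noncomputable def cj {D : Type u} [DivisionRing D] (g : D) (hg : g ≠ 0) :
    D →ₐ[Subring.center D] D where
  toFun x := g * x * g⁻¹
  map_one' := by simp [hg]
  map_mul' x y := by
    rw [show g * x * g⁻¹ * (g * y * g⁻¹) = g * x * (g⁻¹ * g) * y * g⁻¹ by simp only [mul_assoc],
      inv_mul_cancel₀ hg]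
    simp only [mul_assoc, one_mul]
  map_zero' := by simp
  map_add' x y := by rw [mul_add, add_mul]
  commutes' c := by
    have h := Subring.mem_center_iff.1 c.2 g
    change g * (c : D) * g⁻¹ = (c : D)
    rw [h, mul_assoc, mul_inv_cancel₀ hg, mul_one]

theorem cj_apply {D : Type u} [DivisionRing D] (g : D) (hg : g ≠ 0) (x : D) :
    cj g hg x = g * x * g⁻¹ := rfl

theorem cj_mem {D : Type u} [DivisionRing D] (g : D) (hg : g ≠ 0) (z : D)
    (hz : g * z * g⁻¹ ∈ Algebra.adjoin (Subring.center D) {z}) (x : D)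
    (hx : x ∈ Algebra.adjoin (Subring.center D) {z}) :
    g * x * g⁻¹ ∈ Algebra.adjoin (Subring.center D) {z} := by
  have h1 : (Algebra.adjoin (Subring.center D) {z}).map (cj g hg) ≤
      Algebra.adjoin (Subring.center D) {z} := by
    rw [AlgHom.map_adjoin, Set.image_singleton]
    apply Algebra.adjoin_le
    rw [Set.singleton_subset_iff]
    exact hz
  exact h1 ⟨x, hx, rfl⟩

theorem pow_mem {D : Type u} [DivisionRing D] (g : D) (hg : g ≠ 0) (z : D)
    (hz : g * z * g⁻¹ ∈ Algebra.adjoin (Subring.center D) {z}) (i : ℕ) :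
    g ^ i * z * (g ^ i)⁻¹ ∈ Algebra.adjoin (Subring.center D) {z} := by
  induction i with
  | zero =>
    rw [pow_zero, inv_one, one_mul, mul_one]
    exact Algebra.self_mem_adjoin_singleton _ z
  | succ i ih =>
    have h := cj_mem g hg z hz _ ih
    have e : g ^ (i + 1) * z * (g ^ (i + 1))⁻¹ = g * (g ^ i * z * (g ^ i)⁻¹) * g⁻¹ := by
      rw [pow_succ' g i, mul_inv_rev]
      simp only [mul_assoc]
    rw [e]
    exact h

theorem exists_pow {D : Type u} [DivisionRing D] (g : D) (hg : g ≠ 0) (z : D)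
    (hi : IsIntegral (Subring.center D) z)
    (hz : g * z * g⁻¹ ∈ Algebra.adjoin (Subring.center D) {z}) :
    ∃ r : ℕ, 1 ≤ r ∧ g ^ r * z = z * g ^ r := by
  classical
  let _ : CommRing (Algebra.adjoin (Subring.center D) {z}) :=
    Algebra.adjoinCommRingOfComm (Subring.center D) (s := {z}) (by
      intro a ha b hb
      rw [Set.mem_singleton_iff] at ha hb
      rw [ha, hb])
  have : IsDomain (Algebra.adjoin (Subring.center D) {z}) := Subalgebra.isDomain _
  let p : (Algebra.adjoin (Subring.center D) {z})[X] :=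
    (minpoly (Subring.center D) z).map (algebraMap (Subring.center D) _)
  have hp : p ≠ 0 := by
    have := (minpoly.monic hi).map (algebraMap (Subring.center D)
      (Algebra.adjoin (Subring.center D) {z}))
    exact this.ne_zero
  let f : ℕ → Algebra.adjoin (Subring.center D) {z} := fun i => ⟨_, pow_mem g hg z hz i⟩
  have hf : ∀ i, f i ∈ p.roots.toFinset := by
    intro i
    rw [Multiset.mem_toFinset, mem_roots hp, IsRoot.def]
    change eval (f i) ((minpoly (Subring.center D) z).map (algebraMap (Subring.center D) _)) = 0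
    rw [eval_map, ← aeval_def]
    apply Subtype.ext
    have h1 : ((aeval (f i) (minpoly (Subring.center D) z) :
        Algebra.adjoin (Subring.center D) {z}) : D) =
        aeval (g ^ i * z * (g ^ i)⁻¹) (minpoly (Subring.center D) z) := by
      have := (aeval_algHom_apply (Algebra.adjoin (Subring.center D) {z}).val (f i)
        (minpoly (Subring.center D) z)).symm
      exact this
    rw [h1]
    have h2 := aeval_algHom_apply (cj (g ^ i) (pow_ne_zero i hg)) z
      (minpoly (Subring.center D) z)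
    rw [minpoly.aeval, map_zero] at h2
    exact h2
  have hnf : ¬ Function.Injective f := by
    intro hinj
    have := Set.infinite_range_of_injective hinj
    apply this
    apply (Finset.finite_toSet p.roots.toFinset).subset
    rintro _ ⟨i, rfl⟩
    exact hf i
  have key : ∀ i j : ℕ, i < j → f i = f j → ∃ r : ℕ, 1 ≤ r ∧ g ^ r * z = z * g ^ r := by
    intro i j hij h
    refine ⟨j - i, by omega, ?_⟩
    have h1 : g ^ i * z * (g ^ i)⁻¹ = g ^ j * z * (g ^ j)⁻¹ := congrArg Subtype.val h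
    have h2 : g ^ j = g ^ i * g ^ (j - i) := by
      rw [← pow_add]
      congr 1
      omega
    have hgi : g ^ i ≠ 0 := pow_ne_zero _ hg
    have hgr : g ^ (j - i) ≠ 0 := pow_ne_zero _ hg
    rw [h2, mul_inv_rev] at h1
    have h3 : z = g ^ (j - i) * z * (g ^ (j - i))⁻¹ := by
      have h4 : (g ^ i)⁻¹ * (g ^ i * z * (g ^ i)⁻¹) * g ^ i =
          (g ^ i)⁻¹ * (g ^ i * g ^ (j - i) * z * ((g ^ (j - i))⁻¹ * (g ^ i)⁻¹)) * g ^ i := by
        rw [h1]
      have e1 : (g ^ i)⁻¹ * (g ^ i * z * (g ^ i)⁻¹) * g ^ i = z := by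
        rw [show (g ^ i)⁻¹ * (g ^ i * z * (g ^ i)⁻¹) * g ^ i =
          ((g ^ i)⁻¹ * g ^ i) * z * ((g ^ i)⁻¹ * g ^ i) by simp only [mul_assoc],
          inv_mul_cancel₀ hgi, one_mul, mul_one]
      have e2 : (g ^ i)⁻¹ * (g ^ i * g ^ (j - i) * z * ((g ^ (j - i))⁻¹ * (g ^ i)⁻¹)) * g ^ i =
          g ^ (j - i) * z * (g ^ (j - i))⁻¹ := by
        rw [show (g ^ i)⁻¹ * (g ^ i * g ^ (j - i) * z * ((g ^ (j - i))⁻¹ * (g ^ i)⁻¹)) * g ^ i =
          ((g ^ i)⁻¹ * g ^ i) * g ^ (j - i) * z * (g ^ (j - i))⁻¹ * ((g ^ i)⁻¹ * g ^ i) by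
            simp only [mul_assoc],
          inv_mul_cancel₀ hgi, one_mul, mul_one]
      rw [e1, e2] at h4
      exact h4
    calc g ^ (j - i) * z = g ^ (j - i) * z * ((g ^ (j - i))⁻¹ * g ^ (j - i)) := by
          rw [inv_mul_cancel₀ hgr, mul_one]
      _ = (g ^ (j - i) * z * (g ^ (j - i))⁻¹) * g ^ (j - i) := by simp only [mul_assoc]
      _ = z * g ^ (j - i) := by rw [← h3]
  rw [Function.Injective] at hnf
  push Not at hnf
  obtain ⟨i, j, h, hne⟩ := hnf
  rcases lt_or_gt_of_ne hne with h1 | h1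
  · exact key i j h1 h
  · exact key j i h1 h.symm

/-- The statement in a division ring in which a power of `g` is central. -/
theorem core (h : tCF.{u}) {C : Type u} [DivisionRing C] (z g : C) (hz : z ≠ 0) (hg : g ≠ 0)
    (hi : IsIntegral (Subring.center C) z)
    (hr : ∀ x : C, x ≠ 0 → ∃ m : ℕ, 1 ≤ m ∧ (z * x * z⁻¹ * x⁻¹) ^ m ∈ Subring.center C)
    (hc : g * z * g⁻¹ ∈ Algebra.adjoin (Subring.center C) {z})
    (r : ℕ) (hr1 : 1 ≤ r) (hgr : g ^ r ∈ Subring.center C) : g * z = z * g := by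
  classical
  set E := Subring.center C with hE
  set P : Subalgebra E C := Algebra.adjoin E {z} with hP
  have : FiniteDimensional E P := .of_fg hi.fg_adjoin_singleton
  -- the module
  let φ : (Fin r → P) →ₗ[E] C :=
    ∑ j : Fin r, (LinearMap.mulRight E (g ^ (j : ℕ))) ∘ₗ P.val.toLinearMap ∘ₗ LinearMap.proj j
  have hφ : ∀ f : Fin r → P, φ f = ∑ j : Fin r, (f j : C) * g ^ (j : ℕ) := by
    intro f
    simp [φ, LinearMap.sum_apply]
  let W : Submodule E C := LinearMap.range φ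
  have : FiniteDimensional E W := inferInstance
  have hW1 : ∀ k : ℕ, ∀ p ∈ P, p * g ^ k ∈ W := by
    intro k
    induction k using Nat.strong_induction_on with
    | _ k ih =>
      intro p hp
      by_cases hk : k < r
      · refine ⟨Pi.single ⟨k, hk⟩ ⟨p, hp⟩, ?_⟩
        rw [hφ, Finset.sum_eq_single (⟨k, hk⟩ : Fin r)]
        · simp
        · intro b _ hb
          simp [hb]
        · intro hb
          exact absurd (Finset.mem_univ _) hb
      · have h1 : p * g ^ k = (p * g ^ r) * g ^ (k - r) := by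
          rw [mul_assoc, ← pow_add]
          congr 2
          omega
        rw [h1]
        apply ih (k - r) (by omega)
        have h2 : p * g ^ r = (⟨g ^ r, hgr⟩ : E) • p := by
          change p * g ^ r = g ^ r * p
          exact (Subring.mem_center_iff.1 hgr p)
        rw [h2]
        exact P.smul_mem hp _
  have hW2 : ∀ w ∈ W, z * w ∈ W := by
    rintro _ ⟨f, rfl⟩
    rw [hφ, Finset.mul_sum]
    apply Submodule.sum_mem
    intro j _
    rw [← mul_assoc]
    exact hW1 _ _ (P.mul_mem (Algebra.self_mem_adjoin_singleton _ z) (f j).2)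
  have hW3 : ∀ w ∈ W, g * w ∈ W := by
    rintro _ ⟨f, rfl⟩
    rw [hφ, Finset.mul_sum]
    apply Submodule.sum_mem
    intro j _
    have h1 : g * ((f j : C) * g ^ (j : ℕ)) = (g * (f j : C) * g⁻¹) * g ^ ((j : ℕ) + 1) := by
      rw [pow_succ', show g * (f j : C) * g⁻¹ * (g * g ^ (j : ℕ)) =
        g * (f j : C) * (g⁻¹ * g) * g ^ (j : ℕ) by simp only [mul_assoc], inv_mul_cancel₀ hg]
      simp only [mul_assoc, one_mul]
    rw [h1]
    exact hW1 _ _ (cj_mem g hg z hc _ (f j).2)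
  set Δ : Subalgebra E C := Algebra.adjoin E {z, g} with hΔ
  have hW4 : ∀ a ∈ Δ, ∀ w ∈ W, a * w ∈ W := by
    intro a ha
    induction ha using Algebra.adjoin_induction with
    | mem x hx =>
      rcases hx with rfl | hx
      · exact hW2
      · rw [Set.mem_singleton_iff] at hx
        rw [hx]
        exact hW3
    | algebraMap e =>
      intro w hw
      rw [← Algebra.smul_def]
      exact W.smul_mem _ hw
    | add x y _ _ hx hy =>
      intro w hw
      rw [add_mul]
      exact W.add_mem (hx w hw) (hy w hw)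
    | mul x y _ _ hx hy =>
      intro w hw
      rw [mul_assoc]
      exact hx _ (hy w hw)
  have hone : (1 : C) ∈ W := by
    have := hW1 0 1 P.one_mem
    simpa using this
  have hle : Subalgebra.toSubmodule Δ ≤ W := by
    intro a ha
    have := hW4 a ha 1 hone
    rwa [mul_one] at this
  have : FiniteDimensional E Δ := by
    have : FiniteDimensional E (Subalgebra.toSubmodule Δ) := Submodule.finiteDimensional_of_le hle
    exact this
  have : IsDomain Δ := Subalgebra.isDomain Δ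
  have hzΔ : z ∈ Δ := Algebra.subset_adjoin (by simp)
  have hgΔ : g ∈ Δ := Algebra.subset_adjoin (by simp)
  have hziΔ : z⁻¹ ∈ Δ := by
    have h1 : P ≤ Δ := Algebra.adjoin_mono (by simp)
    exact h1 hi.inv_mem_adjoin
  have key := h E Δ ⟨z, hzΔ⟩ ⟨z⁻¹, hziΔ⟩ (Subtype.ext (mul_inv_cancel₀ hz))
    (Subtype.ext (inv_mul_cancel₀ hz)) (by
      rintro ⟨x, hx⟩ ⟨xi, hxi⟩ h1 h2
      have h1' : x * xi = 1 := congrArg Subtype.val h1
      have hx0 : x ≠ 0 := by
        rintro rfl
        rw [zero_mul] at h1'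
        exact zero_ne_one h1'
      have hxi' : xi = x⁻¹ := by
        rw [← mul_right_inj' hx0, h1', mul_inv_cancel₀ hx0]
      obtain ⟨m, hm, hm2⟩ := hr x hx0
      refine ⟨m, hm, ⟨_, hm2⟩, ?_⟩
      apply Subtype.ext
      change (z * x * z⁻¹ * xi) ^ m = (z * x * z⁻¹ * x⁻¹) ^ m
      rw [hxi']) ⟨g, hgΔ⟩
  exact (congrArg Subtype.val key).symm

/-- Passing to the centraliser of a power of `g`. -/
theorem descend (h : tCF.{u}) {D : Type u} [DivisionRing D] (S : Subring D)
    (hS : ∀ x ∈ S, x⁻¹ ∈ S) (hF : Subring.center D ≤ S)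
    (z g : D) (hzS : z ∈ S) (hgS : g ∈ S) (hz : z ≠ 0) (hg : g ≠ 0)
    (hi : IsIntegral (Subring.center D) z)
    (hr : ∀ x : D, x ≠ 0 → ∃ m : ℕ, 1 ≤ m ∧ (z * x * z⁻¹ * x⁻¹) ^ m ∈ Subring.center D)
    (hc : g * z * g⁻¹ ∈ Algebra.adjoin (Subring.center D) {z})
    (r : ℕ) (hr1 : 1 ≤ r) (hgr : ∀ x ∈ S, x * g ^ r = g ^ r * x) : g * z = z * g := by
  let _ : DivisionRing S := DivisionRing.ofIsUnitOrEqZero (by
    intro a
    by_cases ha : a = 0
    · exact Or.inr ha
    · left
      have ha' : (a : D) ≠ 0 := fun h0 => ha (Subtype.ext h0)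
      exact ⟨⟨a, ⟨(a : D)⁻¹, hS _ a.2⟩, Subtype.ext (mul_inv_cancel₀ ha'),
        Subtype.ext (inv_mul_cancel₀ ha')⟩, rfl⟩)
  have hinv : ∀ a : S, a ≠ 0 → ((a⁻¹ : S) : D) = (a : D)⁻¹ := by
    intro a ha
    have ha' : (a : D) ≠ 0 := fun h0 => ha (Subtype.ext h0)
    have h1 : a * a⁻¹ = 1 := mul_inv_cancel₀ ha
    have h2 : (a : D) * ((a⁻¹ : S) : D) = 1 := congrArg Subtype.val h1
    rw [← mul_right_inj' ha', h2, mul_inv_cancel₀ ha']
  let ι : Subring.center D →+* Subring.center S :=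
    { toFun := fun x => ⟨⟨x.1, hF x.2⟩, Subring.mem_center_iff.2 (fun y =>
        Subtype.ext (Subring.mem_center_iff.1 x.2 y.1))⟩
      map_one' := rfl
      map_mul' := fun _ _ => rfl
      map_zero' := rfl
      map_add' := fun _ _ => rfl }
  have hev : ∀ p : (Subring.center D)[X], (((aeval (⟨z, hzS⟩ : S)) (p.map ι) : S) : D) =
      aeval z p := by
    intro p
    rw [aeval_def, eval₂_map, aeval_def]
    have := hom_eval₂ p ((algebraMap (Subring.center S) S).comp ι) S.subtype (⟨z, hzS⟩ : S)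
    exact this
  have hi' : IsIntegral (Subring.center S) (⟨z, hzS⟩ : S) := by
    obtain ⟨p, hp, hp0⟩ := hi
    refine ⟨p.map ι, hp.map ι, ?_⟩
    apply Subtype.ext
    have := hev p
    rw [aeval_def, aeval_def, hp0] at this
    exact this
  have hz' : (⟨z, hzS⟩ : S) ≠ 0 := fun h0 => hz (congrArg Subtype.val h0)
  have hg' : (⟨g, hgS⟩ : S) ≠ 0 := fun h0 => hg (congrArg Subtype.val h0)
  have hr' : ∀ x : S, x ≠ 0 → ∃ m : ℕ, 1 ≤ m ∧
      ((⟨z, hzS⟩ : S) * x * (⟨z, hzS⟩ : S)⁻¹ * x⁻¹) ^ m ∈ Subring.center S := by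
    intro x hx
    have hx' : (x : D) ≠ 0 := fun h0 => hx (Subtype.ext h0)
    obtain ⟨m, hm, hm2⟩ := hr x hx'
    refine ⟨m, hm, ?_⟩
    rw [Subring.mem_center_iff]
    intro y
    have h1 := Subring.mem_center_iff.1 hm2 y
    have h2 : ((((⟨z, hzS⟩ : S) * x * (⟨z, hzS⟩ : S)⁻¹ * x⁻¹) ^ m : S) : D) =
        (z * (x : D) * z⁻¹ * (x : D)⁻¹) ^ m := by
      change (z * (x : D) * (((⟨z, hzS⟩ : S)⁻¹ : S) : D) * ((x⁻¹ : S) : D)) ^ m = _
      rw [hinv _ hz', hinv _ hx]
    apply Subtype.ext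
    change (y : D) * ((((⟨z, hzS⟩ : S) * x * (⟨z, hzS⟩ : S)⁻¹ * x⁻¹) ^ m : S) : D) =
      ((((⟨z, hzS⟩ : S) * x * (⟨z, hzS⟩ : S)⁻¹ * x⁻¹) ^ m : S) : D) * (y : D)
    rw [h2]
    exact h1
  have hc' : (⟨g, hgS⟩ : S) * ⟨z, hzS⟩ * (⟨g, hgS⟩ : S)⁻¹ ∈
      Algebra.adjoin (Subring.center S) {(⟨z, hzS⟩ : S)} := by
    rw [Algebra.adjoin_singleton_eq_range_aeval] at hc ⊢
    obtain ⟨p, hp⟩ := hc
    refine ⟨p.map ι, ?_⟩
    apply Subtype.ext
    change (((aeval (⟨z, hzS⟩ : S)) (p.map ι) : S) : D) =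
      g * z * (((⟨g, hgS⟩ : S)⁻¹ : S) : D)
    rw [hev p, hinv _ hg']
    exact hp
  have hgr' : (⟨g, hgS⟩ : S) ^ r ∈ Subring.center S := by
    rw [Subring.mem_center_iff]
    intro y
    apply Subtype.ext
    change (y : D) * g ^ r = g ^ r * (y : D)
    exact hgr y y.2
  have key := core h (⟨z, hzS⟩ : S) ⟨g, hgS⟩ hz' hg' hi' hr' hc' r hr1 hgr'
  exact congrArg Subtype.val key

end J4_

theorem pL2 (h : tCF.{u}) : tL2.{u} := by
  intro D _ z g hz hg hi hr hc
  obtain ⟨r, hr1, hr2⟩ := J4_.exists_pow g hg z hi hc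
  refine J4_.descend h (Subring.centralizer {g ^ r}) ?_ ?_ z g ?_ ?_ hz hg hi hr hc r hr1 ?_
  · intro x hx
    rw [Subring.mem_centralizer_iff] at hx ⊢
    intro y hy
    have h1 : Commute y x := hx y hy
    exact h1.inv_right₀
  · intro x hx
    rw [Subring.mem_centralizer_iff]
    intro y _
    exact Subring.mem_center_iff.1 hx y
  · rw [Subring.mem_centralizer_iff]
    intro y hy
    rw [Set.mem_singleton_iff] at hy
    rw [hy, hr2]
  · rw [Subring.mem_centralizer_iff]
    intro y hy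
    rw [Set.mem_singleton_iff] at hy
    rw [hy, ← pow_succ, ← pow_succ']
  · intro x hx
    rw [Subring.mem_centralizer_iff] at hx
    exact (hx _ rfl).symm

end Pool.Agent.Herst
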