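import Pool.Agent.Herst.Targets

set_option autoImplicit false

/-! # J6: independence (shortest relation) -/

namespace Pool.Agent.Herst

universe u

namespace J6_

theorem aux {D : Type u} [DivisionRing D] {n : ℕ} {b : Fin n → D}
    (hb : LinearIndependent (Subring.center D) b) :
    ∀ (k : ℕ) (a : Fin n → D), {i | a i ≠ 0}.ncard ≤ k →
      (∀ w : D, ∑ i, a i * w * b i = 0) → ∀ i, a i = 0 := by
  intro k
  induction k with
  | zero =>
    intro a hk _ i
    have h0 : {i | a i ≠ 0} = (∅ : Set (Fin n)) := by
      rw [← Set.ncard_eq_zero (Set.toFinite _)]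
      omega
    by_contra hi
    have : i ∈ {i | a i ≠ 0} := hi
    rw [h0] at this
    exact this
  | succ k ih =>
    intro a hk hw
    by_contra hcon
    push Not at hcon
    obtain ⟨j, hj⟩ := hcon
    have hcomm : ∀ x : D, ∀ i, (a j)⁻¹ * a i * x - x * ((a j)⁻¹ * a i) = 0 := by
      intro x
      apply ih (fun i => (a j)⁻¹ * a i * x - x * ((a j)⁻¹ * a i))
      · have hlt : {i | (a j)⁻¹ * a i * x - x * ((a j)⁻¹ * a i) ≠ 0}.ncard <
            {i | a i ≠ 0}.ncard := by
          apply Set.ncard_lt_ncard _ (Set.toFinite _)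
          refine Set.ssubset_iff_of_subset ?_ |>.mpr ⟨j, hj, ?_⟩
          · intro i hi hi0
            apply hi
            rw [hi0]; simp
          · intro h
            apply h
            rw [inv_mul_cancel₀ hj]; simp
        omega
      · intro w
        have h1 : ∑ i, ((a j)⁻¹ * a i * x - x * ((a j)⁻¹ * a i)) * w * b i =
            (a j)⁻¹ * ∑ i, a i * (x * w) * b i - x * (a j)⁻¹ * ∑ i, a i * w * b i := by
          rw [Finset.mul_sum, Finset.mul_sum, ← Finset.sum_sub_distrib]
          apply Finset.sum_congr rfl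
          intro i _
          noncomm_ring
        rw [h1, hw, hw]; simp
    have hcen : ∀ i, (a j)⁻¹ * a i ∈ Subring.center D := by
      intro i
      rw [Subring.mem_center_iff]
      intro x
      exact (sub_eq_zero.mp (hcomm x i)).symm
    have hsum : ∑ i, (⟨(a j)⁻¹ * a i, hcen i⟩ : Subring.center D) • b i = 0 := by
      have h1 : ∑ i, (⟨(a j)⁻¹ * a i, hcen i⟩ : Subring.center D) • b i =
          (a j)⁻¹ * ∑ i, a i * 1 * b i := by
        rw [Finset.mul_sum]
        apply Finset.sum_congr rfl
        intro i _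
        rw [Subring.smul_def, smul_eq_mul, mul_one, mul_assoc]
      rw [h1, hw 1, mul_zero]
    have h0 := Fintype.linearIndependent_iff.mp hb _ hsum j
    have h1 : (a j)⁻¹ * a j = 0 := congrArg Subtype.val h0
    rw [inv_mul_cancel₀ hj] at h1
    exact one_ne_zero h1

end J6_

/-- J6: independence -/
theorem pLI : tLI.{u} := by
  intro D _ n a b hb hw
  exact J6_.aux hb _ a le_rfl hw

end Pool.Agent.Herst
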