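import Pool.Agent.Herst.Targets

set_option autoImplicit false

/-! J5c: norm and trace form of the factorisation, see Blueprint.lean.txt. -/

namespace Pool.Agent.Herst

open Polynomial

universe u

namespace J5c_

theorem eval_prod {D : Type u} [DivisionRing D] (c : D) (hc : c ∈ Subring.center D) (l : List D) :
    ((l.map (fun b => (X - C b : D[X]))).prod).eval c = (l.map (fun b => c - b)).prod := by
  induction l with
  | nil => simp
  | cons b t ih =>
    rw [List.map_cons, List.prod_cons, List.map_cons, List.prod_cons, ← ih]
    change eval₂ (RingHom.id D) c _ = _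
    rw [eval₂_mul_noncomm]
    · change eval c (X - C b) * eval c _ = _
      rw [eval_sub, eval_X, eval_C]
    · intro k
      exact (Subring.mem_center_iff.mp hc _)

theorem coeffs {D : Type u} [DivisionRing D] (l : List D) :
    ((l.map (fun b => (X - C b : D[X]))).prod).coeff l.length = 1 ∧
    (∀ k, l.length < k → ((l.map (fun b => (X - C b : D[X]))).prod).coeff k = 0) ∧
    (∀ n, l.length = n + 1 → ((l.map (fun b => (X - C b : D[X]))).prod).coeff n = -l.sum) := by
  induction l with
  | nil =>
    refine ⟨by simp, ?_, ?_⟩
    · intro k hk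
      simp only [List.length_nil] at hk
      simp only [List.map_nil, List.prod_nil, coeff_one]
      rw [if_neg (by omega)]
    · intro n hn
      simp at hn
  | cons b t ih =>
    obtain ⟨i1, i2, i3⟩ := ih
    simp only [List.map_cons, List.prod_cons, List.length_cons, List.sum_cons]
    set P : D[X] := (t.map (fun b => (X - C b : D[X]))).prod with hP
    have hs : ∀ k, ((X - C b) * P).coeff (k + 1) = P.coeff k - b * P.coeff (k + 1) := by
      intro k
      rw [sub_mul, coeff_sub, coeff_X_mul, coeff_C_mul]
    have h0 : ((X - C b) * P).coeff 0 = - (b * P.coeff 0) := by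
      rw [sub_mul, coeff_sub, coeff_X_mul_zero, coeff_C_mul, zero_sub]
    refine ⟨?_, ?_, ?_⟩
    · rw [hs, i1, i2 _ (by omega)]; simp
    · intro k hk
      obtain ⟨j, rfl⟩ : ∃ j, k = j + 1 := ⟨k - 1, by omega⟩
      rw [hs, i2 _ (by omega), i2 _ (by omega)]; simp
    · intro n hn
      have hn' : t.length = n := by omega
      rcases n with _ | m
      · have ht : t = [] := List.length_eq_zero_iff.mp hn'
        rw [h0, ← hn', i1, ht]
        simp
      · rw [hs, i3 m hn', ← hn', i1]
        rw [mul_one, neg_add_rev, sub_eq_add_neg]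

end J5c_

open J5c_

theorem pNT (h : tWed.{u}) : tNT.{u} := by
  intro D _ z hz
  obtain ⟨l, hlen, hne, hprod⟩ := h D z hz
  refine ⟨l, hlen, hne, ?_, ?_⟩
  · intro c
    have h1 : (l.map (fun g => (X - C (g * z * g⁻¹) : D[X]))) =
        (l.map (fun g => g * z * g⁻¹)).map (fun b => (X - C b : D[X])) := by
      rw [List.map_map]; rfl
    have h2 : (l.map (fun g => (c : D) - g * z * g⁻¹)) =
        (l.map (fun g => g * z * g⁻¹)).map (fun b => (c : D) - b) := by
      rw [List.map_map]; rfl
    rw [h2, ← eval_prod (c : D) c.2, ← h1, ← hprod, eval_map]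
    exact (hom_eval₂ _ (RingHom.id _) (algebraMap (Subring.center D) D) c).symm
  · have h1 : (l.map (fun g => (X - C (g * z * g⁻¹) : D[X]))) =
        (l.map (fun g => g * z * g⁻¹)).map (fun b => (X - C b : D[X])) := by
      rw [List.map_map]; rfl
    have hpos : 0 < (minpoly (Subring.center D) z).natDegree := minpoly.natDegree_pos hz
    have h3 := (coeffs (l.map (fun g => g * z * g⁻¹))).2.2
      ((minpoly (Subring.center D) z).natDegree - 1) (by rw [List.length_map, hlen]; omega)
    rw [← h1, ← hprod, coeff_map] at h3
    rw [← neg_inj, neg_neg, ← h3]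
    rfl

end Pool.Agent.Herst
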