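import Pool.Agent.Herst.Targets

set_option autoImplicit false

/-! J5a: right evaluation of polynomials over division rings. -/

namespace Pool.Agent.Herst

open Polynomial

universe u

theorem pEvMul : tEvMul.{u} := by
  intro D _ f h a ha
  set v := h.eval a with hv
  induction f using Polynomial.induction_on' with
  | add p q hp hq => rw [add_mul, eval_add, hp, hq, eval_add, add_mul]
  | monomial n r =>
    have h1 : (monomial n r : D[X]) * h = C r * (h * X ^ n) := by
      rw [← C_mul_X_pow_eq_monomial, mul_assoc, (commute_X_pow h n).eq]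
    have h2 : (v * a * v⁻¹) ^ n * v = v * a ^ n := by
      induction n with
      | zero => simp
      | succ n ih =>
        have h3 : (v * a * v⁻¹) ^ (n + 1) * v = (v * a * v⁻¹) ^ n * v * a := by
          rw [pow_succ]
          simp only [mul_assoc]
          rw [inv_mul_cancel₀ ha, mul_one]
        have h4 : (monomial n r : D[X]) * h = C r * (h * X ^ n) := by
          rw [← C_mul_X_pow_eq_monomial, mul_assoc, (commute_X_pow h n).eq]
        rw [h3, ih h4, mul_assoc, ← pow_succ]
    rw [h1, eval_C_mul, eval_mul_X_pow, eval_monomial, mul_assoc, h2, ← hv]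

theorem pDivR : tDivR.{u} := by
  intro D _ f b
  induction f using Polynomial.induction_on' with
  | add p q hp hq =>
    obtain ⟨s, hs⟩ := hp
    obtain ⟨t, ht⟩ := hq
    refine ⟨s + t, ?_⟩
    rw [eval_add, C_add, add_mul]
    conv_lhs => rw [hs, ht]
    abel
  | monomial n r =>
    have hc : Commute (X : D[X]) (C b) := commute_X (C b)
    refine ⟨C r * ∑ i ∈ Finset.range n, X ^ i * C b ^ (n - 1 - i), ?_⟩
    rw [mul_assoc, hc.geom_sum₂_mul, eval_monomial, ← C_mul_X_pow_eq_monomial, mul_sub, C_mul,
      C_pow]
    abel

end Pool.Agent.Herst
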