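import Pool.Agent.Herst.Targets

set_option autoImplicit false

/-! J5b: the theorems of Dickson and Wedderburn on minimal polynomials over division rings. -/

namespace Pool.Agent.Herst

open Polynomial

universe u

namespace J5b_

variable {D : Type u} [DivisionRing D]

/-- Conjugation by `g`. -/
def cj (g : D) (hg : g ≠ 0) : D →+* D where
  toFun x := g * x * g⁻¹
  map_one' := by simp [hg]
  map_zero' := by simp
  map_mul' x y := by
    have : g⁻¹ * g = 1 := inv_mul_cancel₀ hg
    calc g * (x * y) * g⁻¹ = g * x * 1 * y * g⁻¹ := by simp [mul_assoc]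
      _ = g * x * (g⁻¹ * g) * y * g⁻¹ := by rw [this]
      _ = g * x * g⁻¹ * (g * y * g⁻¹) := by simp [mul_assoc]
  map_add' x y := by rw [mul_add, add_mul]

lemma cj_apply (g : D) (hg : g ≠ 0) (x : D) : cj g hg x = g * x * g⁻¹ := rfl

lemma cj_inj (g : D) (hg : g ≠ 0) : Function.Injective (cj g hg) := (cj g hg).injective

/-- The vanishing property. -/
def Van (z : D) (q : D[X]) : Prop := ∀ g : D, g ≠ 0 → q.eval (g * z * g⁻¹) = 0

lemma van_map {z : D} {q : D[X]} (hq : Van z q) (g : D) (hg : g ≠ 0) :
    Van z (q.map (cj g hg)) := by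
  intro k hk
  have h1 : k * z * k⁻¹ = cj g hg ((g⁻¹ * k) * z * (g⁻¹ * k)⁻¹) := by
    rw [cj_apply, mul_inv_rev, inv_inv]
    simp only [mul_assoc]
    rw [mul_inv_cancel₀ hg, mul_one]
    simp only [← mul_assoc]
    rw [mul_inv_cancel₀ hg, one_mul]
  rw [h1, eval_map, eval₂_at_apply, hq _ (mul_ne_zero (inv_ne_zero hg) hk), map_zero]

lemma eval_conj (p : (Subring.center D)[X]) (z g : D) (hg : g ≠ 0) (h : aeval z p = 0) :
    aeval (g * z * g⁻¹) p = 0 := by
  have h1 : cj g hg (aeval z p) = aeval (cj g hg z) p := by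
    rw [aeval_def, aeval_def, hom_eval₂]
    congr 1
    ext x
    change g * (x : D) * g⁻¹ = x
    rw [Subring.mem_center_iff.1 x.2 g, mul_assoc, mul_inv_cancel₀ hg, mul_one]
  rw [← cj_apply g hg z, ← h1, h, map_zero]

/-- The minimal polynomial over `D`. -/
noncomputable def P (z : D) : D[X] :=
  (minpoly (Subring.center D) z).map (algebraMap (Subring.center D) D)

lemma P_eval (z a : D) : (P z).eval a = aeval a (minpoly (Subring.center D) z) := by
  rw [P, ← eval₂_eq_eval_map, aeval_def]

lemma P_van (z : D) : Van z (P z) := by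
  intro g hg
  rw [P_eval]
  exact eval_conj _ z g hg (minpoly.aeval _ _)

lemma P_monic (z : D) (hz : IsIntegral (Subring.center D) z) : (P z).Monic :=
  (minpoly.monic hz).map _

lemma P_natDegree (z : D) (hz : IsIntegral (Subring.center D) z) :
    (P z).natDegree = (minpoly (Subring.center D) z).natDegree :=
  (minpoly.monic hz).natDegree_map _

lemma P_comm (z : D) (r : D[X]) : P z * r = r * P z := by
  have h1 : ∀ p : (Subring.center D)[X], ∀ r : D[X],
      p.map (algebraMap (Subring.center D) D) * r = r * p.map (algebraMap (Subring.center D) D) := by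
    intro p r
    induction p using Polynomial.induction_on' with
    | add p q hp hq => rw [Polynomial.map_add, add_mul, mul_add, hp, hq]
    | monomial n c =>
      rw [map_monomial]
      ext k
      rw [← C_mul_X_pow_eq_monomial]
      have h2 : (C ((algebraMap (Subring.center D) D) c) : D[X]) * r =
          r * C ((algebraMap (Subring.center D) D) c) := by
        ext j
        rw [coeff_C_mul, coeff_mul_C]
        exact (Subring.mem_center_iff.1 c.2 _).symm
      have h3 : (X ^ n : D[X]) * r = r * X ^ n := (Polynomial.commute_X_pow r n).eq.symm ▸ rfl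
      rw [mul_assoc, h3, ← mul_assoc, h2, mul_assoc]
  exact h1 _ r

lemma monic_prod (z : D) (l : List D) : (l.map (fun g => X - C (g * z * g⁻¹))).prod.Monic := by
  induction l with
  | nil => simp
  | cons g l ih =>
    rw [List.map_cons, List.prod_cons]
    exact (monic_X_sub_C _).mul ih

end J5b_

open J5b_

theorem pClass : tClass.{u} := by
  intro D _ z hz q0 hq0 hv0
  classical
  -- minimal degree
  have hex : ∃ n : ℕ, ∃ q : D[X], q ≠ 0 ∧ Van z q ∧ q.natDegree = n := ⟨_, q0, hq0, hv0, rfl⟩
  obtain ⟨q1, hq1, hv1, hn1⟩ := Nat.find_spec hex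
  have hmin : ∀ q : D[X], q ≠ 0 → Van z q → Nat.find hex ≤ q.natDegree :=
    fun q h1 h2 => Nat.find_min' hex ⟨q, h1, h2, rfl⟩
  set q : D[X] := C (q1.leadingCoeff⁻¹) * q1 with hq
  have hlc : q1.leadingCoeff ≠ 0 := leadingCoeff_ne_zero.2 hq1
  have hqv : Van z q := by
    intro g hg
    rw [hq, eval_C_mul, hv1 g hg, mul_zero]
  have hqm : q.Monic := by
    rw [Monic, hq, leadingCoeff_mul, leadingCoeff_C, inv_mul_cancel₀ hlc]
  have hqd : q.natDegree = Nat.find hex := by
    rw [hq, natDegree_C_mul (inv_ne_zero hlc), hn1]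
  have hfix : ∀ g : D, ∀ hg : g ≠ 0, q.map (cj g hg) = q := by
    intro g hg
    by_contra hne
    have h1 : q - q.map (cj g hg) ≠ 0 := sub_ne_zero.2 (Ne.symm hne)
    have h2 : Van z (q - q.map (cj g hg)) := by
      intro k hk
      rw [eval_sub, hqv k hk, van_map hqv g hg k hk, sub_zero]
    have h3 := hmin _ h1 h2
    have hmd : (q.map (cj g hg)).degree = q.degree := degree_map_eq_of_injective (cj_inj g hg) q
    have h4 : (q - q.map (cj g hg)).degree < q.degree := by
      apply degree_sub_lt_left hmd.symm hqm.ne_zero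
      rw [(hqm.map _).leadingCoeff, hqm.leadingCoeff]
    have h5 : (q - q.map (cj g hg)).natDegree < q.natDegree := natDegree_lt_natDegree h1 h4
    omega
  have hcen : ∀ i, q.coeff i ∈ Subring.center D := by
    intro i
    rw [Subring.mem_center_iff]
    intro g
    by_cases hg : g = 0
    · simp [hg]
    · have h1 := congrArg (fun p => p.coeff i) (hfix g hg)
      simp only [coeff_map, cj_apply] at h1
      calc g * q.coeff i = g * q.coeff i * g⁻¹ * g := by
            rw [mul_assoc (g * q.coeff i), inv_mul_cancel₀ hg, mul_one]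
        _ = q.coeff i * g := by rw [h1]
  have hsub : (↑q.coeffs : Set D) ⊆ Subring.center D := by
    intro c hc
    obtain ⟨n, -, rfl⟩ := Polynomial.mem_coeffs_iff.1 (Finset.mem_coe.1 hc)
    exact hcen n
  set p0 : (Subring.center D)[X] := q.toSubring (Subring.center D) hsub with hp0
  have hmap : p0.map (algebraMap (Subring.center D) D) = q := by
    rw [hp0]
    exact Polynomial.map_toSubring q (Subring.center D) hsub
  have hp00 : p0 ≠ 0 := by
    intro h
    rw [h, Polynomial.map_zero] at hmap
    exact hqm.ne_zero hmap.symm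
  have hroot : aeval z p0 = 0 := by
    rw [aeval_def, eval₂_eq_eval_map, hmap]
    have := hqv 1 one_ne_zero
    simpa using this
  have hdvd := minpoly.dvd (Subring.center D) z hroot
  have h6 := natDegree_le_of_dvd hdvd hp00
  have h7 : p0.natDegree = q.natDegree := by
    rw [← hmap, natDegree_map_eq_of_injective]
    exact (algebraMap (Subring.center D) D).injective
  have h8 := hmin q0 hq0 hv0
  omega

theorem pRoot (h1 : tEvMul.{u}) (h2 : tDivR.{u}) (h3 : tClass.{u}) : tRoot.{u} := by
  intro D _ z z' hz hz'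
  obtain ⟨s, hs⟩ := h2 D (P z) z'
  have he : (P z).eval z' = 0 := by rw [P_eval]; exact hz'
  rw [he, C_0, add_zero] at hs
  have hPm := P_monic z hz
  have hs0 : s ≠ 0 := by
    rintro rfl
    rw [zero_mul] at hs
    exact hPm.ne_zero hs
  have hX : (X - C z' : D[X]) ≠ 0 := X_sub_C_ne_zero z'
  have hs' : P z = (X - C z') * s := by
    have h4 : P z * (X - C z') = (X - C z') * s * (X - C z') := by
      rw [P_comm, mul_assoc, ← hs]
    exact mul_right_cancel₀ hX h4
  have hdeg : s.natDegree + 1 = (P z).natDegree := by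
    rw [hs, natDegree_mul hs0 hX, natDegree_X_sub_C]
  have hex : ∃ g : D, g ≠ 0 ∧ s.eval (g * z * g⁻¹) ≠ 0 := by
    by_contra hcon
    push Not at hcon
    have h4 := h3 D z hz s hs0 hcon
    rw [P_natDegree z hz] at hdeg
    omega
  obtain ⟨g, hg, hsg⟩ := hex
  have h5 := h1 D (X - C z') s (g * z * g⁻¹) hsg
  rw [← hs', P_van z g hg] at h5
  have h6 := (mul_eq_zero.1 h5.symm).resolve_right hsg
  rw [eval_sub, eval_X, eval_C, sub_eq_zero] at h6
  set w := s.eval (g * z * g⁻¹) with hw
  refine ⟨w * g, mul_ne_zero hsg hg, ?_⟩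
  rw [← h6, mul_inv_rev]
  simp only [mul_assoc]

theorem pWed (h1 : tEvMul.{u}) (h2 : tDivR.{u}) (h3 : tClass.{u}) : tWed.{u} := by
  intro D _ z hz
  set m := (minpoly (Subring.center D) z).natDegree with hm
  have key : ∀ k ≤ m, ∃ (l : List D) (q : D[X]), l.length = k ∧ (∀ g ∈ l, g ≠ 0) ∧ q.Monic ∧
      q.natDegree + k = m ∧ P z = q * (l.map (fun g => X - C (g * z * g⁻¹))).prod := by
    intro k
    induction k with
    | zero =>
      intro _
      refine ⟨[], P z, rfl, by simp, P_monic z hz, by rw [P_natDegree z hz]; rfl, by simp⟩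
    | succ k ih =>
      intro hk
      obtain ⟨l, q, hl, hne, hqm, hqd, hP⟩ := ih (by omega)
      set h := (l.map (fun g => X - C (g * z * g⁻¹))).prod with hh
      have hhm : h.Monic := by
        rw [hh]
        exact monic_prod z l
      have hhd : h.natDegree = k := by
        have h4 : (P z).natDegree = q.natDegree + h.natDegree := by
          rw [hP]; exact hqm.natDegree_mul hhm
        rw [P_natDegree z hz] at h4
        omega
      have hex : ∃ g : D, g ≠ 0 ∧ h.eval (g * z * g⁻¹) ≠ 0 := by
        by_contra hcon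
        push Not at hcon
        have h4 := h3 D z hz h hhm.ne_zero hcon
        omega
      obtain ⟨g, hg, hgh⟩ := hex
      have h5 := h1 D q h (g * z * g⁻¹) hgh
      rw [← hP, P_van z g hg] at h5
      have h6 := (mul_eq_zero.1 h5.symm).resolve_right hgh
      set w := h.eval (g * z * g⁻¹) with hw
      have hb : w * (g * z * g⁻¹) * w⁻¹ = (w * g) * z * (w * g)⁻¹ := by
        rw [mul_inv_rev]
        simp only [mul_assoc]
      rw [hb] at h6
      obtain ⟨s, hs⟩ := h2 D q ((w * g) * z * (w * g)⁻¹)
      rw [h6, C_0, add_zero] at hs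
      refine ⟨(w * g) :: l, s, by simp [hl], ?_, ?_, ?_, ?_⟩
      · intro x hx
        rcases List.mem_cons.1 hx with rfl | hx
        · exact mul_ne_zero hgh hg
        · exact hne x hx
      · have := hqm
        rw [hs] at this
        exact (monic_X_sub_C _).of_mul_monic_right this
      · have hs0 : s ≠ 0 := by
          rintro rfl
          rw [zero_mul] at hs
          exact hqm.ne_zero hs
        have h7 : q.natDegree = s.natDegree + 1 := by
          conv_lhs => rw [hs]
          rw [natDegree_mul hs0 (X_sub_C_ne_zero _), natDegree_X_sub_C]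
        omega
      · rw [List.map_cons, List.prod_cons, ← mul_assoc, ← hs]
        exact hP
  obtain ⟨l, q, hl, hne, hqm, hqd, hP⟩ := key m le_rfl
  refine ⟨l, hl, hne, ?_⟩
  have hq1 : q = 1 := by
    have h4 : q.natDegree = 0 := by omega
    have h5 := eq_C_of_natDegree_eq_zero h4
    have h6 : q.coeff 0 = 1 := by
      have := hqm
      rw [Monic, leadingCoeff, h4] at this
      exact this
    rw [h5, h6, C_1]
  rw [hq1, one_mul] at hP
  exact hP

end Pool.Agent.Herst
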