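import Mathlib

set_option autoImplicit false

/-! Radical normal subgroups of division rings (MP_176fb9_al): definitions and exact targets,
see Blueprint.lean.txt. -/

namespace Pool.Agent.Herst

open Polynomial

universe u

/-- Normal subgroups of the multiplicative group of `D` which contain the nonzero central elements
and are radical over the centre. -/
structure Rad {D : Type u} [DivisionRing D] (N : Set D) : Prop where
  ne : ∀ x ∈ N, x ≠ 0
  mul : ∀ x ∈ N, ∀ y ∈ N, x * y ∈ N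
  inv : ∀ x ∈ N, x⁻¹ ∈ N
  conj : ∀ x ∈ N, ∀ g : D, g ≠ 0 → g * x * g⁻¹ ∈ N
  cen : ∀ x ∈ Subring.center D, x ≠ 0 → x ∈ N
  rad : ∀ x ∈ N, ∃ n : ℕ, 1 ≤ n ∧ x ^ n ∈ Subring.center D

/-- The additive group generated by the additive commutators. -/
def AC (D : Type u) [DivisionRing D] : AddSubgroup D :=
  AddSubgroup.closure {c | ∃ a b : D, c = a * b - b * a}

/-! ### Algebras of finite dimension -/

/-- J1: valuations of fields -/
def tVal : Prop :=
  ∀ (E : Type u) [Field E],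
    (∀ p : ℕ, p.Prime → CharP E p → ∃ x : E, x ≠ 0 ∧ ∀ k : ℕ, 1 ≤ k → x ^ k ≠ 1) →
    ∃ (V : ValuationSubring E) (t : E), t ∈ V ∧ t ≠ 0 ∧
      ∀ q : ℕ, q.Prime → (q : E) ≠ 0 → ∀ v ∈ V, (q : E) ≠ t * v

/-- J2: finite dimensional domains over algebraic extensions of finite fields are commutative -/
def tJac : Prop :=
  ∀ (E Δ : Type u) [Field E] [Ring Δ] [IsDomain Δ] [Algebra E Δ] [FiniteDimensional E Δ]
    (p : ℕ), p.Prime → CharP E p → (∀ x : E, x ≠ 0 → ∃ k : ℕ, 1 ≤ k ∧ x ^ k = 1) →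
    ∀ x y : Δ, x * y = y * x

/-- J3: finite dimensional domains -/
def tCF : Prop :=
  ∀ (E Δ : Type u) [Field E] [Ring Δ] [IsDomain Δ] [Algebra E Δ] [FiniteDimensional E Δ]
    (z zi : Δ), z * zi = 1 → zi * z = 1 →
    (∀ x xi : Δ, x * xi = 1 → xi * x = 1 →
      ∃ m : ℕ, 1 ≤ m ∧ ∃ c : E, (z * x * zi * xi) ^ m = algebraMap E Δ c) →
    ∀ x, z * x = x * z

/-- J4: normalisers of `F(z)` -/
def tL2 : Prop :=
  ∀ (D : Type u) [DivisionRing D] (z g : D), z ≠ 0 → g ≠ 0 →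
    IsIntegral (Subring.center D) z →
    (∀ x : D, x ≠ 0 → ∃ m : ℕ, 1 ≤ m ∧ (z * x * z⁻¹ * x⁻¹) ^ m ∈ Subring.center D) →
    g * z * g⁻¹ ∈ Algebra.adjoin (Subring.center D) {z} → g * z = z * g

/-! ### Polynomials over division rings (right evaluation, this is `Polynomial.eval`) -/

/-- J5a: product formula -/
def tEvMul : Prop :=
  ∀ (D : Type u) [DivisionRing D] (f h : D[X]) (a : D), h.eval a ≠ 0 →
    (f * h).eval a = f.eval (h.eval a * a * (h.eval a)⁻¹) * h.eval a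

/-- J5a: division with remainder by `X - C b` on the right -/
def tDivR : Prop :=
  ∀ (D : Type u) [DivisionRing D] (f : D[X]) (b : D),
    ∃ s : D[X], f = s * (X - C b) + C (f.eval b)

/-- J5b: polynomials which vanish on a class of conjugate elements have large degree -/
def tClass : Prop :=
  ∀ (D : Type u) [DivisionRing D] (z : D), IsIntegral (Subring.center D) z →
    ∀ q : D[X], q ≠ 0 → (∀ g : D, g ≠ 0 → q.eval (g * z * g⁻¹) = 0) →
      (minpoly (Subring.center D) z).natDegree ≤ q.natDegree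

/-- J5b: roots of the minimal polynomial are conjugate (Dickson) -/
def tRoot : Prop :=
  ∀ (D : Type u) [DivisionRing D] (z z' : D), IsIntegral (Subring.center D) z →
    aeval z' (minpoly (Subring.center D) z) = 0 → ∃ g : D, g ≠ 0 ∧ z' = g * z * g⁻¹

/-- J5b: factorisation of the minimal polynomial (Wedderburn) -/
def tWed : Prop :=
  ∀ (D : Type u) [DivisionRing D] (z : D), IsIntegral (Subring.center D) z →
    ∃ l : List D, l.length = (minpoly (Subring.center D) z).natDegree ∧ (∀ g ∈ l, g ≠ 0) ∧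
      (minpoly (Subring.center D) z).map (algebraMap (Subring.center D) D) =
        (l.map (fun g => X - C (g * z * g⁻¹))).prod

/-- J5c: norm and trace form of the factorisation -/
def tNT : Prop :=
  ∀ (D : Type u) [DivisionRing D] (z : D), IsIntegral (Subring.center D) z →
    ∃ l : List D, l.length = (minpoly (Subring.center D) z).natDegree ∧ (∀ g ∈ l, g ≠ 0) ∧
      (∀ c : Subring.center D, (l.map (fun g => (c : D) - g * z * g⁻¹)).prod =
        (((minpoly (Subring.center D) z).eval c : Subring.center D) : D)) ∧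
      (l.map (fun g => g * z * g⁻¹)).sum =
        -(((minpoly (Subring.center D) z).coeff ((minpoly (Subring.center D) z).natDegree - 1) :
          Subring.center D) : D)

/-- J6: independence -/
def tLI : Prop :=
  ∀ (D : Type u) [DivisionRing D] (n : ℕ) (a b : Fin n → D),
    LinearIndependent (Subring.center D) b → (∀ w : D, ∑ i, a i * w * b i = 0) → ∀ i, a i = 0

/-! ### Identities and invariant subrings -/

/-- J7: Cartan-Brauer-Hua for centralisers of normal sets -/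
def tCBH : Prop :=
  ∀ (D : Type u) [DivisionRing D] (N : Set D), (∀ x ∈ N, ∀ g : D, g ≠ 0 → g * x * g⁻¹ ∈ N) →
    (∃ z ∈ N, z ∉ Subring.center D) → ∀ a : D, (∀ b ∈ N, a * b = b * a) →
      a ∈ Subring.center D

/-- J7: the main identity -/
def tT4 : Prop :=
  ∀ (D : Type u) [DivisionRing D] (y b : D), b ≠ 0 → y * b ≠ b * y →
    y ≠ 0 ∧ y ≠ 1 ∧ (1 - y⁻¹)⁻¹ * b * (1 - y⁻¹) * b⁻¹ ≠ 1 ∧ (y - 1)⁻¹ * b * (y - 1) * b⁻¹ ≠ 1 ∧
    b * y * b⁻¹ = (1 - (1 - y⁻¹)⁻¹ * b * (1 - y⁻¹) * b⁻¹)⁻¹ *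
      (1 - (y - 1)⁻¹ * b * (y - 1) * b⁻¹)

/-! ### Radical normal subgroups -/

/-- J8: the lemma on normalisers for radical normal subgroups -/
def tN : Prop :=
  ∀ (D : Type u) [DivisionRing D] (N : Set D), Rad N → ∀ z ∈ N, ∀ g : D, g ≠ 0 →
    g * z * g⁻¹ ∈ Algebra.adjoin (Subring.center D) {z} → g * z = z * g

/-- J8: roots of unity -/
def tR1 : Prop :=
  ∀ (D : Type u) [DivisionRing D] (N : Set D), Rad N → ∀ z ∈ N, ∀ k : ℕ, 1 ≤ k → z ^ k = 1 →
    z ∈ Subring.center D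

/-- J9: inseparable elements -/
def tR2 : Prop :=
  ∀ (D : Type u) [DivisionRing D] (N : Set D), Rad N → ∀ z ∈ N, ∀ q : ℕ, q.Prime →
    (q : D) = 0 → z ^ q ∈ Subring.center D → z ∈ Subring.center D

/-- J10: minimal polynomials -/
def tR3 : Prop :=
  ∀ (D : Type u) [DivisionRing D] (N : Set D), Rad N → ∀ z ∈ N, z ∉ Subring.center D →
    ∃ (M : ℕ) (f : Subring.center D), 2 ≤ M ∧ (M : D) ≠ 0 ∧ (f : D) = z ^ M ∧
      minpoly (Subring.center D) z = X ^ M - C f

/-- J10: noncentral elements are sums of commutators -/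
def tR4 : Prop :=
  ∀ (D : Type u) [DivisionRing D] (N : Set D), Rad N → ∀ z ∈ N, z ∉ Subring.center D →
    z ∈ AC D

/-! ### The conditions -/

/-- J11: additive commutators -/
def tA : Prop :=
  ∀ (D : Type u) [DivisionRing D] (N : Set D), Rad N → (∃ z ∈ N, z ∉ Subring.center D) →
    ∀ y : D, y ∈ AC D

/-- J12: the abelianisation, cokernel -/
def tB : Prop :=
  ∀ (D : Type u) [DivisionRing D] (N : Set D), Rad N → (∃ z ∈ N, z ∉ Subring.center D) →
    ∀ x : Dˣ, ∃ (k : ℕ) (f : Dˣ), 1 ≤ k ∧ (f : D) ∈ Subring.center D ∧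
      x ^ k * f ∈ commutator Dˣ

/-- J12: the abelianisation, kernel -/
def tC : Prop :=
  ∀ (D : Type u) [DivisionRing D] (N : Set D), Rad N → (∃ z ∈ N, z ∉ Subring.center D) →
    ∃ f : Dˣ, (f : D) ∈ Subring.center D ∧ f ∈ commutator Dˣ ∧ ∀ k : ℕ, 1 ≤ k → f ^ k ≠ 1

/-- J13: quadratic elements -/
def tQuad : Prop :=
  ∀ (D : Type u) [DivisionRing D] (N : Set D), Rad N → (∃ z ∈ N, z ∉ Subring.center D) →
    ∀ θ : D, θ ^ 2 ∈ Subring.center D → θ ∈ Subring.center D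

/-- J13: valuations -/
def tE : Prop :=
  ∀ (D : Type u) [DivisionRing D] (N : Set D), Rad N → (∃ z ∈ N, z ∉ Subring.center D) →
    ∀ V : Subring D, (∀ x : D, x ∈ V ∨ x⁻¹ ∈ V) →
      (∀ g : D, g ≠ 0 → ∀ x ∈ V, g * x * g⁻¹ ∈ V) → V = ⊤

/-- J14: real parts of roots of unity in the centre -/
def tF : Prop :=
  ∀ (D : Type u) [DivisionRing D] (N : Set D), Rad N → ∀ q : ℕ, q.Prime → q ≠ 2 →
    (q : D) ≠ 0 → (∃ τ : Subring.center D, (X ^ 2 - C τ * X + 1 : (Subring.center D)[X]) ∣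
      cyclotomic q (Subring.center D)) →
    ∀ x ∈ N, x ^ q ∈ Subring.center D → x ∈ Subring.center D

/-- the theorem -/
def tMain : Prop :=
  ∀ (D : Type u) [DivisionRing D] (N : Subgroup Dˣ), N.Normal →
    (∀ x ∈ N, ∃ n : ℕ, 1 ≤ n ∧ ((x : D) ^ n) ∈ Subring.center D) →
    ((∃ y : D, y ∉ AddSubgroup.closure {c : D | ∃ a b : D, c = a * b - b * a}) ∨
      (∃ x : Dˣ, ∀ (k : ℕ) (f : Dˣ), 1 ≤ k → (f : D) ∈ Subring.center D →
        x ^ k * f ∉ commutator Dˣ) ∨
      (∀ f : Dˣ, (f : D) ∈ Subring.center D → f ∈ commutator Dˣ → ∃ k : ℕ, 1 ≤ k ∧ f ^ k = 1) ∨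
      (∃ θ : D, θ ∉ Subring.center D ∧ θ ^ 2 ∈ Subring.center D) ∨
      (∃ V : Subring D, V ≠ ⊤ ∧ (∀ x : D, x ∈ V ∨ x⁻¹ ∈ V) ∧
        ∀ g : D, g ≠ 0 → ∀ x ∈ V, g * x * g⁻¹ ∈ V) ∨
      (∀ q : ℕ, q.Prime → 5 ≤ q → (q : D) ≠ 0 →
        (∃ τ : Subring.center D, (X ^ 2 - C τ * X + 1 : (Subring.center D)[X]) ∣
          cyclotomic q (Subring.center D)) ∨
        ∀ x ∈ N, ((x : D) ^ q) ∈ Subring.center D → (x : D) ∈ Subring.center D)) →
    ∀ x ∈ N, (x : D) ∈ Subring.center D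

end Pool.Agent.Herst
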