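import Mathlib
import Pool.Agent.Herst.Targets

/-! Job J13: quadratic elements and invariant valuation rings. -/

set_option autoImplicit false

namespace Pool.Agent.Herst

open Polynomial

universe u

namespace J13_

variable {D : Type u} [DivisionRing D]

lemma integral_of_rad {N : Set D} (hN : Rad N) {x : D} (hx : x ∈ N) :
    IsIntegral (Subring.center D) x := by
  obtain ⟨n, hn, hc⟩ := hN.rad x hx
  refine IsIntegral.of_pow (n := n) (by omega) ?_
  exact isIntegral_algebraMap (R := Subring.center D) (A := D) (x := ⟨x ^ n, hc⟩)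

lemma comm_mem {N : Set D} (hN : Rad N) {x g : D} (hx : x ∈ N) (hg : g ≠ 0) :
    g * x * g⁻¹ * x⁻¹ ∈ N :=
  hN.mul _ (hN.conj x hx g hg) _ (hN.inv x hx)

lemma comm_mem' {N : Set D} (hN : Rad N) {x g : D} (hx : x ∈ N) (hg : g ≠ 0) :
    x * g * x⁻¹ * g⁻¹ ∈ N := by
  have := hN.mul _ hx _ (hN.conj _ (hN.inv x hx) g hg)
  simpa [mul_assoc] using this

lemma pow_mem {N : Set D} (hN : Rad N) {x : D} (hx : x ∈ N) (k : ℕ) (hk : 1 ≤ k) :
    x ^ k ∈ N := by
  induction k, hk using Nat.le_induction with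
  | base => simpa using hx
  | succ k _ ih => rw [pow_succ]; exact hN.mul _ ih _ hx

lemma cen_comm {c : D} (hc : c ∈ Subring.center D) (x : D) : x * c = c * x :=
  Subring.mem_center_iff.1 hc x

lemma cen_zpow {c : D} (hc : c ∈ Subring.center D) (k : ℤ) : c ^ k ∈ Subring.center D := by
  rcases k with k | k
  · simpa using Subring.pow_mem _ hc k
  · rw [zpow_negSucc]
    exact Set.inv_mem_center (Subring.pow_mem _ hc (k + 1))

lemma cen_of_coprime {x : D} (hx : x ≠ 0) {m n : ℕ} (hm : x ^ m ∈ Subring.center D)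
    (hn : x ^ n ∈ Subring.center D) (h : Nat.Coprime m n) : x ∈ Subring.center D := by
  have h1 : (1 : ℤ) = m * Nat.gcdA m n + n * Nat.gcdB m n := by
    rw [← Nat.gcd_eq_gcd_ab, h]; simp
  have h2 : x = (x ^ m) ^ (Nat.gcdA m n) * (x ^ n) ^ (Nat.gcdB m n) := by
    rw [← zpow_natCast, ← zpow_natCast, ← zpow_mul, ← zpow_mul, ← zpow_add₀ hx, ← h1, zpow_one]
  rw [h2]
  exact Subring.mul_mem _ (cen_zpow hm _) (cen_zpow hn _)

end J13_

open J13_

theorem pQuad (h1 : tN.{u}) (h2 : tCBH.{u}) : tQuad.{u} := by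
  intro D _ N hN hz θ hθ
  by_cases h0 : θ = 0
  · rw [h0]; exact Subring.zero_mem _
  refine h2 D N hN.conj hz θ fun n hn => ?_
  have hn0 := hN.ne n hn
  set m := θ * n * θ⁻¹ * n⁻¹ with hm
  have hmN : m ∈ N := comm_mem hN hn h0
  have hm0 := hN.ne m hmN
  have key : θ * m * θ⁻¹ = m⁻¹ := by
    have hc := cen_comm hθ n
    have e1 : m * (θ * m * θ⁻¹) = 1 := by
      have e2 : θ * n * θ⁻¹ * n⁻¹ * (θ * (θ * n * θ⁻¹ * n⁻¹) * θ⁻¹) =
          θ * n * θ⁻¹ * n⁻¹ * (θ ^ 2 * n) * θ⁻¹ * n⁻¹ * θ⁻¹ := by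
        simp only [mul_assoc, pow_two]
      rw [hm, e2, ← hc]
      simp only [mul_assoc, pow_two]
      rw [inv_mul_cancel_left₀ hn0, inv_mul_cancel_left₀ h0, mul_inv_cancel_left₀ h0,
        mul_inv_cancel_left₀ hn0, mul_inv_cancel₀ h0]
    exact (eq_inv_of_mul_eq_one_right e1)
  have hmem : θ * m * θ⁻¹ ∈ Algebra.adjoin (Subring.center D) {m} := by
    rw [key]; exact (integral_of_rad hN hmN).inv_mem_adjoin
  have hcomm := h1 D N hN m hmN θ h0 hmem
  have hmm : m = m⁻¹ := by rw [← key, hcomm, mul_assoc, mul_inv_cancel₀ h0, mul_one]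
  have hsq : m * m = 1 := by
    nth_rewrite 2 [hmm]; exact mul_inv_cancel₀ hm0
  have hθn : θ * n * θ⁻¹ = m * n := by rw [hm, inv_mul_cancel_right₀ hn0]
  have hfin : θ * n * θ⁻¹ = n → θ * n = n * θ := by
    intro h
    calc θ * n = (θ * n * θ⁻¹) * θ := by rw [inv_mul_cancel_right₀ h0]
      _ = n * θ := by rw [h]
  rcases mul_self_eq_one_iff.1 hsq with h | h
  · exact hfin (by rw [hθn, h, one_mul])
  · refine h1 D N hN n hn θ h0 ?_
    rw [hθn, h, neg_one_mul]
    exact Subalgebra.neg_mem _ (Algebra.subset_adjoin rfl)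

namespace J13_

variable {D : Type u} [DivisionRing D]

/-- The maximal ideal of an invariant valuation ring. -/
def MM (V : Subring D) : Set D := {x | x ∈ V ∧ (x = 0 ∨ x⁻¹ ∉ V)}

lemma MM_mul_right {V : Subring D} {x v : D} (hx : x ∈ MM V) (hv : v ∈ V) : x * v ∈ MM V := by
  refine ⟨V.mul_mem hx.1 hv, ?_⟩
  by_cases h : x * v = 0
  · exact Or.inl h
  · right
    intro h2
    have hx0 : x ≠ 0 := left_ne_zero_of_mul h
    have hv0 : v ≠ 0 := right_ne_zero_of_mul h
    rw [mul_inv_rev] at h2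
    have h3 := V.mul_mem hv h2
    rw [mul_inv_cancel_left₀ hv0] at h3
    exact (hx.2.resolve_left hx0) h3

lemma MM_mul_left {V : Subring D} {x v : D} (hx : x ∈ MM V) (hv : v ∈ V) : v * x ∈ MM V := by
  refine ⟨V.mul_mem hv hx.1, ?_⟩
  by_cases h : v * x = 0
  · exact Or.inl h
  · right
    intro h2
    have hx0 : x ≠ 0 := right_ne_zero_of_mul h
    have hv0 : v ≠ 0 := left_ne_zero_of_mul h
    rw [mul_inv_rev] at h2
    have h3 := V.mul_mem h2 hv
    rw [inv_mul_cancel_right₀ hv0] at h3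
    exact (hx.2.resolve_left hx0) h3

lemma one_not_MM (V : Subring D) : (1 : D) ∉ MM V := by
  intro h
  rcases h.2 with h | h
  · exact one_ne_zero h
  · exact h (by rw [inv_one]; exact V.one_mem)

lemma MM_add {V : Subring D} (hV : ∀ x : D, x ∈ V ∨ x⁻¹ ∈ V) {x y : D} (hx : x ∈ MM V)
    (hy : y ∈ MM V) : x + y ∈ MM V := by
  by_cases hx0 : x = 0
  · rw [hx0, zero_add]; exact hy
  by_cases hy0 : y = 0
  · rw [hy0, add_zero]; exact hx
  rcases hV (x * y⁻¹) with h | h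
  · have : x + y = (x * y⁻¹ + 1) * y := by
      rw [add_mul, inv_mul_cancel_right₀ hy0, one_mul]
    rw [this]
    exact MM_mul_left hy (V.add_mem h V.one_mem)
  · rw [mul_inv_rev, inv_inv] at h
    have : x + y = (1 + y * x⁻¹) * x := by
      rw [add_mul, inv_mul_cancel_right₀ hx0, one_mul]
    rw [this]
    exact MM_mul_left hx (V.add_mem V.one_mem h)

lemma MM_conj {V : Subring D} (hV : ∀ g : D, g ≠ 0 → ∀ x ∈ V, g * x * g⁻¹ ∈ V) {x g : D}
    (hx : x ∈ MM V) (hg : g ≠ 0) : g * x * g⁻¹ ∈ MM V := by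
  refine ⟨hV g hg x hx.1, ?_⟩
  rcases hx.2 with h | h
  · left; rw [h, mul_zero, zero_mul]
  · right
    intro h2
    apply h
    have h3 := hV g⁻¹ (inv_ne_zero hg) _ h2
    rw [mul_inv_rev, mul_inv_rev, inv_inv] at h3
    rw [← mul_assoc, ← mul_assoc, inv_mul_cancel₀ hg, one_mul, inv_mul_cancel_right₀ hg] at h3
    exact h3

/-- The ideal used in the proof. -/
structure IsJ (V : Subring D) (J : Set D) : Prop where
  sub : J ⊆ MM V
  zero : (0 : D) ∈ J
  add : ∀ x ∈ J, ∀ y ∈ J, x + y ∈ J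
  mulr : ∀ x ∈ J, ∀ v ∈ V, x * v ∈ J
  mull : ∀ x ∈ J, ∀ v ∈ V, v * x ∈ J
  conj : ∀ x ∈ J, ∀ g : D, g ≠ 0 → g * x * g⁻¹ ∈ J
  prime : ∀ q : ℕ, q.Prime → (q : D) ≠ 0 → (q : D) ∉ J
  big : ∃ t : D, t ≠ 0 ∧ ∀ x ∈ MM V, t * x ∈ J

lemma natC_mem (V : Subring D) (n : ℕ) : (n : D) ∈ V := _root_.natCast_mem V n
lemma intC_mem (V : Subring D) (n : ℤ) : (n : D) ∈ V := _root_.intCast_mem V n

lemma natCast_cen (n : ℕ) (x : D) : x * (n : D) = (n : D) * x := (Nat.cast_commute n x).symm.eq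

lemma bezout {p q : ℕ} (h : Nat.Coprime p q) :
    (1 : D) = (p : D) * ((Nat.gcdA p q : ℤ) : D) + (q : D) * ((Nat.gcdB p q : ℤ) : D) := by
  have h1 : (1 : ℤ) = p * Nat.gcdA p q + q * Nat.gcdB p q := by
    rw [← Nat.gcd_eq_gcd_ab, h]; simp
  have h2 := congrArg (fun z : ℤ => (z : D)) h1
  push_cast at h2
  exact h2

lemma exists_J {V : Subring D} (hV : ∀ x : D, x ∈ V ∨ x⁻¹ ∈ V)
    (hVc : ∀ g : D, g ≠ 0 → ∀ x ∈ V, g * x * g⁻¹ ∈ V) : ∃ J, IsJ V J := by
  have hgen : ∀ t : D, t ∈ V → t ≠ 0 → (∀ x, x * t = t * x) →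
      (∀ q : ℕ, q.Prime → (q : D) ≠ 0 → ∀ x ∈ MM V, (q : D) ≠ t * x) →
      ∃ J, IsJ V J := by
    intro t htV ht0 htc hq
    refine ⟨{y | ∃ x ∈ MM V, y = t * x}, ?_, ?_, ?_, ?_, ?_, ?_, ?_, ?_⟩
    · rintro y ⟨x, hx, rfl⟩
      exact MM_mul_left hx htV
    · exact ⟨0, ⟨V.zero_mem, Or.inl rfl⟩, by rw [mul_zero]⟩
    · rintro y ⟨x, hx, rfl⟩ y' ⟨x', hx', rfl⟩
      exact ⟨x + x', MM_add hV hx hx', by rw [mul_add]⟩
    · rintro y ⟨x, hx, rfl⟩ v hv
      exact ⟨x * v, MM_mul_right hx hv, by rw [mul_assoc]⟩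
    · rintro y ⟨x, hx, rfl⟩ v hv
      exact ⟨v * x, MM_mul_left hx hv, by rw [← mul_assoc, htc, mul_assoc]⟩
    · rintro y ⟨x, hx, rfl⟩ g hg
      exact ⟨g * x * g⁻¹, MM_conj hVc hx hg, by rw [← mul_assoc g, htc, mul_assoc, mul_assoc,
        mul_assoc]⟩
    · rintro q hq1 hq0 ⟨x, hx, h⟩
      exact hq q hq1 hq0 x hx h
    · exact ⟨t, ht0, fun x hx => ⟨x, hx, rfl⟩⟩
  by_cases hl : ∃ l : ℕ, l.Prime ∧ (l : D) ≠ 0 ∧ (l : D) ∈ MM V
  · obtain ⟨l, hl1, hl0, hlM⟩ := hl
    refine hgen (l : D) hlM.1 hl0 (natCast_cen l) ?_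
    intro q hq hq0 x hx h
    by_cases hlq : l = q
    · subst hlq
      have : x = 1 := by
        have h2 : (l : D) * 1 = l * x := by rw [mul_one]; exact h
        exact (mul_left_cancel₀ hl0 h2).symm
      rw [this] at hx
      exact one_not_MM V hx
    · apply one_not_MM V
      have hco : Nat.Coprime q l := (Nat.coprime_primes hq hl1).2 (fun h => hlq h.symm)
      rw [bezout (D := D) hco, h]
      refine MM_add hV ?_ ?_
      · rw [mul_assoc]
        exact MM_mul_right hlM (V.mul_mem hx.1 (intC_mem V _))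
      · exact MM_mul_right hlM (intC_mem V _)
  · push Not at hl
    refine hgen 1 V.one_mem one_ne_zero (fun x => by rw [one_mul, mul_one]) ?_
    intro q hq hq0 x hx h
    rw [one_mul] at h
    exact hl q hq hq0 (h ▸ hx)

lemma J_sum {V : Subring D} {J : Set D} (hJ : IsJ V J) {w : D} (hw : w - 1 ∈ J) (l : List D)
    (hl : ∀ g ∈ l, g ≠ 0) : (l.map (fun g => g * w * g⁻¹)).sum - (l.length : D) ∈ J := by
  induction l with
  | nil => simpa using hJ.zero
  | cons g l ih =>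
    have hg : g ≠ 0 := hl g (by simp)
    have h1 := ih (fun g' hg' => hl g' (by simp [hg']))
    have h2 := hJ.conj _ hw g hg
    have h3 := hJ.add _ h2 _ h1
    have e : g * (w - 1) * g⁻¹ = g * w * g⁻¹ - 1 := by
      rw [mul_sub, sub_mul, mul_one, mul_inv_cancel₀ hg]
    rw [e] at h3
    convert h3 using 1
    simp only [List.map_cons, List.sum_cons, List.length_cons, Nat.cast_add, Nat.cast_one]
    abel

lemma J_pow {V : Subring D} {J : Set D} (hJ : IsJ V J) {w : D} (hw : w - 1 ∈ J) (k : ℕ) :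
    w ^ k - 1 ∈ J := by
  have hwV : w ∈ V := by
    have := V.add_mem (hJ.sub hw).1 V.one_mem
    simpa using this
  induction k with
  | zero => simpa using hJ.zero
  | succ k ih =>
    have h1 := hJ.mull _ hw _ (V.pow_mem hwV k)
    have h2 := hJ.add _ h1 _ ih
    convert h2 using 1
    rw [pow_succ, mul_sub, mul_one]
    abel

lemma J_neg {V : Subring D} {J : Set D} (hJ : IsJ V J) {w : D} (hw : w ∈ J) : -w ∈ J := by
  have := hJ.mull _ hw (-1) (V.neg_mem V.one_mem)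
  simpa using this

lemma minpoly_dvd {x : D} {n : ℕ} {c : Subring.center D} (h : x ^ n = (c : D)) :
    minpoly (Subring.center D) x ∣ X ^ n - C c := by
  apply minpoly.dvd
  rw [map_sub, map_pow, aeval_X, aeval_C, h]
  exact sub_self _

/-- elements of `N` which are congruent to `1` are central -/
lemma cen_of_J (h2 : tR3.{u}) (h3 : tNT.{u}) {N : Set D} (hN : Rad N) {V : Subring D} {J : Set D}
    (hJ : IsJ V J) {w : D} (hwN : w ∈ N) (hw : w - 1 ∈ J) : w ∈ Subring.center D := by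
  by_contra hwc
  obtain ⟨M, f, hM2, hM0, hf, hmin⟩ := h2 D N hN w hwN hwc
  obtain ⟨q, hq, r, hr⟩ := Nat.exists_prime_and_dvd (n := M) (by omega)
  have hq0 : (q : D) ≠ 0 := by
    intro h
    apply hM0
    rw [hr, Nat.cast_mul, h, zero_mul]
  have hr1 : 1 ≤ r := by
    rcases Nat.eq_zero_or_pos r with h | h
    · rw [h, mul_zero] at hr; omega
    · exact h
  set v := w ^ r with hv
  have hvN : v ∈ N := pow_mem hN hwN r hr1
  have hvJ : v - 1 ∈ J := J_pow hJ hw r
  have hvc : v ∉ Subring.center D := by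
    intro h
    have h4 := minpoly_dvd (x := w) (n := r) (c := ⟨v, h⟩) hv.symm
    have h5 := natDegree_le_of_dvd h4 (X_pow_sub_C_ne_zero (by omega) _)
    rw [hmin, natDegree_X_pow_sub_C, natDegree_X_pow_sub_C, hr] at h5
    have := hq.two_le
    nlinarith
  have hvq : v ^ q = (f : D) := by rw [hv, ← pow_mul, mul_comm r q, ← hr, hf]
  obtain ⟨M1, f1, hM12, hM10, hf1, hmin1⟩ := h2 D N hN v hvN hvc
  have hM1q : M1 ≤ q := by
    have h4 := minpoly_dvd (x := v) (n := q) (c := f) hvq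
    have h5 := natDegree_le_of_dvd h4 (X_pow_sub_C_ne_zero hq.pos _)
    rwa [hmin1, natDegree_X_pow_sub_C, natDegree_X_pow_sub_C] at h5
  have hM1 : M1 = q := by
    by_contra hne
    apply hvc
    refine cen_of_coprime (hN.ne v hvN) (m := M1) (n := q) ?_ ?_ ?_
    · rw [← hf1]; exact f1.2
    · rw [hvq]; exact f.2
    · exact (Nat.coprime_of_lt_prime (by omega) (by omega) hq).symm
  obtain ⟨l, hl1, hl2, -, hl3⟩ := h3 D v (integral_of_rad hN hvN)
  have h6 := J_sum hJ hvJ l hl2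
  rw [hl3, hl1, hmin1, natDegree_X_pow_sub_C, hM1, coeff_sub, coeff_X_pow, coeff_C] at h6
  have hq2 := hq.two_le
  rw [if_neg (by omega), if_neg (by omega)] at h6
  have h7 := J_neg hJ h6
  simp at h7
  exact hJ.prime q hq hq0 h7

end J13_

open J13_ in
theorem pE (h1 : tN.{u}) (h2 : tR3.{u}) (h3 : tNT.{u}) : tE.{u} := by
  intro D _ N hN hz V hV hVc
  by_contra hne
  obtain ⟨J, hJ⟩ := exists_J hV hVc
  -- elements of `N` commute with `J`
  have hcomm : ∀ z ∈ N, ∀ y ∈ J, z * y = y * z := by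
    intro z hzN y hy
    have hz0 := hN.ne z hzN
    set w := 1 + y with hw
    have hwV : w ∈ V := V.add_mem V.one_mem (hJ.sub hy).1
    have hw0 : w ≠ 0 := by
      intro h
      apply one_not_MM V
      have : (1 : D) = -y := by rw [eq_neg_iff_add_eq_zero]; exact h
      rw [this]; exact hJ.sub (J_neg hJ hy)
    have hwi : w⁻¹ ∈ V := by
      by_contra h
      apply one_not_MM V
      have e : (1 : D) = w + -y := by rw [hw]; abel
      rw [e]
      exact MM_add hV ⟨hwV, Or.inr h⟩ (hJ.sub (J_neg hJ hy))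
    set v := z * w * z⁻¹ * w⁻¹ with hv
    have hvN : v ∈ N := comm_mem' hN hzN hw0
    have hvJ : v - 1 ∈ J := by
      have e : v - 1 = (z * y * z⁻¹ + -y) * w⁻¹ := by
        have e1 : z * w * z⁻¹ = 1 + z * y * z⁻¹ := by
          rw [hw, mul_add, add_mul, mul_one, mul_inv_cancel₀ hz0]
        rw [hv, e1]
        have e2 : (1 : D) = w * w⁻¹ := (mul_inv_cancel₀ hw0).symm
        nth_rewrite 2 [e2]
        rw [← sub_mul, hw]
        congr 1
        abel
      rw [e]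
      exact hJ.mulr _ (hJ.add _ (hJ.conj _ hy z hz0) _ (J_neg hJ hy)) _ hwi
    have hvc := cen_of_J h2 h3 hN hJ hvN hvJ
    have e3 : z * w = v * w * z := by
      rw [hv, inv_mul_cancel_right₀ hw0, inv_mul_cancel_right₀ hz0]
    have e4 : w⁻¹ * z * w = v * z := by
      rw [mul_assoc, e3, ← mul_assoc, ← mul_assoc, cen_comm hvc, mul_assoc v,
        inv_mul_cancel₀ hw0, mul_one]
    have h4 : w⁻¹ * z = z * w⁻¹ := by
      refine h1 D N hN z hzN w⁻¹ (inv_ne_zero hw0) ?_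
      rw [inv_inv, e4]
      exact Subalgebra.mul_mem _
        ((Algebra.adjoin (Subring.center D) {z}).algebraMap_mem ⟨v, hvc⟩)
        (Algebra.subset_adjoin rfl)
    have h5 : z * w = w * z := by
      calc z * w = w * (w⁻¹ * z) * w := by rw [mul_inv_cancel_left₀ hw0]
        _ = w * (z * w⁻¹) * w := by rw [h4]
        _ = w * z := by rw [← mul_assoc, inv_mul_cancel_right₀ hw0]
    rw [hw, mul_add, add_mul, mul_one, one_mul] at h5
    exact add_left_cancel h5
  obtain ⟨x1, hx1⟩ : ∃ x : D, x ∉ V := by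
    by_contra h
    push Not at h
    exact hne (eq_top_iff.2 fun x _ => h x)
  have hx10 : x1 ≠ 0 := fun h => hx1 (h ▸ V.zero_mem)
  have hx1i : x1⁻¹ ∈ MM V := ⟨(hV x1).resolve_left hx1, Or.inr (by rwa [inv_inv])⟩
  obtain ⟨t, ht0, ht⟩ := hJ.big
  have hy0 := ht _ hx1i
  set y0 := t * x1⁻¹ with hy0def
  have hy00 : y0 ≠ 0 := mul_ne_zero ht0 (inv_ne_zero hx10)
  obtain ⟨z, hzN, hzc⟩ := hz
  have hV' : ∀ x ∈ V, z * x = x * z := by
    intro x hx
    have h4 := hcomm z hzN _ (hJ.mull _ hy0 x hx)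
    have h5 := hcomm z hzN _ hy0
    have h6 : (z * x) * y0 = (x * z) * y0 := by
      calc (z * x) * y0 = z * (x * y0) := mul_assoc _ _ _
        _ = x * y0 * z := h4
        _ = x * (y0 * z) := mul_assoc _ _ _
        _ = x * (z * y0) := by rw [h5]
        _ = (x * z) * y0 := (mul_assoc _ _ _).symm
    exact mul_right_cancel₀ hy00 h6
  apply hzc
  rw [Subring.mem_center_iff]
  intro g
  rcases hV g with h | h
  · exact (hV' g h).symm
  · by_cases hg : g = 0
    · rw [hg, zero_mul, mul_zero]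
    · have h4 := hV' _ h
      calc g * z = g * (z * g⁻¹) * g := by rw [← mul_assoc, inv_mul_cancel_right₀ hg]
        _ = g * (g⁻¹ * z) * g := by rw [h4]
        _ = z * g := by rw [mul_inv_cancel_left₀ hg]

end Pool.Agent.Herst
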