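import Pool.Agent.Herst.Targets

set_option autoImplicit false

/-! Radical normal subgroups (MP_176fb9_al), J8: normalisers and roots of unity. -/

namespace Pool.Agent.Herst

universe u

open Polynomial

namespace R1_

variable {D : Type u} [DivisionRing D]

lemma center_comm {f : D} (hf : f ∈ Subring.center D) (x : D) : f * x = x * f :=
  ((Subring.mem_center_iff.1 hf) x).symm

lemma Rad.integral {N : Set D} (hN : Rad N) {x : D} (hx : x ∈ N) :
    IsIntegral (Subring.center D) x := by
  obtain ⟨n, hn, h⟩ := hN.rad x hx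
  refine IsIntegral.of_pow (n := n) (by omega) ?_
  have : x ^ n = algebraMap (Subring.center D) D ⟨x ^ n, h⟩ := rfl
  rw [this]
  exact isIntegral_algebraMap

end R1_

open R1_ in
theorem pN (h : tL2.{u}) : tN.{u} := by
  intro D _ N hN z hz g hg hadj
  refine h D z g (hN.ne z hz) hg (Rad.integral hN hz) ?_ hadj
  intro x hx
  refine hN.rad _ ?_
  have : z * x * z⁻¹ * x⁻¹ = z * (x * z⁻¹ * x⁻¹) := by simp only [mul_assoc]
  rw [this]
  exact hN.mul z hz _ (hN.conj _ (hN.inv z hz) x hx)

namespace R1_

variable {D : Type u} [DivisionRing D]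

/-- the order of an element of finite order is not divisible by the characteristic -/
lemma order_ne_zero {z : D} (hz : 0 < orderOf z) : ((orderOf z : ℕ) : D) ≠ 0 := by
  intro h0
  obtain ⟨p, hp⟩ := CharP.exists D
  have hdvd : p ∣ orderOf z := (CharP.cast_eq_zero_iff D p _).1 h0
  rcases CharP.char_is_prime_or_zero D p with hprime | hzero
  · have : Fact p.Prime := ⟨hprime⟩
    obtain ⟨m, hm⟩ := hdvd
    have hm0 : 0 < m := by
      rcases Nat.eq_zero_or_pos m with h | h
      · rw [h, mul_zero] at hm; omega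
      · exact h
    have h1 : (z ^ m) ^ p = 1 := by
      rw [← pow_mul, mul_comm, ← hm, pow_orderOf_eq_one]
    have h2 : (z ^ m - 1) ^ p = 0 := by
      rw [sub_pow_char_of_commute p (Commute.one_right (z ^ m)), h1, one_pow, sub_self]
    have h3 : z ^ m = 1 := sub_eq_zero.1 (eq_zero_of_pow_eq_zero h2)
    have h4 := orderOf_dvd_of_pow_eq_one h3
    have h5 := Nat.le_of_dvd hm0 h4
    rw [hm] at h5
    have h6 := hprime.two_le
    nlinarith
  · rw [hzero, zero_dvd_iff] at hdvd
    omega

/-- roots of unity: another root of the minimal polynomial is a power -/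
lemma exists_root {z : D} (hfin : 0 < orderOf z) (hint : IsIntegral (Subring.center D) z)
    (hz : z ∉ Subring.center D) :
    ∃ i : ℕ, z ^ i ≠ z ∧ aeval (z ^ i) (minpoly (Subring.center D) z) = 0 := by
  classical
  set n := orderOf z with hn
  have hn0 : (n : D) ≠ 0 := order_ne_zero hfin
  have hn0' : ((n : ℕ) : Subring.center D) ≠ 0 := by
    intro h
    apply hn0
    have := congrArg (fun x : Subring.center D => (x : D)) h
    simpa using this
  set p := minpoly (Subring.center D) z with hp
  have hpm : p.Monic := minpoly.monic hint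
  have hp0 : p ≠ 0 := hpm.ne_zero
  have hirr : Irreducible p := minpoly.irreducible hint
  have : Fact (Irreducible p) := ⟨hirr⟩
  have : NeZero n := ⟨by omega⟩
  set α := AdjoinRoot.root p with hα
  -- polynomials which vanish at `α` vanish at `z`
  have hmin : minpoly (Subring.center D) α = p := by
    rw [hα, AdjoinRoot.minpoly_root hp0, hpm.leadingCoeff, inv_one, C_1, mul_one]
  have htrans : ∀ f : (Subring.center D)[X], aeval α f = 0 ↔ aeval z f = 0 := by
    intro f
    have e1 := minpoly.dvd_iff (A := Subring.center D) (x := z) (p := f)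
    have e2 := minpoly.dvd_iff (A := Subring.center D) (x := α) (p := f)
    rw [hmin] at e2
    exact e2.symm.trans e1
  have hprim : IsPrimitiveRoot α n := by
    refine ⟨?_, ?_⟩
    · have h := (htrans (X ^ n - 1)).2 (by
        rw [map_sub, map_pow, aeval_X, map_one, hn, pow_orderOf_eq_one, sub_self])
      rw [map_sub, map_pow, aeval_X, map_one, sub_eq_zero] at h
      exact h
    · intro l hl
      have h := (htrans (X ^ l - 1)).1 (by
        rw [map_sub, map_pow, aeval_X, map_one, hl, sub_self])
      rw [map_sub, map_pow, aeval_X, map_one, sub_eq_zero] at h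
      exact orderOf_dvd_of_pow_eq_one h
  have hdvd : p ∣ X ^ n - 1 := by
    rw [hp]
    apply minpoly.dvd
    rw [map_sub, map_pow, aeval_X, map_one, hn, pow_orderOf_eq_one, sub_self]
  have hsep : p.Separable := (X_pow_sub_one_separable_iff.2 hn0').of_dvd hdvd
  have hsplit : (p.map (algebraMap (Subring.center D) (AdjoinRoot p))).Splits := by
    have h1 : (X ^ n - 1 : (AdjoinRoot p)[X]).Splits := by
      rw [X_pow_sub_one_eq_prod hfin hprim]
      exact Splits.prod fun ζ _ => Splits.X_sub_C ζ
    refine h1.of_dvd ?_ ?_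
    · exact X_pow_sub_C_ne_zero hfin 1
    · have := Polynomial.map_dvd (algebraMap (Subring.center D) (AdjoinRoot p)) hdvd
      rwa [Polynomial.map_sub, Polynomial.map_pow, map_X, Polynomial.map_one] at this
  have hcard := card_rootSet_eq_natDegree hsep hsplit
  have hdeg : 2 ≤ p.natDegree := by
    by_contra hlt
    have h1 : p.natDegree = 1 := by
      have := minpoly.natDegree_pos hint
      rw [← hp] at this
      omega
    have h2 := (minpoly.natDegree_eq_one_iff (A := Subring.center D) (x := z)).1 h1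
    obtain ⟨c, hc⟩ := h2
    apply hz
    rw [← hc]
    exact c.2
  have hroot : α ∈ p.rootSet (AdjoinRoot p) := by
    rw [mem_rootSet]
    exact ⟨hp0, by rw [hα, AdjoinRoot.aeval_eq, AdjoinRoot.mk_self]⟩
  have : ∃ β ∈ p.rootSet (AdjoinRoot p), β ≠ α := by
    have h1 : 1 < Fintype.card (p.rootSet (AdjoinRoot p)) := by rw [hcard]; omega
    obtain ⟨β, hβ⟩ := Fintype.exists_ne_of_one_lt_card h1 ⟨α, hroot⟩
    exact ⟨β.1, β.2, fun h => hβ (Subtype.ext h)⟩
  obtain ⟨β, hβ, hne⟩ := this
  rw [mem_rootSet] at hβ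
  have hβn : β ^ n = 1 := by
    obtain ⟨s, hs⟩ := hdvd
    have h := congrArg (aeval β) hs
    rw [map_mul, hβ.2, zero_mul, map_sub, map_pow, aeval_X, map_one, sub_eq_zero] at h
    exact h
  obtain ⟨i, _, hi⟩ := hprim.eq_pow_of_pow_eq_one hβn
  refine ⟨i, ?_, ?_⟩
  · intro h
    apply hne
    have h3 := (htrans (X ^ i - X)).2 (by rw [map_sub, map_pow, aeval_X, h, sub_self])
    rw [map_sub, map_pow, aeval_X, sub_eq_zero] at h3
    rw [← hi, h3]
  · rw [← expand_aeval, ← htrans, expand_aeval, hi]
    exact hβ.2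

end R1_

open R1_ in
theorem pR1 (h1 : tN.{u}) (h2 : tRoot.{u}) : tR1.{u} := by
  intro D _ N hN z hz k hk hzk
  by_contra hzc
  have hfin : 0 < orderOf z := orderOf_pos_iff.2 (isOfFinOrder_iff_pow_eq_one.2 ⟨k, hk, hzk⟩)
  have hint := Rad.integral hN hz
  obtain ⟨i, hi1, hi2⟩ := exists_root hfin hint hzc
  obtain ⟨g, hg, hgz⟩ := h2 D z (z ^ i) hint hi2
  have hadj : g * z * g⁻¹ ∈ Algebra.adjoin (Subring.center D) {z} := by
    rw [← hgz]
    exact pow_mem (Algebra.self_mem_adjoin_singleton _ z) i
  have hcomm := h1 D N hN z hz g hg hadj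
  apply hi1
  rw [hgz, hcomm, mul_inv_cancel_right₀ hg]

end Pool.Agent.Herst
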