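import Pool.Agent.Herst.Targets

set_option autoImplicit false

/-! J9: inseparable elements. -/

namespace Pool.Agent.Herst

universe u

namespace J9_

variable {D : Type u} [DivisionRing D]

/-- The inner derivation. -/
def del (z : D) : D →ₗ[ℤ] D where
  toFun w := z * w - w * z
  map_add' x y := by rw [mul_add, add_mul]; abel
  map_smul' n x := by
    change z * (n • x) - (n • x) * z = n • (z * x - x * z)
    rw [mul_smul_comm, smul_mul_assoc, smul_sub]

lemma del_apply (z w : D) : del z w = z * w - w * z := rfl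

lemma del_pow (z : D) (q : ℕ) (hq : q.Prime) (h0 : (q : D) = 0)
    (hz : z ^ q ∈ Subring.center D) : (del z) ^ q = 0 := by
  have : Fact q.Prime := ⟨hq⟩
  have hD : CharP D q := by
    have h1 := CharP.exists D
    obtain ⟨c, hc⟩ := h1
    have h2 : c ∣ q := (CharP.cast_eq_zero_iff D c q).1 h0
    rcases (Nat.dvd_prime hq).1 h2 with h | h
    · subst h
      have h3 := (CharP.cast_eq_zero_iff D 1 1).2 (dvd_refl 1)
      rw [Nat.cast_one] at h3
      exact absurd h3 one_ne_zero
    · subst h; exact hc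
  have hC : CharP (Module.End ℤ D) q := by
    refine ⟨fun n => ?_⟩
    constructor
    · intro h
      have h1 := LinearMap.congr_fun h (1 : D)
      simp only [LinearMap.zero_apply] at h1
      have h2 : ((n : Module.End ℤ D)) (1 : D) = (n : D) := by
        simp [Module.End.natCast_apply]
      rw [h2] at h1
      exact (CharP.cast_eq_zero_iff D q n).1 h1
    · intro h
      ext x
      have h1 : ((n : Module.End ℤ D)) x = (n : D) * x := by
        simp [Module.End.natCast_apply]
      rw [h1, (CharP.cast_eq_zero_iff D q n).2 h]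
      simp
  have hsplit : del z = LinearMap.mulLeft ℤ z - LinearMap.mulRight ℤ z := by
    ext x
    simp [del_apply]
  have hcomm : Commute (LinearMap.mulLeft ℤ z) (LinearMap.mulRight ℤ z) := by
    ext x
    simp [mul_assoc]
  rw [hsplit, sub_pow_char_of_commute (p := q) hcomm]
  ext x
  have h3 := Subring.mem_center_iff.1 hz x
  simp only [LinearMap.sub_apply, LinearMap.zero_apply]
  rw [LinearMap.pow_mulLeft, LinearMap.pow_mulRight]
  simp only [LinearMap.mulLeft_apply, LinearMap.mulRight_apply]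
  rw [h3, sub_self]

end J9_

open J9_

theorem pR2 (h : tN.{u}) : tR2.{u} := by
  intro D _ N hN z hz q hq h0 hzq
  by_contra hcon
  have hpow := del_pow z q hq h0 hzq
  -- del is not zero
  have hex : ∃ w : D, del z w ≠ 0 := by
    by_contra hc
    push Not at hc
    apply hcon
    rw [Subring.mem_center_iff]
    intro g
    exact (sub_eq_zero.1 (hc g)).symm
  obtain ⟨w, hw⟩ := hex
  -- last nonzero iterate
  have hfin : ∃ n : ℕ, ((del z) ^ n) w = 0 := ⟨q, by rw [hpow]; rfl⟩
  classical
  set n := Nat.find hfin with hn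
  have hn0 : ((del z) ^ n) w = 0 := Nat.find_spec hfin
  have hn2 : 2 ≤ n := by
    by_contra hlt
    push Not at hlt
    interval_cases hh : n
    · rw [pow_zero] at hn0
      change w = 0 at hn0
      rw [hn0, map_zero] at hw
      exact hw rfl
    · rw [pow_one] at hn0
      exact hw hn0
  obtain ⟨m, hm⟩ : ∃ m, n = m + 2 := ⟨n - 2, by omega⟩
  set w1 := ((del z) ^ m) w with hw1
  have hv : del z w1 ≠ 0 := by
    have h1 : ((del z) ^ (m + 1)) w = del z w1 := by
      rw [pow_succ']; rfl
    rw [← h1]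
    exact Nat.find_min hfin (by omega)
  have hv0 : del z (del z w1) = 0 := by
    have h1 : ((del z) ^ (m + 2)) w = del z (del z w1) := by
      rw [pow_succ', pow_succ']; rfl
    rw [← h1, ← hm]
    exact hn0
  set v := del z w1 with hvdef
  have hzv : z * v = v * z := sub_eq_zero.1 hv0
  have hzvi : z * v⁻¹ = v⁻¹ * z := by
    calc z * v⁻¹ = v⁻¹ * v * z * v⁻¹ := by rw [inv_mul_cancel₀ hv, one_mul]
      _ = v⁻¹ * (z * v) * v⁻¹ := by rw [hzv]; simp only [mul_assoc]
      _ = v⁻¹ * z := by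
        rw [← mul_assoc, mul_assoc (v⁻¹ * z), mul_inv_cancel₀ hv, mul_one]
  have hz0 : z ≠ 0 := hN.ne z hz
  -- w' with del w' = 1
  set w' := v⁻¹ * w1 with hw'
  have hd1 : z * w' - w' * z = 1 := by
    rw [hw', ← mul_assoc, hzvi, mul_assoc, mul_assoc, ← mul_sub]
    change v⁻¹ * v = 1
    exact inv_mul_cancel₀ hv
  set y := w' * z with hy
  have hzy : z * y = (y + 1) * z := by
    have h1 : z * w' = y + 1 := by rw [sub_eq_iff_eq_add.1 hd1, add_comm]
    calc z * y = z * w' * z := by rw [hy]; exact (mul_assoc z w' z).symm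
      _ = (y + 1) * z := by rw [h1]
  clear_value y
  have hy0 : y ≠ 0 := by
    intro e
    rw [e, mul_zero, zero_add, one_mul] at hzy
    exact hz0 hzy.symm
  have hy1 : y + 1 ≠ 0 := by
    intro e
    rw [e, zero_mul] at hzy
    rcases mul_eq_zero.1 hzy with h1 | h1
    · exact hz0 h1
    · exact hy0 h1
  have hzyz : z * y * z⁻¹ = y + 1 := by
    rw [hzy, mul_assoc, mul_inv_cancel₀ hz0, mul_one]
  -- the commutator
  set c := z * y * z⁻¹ * y⁻¹ with hc
  have hcN : c ∈ N := by
    have h1 : c = z * (y * z⁻¹ * y⁻¹) := by rw [hc]; simp only [mul_assoc]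
    rw [h1]
    exact hN.mul _ hz _ (hN.conj _ (hN.inv _ hz) y hy0)
  have hc1 : c = 1 + y⁻¹ := by
    rw [hc, hzyz, add_mul, mul_inv_cancel₀ hy0, one_mul]
  have hc0 : c ≠ 0 := hN.ne _ hcN
  have hyi : z * y⁻¹ * z⁻¹ = (y + 1)⁻¹ := by
    rw [← hzyz, mul_inv_rev, mul_inv_rev, inv_inv, mul_assoc]
  have hconj : z * c * z⁻¹ = 2 - c⁻¹ := by
    have h1 : z * c * z⁻¹ = 1 + (y + 1)⁻¹ := by
      rw [hc1, mul_add, add_mul, mul_one, mul_inv_cancel₀ hz0, hyi]
    have h2 : c⁻¹ = y * (y + 1)⁻¹ := by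
      have h3 : c = (y + 1) * y⁻¹ := by rw [hc, hzyz]
      rw [h3, mul_inv_rev, inv_inv]
    have h4 : y * (y + 1)⁻¹ = 1 - (y + 1)⁻¹ := by
      calc y * (y + 1)⁻¹ = (y + 1) * (y + 1)⁻¹ - 1 * (y + 1)⁻¹ := by
            rw [← sub_mul, add_sub_cancel_right]
        _ = 1 - (y + 1)⁻¹ := by rw [mul_inv_cancel₀ hy1, one_mul]
    rw [h1, h2, h4]
    have : (2 : D) = 1 + 1 := by norm_num
    rw [this]
    abel
  have hci : IsIntegral (Subring.center D) c := by
    obtain ⟨k, hk1, hk⟩ := hN.rad c hcN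
    refine ⟨Polynomial.X ^ k - Polynomial.C ⟨c ^ k, hk⟩, ?_, ?_⟩
    · exact Polynomial.monic_X_pow_sub_C _ (by omega)
    · simp only [Polynomial.eval₂_sub, Polynomial.eval₂_X_pow, Polynomial.eval₂_C]
      exact sub_self _
  have hmem : z * c * z⁻¹ ∈ Algebra.adjoin (Subring.center D) {c} := by
    rw [hconj]
    refine sub_mem ?_ hci.inv_mem_adjoin
    have : (2 : D) = 1 + 1 := by norm_num
    rw [this]
    exact add_mem (one_mem _) (one_mem _)
  have hcm := h D N hN c hcN z hz0 hmem
  have h1 : z * c * z⁻¹ = c := by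
    rw [hcm, mul_assoc, mul_inv_cancel₀ hz0, mul_one]
  have h2 : z * c * z⁻¹ = 1 + (y + 1)⁻¹ := by
    rw [hc1, mul_add, add_mul, mul_one, mul_inv_cancel₀ hz0, hyi]
  rw [h1, hc1] at h2
  have h3 : y⁻¹ = (y + 1)⁻¹ := add_left_cancel h2
  have h4 := inv_injective h3
  have h5 : (1 : D) = 0 := by
    have := congrArg (fun t => t - y) h4
    simpa using this.symm
  exact one_ne_zero h5

end Pool.Agent.Herst
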