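import Pool.Agent.Herst.Targets

set_option autoImplicit false

/-! J10: minimal polynomials of the elements of a radical normal subgroup. -/

namespace Pool.Agent.Herst

open Polynomial

universe u

namespace J10_

variable {D : Type u} [DivisionRing D]

theorem pow_mem {N : Set D} (hN : Rad N) {z : D} (hz : z ∈ N) (k : ℕ) : z ^ k ∈ N := by
  induction k with
  | zero => rw [pow_zero]; exact hN.cen 1 (Subring.one_mem _) one_ne_zero
  | succ k ih => rw [pow_succ]; exact hN.mul _ ih _ hz

theorem AC_smul {c : D} (hc : c ∈ Subring.center D) {x : D} (hx : x ∈ AC D) : c * x ∈ AC D := by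
  have hcc : ∀ y, c * y = y * c := fun y => ((Subring.mem_center_iff.mp hc) y).symm
  unfold AC at hx
  induction hx using AddSubgroup.closure_induction with
  | mem x hx =>
    obtain ⟨p, q, rfl⟩ := hx
    apply AddSubgroup.subset_closure
    refine ⟨c * p, q, ?_⟩
    rw [mul_sub, ← mul_assoc, ← mul_assoc, ← mul_assoc, hcc q]
  | zero => rw [mul_zero]; exact (AC D).zero_mem
  | add x y _ _ hx hy => rw [mul_add]; exact (AC D).add_mem hx hy
  | neg x _ hx => rw [mul_neg]; exact (AC D).neg_mem hx

end J10_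

open J10_

theorem pR3 (h1 : tR1.{u}) (h2 : tR2.{u}) : tR3.{u} := by
  intro D _ N hN z hz hzc
  classical
  have hex : ∃ n : ℕ, 1 ≤ n ∧ z ^ n ∈ Subring.center D := hN.rad z hz
  set M := Nat.find hex with hM
  obtain ⟨hM1, hMc⟩ := Nat.find_spec hex
  rw [← hM] at hM1 hMc
  have hmin : ∀ k, 1 ≤ k → z ^ k ∈ Subring.center D → M ≤ k := fun k hk hkc =>
    Nat.find_min' hex ⟨hk, hkc⟩
  have hM2 : 2 ≤ M := by
    rcases hM1.eq_or_lt with h | h
    · exfalso; apply hzc; rw [← h, pow_one] at hMc; exact hMc
    · exact h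
  have hz0 : z ≠ 0 := hN.ne z hz
  have hMD : (M : D) ≠ 0 := by
    intro h0
    obtain ⟨l, hl⟩ := CharP.exists D
    have hlM : l ∣ M := (CharP.cast_eq_zero_iff D l M).mp h0
    have hl0 : l ≠ 0 := by
      rintro rfl
      have := Nat.eq_zero_of_zero_dvd hlM
      omega
    have hlp : l.Prime := (CharP.char_is_prime_or_zero D l).resolve_right hl0
    obtain ⟨k, hk⟩ := hlM
    have hk1 : 1 ≤ k := by
      rcases Nat.eq_zero_or_pos k with h | h
      · rw [h, mul_zero] at hk; omega
      · exact h
    have hy : z ^ k ∈ Subring.center D := by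
      apply h2 D N hN (z ^ k) (pow_mem hN hz k) l hlp
      · exact (CharP.cast_eq_zero D l)
      · rw [← pow_mul, mul_comm, ← hk]; exact hMc
    have h3 := hmin k hk1 hy
    have h4 : k < M := by
      rw [hk]
      have := hlp.two_le
      nlinarith
    omega
  -- the minimal polynomial
  let f : Subring.center D := ⟨z ^ M, hMc⟩
  have hfz : (f : D) = z ^ M := rfl
  have hroot : aeval z (X ^ M - C f : (Subring.center D)[X]) = 0 := by
    rw [map_sub, map_pow, aeval_X, aeval_C]
    exact sub_self _
  have hmonic : (X ^ M - C f : (Subring.center D)[X]).Monic := monic_X_pow_sub_C f (by omega)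
  have hint : IsIntegral (Subring.center D) z := ⟨X ^ M - C f, hmonic, hroot⟩
  set p := minpoly (Subring.center D) z with hp
  have hpm : p.Monic := minpoly.monic hint
  have hpi : Irreducible p := minpoly.irreducible hint
  have hdvd : p ∣ X ^ M - C f := minpoly.dvd _ z hroot
  have hdeg : (X ^ M - C f : (Subring.center D)[X]).natDegree = M := natDegree_X_pow_sub_C
  have hmM : p.natDegree ≤ M := by
    rw [← hdeg]
    exact natDegree_le_of_dvd hdvd hmonic.ne_zero
  have hm1 : 1 ≤ p.natDegree := hpi.natDegree_pos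
  -- the norm
  have : Fact (Irreducible p) := ⟨hpi⟩
  let pb := AdjoinRoot.powerBasis (hpi.ne_zero)
  have : FiniteDimensional (Subring.center D) (AdjoinRoot p) := pb.finite
  set c : Subring.center D := Algebra.norm (Subring.center D) (AdjoinRoot.root p) with hc
  have hcM : c ^ M = f ^ p.natDegree := by
    rw [hc, ← map_pow]
    have h3 : (AdjoinRoot.root p) ^ M = algebraMap (Subring.center D) (AdjoinRoot p) f := by
      have h4 : AdjoinRoot.mk p (X ^ M - C f) = 0 := AdjoinRoot.mk_eq_zero.mpr hdvd
      rw [map_sub, map_pow, AdjoinRoot.mk_X, AdjoinRoot.mk_C, sub_eq_zero] at h4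
      exact h4
    rw [h3, Algebra.norm_algebraMap]
    congr 1
    rw [pb.finrank]
    exact AdjoinRoot.powerBasis_dim hpi.ne_zero
  have hf0 : f ≠ 0 := by
    intro h
    have h3 : (f : D) = 0 := by rw [h]; rfl
    rw [hfz] at h3
    exact hz0 (pow_eq_zero_iff (by omega) |>.mp h3)
  have hc0 : c ≠ 0 := by
    intro h
    rw [h, zero_pow (by omega)] at hcM
    exact hf0 (pow_eq_zero_iff (by omega) |>.mp hcM.symm)
  have hcD0 : (c : D) ≠ 0 := by
    intro h
    exact hc0 (Subtype.ext h)
  have hcinv : ((c : D))⁻¹ ∈ Subring.center D := by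
    have := (c⁻¹ : Subring.center D).2
    exact this
  have hxiN : z ^ p.natDegree * (c : D)⁻¹ ∈ N :=
    hN.mul _ (pow_mem hN hz _) _ (hN.cen _ hcinv (inv_ne_zero hcD0))
  have hxi1 : (z ^ p.natDegree * (c : D)⁻¹) ^ M = 1 := by
    have hcom : Commute (z ^ p.natDegree) ((c : D)⁻¹) :=
      (Subring.mem_center_iff.mp hcinv) _
    rw [hcom.mul_pow, ← pow_mul, mul_comm p.natDegree M, pow_mul, ← hfz, inv_pow]
    have h3 : (c : D) ^ M = (f : D) ^ p.natDegree := by
      have := congrArg (fun x : Subring.center D => (x : D)) hcM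
      simpa using this
    rw [h3]
    apply mul_inv_cancel₀
    apply pow_ne_zero
    intro h
    exact hf0 (Subtype.ext h)
  have hxic := h1 D N hN _ hxiN M hM1 hxi1
  have hzm : z ^ p.natDegree ∈ Subring.center D := by
    have := (Subring.center D).mul_mem hxic c.2
    rwa [inv_mul_cancel_right₀ hcD0] at this
  have hMm : M ≤ p.natDegree := hmin _ hm1 hzm
  refine ⟨M, f, hM2, hMD, rfl, ?_⟩
  symm
  apply Polynomial.eq_of_monic_of_dvd_of_natDegree_le hpm hmonic hdvd
  rw [hdeg]; exact hMm

theorem pR4 (h1 : tR3.{u}) (h2 : tNT.{u}) : tR4.{u} := by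
  intro D _ N hN z hz hzc
  obtain ⟨M, f, hM2, hMD, hf, hmin⟩ := h1 D N hN z hz hzc
  have hroot : aeval z (X ^ M - C f : (Subring.center D)[X]) = 0 := by
    rw [map_sub, map_pow, aeval_X, aeval_C]
    change z ^ M - (f : D) = 0
    rw [hf, sub_self]
  have hint : IsIntegral (Subring.center D) z :=
    ⟨X ^ M - C f, monic_X_pow_sub_C f (by omega), hroot⟩
  obtain ⟨l, hl, hg, -, hsum⟩ := h2 D z hint
  have hdeg : (X ^ M - C f : (Subring.center D)[X]).natDegree = M := natDegree_X_pow_sub_C
  rw [hmin, hdeg] at hl hsum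
  have hcoef : (X ^ M - C f : (Subring.center D)[X]).coeff (M - 1) = 0 := by
    rw [coeff_sub, coeff_X_pow, coeff_C, if_neg (by omega), if_neg (by omega), sub_zero]
  rw [hcoef] at hsum
  have key : ∀ l : List D, (∀ g ∈ l, g ≠ 0) →
      (l.map (fun g => g * z * g⁻¹)).sum - (l.length : D) * z ∈ AC D := by
    intro l
    induction l with
    | nil => intro _; simp
    | cons g l ih =>
      intro hgl
      have h3 := ih (fun x hx => hgl x (List.mem_cons_of_mem _ hx))
      have hg0 : g ≠ 0 := hgl g List.mem_cons_self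
      have h4 : g * z * g⁻¹ - z ∈ AC D := by
        apply AddSubgroup.subset_closure
        refine ⟨g * z, g⁻¹, ?_⟩
        rw [← mul_assoc g⁻¹, inv_mul_cancel₀ hg0, one_mul]
      have h5 := (AC D).add_mem h4 h3
      have h6 : (List.map (fun g => g * z * g⁻¹) (g :: l)).sum - ((g :: l).length : D) * z =
          (g * z * g⁻¹ - z) + ((l.map (fun g => g * z * g⁻¹)).sum - (l.length : D) * z) := by
        simp only [List.map_cons, List.sum_cons, List.length_cons, Nat.cast_succ]
        rw [add_mul, one_mul]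
        abel
      rw [h6]
      exact h5
  have h3 := key l hg
  rw [hsum, hl] at h3
  have h4 : (M : D) * z ∈ AC D := by
    have := (AC D).neg_mem h3
    simpa using this
  have h5 : ((M : D))⁻¹ ∈ Subring.center D := by
    have h6 : (M : D) = ((M : Subring.center D) : D) := by simp
    rw [h6]
    exact ((M : Subring.center D)⁻¹).2
  have h7 := AC_smul h5 h4
  rwa [inv_mul_cancel_left₀ hMD] at h7

end Pool.Agent.Herst
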