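import Pool.Agent.Herst.Targets

set_option autoImplicit false

/-! Valuation rings of fields (job J1): there is a valuation ring with a prime number or a
transcendental element among its nonunits. -/

namespace Pool.Agent.Herst

open Polynomial

universe u

namespace J1_

theorem char_zero (E : Type u) [Field E] [CharZero E] :
    ∃ (V : ValuationSubring E) (t : E), t ∈ V ∧ t ≠ 0 ∧
      ∀ q : ℕ, q.Prime → (q : E) ≠ 0 → ∀ v ∈ V, (q : E) ≠ t * v := by
  have hI : Ideal.span {(2 : (⊥ : Subring E))} ≠ ⊤ := by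
    intro h
    have h1 : (1 : (⊥ : Subring E)) ∈ Ideal.span {(2 : (⊥ : Subring E))} := by
      rw [h]; exact Submodule.mem_top
    obtain ⟨⟨a, ha⟩, hb⟩ := Ideal.mem_span_singleton'.1 h1
    obtain ⟨n, hn⟩ := Subring.mem_bot.1 ha
    have h2 : a * 2 = (1 : E) := congrArg Subtype.val hb
    rw [← hn] at h2
    have h3 : n * 2 = 1 := by exact_mod_cast h2
    omega
  obtain ⟨V, -, hV⟩ := Ideal.image_subset_nonunits_valuationSubring _ hI
  have h2 : (2 : E) ∈ V.nonunits :=
    hV ⟨(2 : (⊥ : Subring E)), Ideal.subset_span rfl, rfl⟩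
  have h20 : (2 : E) ≠ 0 := two_ne_zero
  have h2i : (2 : E)⁻¹ ∉ V := by
    rcases (V.mem_nonunits_iff_or).1 h2 with h | h
    · exact absurd h h20
    · exact h
  have hnat : ∀ n : ℕ, (n : E) ∈ V := fun n => natCast_mem V n
  refine ⟨V, ((4 : ℕ) : E), hnat 4, by exact_mod_cast (by norm_num : (4 : ℕ) ≠ 0), ?_⟩
  intro q hq _ v hv h
  rcases hq.eq_two_or_odd' with rfl | ⟨m, rfl⟩
  · apply h2i
    have e : (2 : E)⁻¹ = v := by
      rw [inv_eq_iff_eq_inv]
      have h' : (2 : E) = 4 * v := by exact_mod_cast h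
      have hv2 : (2 : E) * (2 * v - 1) = 0 := by linear_combination -h'
      rcases mul_eq_zero.1 hv2 with h0 | h0
      · exact absurd h0 h20
      · exact eq_inv_of_mul_eq_one_left (by linear_combination h0)
    rw [e]; exact hv
  · apply h2i
    have h' : 2 * (m : E) + 1 = 4 * v := by exact_mod_cast h
    have e : (2 : E)⁻¹ = ((2 : ℕ) : E) * v - (m : E) := by
      apply inv_eq_of_mul_eq_one_right
      push_cast
      linear_combination -h'
    rw [e]
    exact V.toSubring.sub_mem (V.toSubring.mul_mem (hnat 2) hv) (hnat m)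

theorem pow_eq_one_of_integral (p : ℕ) [Fact p.Prime] (E : Type u) [Field E] [Algebra (ZMod p) E]
    (x : E) (hx0 : x ≠ 0) (hx : IsIntegral (ZMod p) x) : ∃ k : ℕ, 1 ≤ k ∧ x ^ k = 1 := by
  have : FiniteDimensional (ZMod p) (IntermediateField.adjoin (ZMod p) {x}) :=
    IntermediateField.adjoin.finiteDimensional hx
  have : Finite (IntermediateField.adjoin (ZMod p) {x}) := Module.finite_of_finite (ZMod p)
  let y : IntermediateField.adjoin (ZMod p) {x} :=
    ⟨x, IntermediateField.mem_adjoin_simple_self (ZMod p) x⟩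
  have hy0 : y ≠ 0 := fun h => hx0 (congrArg Subtype.val h)
  let w : (IntermediateField.adjoin (ZMod p) {x})ˣ := Units.mk0 y hy0
  refine ⟨orderOf w, orderOf_pos w, ?_⟩
  have h1 : w ^ orderOf w = 1 := pow_orderOf_eq_one w
  have h2 : y ^ orderOf w = 1 := by
    have h3 := congrArg Units.val h1
    rw [Units.val_pow_eq_pow_val] at h3
    exact h3
  exact congrArg Subtype.val h2

theorem char_p (p : ℕ) (hp : p.Prime) (E : Type u) [Field E] [CharP E p] (x : E) (hx0 : x ≠ 0)
    (hx : ∀ k : ℕ, 1 ≤ k → x ^ k ≠ 1) :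
    ∃ (V : ValuationSubring E) (t : E), t ∈ V ∧ t ≠ 0 ∧
      ∀ q : ℕ, q.Prime → (q : E) ≠ 0 → ∀ v ∈ V, (q : E) ≠ t * v := by
  have : Fact p.Prime := ⟨hp⟩
  let : Algebra (ZMod p) E := ZMod.algebra E p
  have hxA : x ∈ (Algebra.adjoin (ZMod p) {x}).toSubring :=
    Algebra.subset_adjoin rfl
  have hI : Ideal.span {(⟨x, hxA⟩ : (Algebra.adjoin (ZMod p) {x}).toSubring)} ≠ ⊤ := by
    intro h
    have h1 : (1 : (Algebra.adjoin (ZMod p) {x}).toSubring) ∈
        Ideal.span {(⟨x, hxA⟩ : (Algebra.adjoin (ZMod p) {x}).toSubring)} := by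
      rw [h]; exact Submodule.mem_top
    obtain ⟨⟨a, ha⟩, hb⟩ := Ideal.mem_span_singleton'.1 h1
    have h2 : a * x = (1 : E) := congrArg Subtype.val hb
    have ha' : a ∈ Algebra.adjoin (ZMod p) {x} := ha
    rw [Algebra.adjoin_singleton_eq_range_aeval] at ha'
    obtain ⟨f, hf⟩ := ha'
    have hf' : aeval x f = a := hf
    have hint : IsIntegral (ZMod p) x := by
      rw [← isAlgebraic_iff_isIntegral]
      refine ⟨f * X - 1, ?_, ?_⟩
      · intro h0
        have h3 := congrArg (Polynomial.eval 0) h0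
        simp at h3
      · simp [hf', h2]
    obtain ⟨k, hk, hk1⟩ := pow_eq_one_of_integral p E x hx0 hint
    exact hx k hk hk1
  obtain ⟨V, hVA, hV⟩ := Ideal.image_subset_nonunits_valuationSubring _ hI
  have hxV : x ∈ V := hVA hxA
  have h2 : x ∈ V.nonunits := hV ⟨_, Ideal.subset_span rfl, rfl⟩
  have hxi : x⁻¹ ∉ V := by
    rcases (V.mem_nonunits_iff_or).1 h2 with h | h
    · exact absurd h hx0
    · exact h
  refine ⟨V, x, hxV, hx0, ?_⟩
  intro q hq hq0 v hv h
  have hcop : Nat.Coprime q p := by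
    rcases (Nat.coprime_primes hq hp).2 with h'
    apply h'
    rintro rfl
    exact hq0 (CharP.cast_eq_zero E q)
  have hu : (q : ZMod p) * (q : ZMod p)⁻¹ = 1 := ZMod.coe_mul_inv_eq_one q hcop
  have hcast : (q : E) * (((q : ZMod p)⁻¹).val : E) = 1 := by
    have h3 : ((q * ((q : ZMod p)⁻¹).val : ℕ) : ZMod p) = ((1 : ℕ) : ZMod p) := by
      push_cast
      rw [ZMod.natCast_zmod_val, hu]
    have h4 : ((q * ((q : ZMod p)⁻¹).val : ℕ) : E) = ((1 : ℕ) : E) := by
      rw [CharP.natCast_eq_natCast E p]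
      exact (ZMod.natCast_eq_natCast_iff _ _ _).1 h3
    exact_mod_cast h4
  apply hxi
  have e : x⁻¹ = v * (((q : ZMod p)⁻¹).val : E) := by
    apply inv_eq_of_mul_eq_one_right
    rw [← mul_assoc, ← h, hcast]
  rw [e]
  exact V.toSubring.mul_mem hv (natCast_mem V _)

end J1_

theorem pVal : tVal.{u} := by
  intro E _ hE
  obtain ⟨p, hp⟩ := CharP.exists E
  rcases CharP.char_is_prime_or_zero E p with hpp | h0
  · obtain ⟨x, hx0, hx⟩ := hE p hpp hp
    exact J1_.char_p p hpp E x hx0 hx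
  · subst h0
    have : CharZero E := CharP.charP_to_charZero E
    exact J1_.char_zero E

end Pool.Agent.Herst
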