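import Pool.Agent.Herst.Main
import Pool.Agent.Herst.CBH
import Pool.Agent.Herst.Val
import Pool.Agent.Herst.Jac
import Pool.Agent.Herst.CF
import Pool.Agent.Herst.L2
import Pool.Agent.Herst.LI
import Pool.Agent.Herst.R1
import Pool.Agent.Herst.R2
import Pool.Agent.Herst.R3
import Pool.Agent.Herst.Poly1
import Pool.Agent.Herst.Poly2
import Pool.Agent.Herst.NT
import Pool.Agent.Herst.A
import Pool.Agent.Herst.BC
import Pool.Agent.Herst.QE
import Pool.Agent.Herst.F

set_option autoImplicit false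

/-! Radical normal subgroups (MP_176fb9_al): the targets of part 1, all proved. -/

namespace Pool.Agent.Herst

universe u

theorem qRoot : tRoot.{u} := pRoot pEvMul pDivR pClass
theorem qNT : tNT.{u} := pNT (pWed pEvMul pDivR pClass)
theorem qN : tN.{u} := pN (pL2 (pCF pVal pJac))
theorem qR1 : tR1.{u} := pR1 qN qRoot
theorem qR2 : tR2.{u} := pR2 qN
theorem qR3 : tR3.{u} := pR3 qR1 qR2
theorem qR4 : tR4.{u} := pR4 qR3 qNT
theorem qA : tA.{u} := pA pCBH pT4 qN qR4
theorem qB : tB.{u} := pB pCBH pT4 qNT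
theorem qC : tC.{u} := pC qN qR1 qR3
theorem qQuad : tQuad.{u} := pQuad qN pCBH
theorem qE : tE.{u} := pE qN qR3 qNT
theorem qF : tF.{u} := pF qN qR1 qR3 pLI
theorem qMain : tMain.{u} := pMain qA qB qC qQuad qE qF qR2

end Pool.Agent.Herst
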