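import Pool.Agent.Herst.Targets2

set_option autoImplicit false

/-! J20: abelianisation of `D*` in presence of a noncentral algebraic normal subgroup. -/

namespace Pool.Agent.Herst

open Polynomial

universe u

namespace J20_

variable {D : Type u} [DivisionRing D]

/-- torsion modulo the centre in the abelianisation -/
def T (x : Dˣ) : Prop :=
  ∃ (k : ℕ) (f : Dˣ), 1 ≤ k ∧ (f : D) ∈ Subring.center D ∧
    (Abelianization.of x) ^ k * Abelianization.of f = 1

theorem inv_cen {f : Dˣ} (hf : (f : D) ∈ Subring.center D) : ((f⁻¹ : Dˣ) : D) ∈ Subring.center D := by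
  rw [Subring.mem_center_iff] at hf ⊢
  intro g
  have h := hf g
  have h2 : g * ((f⁻¹ : Dˣ) : D) = ((f⁻¹ : Dˣ) : D) * (f * g) * ((f⁻¹ : Dˣ) : D) := by
    rw [← mul_assoc, Units.inv_mul, one_mul]
  rw [h2, ← h]
  simp [mul_assoc]

theorem pow_cen {f : Dˣ} (hf : (f : D) ∈ Subring.center D) (n : ℕ) :
    ((f ^ n : Dˣ) : D) ∈ Subring.center D := by
  rw [Units.val_pow_eq_pow_val]
  exact Subring.pow_mem _ hf n

theorem T_mul {x y : Dˣ} (hx : T x) (hy : T y) : T (x * y) := by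
  obtain ⟨k, f, hk, hf, h1⟩ := hx
  obtain ⟨l, g, hl, hg, h2⟩ := hy
  refine ⟨k * l, f ^ l * g ^ k, Nat.mul_pos hk hl, ?_, ?_⟩
  · rw [Units.val_mul]
    exact Subring.mul_mem _ (pow_cen hf l) (pow_cen hg k)
  · have e1 : (Abelianization.of x ^ k * Abelianization.of f) ^ l = 1 := by rw [h1, one_pow]
    have e2 : (Abelianization.of y ^ l * Abelianization.of g) ^ k = 1 := by rw [h2, one_pow]
    rw [map_mul, map_mul, map_pow, map_pow]
    calc (Abelianization.of x * Abelianization.of y) ^ (k * l) *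
          (Abelianization.of f ^ l * Abelianization.of g ^ k)
        = (Abelianization.of x ^ k * Abelianization.of f) ^ l *
          (Abelianization.of y ^ l * Abelianization.of g) ^ k := by
          rw [mul_pow, mul_pow, mul_pow, ← pow_mul, ← pow_mul, mul_comm l k]
          exact mul_mul_mul_comm _ _ _ _
      _ = 1 := by rw [e1, e2, one_mul]

theorem T_inv {x : Dˣ} (hx : T x) : T x⁻¹ := by
  obtain ⟨k, f, hk, hf, h1⟩ := hx
  refine ⟨k, f⁻¹, hk, inv_cen hf, ?_⟩
  rw [map_inv, map_inv, inv_pow, ← mul_inv, h1, inv_one]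

theorem T_conj {x g : Dˣ} (hx : T (g * x * g⁻¹)) : T x := by
  obtain ⟨k, f, hk, hf, h1⟩ := hx
  refine ⟨k, f, hk, hf, ?_⟩
  rw [map_mul, map_mul, map_inv, mul_comm (Abelianization.of g), mul_inv_cancel_right] at h1
  exact h1

theorem T_cen {x : Dˣ} (hx : (x : D) ∈ Subring.center D) : T x := by
  refine ⟨1, x⁻¹, le_refl _, inv_cen hx, ?_⟩
  rw [pow_one, map_inv, mul_inv_cancel]

theorem list_prod {x : Dˣ} (l : List D) (hl : ∀ g ∈ l, g ≠ 0) :
    ∃ P : Dˣ, (P : D) = (l.map (fun g => g * (x : D) * g⁻¹)).prod ∧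
      Abelianization.of P = Abelianization.of x ^ l.length := by
  induction l with
  | nil => exact ⟨1, by simp, by simp⟩
  | cons g l ih =>
    obtain ⟨P, hP, hA⟩ := ih (fun a ha => hl a (List.mem_cons_of_mem _ ha))
    have hg : g ≠ 0 := hl g List.mem_cons_self
    refine ⟨Units.mk0 g hg * x * (Units.mk0 g hg)⁻¹ * P, ?_, ?_⟩
    · rw [Units.val_mul, hP]
      simp
    · rw [map_mul, hA, map_mul, map_mul, map_inv, mul_comm (Abelianization.of (Units.mk0 g hg)),
        mul_inv_cancel_right, List.length_cons, pow_succ']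

theorem T_one_sub (h3 : tNT.{u}) {w : D} (hint : IsIntegral (Subring.center D) w) {x : Dˣ}
    (hx : (x : D) = 1 - w) : T x := by
  obtain ⟨l, hlen, hl, hprod, -⟩ := h3 D w hint
  have h1 := hprod 1
  have h2 : (l.map (fun g => ((1 : Subring.center D) : D) - g * w * g⁻¹)) =
      l.map (fun g => g * (x : D) * g⁻¹) := by
    apply List.map_congr_left
    intro g hg
    have hg0 := hl g hg
    rw [hx, mul_sub, sub_mul, mul_one, mul_inv_cancel₀ hg0]
    rfl
  rw [h2] at h1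
  obtain ⟨P, hP, hA⟩ := list_prod (x := x) l hl
  rw [← hP] at h1
  have hPc : (P : D) ∈ Subring.center D := by
    rw [h1]
    exact Subtype.property _
  refine ⟨l.length, P⁻¹, ?_, inv_cen hPc, ?_⟩
  · rw [hlen]
    exact minpoly.natDegree_pos hint
  · rw [map_inv, hA, mul_inv_cancel]

end J20_

open J20_

theorem pBalg (h1 : tCBH.{u}) (h2 : tT4.{u}) (h3 : tNT.{u}) : tBalg.{u} := by
  intro D _ N hN hint hz x
  obtain ⟨n₀, hn₀, hn₀c⟩ := hz
  have hconj : ∀ w ∈ {w : D | ∃ n ∈ N, (n : D) = w}, ∀ g : D, g ≠ 0 →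
      g * w * g⁻¹ ∈ {w : D | ∃ n ∈ N, (n : D) = w} := by
    rintro w ⟨n, hn, rfl⟩ g hg
    refine ⟨Units.mk0 g hg * n * (Units.mk0 g hg)⁻¹, hN.conj_mem n hn _, ?_⟩
    simp
  have key : T x := by
    by_cases hx : (x : D) ∈ Subring.center D
    · exact T_cen hx
    · obtain ⟨b, ⟨b', hb', rfl⟩, hxb⟩ : ∃ b ∈ {w : D | ∃ n ∈ N, (n : D) = w},
          (x : D) * b ≠ b * x := by
        by_contra hcon
        push Not at hcon
        exact hx (h1 D {w : D | ∃ n ∈ N, (n : D) = w} hconj ⟨n₀, ⟨n₀, hn₀, rfl⟩, hn₀c⟩ x hcon)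
      have hb0 : (b' : D) ≠ 0 := b'.ne_zero
      obtain ⟨hy0, hy1, hu, hu', hE⟩ := h2 D x b' hb0 hxb
      have hs1 : (1 - (x : D)⁻¹) ≠ 0 := by
        intro h
        apply hy1
        have := sub_eq_zero.1 h
        rw [← inv_inv (x : D), ← this, inv_one]
      have hs2 : ((x : D) - 1) ≠ 0 := sub_ne_zero.2 hy1
      have hm : ∀ p : D, p ≠ 0 → IsIntegral (Subring.center D) (p⁻¹ * (b' : D) * p * (b' : D)⁻¹) := by
        intro p hp
        have h := hint _ (N.mul_mem (hN.conj_mem b' hb' (Units.mk0 p hp)⁻¹) (N.inv_mem hb'))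
        simpa using h
      have hm1 := hm _ hs1
      have hm2 := hm _ hs2
      set w1 := (1 - (x : D)⁻¹)⁻¹ * (b' : D) * (1 - (x : D)⁻¹) * (b' : D)⁻¹ with hw1
      set w2 := ((x : D) - 1)⁻¹ * (b' : D) * ((x : D) - 1) * (b' : D)⁻¹ with hw2
      have hn1 : 1 - w1 ≠ 0 := sub_ne_zero.2 (Ne.symm hu)
      have hn2 : 1 - w2 ≠ 0 := sub_ne_zero.2 (Ne.symm hu')
      have t1 : T (Units.mk0 (1 - w1) hn1) := T_one_sub h3 hm1 rfl
      have t2 : T (Units.mk0 (1 - w2) hn2) := T_one_sub h3 hm2 rfl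
      have t3 : T ((Units.mk0 (1 - w1) hn1)⁻¹ * Units.mk0 (1 - w2) hn2) := T_mul (T_inv t1) t2
      have e : (Units.mk0 (1 - w1) hn1)⁻¹ * Units.mk0 (1 - w2) hn2 = b' * x * b'⁻¹ := by
        apply Units.ext
        simp only [Units.val_mul, Units.val_inv_eq_inv_val, Units.val_mk0]
        exact hE.symm
      rw [e] at t3
      exact T_conj t3
  obtain ⟨k, f, hk, hf, h⟩ := key
  refine ⟨k, f, hk, hf, ?_⟩
  rw [← Abelianization.ker_of, MonoidHom.mem_ker, map_mul, map_pow]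
  exact h

end Pool.Agent.Herst
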