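import Pool.Agent.Herst.Targets2

set_option autoImplicit false

/-! J18: roots of unity of degree at most two over the centre, see Blueprint.lean.txt (part 2). -/

namespace Pool.Agent.Herst

open Polynomial

universe u

namespace J18_

/-- conjugation by `a` as a linear map over the centre -/
def phi {D : Type u} [DivisionRing D] (a : D) : D →ₗ[Subring.center D] D where
  toFun w := a * w * a⁻¹
  map_add' x y := by rw [mul_add, add_mul]
  map_smul' c x := by
    have hc : (c : D) ∈ Subring.center D := c.2
    have h2 := Subring.mem_center_iff.mp hc a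
    change a * ((c : D) * x) * a⁻¹ = (c : D) * (a * x * a⁻¹)
    rw [← mul_assoc a (c : D) x, h2]
    simp only [mul_assoc]

theorem phi_apply {D : Type u} [DivisionRing D] (a w : D) : phi a w = a * w * a⁻¹ := rfl

theorem phi_pow {D : Type u} [DivisionRing D] (a w : D) (i : ℕ) :
    (phi a ^ i) w = a ^ i * w * (a ^ i)⁻¹ := by
  induction i with
  | zero => simp
  | succ n ih =>
    rw [pow_succ', Module.End.mul_apply, ih, phi_apply, pow_succ', mul_inv_rev]
    simp only [mul_assoc]

theorem central_of_coprime {D : Type u} [DivisionRing D] (a : D) (m n : ℕ)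
    (hm : a ^ m ∈ Subring.center D) (hn : a ^ n ∈ Subring.center D) (h : Nat.Coprime m n) :
    a ∈ Subring.center D := by
  by_cases ha : a = 0
  · rw [ha]; exact Subring.zero_mem _
  have hinv : ∀ x : D, x ∈ Subring.center D → x⁻¹ ∈ Subring.center D := by
    intro x hx
    rw [Subring.mem_center_iff] at hx ⊢
    intro g
    by_cases hx0 : x = 0
    · rw [hx0]; simp
    · have h1 := hx g
      calc g * x⁻¹ = x⁻¹ * (x * g) * x⁻¹ := by
            rw [← mul_assoc, inv_mul_cancel₀ hx0, one_mul]
        _ = x⁻¹ * (g * x) * x⁻¹ := by rw [h1]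
        _ = x⁻¹ * g := by rw [mul_assoc, mul_assoc, mul_inv_cancel₀ hx0, mul_one]
  have hz : ∀ x : D, x ∈ Subring.center D → ∀ k : ℤ, x ^ k ∈ Subring.center D := by
    intro x hx k
    obtain ⟨j, rfl | rfl⟩ := k.eq_nat_or_neg
    · rw [zpow_natCast]; exact Subring.pow_mem _ hx j
    · rw [zpow_neg, zpow_natCast]; exact hinv _ (Subring.pow_mem _ hx j)
  have hb := Nat.gcd_eq_gcd_ab m n
  rw [Nat.Coprime] at h
  rw [h] at hb
  have h1 : a = (a ^ m) ^ (Nat.gcdA m n) * (a ^ n) ^ (Nat.gcdB m n) := by
    rw [← zpow_natCast a m, ← zpow_natCast a n, ← zpow_mul, ← zpow_mul, ← zpow_add₀ ha, ← hb]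
    simp
  rw [h1]
  exact Subring.mul_mem _ (hz _ hm _) (hz _ hn _)

end J18_

open J18_

theorem pF2 (h1 : tN.{u}) (h2 : tR1.{u}) (h3 : tR3.{u}) (h4 : tLI.{u}) : tF2.{u} := by
  intro D _ N hN q hq hqD hPex a ha haq
  by_contra hac
  obtain ⟨P, hPpos, hPle, Q, hQ⟩ := hPex
  have ha0 : a ≠ 0 := hN.ne a ha
  have : Fact q.Prime := ⟨hq⟩
  have hintN : ∀ x ∈ N, IsIntegral (Subring.center D) x := by
    intro x hx
    obtain ⟨n, hn, hxn⟩ := hN.rad x hx
    refine ⟨X ^ n - C (⟨x ^ n, hxn⟩ : Subring.center D), ?_, ?_⟩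
    · exact monic_X_pow_sub_C _ (by omega)
    · rw [eval₂_sub, eval₂_X_pow, eval₂_C]
      exact sub_self _
  obtain ⟨M, f, hM2, hMD, hf, hmin⟩ := h3 D N hN a ha hac
  -- M = q
  have hMq : M ≤ q := by
    have hd : minpoly (Subring.center D) a ∣ X ^ q - C (⟨a ^ q, haq⟩ : Subring.center D) := by
      apply minpoly.dvd
      rw [map_sub, map_pow, aeval_X, aeval_C]
      exact sub_self _
    have hne : (X ^ q - C (⟨a ^ q, haq⟩ : Subring.center D) : (Subring.center D)[X]) ≠ 0 :=
      (monic_X_pow_sub_C _ hq.ne_zero).ne_zero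
    have := natDegree_le_of_dvd hd hne
    rw [hmin, natDegree_X_pow_sub_C, natDegree_X_pow_sub_C] at this
    exact this
  have hMq' : M = q := by
    by_contra hne
    have hlt : M < q := lt_of_le_of_ne hMq hne
    have hcop : Nat.Coprime M q := by
      rw [Nat.coprime_comm]
      exact (Nat.Prime.coprime_iff_not_dvd hq).mpr (fun hd => by
        have := Nat.le_of_dvd (by omega) hd
        omega)
    exact hac (central_of_coprime a M q (hf ▸ f.2) haq hcop)
  subst hMq'
  have hdeg : (minpoly (Subring.center D) a).natDegree = M := by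
    rw [hmin, natDegree_X_pow_sub_C]
  -- the polynomials
  set R : (Subring.center D)[X] := Q * (X - 1) with hR
  have hPR : P * R = X ^ M - 1 := by
    rw [hR, ← mul_assoc, ← hQ, cyclotomic_prime_mul_X_sub_one]
  have hXM : (X ^ M - 1 : (Subring.center D)[X]) ≠ 0 := by
    have := (monic_X_pow_sub_C (1 : Subring.center D) hq.ne_zero).ne_zero
    rwa [C_1] at this
  have hR0 : R ≠ 0 := by
    intro h0
    rw [h0, mul_zero] at hPR
    exact hXM hPR.symm
  have hP0 : P ≠ 0 := by
    intro h0
    rw [h0] at hPpos
    simp at hPpos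
  have hRdeg : R.natDegree < M := by
    have e1 : (P * R).natDegree = P.natDegree + R.natDegree := natDegree_mul hP0 hR0
    rw [hPR] at e1
    have e2 : (X ^ M - 1 : (Subring.center D)[X]).natDegree = M := by
      have := natDegree_X_pow_sub_C (n := M) (r := (1 : Subring.center D))
      rwa [C_1] at this
    rw [e2] at e1
    omega
  -- the operator is nonzero
  have hw : ∃ w : D, aeval (phi a) R w ≠ 0 := by
    by_contra hall
    push Not at hall
    have hli : LinearIndependent (Subring.center D) (fun i : Fin M => a ^ (M - 1 - (i : ℕ))) := by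
      have hl := linearIndependent_pow (K := Subring.center D) a
      rw [hdeg] at hl
      have := hl.comp (Fin.rev : Fin M → Fin M) Fin.rev_injective
      convert this using 1
      funext i
      simp only [Function.comp, Fin.val_rev]
      congr 1
      omega
    have hz := h4 D M (fun i => ((R.coeff i : Subring.center D) : D) * a ^ (i : ℕ))
      (fun i : Fin M => a ^ (M - 1 - (i : ℕ))) hli (by
        intro w
        have hs := hall w
        rw [aeval_eq_sum_range' hRdeg, LinearMap.sum_apply] at hs
        have hs2 := congrArg (fun t => t * a ^ (M - 1)) hs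
        simp only [zero_mul] at hs2
        rw [Finset.sum_mul] at hs2
        rw [← hs2, Finset.sum_range]
        refine Finset.sum_congr rfl (fun i _ => ?_)
        rw [LinearMap.smul_apply, phi_pow]
        change _ = ((R.coeff i : Subring.center D) : D) * (a ^ (i : ℕ) * w * (a ^ (i : ℕ))⁻¹) *
          a ^ (M - 1)
        have hi : (M - 1) = (i : ℕ) + (M - 1 - (i : ℕ)) := by
          have := i.2
          omega
        have hpow : (a ^ (i : ℕ))⁻¹ * a ^ (M - 1) = a ^ (M - 1 - (i : ℕ)) := by
          conv_lhs => rw [hi, pow_add]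
          rw [← mul_assoc, inv_mul_cancel₀ (pow_ne_zero _ ha0), one_mul]
        rw [mul_assoc _ _ (a ^ (M - 1)), mul_assoc _ _ (a ^ (M - 1)), hpow]
        simp only [mul_assoc])
    apply hR0
    ext k
    rw [coeff_zero]
    by_cases hk : k < M
    · have := hz ⟨k, hk⟩
      simp only [mul_eq_zero] at this
      rcases this with h | h
      · exact congrArg _ (Subtype.ext h)
      · exact absurd h (pow_ne_zero _ ha0)
    · rw [coeff_eq_zero_of_natDegree_lt (by omega)]
  obtain ⟨w, hw⟩ := hw
  set y : D := aeval (phi a) R w with hy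
  have hy0 : y ≠ 0 := hw
  have hPy : aeval (phi a) P y = 0 := by
    rw [hy, ← Module.End.mul_apply, ← map_mul, hPR, map_sub, map_pow, aeval_X, map_one,
      LinearMap.sub_apply, phi_pow, Module.End.one_apply]
    have hc := Subring.mem_center_iff.mp haq w
    rw [← hc, mul_assoc, mul_inv_cancel₀ (pow_ne_zero _ ha0), mul_one, sub_self]
  have hphi2 : (P.coeff 0 : D) * y + (P.coeff 1 : D) * phi a y +
      (P.coeff 2 : D) * phi a (phi a y) = 0 := by
    have h := hPy
    rw [aeval_eq_sum_range' (n := 3) (by omega), Finset.sum_range_succ, Finset.sum_range_succ,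
      Finset.sum_range_succ, Finset.sum_range_zero, zero_add, LinearMap.add_apply,
      LinearMap.add_apply, LinearMap.smul_apply, LinearMap.smul_apply, LinearMap.smul_apply,
      pow_zero, pow_one, pow_two] at h
    exact h
  set v : D := phi a y with hv
  have hv0 : v ≠ 0 := by
    rw [hv, phi_apply]
    exact mul_ne_zero (mul_ne_zero ha0 hy0) (inv_ne_zero ha0)
  set c : D := a * y * a⁻¹ * y⁻¹ with hc
  have hcv : c = v * y⁻¹ := by rw [hc, hv, phi_apply]
  have hvc : v = c * y := by rw [hcv, mul_assoc, inv_mul_cancel₀ hy0, mul_one]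
  have hcN : c ∈ N := by
    have : c = a * (y * a⁻¹ * y⁻¹) := by rw [hc]; simp only [mul_assoc]
    rw [this]
    exact hN.mul _ ha _ (hN.conj _ (hN.inv _ ha) _ hy0)
  have hc0 : c ≠ 0 := hN.ne _ hcN
  have hphiv : phi a v = a * c * a⁻¹ * c * y := by
    have e1 : phi a v = (a * c * a⁻¹) * (a * y * a⁻¹) := by
      rw [hvc, phi_apply]
      have : a * c * a⁻¹ * (a * y * a⁻¹) = a * c * (a⁻¹ * a) * y * a⁻¹ := by
        simp only [mul_assoc]
      rw [this, inv_mul_cancel₀ ha0, mul_one]
      simp only [mul_assoc]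
    have e2 : a * y * a⁻¹ = c * y := by rw [← hvc, hv, phi_apply]
    rw [e1, e2]
    simp only [mul_assoc]
  -- the equation for `c`
  have hceq : (P.coeff 0 : D) + (P.coeff 1 : D) * c +
      (P.coeff 2 : D) * (a * c * a⁻¹ * c) = 0 := by
    have h := hphi2
    rw [hphiv, hvc] at h
    have h' : ((P.coeff 0 : D) + (P.coeff 1 : D) * c +
      (P.coeff 2 : D) * (a * c * a⁻¹ * c)) * y = 0 := by
      rw [← h, add_mul, add_mul]
      simp only [mul_assoc]
    exact (mul_eq_zero.mp h').resolve_right hy0
  have hPc_of : a * c = c * a → aeval c P = 0 := by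
    intro hac2
    have e : a * c * a⁻¹ = c := by rw [hac2, mul_assoc, mul_inv_cancel₀ ha0, mul_one]
    rw [e] at hceq
    rw [aeval_eq_sum_range' (n := 3) (by omega), Finset.sum_range_succ, Finset.sum_range_succ,
      Finset.sum_range_succ, Finset.sum_range_zero, zero_add, pow_zero, pow_one, pow_two]
    have e0 : (P.coeff 0 : Subring.center D) • (1 : D) = (P.coeff 0 : D) := by
      change (P.coeff 0 : D) * 1 = _
      rw [mul_one]
    rw [e0]
    exact hceq
  have hccen : c ∈ Subring.center D := by
    by_cases hp2 : P.coeff 2 = 0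
    · have hdeg1 : P.natDegree = 1 := by
        have h2' : P.natDegree ≠ 2 := by
          intro h2'
          apply hP0
          rw [← leadingCoeff_eq_zero, leadingCoeff, h2', hp2]
        omega
      have hp1 : P.coeff 1 ≠ 0 := by
        rw [← hdeg1]
        exact leadingCoeff_ne_zero.mpr hP0
      rw [hp2] at hceq
      have h' : (P.coeff 0 : D) + (P.coeff 1 : D) * c = 0 := by
        have hz : (((0 : Subring.center D) : Subring.center D) : D) = 0 := rfl
        rw [hz, zero_mul, add_zero] at hceq
        exact hceq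
      have hce : c = (((-(P.coeff 1)⁻¹ * P.coeff 0 : Subring.center D)) : D) := by
        have hp1' : (P.coeff 1 : D) ≠ 0 := fun h => hp1 (Subtype.ext h)
        have e1 : (P.coeff 1 : D) * c = -(P.coeff 0 : D) := by
          rw [eq_neg_iff_add_eq_zero, add_comm]; exact h'
        have e2 : (((-(P.coeff 1)⁻¹ * P.coeff 0 : Subring.center D)) : D) =
            -(((P.coeff 1)⁻¹ : Subring.center D) : D) * (P.coeff 0 : D) := rfl
        have e3 : (((P.coeff 1)⁻¹ : Subring.center D) : D) * (P.coeff 1 : D) = 1 := by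
          have := inv_mul_cancel₀ hp1
          exact congrArg (fun t : Subring.center D => (t : D)) this
        rw [e2, neg_mul, ← mul_neg, ← e1, ← mul_assoc, e3, one_mul]
      rw [hce]
      exact (-(P.coeff 1)⁻¹ * P.coeff 0 : Subring.center D).2
    · have hac2 : a * c = c * a := by
        apply h1 D N hN c hcN a ha0
        have e3 : (((P.coeff 2)⁻¹ : Subring.center D) : D) * (P.coeff 2 : D) = 1 := by
          have := inv_mul_cancel₀ hp2
          exact congrArg (fun t : Subring.center D => (t : D)) this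
        have e4 : (P.coeff 2 : D) * (a * c * a⁻¹) =
            -((P.coeff 0 : D) * c⁻¹ + (P.coeff 1 : D)) := by
          have h := congrArg (fun t => t * c⁻¹) hceq
          simp only [zero_mul, add_mul] at h
          rw [mul_assoc (P.coeff 1 : D) c, mul_inv_cancel₀ hc0, mul_one,
            mul_assoc (P.coeff 2 : D), mul_assoc (a * c * a⁻¹) c, mul_inv_cancel₀ hc0,
            mul_one] at h
          rw [eq_neg_iff_add_eq_zero, add_comm]
          exact h
        have e5 : a * c * a⁻¹ = (((P.coeff 2)⁻¹ : Subring.center D) : D) *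
            -((P.coeff 0 : D) * c⁻¹ + (P.coeff 1 : D)) := by
          rw [← e4, ← mul_assoc (((P.coeff 2)⁻¹ : Subring.center D) : D), e3, one_mul]
        rw [e5]
        refine Subalgebra.mul_mem _ (Subalgebra.algebraMap_mem _ ((P.coeff 2)⁻¹)) ?_
        refine Subalgebra.neg_mem _ (Subalgebra.add_mem _ (Subalgebra.mul_mem _
          (Subalgebra.algebraMap_mem _ (P.coeff 0)) (hintN c hcN).inv_mem_adjoin)
          (Subalgebra.algebraMap_mem _ (P.coeff 1)))
      have hPc := hPc_of hac2
      have hcq : c ^ M = 1 := by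
        have e : aeval c (P * R) = 0 := by rw [map_mul, hPc, zero_mul]
        rw [hPR, map_sub, map_pow, aeval_X, map_one] at e
        exact sub_eq_zero.mp e
      exact h2 D N hN c hcN M (by omega) hcq
  have hPc : aeval c P = 0 := hPc_of (Subring.mem_center_iff.mp hccen a)
  have hcy : y⁻¹ * a * (y⁻¹)⁻¹ = c * a := by
    rw [inv_inv]
    have e : c * y * a = a * y := by
      rw [hc]
      have : a * y * a⁻¹ * y⁻¹ * y * a = a * y := by
        rw [mul_assoc _ y⁻¹ y, inv_mul_cancel₀ hy0, mul_one, mul_assoc, inv_mul_cancel₀ ha0,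
          mul_one]
      exact this
    have e2 := Subring.mem_center_iff.mp hccen y
    rw [mul_assoc, ← e, ← e2, ← mul_assoc, ← mul_assoc, inv_mul_cancel₀ hy0, one_mul]
  have hay : y⁻¹ * a = a * y⁻¹ := by
    apply h1 D N hN a ha (y⁻¹) (inv_ne_zero hy0)
    rw [hcy]
    exact Subalgebra.mul_mem _ (Subalgebra.algebraMap_mem _ (⟨c, hccen⟩ : Subring.center D))
      (Algebra.subset_adjoin rfl)
  have hc1 : c = 1 := by
    have e : y⁻¹ * a * (y⁻¹)⁻¹ = a := by
      rw [hay, mul_assoc, mul_inv_cancel₀ (inv_ne_zero hy0), mul_one]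
    rw [hcy] at e
    have : c * a = 1 * a := by rw [e, one_mul]
    exact mul_right_cancel₀ ha0 this
  have hP1 : P.eval 1 = 0 := by
    have e : aeval (1 : D) P = 0 := by rw [← hc1]; exact hPc
    have e2 : aeval (algebraMap (Subring.center D) D 1) P = algebraMap (Subring.center D) D (P.eval 1) := by
      rw [aeval_algebraMap_apply_eq_algebraMap_eval]
    rw [map_one, e] at e2
    have := e2.symm
    exact (map_eq_zero_iff _ (algebraMap (Subring.center D) D).injective).mp this
  have hq1 : eval 1 (cyclotomic M (Subring.center D)) = 0 := by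
    rw [hQ, eval_mul, hP1, zero_mul]
  rw [eval_one_cyclotomic_prime] at hq1
  apply hqD
  have := congrArg (fun t : Subring.center D => (t : D)) hq1
  simpa using this

end Pool.Agent.Herst
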