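import Pool.Agent.Herst.Targets2

set_option autoImplicit false

/-! J19: roots of unity of degree at most three, see Blueprint.lean.txt (part 2). -/

namespace Pool.Agent.Herst

open Polynomial

universe u

namespace J19_

/-- conjugation by `a` as a linear map over the centre -/
def phi {D : Type u} [DivisionRing D] (a : D) : D →ₗ[Subring.center D] D where
  toFun w := a * w * a⁻¹
  map_add' x y := by rw [mul_add, add_mul]
  map_smul' c x := by
    have hc : (c : D) ∈ Subring.center D := c.2
    have h2 := Subring.mem_center_iff.mp hc a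
    change a * ((c : D) * x) * a⁻¹ = (c : D) * (a * x * a⁻¹)
    rw [← mul_assoc a (c : D) x, h2]
    simp only [mul_assoc]

theorem phi_apply {D : Type u} [DivisionRing D] (a w : D) : phi a w = a * w * a⁻¹ := rfl

theorem phi_pow {D : Type u} [DivisionRing D] (a w : D) (i : ℕ) :
    (phi a ^ i) w = a ^ i * w * (a ^ i)⁻¹ := by
  induction i with
  | zero => simp
  | succ n ih =>
    rw [pow_succ', Module.End.mul_apply, ih, phi_apply, pow_succ', mul_inv_rev]
    simp only [mul_assoc]

theorem inv_center {D : Type u} [DivisionRing D] (x : D) (hx : x ∈ Subring.center D) :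
    x⁻¹ ∈ Subring.center D := by
  rw [Subring.mem_center_iff] at hx ⊢
  intro g
  by_cases hx0 : x = 0
  · rw [hx0]; simp
  · have h1 := hx g
    calc g * x⁻¹ = x⁻¹ * (x * g) * x⁻¹ := by
          rw [← mul_assoc, inv_mul_cancel₀ hx0, one_mul]
      _ = x⁻¹ * (g * x) * x⁻¹ := by rw [h1]
      _ = x⁻¹ * g := by rw [mul_assoc, mul_assoc, mul_inv_cancel₀ hx0, mul_one]

theorem central_of_coprime {D : Type u} [DivisionRing D] (a : D) (m n : ℕ)
    (hm : a ^ m ∈ Subring.center D) (hn : a ^ n ∈ Subring.center D) (h : Nat.Coprime m n) :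
    a ∈ Subring.center D := by
  by_cases ha : a = 0
  · rw [ha]; exact Subring.zero_mem _
  have hz : ∀ x : D, x ∈ Subring.center D → ∀ k : ℤ, x ^ k ∈ Subring.center D := by
    intro x hx k
    obtain ⟨j, rfl | rfl⟩ := k.eq_nat_or_neg
    · rw [zpow_natCast]; exact Subring.pow_mem _ hx j
    · rw [zpow_neg, zpow_natCast]; exact inv_center _ (Subring.pow_mem _ hx j)
  have hb := Nat.gcd_eq_gcd_ab m n
  rw [Nat.Coprime] at h
  rw [h] at hb
  have h1 : a = (a ^ m) ^ (Nat.gcdA m n) * (a ^ n) ^ (Nat.gcdB m n) := by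
    rw [← zpow_natCast a m, ← zpow_natCast a n, ← zpow_mul, ← zpow_mul, ← zpow_add₀ ha, ← hb]
    simp
  rw [h1]
  exact Subring.mul_mem _ (hz _ hm _) (hz _ hn _)

theorem integralN {D : Type u} [DivisionRing D] {N : Set D} (hN : Rad N) (x : D) (hx : x ∈ N) :
    IsIntegral (Subring.center D) x := by
  obtain ⟨n, hn, hxn⟩ := hN.rad x hx
  refine ⟨X ^ n - C (⟨x ^ n, hxn⟩ : Subring.center D), ?_, ?_⟩
  · exact monic_X_pow_sub_C _ (by omega)
  · rw [eval₂_sub, eval₂_X_pow, eval₂_C]
    exact sub_self _

theorem pow_memN {D : Type u} [DivisionRing D] {N : Set D} (hN : Rad N) {z : D} (hz : z ∈ N)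
    (k : ℕ) : z ^ k ∈ N := by
  induction k with
  | zero => rw [pow_zero]; exact hN.cen 1 (Subring.one_mem _) one_ne_zero
  | succ k ih => rw [pow_succ]; exact hN.mul _ ih _ hz

/-- if `c ^ k` is central then the degree of `c` is at most `k` -/
theorem deg_le {D : Type u} [DivisionRing D] (c : D) (m k : ℕ) (g : Subring.center D)
    (hk : 1 ≤ k) (hmin : minpoly (Subring.center D) c = X ^ m - C g)
    (h : c ^ k ∈ Subring.center D) : m ≤ k := by
  have hd : minpoly (Subring.center D) c ∣ X ^ k - C (⟨c ^ k, h⟩ : Subring.center D) := by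
    apply minpoly.dvd
    rw [map_sub, map_pow, aeval_X, aeval_C]
    exact sub_self _
  have hne : (X ^ k - C (⟨c ^ k, h⟩ : Subring.center D) : (Subring.center D)[X]) ≠ 0 :=
    (monic_X_pow_sub_C _ (by omega)).ne_zero
  have := natDegree_le_of_dvd hd hne
  rw [hmin, natDegree_X_pow_sub_C, natDegree_X_pow_sub_C] at this
  exact this

/-- a nonzero `y` with `P(phi) y = 0` -/
theorem exists_y (h3 : tR3.{u}) (h4 : tLI.{u}) (D : Type u) [DivisionRing D] (N : Set D)
    (hN : Rad N) (q : ℕ) (hq : q.Prime) (P : (Subring.center D)[X]) (hPd : 0 < P.natDegree)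
    (hPc : P ∣ cyclotomic q (Subring.center D)) (a : D) (ha : a ∈ N)
    (haq : a ^ q ∈ Subring.center D) (hac : a ∉ Subring.center D) :
    ∃ y : D, y ≠ 0 ∧ aeval (phi a) P y = 0 := by
  have ha0 : a ≠ 0 := hN.ne a ha
  have : Fact q.Prime := ⟨hq⟩
  obtain ⟨Q, hQ⟩ := hPc
  obtain ⟨M, f, hM2, hMD, hf, hmin⟩ := h3 D N hN a ha hac
  -- M = q
  have hMq : M ≤ q := deg_le a M q f hq.one_lt.le hmin haq
  have hMq' : M = q := by
    by_contra hne
    have hlt : M < q := lt_of_le_of_ne hMq hne
    have hcop : Nat.Coprime M q := by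
      rw [Nat.coprime_comm]
      exact (Nat.Prime.coprime_iff_not_dvd hq).mpr (fun hd => by
        have := Nat.le_of_dvd (by omega) hd
        omega)
    exact hac (central_of_coprime a M q (hf ▸ f.2) haq hcop)
  subst hMq'
  have hdeg : (minpoly (Subring.center D) a).natDegree = M := by
    rw [hmin, natDegree_X_pow_sub_C]
  -- the polynomials
  set R : (Subring.center D)[X] := Q * (X - 1) with hR
  have hPR : P * R = X ^ M - 1 := by
    rw [hR, ← mul_assoc, ← hQ, cyclotomic_prime_mul_X_sub_one]
  have hXM : (X ^ M - 1 : (Subring.center D)[X]) ≠ 0 := by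
    have := (monic_X_pow_sub_C (1 : Subring.center D) hq.ne_zero).ne_zero
    rwa [C_1] at this
  have hR0 : R ≠ 0 := by
    intro h0
    rw [h0, mul_zero] at hPR
    exact hXM hPR.symm
  have hP0 : P ≠ 0 := by
    intro h0
    rw [h0] at hPd
    simp at hPd
  have hRdeg : R.natDegree < M := by
    have e1 : (P * R).natDegree = P.natDegree + R.natDegree := natDegree_mul hP0 hR0
    rw [hPR] at e1
    have e2 : (X ^ M - 1 : (Subring.center D)[X]).natDegree = M := by
      have := natDegree_X_pow_sub_C (n := M) (r := (1 : Subring.center D))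
      rwa [C_1] at this
    rw [e2] at e1
    omega
  -- the operator is nonzero
  have hw : ∃ w : D, aeval (phi a) R w ≠ 0 := by
    by_contra hall
    push Not at hall
    have hli : LinearIndependent (Subring.center D) (fun i : Fin M => a ^ (M - 1 - (i : ℕ))) := by
      have hl := linearIndependent_pow (K := Subring.center D) a
      rw [hdeg] at hl
      have := hl.comp (Fin.rev : Fin M → Fin M) Fin.rev_injective
      convert this using 1
      funext i
      simp only [Function.comp, Fin.val_rev]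
      congr 1
      omega
    have hz := h4 D M (fun i => ((R.coeff i : Subring.center D) : D) * a ^ (i : ℕ))
      (fun i : Fin M => a ^ (M - 1 - (i : ℕ))) hli (by
        intro w
        have hs := hall w
        rw [aeval_eq_sum_range' hRdeg, LinearMap.sum_apply] at hs
        have hs2 := congrArg (fun t => t * a ^ (M - 1)) hs
        simp only [zero_mul] at hs2
        rw [Finset.sum_mul] at hs2
        rw [← hs2, Finset.sum_range]
        refine Finset.sum_congr rfl (fun i _ => ?_)
        rw [LinearMap.smul_apply, phi_pow]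
        change _ = ((R.coeff i : Subring.center D) : D) * (a ^ (i : ℕ) * w * (a ^ (i : ℕ))⁻¹) *
          a ^ (M - 1)
        have hi : (M - 1) = (i : ℕ) + (M - 1 - (i : ℕ)) := by
          have := i.2
          omega
        have hpow : (a ^ (i : ℕ))⁻¹ * a ^ (M - 1) = a ^ (M - 1 - (i : ℕ)) := by
          conv_lhs => rw [hi, pow_add]
          rw [← mul_assoc, inv_mul_cancel₀ (pow_ne_zero _ ha0), one_mul]
        rw [mul_assoc _ _ (a ^ (M - 1)), mul_assoc _ _ (a ^ (M - 1)), hpow]
        simp only [mul_assoc])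
    apply hR0
    ext k
    rw [coeff_zero]
    by_cases hk : k < M
    · have := hz ⟨k, hk⟩
      simp only [mul_eq_zero] at this
      rcases this with h | h
      · exact congrArg _ (Subtype.ext h)
      · exact absurd h (pow_ne_zero _ ha0)
    · rw [coeff_eq_zero_of_natDegree_lt (by omega)]
  obtain ⟨w, hw⟩ := hw
  set y : D := aeval (phi a) R w with hy
  have hy0 : y ≠ 0 := hw
  have hPy : aeval (phi a) P y = 0 := by
    rw [hy, ← Module.End.mul_apply, ← map_mul, hPR, map_sub, map_pow, aeval_X, map_one,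
      LinearMap.sub_apply, phi_pow, Module.End.one_apply]
    have hc := Subring.mem_center_iff.mp haq w
    rw [← hc, mul_assoc, mul_inv_cancel₀ (pow_ne_zero _ ha0), mul_one, sub_self]
  exact ⟨y, hy0, hPy⟩

end J19_

open J19_

theorem pF3 (h1 : tN.{u}) (_h2 : tR1.{u}) (h3 : tR3.{u}) (h4 : tLI.{u}) (h5 : tF2.{u})
    (h6 : tK.{u}) : tF3.{u} := by
  intro D _ N hN q hq hqD hP a ha haq
  obtain ⟨P, hPd, hP3, hPc⟩ := hP
  by_contra hac
  have hno2 : ∀ P' : (Subring.center D)[X], 0 < P'.natDegree → P'.natDegree ≤ 2 →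
      ¬ P' ∣ cyclotomic q (Subring.center D) := fun P' e1 e2 e3 =>
    hac (h5 D N hN q hq hqD ⟨P', e1, e2, e3⟩ a ha haq)
  have hPd3 : P.natDegree = 3 := by
    by_contra hne
    exact hno2 P hPd (by omega) hPc
  have ha0 : a ≠ 0 := hN.ne a ha
  have : Fact q.Prime := ⟨hq⟩
  obtain ⟨y, hy0, hPy⟩ := exists_y h3 h4 D N hN q hq P hPd hPc a ha haq hac
  -- coefficients of `P`
  set p3 := P.coeff 3 with hp3
  set p2 := P.coeff 2 with hp2
  set p1 := P.coeff 1 with hp1
  set p0 := P.coeff 0 with hp0
  have hPe : P = C p3 * X ^ 3 + C p2 * X ^ 2 + C p1 * X + C p0 := by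
    rw [P.as_sum_range_C_mul_X_pow, hPd3]
    simp only [Finset.sum_range_succ, Finset.sum_range_zero, pow_zero, pow_one, mul_one, zero_add]
    rw [← hp3, ← hp2, ← hp1, ← hp0]
    ring
  have hp30 : p3 ≠ 0 := by
    rw [hp3, ← hPd3, coeff_natDegree]
    intro h0
    rw [leadingCoeff_eq_zero] at h0
    rw [h0] at hPd
    simp at hPd
  have hphi : (p3 : D) * phi a (phi a (phi a y)) + (p2 : D) * phi a (phi a y) +
      (p1 : D) * phi a y + (p0 : D) * y = 0 := by
    have h := hPy
    rw [hPe] at h
    simp only [map_add, map_mul, aeval_X, aeval_C, pow_succ, pow_zero, one_mul,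
      LinearMap.add_apply, Module.End.mul_apply, Module.algebraMap_end_apply] at h
    exact h
  set c : D := a * y * a⁻¹ * y⁻¹ with hc
  have hcy1 : c * y = phi a y := by
    rw [hc, phi_apply, mul_assoc (a * y * a⁻¹), inv_mul_cancel₀ hy0, mul_one]
  have hcN : c ∈ N := by
    have : c = a * (y * a⁻¹ * y⁻¹) := by rw [hc]; simp only [mul_assoc]
    rw [this]
    exact hN.mul _ ha _ (hN.conj _ (hN.inv _ ha) _ hy0)
  have hc0 : c ≠ 0 := hN.ne _ hcN
  have hphis : ∀ (e : Subring.center D) (w : D), phi a ((e : D) * w) = (e : D) * phi a w :=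
    fun e w => (phi a).map_smul e w
  -- `c` is not central
  have hcc : c ∉ Subring.center D := by
    intro hccen
    have f2 : phi a (phi a y) = c * (c * y) := by
      rw [← hcy1]
      have := hphis ⟨c, hccen⟩ y
      simp only at this
      rw [this, ← hcy1]
    have f3 : phi a (phi a (phi a y)) = c * (c * (c * y)) := by
      rw [f2]
      have := hphis ⟨c, hccen⟩ (c * y)
      simp only at this
      rw [this]
      have := hphis ⟨c, hccen⟩ y
      simp only at this
      rw [this, ← hcy1]
    have hPc : aeval c P = 0 := by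
      have e : aeval c P * y = 0 := by
        rw [f3, f2, ← hcy1] at hphi
        rw [hPe]
        simp only [map_add, map_mul, aeval_X, aeval_C, pow_succ, pow_zero, one_mul,
          add_mul]
        simp only [mul_assoc] at hphi ⊢
        exact hphi
      exact (mul_eq_zero.1 e).resolve_right hy0
    have hcy : y⁻¹ * a * (y⁻¹)⁻¹ = c * a := by
      rw [inv_inv]
      have e : c * y * a = a * y := by
        rw [hcy1, phi_apply, mul_assoc, inv_mul_cancel₀ ha0, mul_one]
      have e2 := Subring.mem_center_iff.mp hccen y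
      rw [mul_assoc, ← e, ← e2, ← mul_assoc, ← mul_assoc, inv_mul_cancel₀ hy0, one_mul]
    have hay : y⁻¹ * a = a * y⁻¹ := by
      apply h1 D N hN a ha (y⁻¹) (inv_ne_zero hy0)
      rw [hcy]
      exact Subalgebra.mul_mem _ (Subalgebra.algebraMap_mem _ (⟨c, hccen⟩ : Subring.center D))
        (Algebra.subset_adjoin rfl)
    have hc1 : c = 1 := by
      have e : y⁻¹ * a * (y⁻¹)⁻¹ = a := by
        rw [hay, mul_assoc, mul_inv_cancel₀ (inv_ne_zero hy0), mul_one]
      rw [hcy] at e
      have : c * a = 1 * a := by rw [e, one_mul]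
      exact mul_right_cancel₀ ha0 this
    have hP1 : P.eval 1 = 0 := by
      have e : aeval (1 : D) P = 0 := by rw [← hc1]; exact hPc
      have e2 : aeval (algebraMap (Subring.center D) D 1) P =
          algebraMap (Subring.center D) D (P.eval 1) := by
        rw [aeval_algebraMap_apply_eq_algebraMap_eval]
      rw [map_one, e] at e2
      have := e2.symm
      exact (map_eq_zero_iff _ (algebraMap (Subring.center D) D).injective).mp this
    have hq1 : eval 1 (cyclotomic q (Subring.center D)) = 0 := by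
      obtain ⟨Q, hQ⟩ := ‹P ∣ cyclotomic q (Subring.center D)›
      rw [hQ, eval_mul, hP1, zero_mul]
    rw [eval_one_cyclotomic_prime] at hq1
    apply hqD
    have := congrArg (fun t : Subring.center D => (t : D)) hq1
    simpa using this
  obtain ⟨m, g, hm2, hmD, hg, hmin⟩ := h3 D N hN c hcN hcc
  -- `m` is prime to 6
  have hml : ∀ l : ℕ, l.Prime → l ≤ 3 → ¬ l ∣ m := by
    intro l hl hl3 hlm
    obtain ⟨k, hk⟩ := hlm
    have hk1 : 1 ≤ k := by
      rcases Nat.eq_zero_or_pos k with h | h
      · rw [h] at hk; omega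
      · exact h
    have hlD : (l : D) ≠ 0 := by
      intro h0
      apply hmD
      rw [hk, Nat.cast_mul, h0, zero_mul]
    have hcen : c ^ k ∈ Subring.center D := by
      have hF : Fact l.Prime := ⟨hl⟩
      have htot : (cyclotomic l (Subring.center D)).natDegree = l - 1 := by
        rw [natDegree_cyclotomic, Nat.totient_prime hl]
      have := hl.two_le
      refine h5 D N hN l hl hlD ⟨cyclotomic l (Subring.center D), ?_, ?_, dvd_rfl⟩ (c ^ k)
        (pow_memN hN hcN k) ?_
      · rw [htot]; omega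
      · rw [htot]; omega
      · rw [← pow_mul, mul_comm, ← hk, ← hg]
        exact g.2
    have h := deg_le c m k g hk1 hmin hcen
    have := hl.two_le
    have : 2 * k ≤ m := by
      rw [hk]
      exact Nat.mul_le_mul_right k this
    omega
  have hm5 : 5 ≤ m := by
    have e2 := hml 2 Nat.prime_two (by norm_num)
    have e3 := hml 3 Nat.prime_three (by norm_num)
    omega
  -- the element `Y`
  have hcint : IsIntegral (Subring.center D) c := integralN hN c hcN
  set S := Algebra.adjoin (Subring.center D) ({c} : Set D) with hS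
  have hcS : c ∈ S := Algebra.subset_adjoin rfl
  have hFS : ∀ e : Subring.center D, (e : D) ∈ S := fun e => Subalgebra.algebraMap_mem _ e
  set r : D := (p3 : D) * c + (p2 : D) with hr
  have hrS : r ∈ S := S.add_mem (S.mul_mem (hFS _) hcS) (hFS _)
  have hp30' : (p3 : D) ≠ 0 := fun h0 => hp30 (Subtype.ext h0)
  have hr0 : r ≠ 0 := by
    intro h0
    apply hcc
    have : c = (p3 : D)⁻¹ * (-(p2 : D)) := by
      rw [eq_inv_mul_iff_mul_eq₀ hp30']
      exact eq_neg_of_add_eq_zero_left h0
    rw [this]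
    exact Subring.mul_mem _ (inv_center _ p3.2) (Subring.neg_mem _ p2.2)
  have hrinv : r⁻¹ ∈ S :=
    (IsIntegral.of_mem_of_fg S hcint.fg_adjoin_singleton r hrS).inv_mem hrS
  set Y : D := r * y with hY
  have hY0 : Y ≠ 0 := mul_ne_zero hr0 hy0
  have hYe : Y = (p3 : D) * phi a y + (p2 : D) * y := by
    rw [hY, hr, add_mul, mul_assoc, hcy1]
  have hphiY : phi a (phi a Y) = -((p1 : D) * c + (p0 : D)) * y := by
    rw [hYe, map_add, hphis, hphis, map_add, hphis, hphis]
    have e : (p3 : D) * phi a (phi a (phi a y)) + (p2 : D) * phi a (phi a y) =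
      -((p1 : D) * phi a y + (p0 : D) * y) := by
      rw [eq_neg_iff_add_eq_zero, ← hphi]
      abel
    rw [e, neg_mul, add_mul, mul_assoc, hcy1]
  set n : D := a ^ 2 * Y * (a ^ 2)⁻¹ * Y⁻¹ with hn
  have hnY : n * Y = phi a (phi a Y) := by
    have e := phi_pow a Y 2
    rw [pow_two, Module.End.mul_apply] at e
    rw [e, hn, mul_assoc (a ^ 2 * Y * (a ^ 2)⁻¹), inv_mul_cancel₀ hY0, mul_one]
  have ha2 : a ^ 2 ∈ N := pow_memN hN ha 2
  have hnN : n ∈ N := by
    have : n = a ^ 2 * (Y * (a ^ 2)⁻¹ * Y⁻¹) := by rw [hn]; simp only [mul_assoc]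
    rw [this]
    exact hN.mul _ ha2 _ (hN.conj _ (hN.inv _ ha2) _ hY0)
  have hnr : n * r = -((p1 : D) * c + (p0 : D)) := by
    rw [hphiY, hY, ← mul_assoc] at hnY
    exact mul_right_cancel₀ hy0 hnY
  have hnS : n ∈ S := by
    have : n = -((p1 : D) * c + (p0 : D)) * r⁻¹ := by
      rw [← hnr, mul_assoc, mul_inv_cancel₀ hr0, mul_one]
    rw [this]
    exact S.mul_mem (S.neg_mem (S.add_mem (S.mul_mem (hFS _) hcS) (hFS _))) hrinv
  obtain ⟨t₀, l₀, hl₀⟩ := h6 D N hN c hcN hcc n hnN hnS
  -- reduce the exponent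
  obtain ⟨t, l, htm, hl⟩ : ∃ (t : ℕ) (l : Subring.center D), t < m ∧ n = l * c ^ t := by
    refine ⟨t₀ % m, l₀ * g ^ (t₀ / m), Nat.mod_lt _ (by omega), ?_⟩
    rw [hl₀, Subring.coe_mul, Subring.coe_pow, hg, mul_assoc, ← pow_mul, ← pow_add,
      Nat.div_add_mod]
  have hl0 : l ≠ 0 := by
    intro h0
    rw [h0] at hl
    exact hN.ne n hnN (by rw [hl]; simp)
  -- the polynomial
  have hg' : aeval c (X ^ m - C g : (Subring.center D)[X]) = 0 := by
    rw [← hmin]; exact minpoly.aeval _ _
  have hzero : ∀ W : (Subring.center D)[X], W.natDegree < m → aeval c W = 0 → W = 0 := by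
    intro W hW h0
    have hd : X ^ m - C g ∣ W := by
      rw [← hmin]
      exact minpoly.dvd _ _ h0
    refine eq_zero_of_dvd_of_natDegree_lt hd ?_
    rw [natDegree_X_pow_sub_C]
    exact hW
  have hWc : (l : D) * c ^ t * ((p3 : D) * c + (p2 : D)) + (p1 : D) * c + (p0 : D) = 0 := by
    rw [← hl, ← hr, hnr, add_assoc, neg_add_cancel]
  have hcomm : ∀ (e : Subring.center D) (w : D), w * (e : D) = (e : D) * w :=
    fun e w => Subring.mem_center_iff.mp e.2 w
  have hm0 : ∀ e e' : Subring.center D, e * e' = 0 → e ≠ 0 → e' = 0 := fun e e' h h' =>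
    (mul_eq_zero.1 h).resolve_left h'
  have hlin : ∀ e e' : Subring.center D, (C e * X + C e' : (Subring.center D)[X]).natDegree ≤ 1 :=
    fun e e' => natDegree_linear_le
  rcases Nat.eq_zero_or_pos t with ht0 | ht0
  · -- `t = 0`
    subst ht0
    have e0 := hzero (C (l * p3 + p1) * X + C (l * p2 + p0)) (by
      have := hlin (l * p3 + p1) (l * p2 + p0); omega) (by
      simp only [map_add, map_mul, aeval_X, aeval_C]
      rw [pow_zero, mul_one] at hWc
      have : ∀ z : Subring.center D, algebraMap (Subring.center D) D z = (z : D) := fun _ => rfl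
      simp only [this]
      rw [← hWc, mul_add, add_mul, mul_assoc]
      abel)
    have c1 := congrArg (fun W => coeff W 1) e0
    have c0 := congrArg (fun W => coeff W 0) e0
    simp only [coeff_add, coeff_C_mul, coeff_X_one, coeff_C_succ, coeff_X_zero,
      coeff_C_zero, mul_one, mul_zero, add_zero, zero_add, coeff_zero] at c1 c0
    have f1 : p1 = -(l * p3) := by rw [eq_neg_iff_add_eq_zero, add_comm]; exact c1
    have f0 : p0 = -(l * p2) := by rw [eq_neg_iff_add_eq_zero, add_comm]; exact c0
    refine hno2 (C p3 * X + C p2) ?_ ?_ ((Dvd.intro_left (X ^ 2 - C l) ?_).trans hPc)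
    · rw [natDegree_linear hp30]; norm_num
    · rw [natDegree_linear hp30]; norm_num
    · rw [hPe, f1, f0]
      simp only [map_neg, map_mul]
      ring
  rcases lt_or_eq_of_le (Nat.succ_le_of_lt htm) with ht1 | ht1
  · -- `1 ≤ t`, `t + 1 < m`
    have e0 := hzero (C (l * p3) * X ^ (t + 1) + C (l * p2) * X ^ t + C p1 * X + C p0) (by
      refine lt_of_le_of_lt ?_ ht1
      compute_degree) (by
      simp only [map_add, map_mul, map_pow, aeval_X, aeval_C]
      have : ∀ z : Subring.center D, algebraMap (Subring.center D) D z = (z : D) := fun _ => rfl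
      simp only [this]
      rw [← hWc, mul_add]
      have f1 : (l : D) * c ^ t * ((p3 : D) * c) = (l : D) * (p3 : D) * c ^ (t + 1) := by
        rw [mul_assoc (l : D) (c ^ t), ← mul_assoc (c ^ t), hcomm p3, mul_assoc (p3 : D),
          ← pow_succ, mul_assoc]
      have f2 : (l : D) * c ^ t * (p2 : D) = (l : D) * (p2 : D) * c ^ t := by
        rw [mul_assoc (l : D) (c ^ t), hcomm p2, mul_assoc]
      rw [f1, f2])
    have c1 := congrArg (fun W => coeff W (t + 1)) e0
    simp only [coeff_add, coeff_C_mul, coeff_X_pow, coeff_X, coeff_C_succ, coeff_zero] at c1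
    rw [if_pos trivial, if_neg (by omega), if_neg (by omega)] at c1
    simp only [mul_one, mul_zero, add_zero] at c1
    exact (mul_ne_zero hl0 hp30) c1
  · -- `t + 1 = m`
    have hcm : c ^ t * c = (g : D) := by
      rw [← pow_succ, hg]
      congr 1
    have e0 := hzero (C (l * p2) * X ^ t + C p1 * X + C (p0 + l * p3 * g)) (by
      refine lt_of_le_of_lt ?_ htm
      compute_degree
      exact max_le le_rfl ht0) (by
      simp only [map_add, map_mul, map_pow, aeval_X, aeval_C]
      have : ∀ z : Subring.center D, algebraMap (Subring.center D) D z = (z : D) := fun _ => rfl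
      simp only [this]
      rw [← hWc, mul_add]
      have f1 : (l : D) * c ^ t * ((p3 : D) * c) = (l : D) * (p3 : D) * (g : D) := by
        rw [mul_assoc (l : D) (c ^ t), ← mul_assoc (c ^ t), hcomm p3, mul_assoc (p3 : D), hcm,
          mul_assoc]
      have f2 : (l : D) * c ^ t * (p2 : D) = (l : D) * (p2 : D) * c ^ t := by
        rw [mul_assoc (l : D) (c ^ t), hcomm p2, mul_assoc]
      rw [f1, f2]
      abel)
    have ct := congrArg (fun W => coeff W t) e0
    have c1 := congrArg (fun W => coeff W 1) e0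
    simp only [coeff_add, coeff_C_mul, coeff_X_pow, coeff_X, coeff_C, coeff_zero] at ct c1
    rw [if_pos trivial, if_neg (by omega), if_neg (by omega)] at ct
    rw [if_neg (by omega), if_pos trivial, if_neg (by omega)] at c1
    simp only [mul_one, mul_zero, add_zero, zero_add] at ct c1
    have f2 : p2 = 0 := hm0 _ _ ct hl0
    have hPe' : P = C p3 * X ^ 3 + C p0 := by
      rw [hPe, f2, c1]
      simp
    have hq3 : q ≠ 3 := by
      intro h3
      have h := natDegree_le_of_dvd hPc (cyclotomic_ne_zero q _)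
      rw [hPd3, natDegree_cyclotomic, Nat.totient_prime hq, h3] at h
      omega
    have hr3 : q % 3 ≠ 0 := by
      intro h0
      have := (Nat.prime_dvd_prime_iff_eq Nat.prime_three hq).1 (Nat.dvd_of_mod_eq_zero h0)
      exact hq3 this.symm
    set ρ : Subring.center D := -(p0 * p3⁻¹) with hρ
    have hPρ : P = C p3 * (X ^ 3 - C ρ) := by
      rw [hPe', hρ, mul_sub, ← C_mul]
      have : p3 * -(p0 * p3⁻¹) = -p0 := by
        field_simp
      rw [this, map_neg, sub_neg_eq_add]
    have hd1 : (X ^ 3 - C ρ) ∣ (X ^ q - 1 : (Subring.center D)[X]) := by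
      have e1 : P ∣ (X ^ q - 1 : (Subring.center D)[X]) := by
        rw [← cyclotomic_prime_mul_X_sub_one]
        exact Dvd.dvd.mul_right hPc _
      exact (Dvd.intro_left _ hPρ.symm).trans e1
    have hd2 : (X ^ 3 - C ρ) ∣ ((X ^ 3) ^ (q / 3) - (C ρ) ^ (q / 3) : (Subring.center D)[X]) :=
      sub_dvd_pow_sub_pow _ _ _
    have hd3 : (X ^ 3 - C ρ) ∣ (C (ρ ^ (q / 3)) * X ^ (q % 3) - 1 : (Subring.center D)[X]) := by
      have e1 := dvd_sub hd1 (hd2.mul_right (X ^ (q % 3)))
      have e2 : (X ^ q - 1 - ((X ^ 3) ^ (q / 3) - (C ρ) ^ (q / 3)) * X ^ (q % 3) :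
          (Subring.center D)[X]) = C (ρ ^ (q / 3)) * X ^ (q % 3) - 1 := by
        have e3 : (X ^ q : (Subring.center D)[X]) = (X ^ 3) ^ (q / 3) * X ^ (q % 3) := by
          rw [← pow_mul, ← pow_add, Nat.div_add_mod]
        rw [e3, C_pow]
        ring
      rwa [e2] at e1
    have hlt : q % 3 < 3 := Nat.mod_lt _ (by norm_num)
    have hz0 : (C (ρ ^ (q / 3)) * X ^ (q % 3) - 1 : (Subring.center D)[X]) = 0 := by
      refine eq_zero_of_dvd_of_natDegree_lt hd3 ?_
      rw [natDegree_X_pow_sub_C]
      refine lt_of_le_of_lt ?_ hlt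
      compute_degree
    have h00 := congrArg (fun W => coeff W 0) hz0
    simp only [coeff_sub, coeff_C_mul, coeff_X_pow, coeff_one_zero, coeff_zero] at h00
    rw [if_neg (fun h => hr3 h.symm), mul_zero, zero_sub, neg_eq_zero] at h00
    exact one_ne_zero h00

end Pool.Agent.Herst
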