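import Pool.Agent.Herst.Targets2

/-! J16 (MP_176fb9_al): elements of a radical normal subgroup which generate a Galois extension
of the centre are central. -/

namespace Pool.Agent.Herst

open Polynomial IntermediateField

universe u

theorem pG (h1 : tN.{u}) (h2 : tR3.{u}) (h3 : tRoot.{u}) : tG.{u} := by
  intro D _ N hN x hx hxc K _ _ _ β hβ
  by_contra hcon
  push Not at hcon
  obtain ⟨M, f, hM, hMne, hf, hmin⟩ := h2 D N hN x hx hxc
  have hintx : IsIntegral (Subring.center D) x := by
    refine ⟨X ^ M - C f, monic_X_pow_sub_C f (by omega), ?_⟩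
    rw [← hmin]
    exact minpoly.aeval _ x
  have hintβ : IsIntegral (Subring.center D) β := Algebra.IsIntegral.isIntegral β
  have hsep : (minpoly (Subring.center D) β).Separable := Algebra.IsSeparable.isSeparable _ β
  have hspl : ((minpoly (Subring.center D) β).map (algebraMap (Subring.center D) K)).Splits :=
    Normal.splits inferInstance β
  have hdeg : (minpoly (Subring.center D) β).natDegree = M := by
    rw [hβ, hmin, natDegree_X_pow_sub_C]
  have hcard : Fintype.card ((minpoly (Subring.center D) β).rootSet K) = M := by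
    rw [card_rootSet_eq_natDegree hsep hspl, hdeg]
  have hβroot : aeval β (minpoly (Subring.center D) β) = 0 := minpoly.aeval _ β
  have hne0 : minpoly (Subring.center D) β ≠ 0 := minpoly.ne_zero hintβ
  obtain ⟨β', hβ'⟩ : ∃ b : (minpoly (Subring.center D) β).rootSet K,
      b ≠ ⟨β, (mem_rootSet_of_ne hne0).2 hβroot⟩ := by
    have : Nontrivial ((minpoly (Subring.center D) β).rootSet K) := by
      rw [← Fintype.one_lt_card_iff_nontrivial, hcard]
      omega
    exact exists_ne _
  have hβ'root : aeval (β' : K) (minpoly (Subring.center D) β) = 0 :=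
    (mem_rootSet_of_ne hne0).1 β'.2
  obtain ⟨σ, hσ⟩ := minpoly.exists_algEquiv_of_root (Algebra.IsAlgebraic.isAlgebraic β) hβ'root
  have hσ' : σ.symm β = β' := (AlgEquiv.symm_apply_eq σ).2 hσ.symm
  have hmem := hcon σ.symm
  rw [hσ', ← mem_toSubalgebra, adjoin_simple_toSubalgebra_of_isAlgebraic
    (Algebra.IsAlgebraic.isAlgebraic β), Algebra.adjoin_singleton_eq_range_aeval] at hmem
  obtain ⟨s, hs⟩ := hmem
  have hs' : aeval β s = (β' : K) := hs
  have hdvd : minpoly (Subring.center D) β ∣ (minpoly (Subring.center D) β).comp s := by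
    apply minpoly.dvd
    rw [aeval_comp, hs', hβ'root]
  have hx' : aeval (aeval x s) (minpoly (Subring.center D) x) = 0 := by
    rw [← aeval_comp, ← hβ]
    obtain ⟨t, ht⟩ := hdvd
    rw [ht, map_mul, hβ, minpoly.aeval, zero_mul]
  obtain ⟨g, hg0, hg⟩ := h3 D x (aeval x s) hintx hx'
  have hgmem : g * x * g⁻¹ ∈ Algebra.adjoin (Subring.center D) {x} := by
    rw [← hg, Algebra.adjoin_singleton_eq_range_aeval]
    exact ⟨s, rfl⟩
  have hcomm := h1 D N hN x hx g hg0 hgmem
  rw [hcomm, mul_assoc, mul_inv_cancel₀ hg0, mul_one] at hg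
  have hz : aeval x (s - X) = 0 := by
    rw [map_sub, aeval_X, hg, sub_self]
  have hdvd2 := minpoly.dvd (Subring.center D) x hz
  rw [← hβ] at hdvd2
  obtain ⟨t, ht⟩ := hdvd2
  have hz2 : aeval β (s - X) = 0 := by
    rw [ht, map_mul, hβroot, zero_mul]
  rw [map_sub, aeval_X, hs', sub_eq_zero] at hz2
  exact hβ' (Subtype.ext hz2)

end Pool.Agent.Herst
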