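import Pool.Agent.Herst.Targets2

set_option autoImplicit false

/-! Radical normal subgroups of division rings (MP_176fb9_al), job J17: the elements of `N` in
`F(c)` are central multiples of powers of `c`. -/

namespace Pool.Agent.Herst

open Polynomial

universe u

namespace J17_

/-- a generator of the roots of unity -/
theorem exists_gen (K : Type*) [Field K] (M : ℕ) (hM : M ≠ 0) :
    ∃ ω : K, ω ^ M = 1 ∧ ∀ z : K, z ^ M = 1 → ∃ n : ℕ, z = ω ^ n := by
  haveI : NeZero M := ⟨hM⟩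
  obtain ⟨ζ, hζ⟩ := IsCyclic.exists_generator (α := rootsOfUnity M K)
  refine ⟨((ζ : Kˣ) : K), ?_, fun z hz => ?_⟩
  · have := (mem_rootsOfUnity M (ζ : Kˣ)).1 ζ.2
    rw [← Units.val_pow_eq_pow_val, this, Units.val_one]
  · have hz0 : z ≠ 0 := by
      rintro rfl
      rw [zero_pow hM] at hz
      exact zero_ne_one hz
    have hmem : Units.mk0 z hz0 ∈ rootsOfUnity M K := by
      rw [mem_rootsOfUnity]
      ext
      simpa using hz
    have h1 := hζ ⟨_, hmem⟩
    rw [← mem_powers_iff_mem_zpowers] at h1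
    obtain ⟨n, hn⟩ := h1
    refine ⟨n, ?_⟩
    have h2 := congrArg (fun x : rootsOfUnity M K => ((x : Kˣ) : K)) hn
    simpa using h2.symm

/-- the Galois part of the argument -/
theorem core {F K : Type*} [Field F] [Field K] [Algebra F K] [IsGalois F K] (γ α : K) (r : F[X])
    (hα : α = aeval γ r) (g h : F) (m k : ℕ) (hm : 1 ≤ m) (hk : 1 ≤ k)
    (hγm : γ ^ m = algebraMap F K g) (hαk : α ^ k = algebraMap F K h) (hγ0 : γ ≠ 0)
    (hα0 : α ≠ 0) :
    ∃ t : ℕ, ∀ σ : K ≃ₐ[F] K, σ (α * γ ^ (t * (m - 1))) ∈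
      IntermediateField.adjoin F {α * γ ^ (t * (m - 1))} := by
  obtain ⟨ω, hω, hgen⟩ := exists_gen K (m * k) (by positivity)
  -- the fixer of the roots of unity
  let H : Subgroup (K ≃ₐ[F] K) := MulAction.stabilizer (K ≃ₐ[F] K) ω
  have hH : ∀ s : K ≃ₐ[F] K, s ∈ H ↔ s ω = ω := fun s => Iff.rfl
  have hHz : ∀ s ∈ H, ∀ z : K, z ^ (m * k) = 1 → s z = z := by
    intro s hs z hz
    obtain ⟨n, rfl⟩ := hgen z hz
    rw [map_pow, (hH s).1 hs]
  have hξm : ∀ s : K ≃ₐ[F] K, (s γ / γ) ^ m = 1 := by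
    intro s
    rw [div_pow, ← map_pow, hγm, AlgEquiv.commutes, div_self]
    rw [← hγm]
    exact pow_ne_zero _ hγ0
  have hηk : ∀ s : K ≃ₐ[F] K, (s α / α) ^ k = 1 := by
    intro s
    rw [div_pow, ← map_pow, hαk, AlgEquiv.commutes, div_self]
    rw [← hαk]
    exact pow_ne_zero _ hα0
  have hξM : ∀ s : K ≃ₐ[F] K, (s γ / γ) ^ (m * k) = 1 := by
    intro s
    rw [pow_mul, hξm, one_pow]
  have hηM : ∀ s : K ≃ₐ[F] K, (s α / α) ^ (m * k) = 1 := by
    intro s
    rw [mul_comm m k, pow_mul, hηk, one_pow]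
  have hs0 : ∀ (s : K ≃ₐ[F] K) (x : K), x ≠ 0 → s x / x ≠ 0 := by
    intro s x hx
    apply div_ne_zero _ hx
    rwa [Ne, map_eq_zero]
  -- the two characters
  have hmul : ∀ (x : K), x ≠ 0 → (∀ s : K ≃ₐ[F] K, (s x / x) ^ (m * k) = 1) →
      ∀ s ∈ H, ∀ s' : K ≃ₐ[F] K, (s * s') x / x = s x / x * (s' x / x) := by
    intro x hx hxM s hs s'
    have h1 := hHz s hs _ (hxM s')
    rw [map_div₀] at h1
    have h2 : s x ≠ 0 := by rwa [Ne, map_eq_zero]
    rw [AlgEquiv.mul_apply]
    have h3 : s (s' x) = s' x / x * s x := by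
      rw [← h1]
      field_simp
    rw [h3]
    ring
  let ξ : H →* Kˣ :=
    { toFun := fun s => Units.mk0 (s.1 γ / γ) (hs0 _ _ hγ0)
      map_one' := by
        ext
        simp [div_self hγ0]
      map_mul' := by
        intro s s'
        ext
        simp only [Units.val_mk0, Units.val_mul, Subgroup.coe_mul]
        exact hmul γ hγ0 hξM s.1 s.2 s'.1 }
  let η : H →* Kˣ :=
    { toFun := fun s => Units.mk0 (s.1 α / α) (hs0 _ _ hα0)
      map_one' := by
        ext
        simp [div_self hα0]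
      map_mul' := by
        intro s s'
        ext
        simp only [Units.val_mk0, Units.val_mul, Subgroup.coe_mul]
        exact hmul α hα0 hηM s.1 s.2 s'.1 }
  have hker : ∀ s : H, ξ s = 1 → η s = 1 := by
    intro s hs
    have h1 : s.1 γ / γ = 1 := by
      have := congrArg (fun x : Kˣ => (x : K)) hs
      simpa [ξ] using this
    have h2 : s.1 γ = γ := by
      rw [div_eq_one_iff_eq hγ0] at h1
      exact h1
    have h3 : s.1 α = α := by
      have h4 : s.1 (aeval γ r) = aeval (s.1 γ) r := (Polynomial.aeval_algHom_apply s.1.toAlgHom γ r).symm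
      rw [hα, h4, h2]
    ext
    simp only [η, MonoidHom.coe_mk, OneHom.coe_mk, Units.val_mk0, Units.val_one]
    rw [h3, div_self hα0]
  -- the image of the first character is cyclic
  haveI : NeZero m := ⟨by omega⟩
  have hle : ξ.range ≤ rootsOfUnity m K := by
    rintro _ ⟨s, rfl⟩
    rw [mem_rootsOfUnity]
    ext
    simp only [ξ, MonoidHom.coe_mk, OneHom.coe_mk, Units.val_pow_eq_pow_val, Units.val_mk0,
      Units.val_one]
    exact hξm s.1
  haveI : Finite ξ.range := Finite.of_injective (Subgroup.inclusion hle)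
    (Subgroup.inclusion_injective hle)
  haveI : IsCyclic ξ.range := inferInstance
  obtain ⟨⟨_, ⟨s₀, rfl⟩⟩, hs₀⟩ := IsCyclic.exists_generator (α := ξ.range)
  have hpow : ∀ s : H, ∃ j : ℕ, ξ s = ξ s₀ ^ j := by
    intro s
    have h1 := hs₀ ⟨ξ s, s, rfl⟩
    rw [← mem_powers_iff_mem_zpowers] at h1
    obtain ⟨j, hj⟩ := h1
    refine ⟨j, ?_⟩
    have h2 := congrArg (fun x : ξ.range => (x : Kˣ)) hj
    simpa using h2.symm
  have hprim : IsPrimitiveRoot (((ξ s₀ : Kˣ)) : K) (orderOf (ξ s₀)) := by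
    rw [IsPrimitiveRoot.coe_units_iff]
    exact IsPrimitiveRoot.orderOf _
  have hopos : 0 < orderOf (ξ s₀) := by
    rw [orderOf_pos_iff, isOfFinOrder_iff_pow_eq_one]
    refine ⟨m, by omega, ?_⟩
    exact (mem_rootsOfUnity m _).1 (hle ⟨s₀, rfl⟩)
  haveI : NeZero (orderOf (ξ s₀)) := ⟨hopos.ne'⟩
  obtain ⟨t, -, ht⟩ := hprim.eq_pow_of_pow_eq_one (ξ := ((η s₀ : Kˣ) : K)) (by
    have h1 : η (s₀ ^ orderOf (ξ s₀)) = 1 := by
      apply hker
      rw [map_pow, pow_orderOf_eq_one]
    rw [map_pow] at h1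
    rw [← Units.val_pow_eq_pow_val, h1, Units.val_one])
  have hη : ∀ s : H, η s = ξ s ^ t := by
    intro s
    obtain ⟨j, hj⟩ := hpow s
    have h0 : ξ s₀ ^ t = η s₀ := by
      ext
      rw [Units.val_pow_eq_pow_val]
      exact ht
    have h1 : ξ (s * (s₀ ^ j)⁻¹) = 1 := by
      rw [map_mul, map_inv, map_pow, hj, mul_inv_cancel]
    have h2 := hker _ h1
    rw [map_mul, map_inv, mul_inv_eq_one, map_pow] at h2
    rw [h2, hj, ← h0, ← pow_mul, ← pow_mul, mul_comm]
  refine ⟨t, fun σ => ?_⟩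
  set β := α * γ ^ (t * (m - 1)) with hβ
  have hfix : ∀ s ∈ H, s β = β := by
    intro s hs
    have h1 : s α = s α / α * α := by field_simp
    have h2 : s γ = s γ / γ * γ := by field_simp
    have h3 : s α / α = (s γ / γ) ^ t := by
      have := congrArg (fun x : Kˣ => (x : K)) (hη ⟨s, hs⟩)
      simpa [ξ, η] using this
    rw [hβ, map_mul, map_pow, h1, h2, h3, mul_pow]
    have h4 : (s γ / γ) ^ t * (s γ / γ) ^ (t * (m - 1)) = 1 := by
      rw [← pow_add]
      have h5 : t + t * (m - 1) = m * t := by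
        obtain ⟨m', rfl⟩ : ∃ m', m = m' + 1 := ⟨m - 1, by omega⟩
        simp only [Nat.add_sub_cancel]
        ring
      rw [h5, pow_mul, hξm, one_pow]
    calc (s γ / γ) ^ t * α * ((s γ / γ) ^ (t * (m - 1)) * γ ^ (t * (m - 1)))
        = ((s γ / γ) ^ t * (s γ / γ) ^ (t * (m - 1))) * (α * γ ^ (t * (m - 1))) := by ring
      _ = α * γ ^ (t * (m - 1)) := by rw [h4, one_mul]
  have hcomm : ∀ τ : K ≃ₐ[F] K, τ (σ β) = σ (τ β) := by
    intro τ
    have h1 : (σ * τ)⁻¹ * (τ * σ) ∈ H := by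
      rw [hH, AlgEquiv.mul_apply]
      have h2 : (τ * σ) ω = (σ * τ) ω := by
        obtain ⟨a, ha⟩ := hgen (σ ω) (by rw [← map_pow, hω, map_one])
        obtain ⟨b, hb⟩ := hgen (τ ω) (by rw [← map_pow, hω, map_one])
        rw [AlgEquiv.mul_apply, AlgEquiv.mul_apply, ha, hb, map_pow, map_pow, ha, hb, ← pow_mul,
          ← pow_mul, mul_comm]
      rw [h2]
      exact AlgEquiv.symm_apply_apply (σ * τ) ω
    have h3 := hfix _ h1
    rw [AlgEquiv.mul_apply] at h3
    have h4 := congrArg (σ * τ) h3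
    have h5 : (σ * τ) ((σ * τ)⁻¹ ((τ * σ) β)) = (τ * σ) β :=
      AlgEquiv.apply_symm_apply (σ * τ) _
    rw [h5] at h4
    exact h4
  rw [← InfiniteGalois.fixedField_fixingSubgroup (IntermediateField.adjoin F {β}),
    IntermediateField.mem_fixedField_iff]
  intro τ hτ
  rw [hcomm τ]
  have h1 := (IntermediateField.mem_fixingSubgroup_iff _ τ).1 hτ β
    (IntermediateField.subset_adjoin F _ rfl)
  rw [h1]

end J17_

open J17_ in
/-- J17: the elements of `N` in `F(c)` -/
theorem pK (h1 : tG.{u}) (h2 : tR3.{u}) : tK.{u} := by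
  intro D _ N hN c hc hcF a ha haF
  by_cases haC : a ∈ Subring.center D
  · exact ⟨0, ⟨a, haC⟩, by simp⟩
  have hc0 : c ≠ 0 := hN.ne c hc
  have ha0 : a ≠ 0 := hN.ne a ha
  obtain ⟨m, g, hm2, hmD, hgc, hminc⟩ := h2 D N hN c hc hcF
  obtain ⟨k, h, hk2, -, hha, -⟩ := h2 D N hN a ha haC
  have hmF : ((m : ℕ) : Subring.center D) ≠ 0 := by
    intro h0
    apply hmD
    have := congrArg (fun x : Subring.center D => (x : D)) h0
    simpa using this
  have hg0 : g ≠ 0 := by
    intro h0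
    rw [h0] at hgc
    exact pow_ne_zero m hc0 hgc.symm
  have hh0 : h ≠ 0 := by
    intro h0
    rw [h0] at hha
    exact pow_ne_zero k ha0 hha.symm
  rw [Algebra.adjoin_singleton_eq_range_aeval] at haF
  obtain ⟨r, hr⟩ := haF
  have hr' : aeval c r = a := hr
  -- the separable closure
  let K := SeparableClosure (Subring.center D)
  have hsep : (X ^ m - C g : (Subring.center D)[X]).Separable :=
    separable_X_pow_sub_C g hmF hg0
  have hdeg : (X ^ m - C g : (Subring.center D)[X]).degree ≠ 0 := by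
    rw [degree_X_pow_sub_C (by omega)]
    exact_mod_cast (show m ≠ 0 by omega)
  obtain ⟨γ, hγ⟩ := IsSepClosed.exists_aeval_eq_zero K _ hdeg hsep
  have hγm : γ ^ m = algebraMap (Subring.center D) K g := by
    simpa [sub_eq_zero] using hγ
  have hγ0 : γ ≠ 0 := by
    rintro rfl
    rw [zero_pow (by omega)] at hγm
    exact hg0 ((map_eq_zero _).1 hγm.symm)
  have htrans : ∀ P : (Subring.center D)[X], aeval c P = 0 → aeval γ P = 0 := by
    intro P hP
    obtain ⟨Q, rfl⟩ := minpoly.dvd _ _ hP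
    rw [map_mul, hminc, hγ, zero_mul]
  have hαk : (aeval γ r) ^ k = algebraMap (Subring.center D) K h := by
    have h3 : aeval c (r ^ k - C h) = 0 := by
      rw [map_sub, map_pow, hr', aeval_C, sub_eq_zero]
      exact hha.symm
    have h4 := htrans _ h3
    rwa [map_sub, map_pow, aeval_C, sub_eq_zero] at h4
  have hα0 : aeval γ r ≠ 0 := by
    intro h0
    rw [h0, zero_pow (by omega)] at hαk
    exact hh0 ((map_eq_zero _).1 hαk.symm)
  obtain ⟨t, ht⟩ := core γ (aeval γ r) r rfl g h m k (by omega) (by omega) hγm hαk hγ0 hα0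
  -- the element `x`
  have hpowN : ∀ n : ℕ, c ^ n ∈ N := by
    intro n
    induction n with
    | zero =>
      rw [pow_zero]
      exact hN.cen 1 (Subring.one_mem _) one_ne_zero
    | succ n ih =>
      rw [pow_succ]
      exact hN.mul _ ih _ hc
  set x := a * c ^ (t * (m - 1)) with hx
  have hxN : x ∈ N := hN.mul _ ha _ (hpowN _)
  set U : (Subring.center D)[X] := r * X ^ (t * (m - 1)) with hU
  have hxU : aeval c U = x := by
    rw [hU, map_mul, map_pow, aeval_X, hr']
  have hβU : aeval γ U = aeval γ r * γ ^ (t * (m - 1)) := by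
    rw [hU, map_mul, map_pow, aeval_X]
  have hxC : x ∈ Subring.center D := by
    by_contra hxC
    obtain ⟨M', f', hM', -, -, hminx⟩ := h2 D N hN x hxN hxC
    have hint : IsIntegral (Subring.center D) x := by
      by_contra hni
      have h3 := minpoly.eq_zero hni
      rw [hminx] at h3
      exact X_pow_sub_C_ne_zero (by omega) f' h3
    have hmin : minpoly (Subring.center D) (aeval γ r * γ ^ (t * (m - 1)))
        = minpoly (Subring.center D) x := by
      symm
      refine minpoly.eq_of_irreducible_of_monic (minpoly.irreducible hint) ?_ (minpoly.monic hint)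
      rw [← hβU, ← aeval_comp]
      apply htrans
      rw [aeval_comp, hxU, minpoly.aeval]
    obtain ⟨σ, hσ⟩ := h1 D N hN x hxN hxC K _ hmin
    exact hσ (ht σ)
  -- conclusion
  have hgt : c ^ (t * (m - 1)) * c ^ t = ((g ^ t : Subring.center D) : D) := by
    have h3 : t * (m - 1) + t = m * t := by
      obtain ⟨m', rfl⟩ : ∃ m', m = m' + 1 := ⟨m - 1, by omega⟩
      simp only [Nat.add_sub_cancel]
      ring
    rw [← pow_add, h3, pow_mul, ← hgc]
    push_cast
    rfl
  have hgt0 : (g ^ t : Subring.center D) ≠ 0 := pow_ne_zero _ hg0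
  refine ⟨t, ⟨x, hxC⟩ * (g ^ t)⁻¹, ?_⟩
  have h3 : (((⟨x, hxC⟩ * (g ^ t)⁻¹ : Subring.center D)) : D) = x * (((g ^ t : Subring.center D) : D))⁻¹ := by
    rw [Subring.coe_mul]
    congr 1
  have h4 : (((g ^ t : Subring.center D) : D)) ≠ 0 := by
    intro h0
    exact hgt0 (Subtype.ext h0)
  rw [h3, hx, mul_assoc, mul_assoc]
  have h5 : (((g ^ t : Subring.center D) : D))⁻¹ * c ^ t
      = c ^ t * (((g ^ t : Subring.center D) : D))⁻¹ := by
    have h6 : (((g ^ t : Subring.center D) : D))⁻¹ ∈ Subring.center D := by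
      rw [Subring.mem_center_iff]
      intro y
      have h7 := Subring.mem_center_iff.1 (g ^ t).2 y
      have h8 : Commute y (((g ^ t : Subring.center D) : D)) := h7
      exact h8.inv_right₀
    exact (Subring.mem_center_iff.1 h6 (c ^ t)).symm
  rw [h5, ← mul_assoc (c ^ (t * (m - 1))), hgt, mul_inv_cancel₀ h4, mul_one]

end Pool.Agent.Herst
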