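import Pool.Agent.Herst.All
import Pool.Agent.Herst.Gal
import Pool.Agent.Herst.K
import Pool.Agent.Herst.F2
import Pool.Agent.Herst.F3
import Pool.Agent.Herst.Balg

set_option autoImplicit false

/-! Radical normal subgroups (MP_176fb9_al): the targets of part 2, all proved. -/

namespace Pool.Agent.Herst

universe u

theorem qG : tG.{u} := pG qN qR3 qRoot
theorem qK : tK.{u} := pK qG qR3
theorem qF2 : tF2.{u} := pF2 qN qR1 qR3 pLI
theorem qF3 : tF3.{u} := pF3 qN qR1 qR3 pLI qF2 qK

end Pool.Agent.Herst
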