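import Pool.Agent.Herst.Targets

set_option autoImplicit false

/-! Radical normal subgroups (MP_176fb9_al), J15: assembly. -/

namespace Pool.Agent.Herst

universe u

open Polynomial

namespace Main_

variable {D : Type u} [DivisionRing D]

lemma center_comm {f : D} (hf : f ∈ Subring.center D) (x : D) : f * x = x * f :=
  ((Subring.mem_center_iff.1 hf) x).symm

/-- the subgroup together with the central elements -/
def ext (N : Subgroup Dˣ) : Set D :=
  {y | y ≠ 0 ∧ ∃ n ∈ N, ∃ f ∈ Subring.center D, y = (n : D) * f}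

lemma rad_ext (N : Subgroup Dˣ) (hN : N.Normal)
    (hr : ∀ x ∈ N, ∃ n : ℕ, 1 ≤ n ∧ ((x : D) ^ n) ∈ Subring.center D) : Rad (ext N) := by
  refine ⟨fun x hx => hx.1, ?_, ?_, ?_, ?_, ?_⟩
  · rintro x ⟨hx, n, hn, f, hf, rfl⟩ y ⟨hy, m, hm, e, he, rfl⟩
    refine ⟨mul_ne_zero hx hy, n * m, N.mul_mem hn hm, f * e, mul_mem hf he, ?_⟩
    rw [Units.val_mul, mul_assoc, ← mul_assoc f, center_comm hf]
    simp only [mul_assoc]
  · rintro x ⟨hx, n, hn, f, hf, rfl⟩
    refine ⟨inv_ne_zero hx, n⁻¹, N.inv_mem hn, f⁻¹, Set.inv_mem_center hf, ?_⟩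
    rw [mul_inv_rev, Units.val_inv_eq_inv_val]
    exact center_comm (Set.inv_mem_center hf) _
  · rintro x ⟨hx, n, hn, f, hf, rfl⟩ g hg
    refine ⟨mul_ne_zero (mul_ne_zero hg hx) (inv_ne_zero hg),
      Units.mk0 g hg * n * (Units.mk0 g hg)⁻¹, hN.conj_mem n hn _, f, hf, ?_⟩
    rw [Units.val_mul, Units.val_mul, Units.val_inv_eq_inv_val, Units.val_mk0]
    rw [mul_assoc g, mul_assoc (n : D), center_comm hf g⁻¹]
    simp only [mul_assoc]
  · intro x hx hx0
    exact ⟨hx0, 1, N.one_mem, x, hx, by rw [Units.val_one, one_mul]⟩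
  · rintro x ⟨hx, n, hn, f, hf, rfl⟩
    obtain ⟨k, hk, h⟩ := hr n hn
    refine ⟨k, hk, ?_⟩
    have hc : Commute (n : D) f := (center_comm hf _).symm
    rw [hc.mul_pow]
    exact mul_mem h (pow_mem hf k)

end Main_

open Main_ in
theorem pMain (hA : tA.{u}) (hB : tB.{u}) (hC : tC.{u}) (hQ : tQuad.{u}) (hE : tE.{u})
    (hF : tF.{u}) (hR2 : tR2.{u}) : tMain.{u} := by
  intro D _ N hN hr h
  by_contra hcon
  push Not at hcon
  obtain ⟨x₀, hx₀, hx₀c⟩ := hcon
  have hRad := rad_ext N hN hr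
  have hmem : ∀ x ∈ N, (x : D) ∈ ext N := fun x hx =>
    ⟨x.ne_zero, x, hx, 1, one_mem _, by rw [mul_one]⟩
  have hne : ∃ z ∈ ext N, z ∉ Subring.center D := ⟨x₀, hmem x₀ hx₀, hx₀c⟩
  rcases h with h | h | h | h | h | h
  · obtain ⟨y, hy⟩ := h
    exact hy (hA D _ hRad hne y)
  · obtain ⟨x, hx⟩ := h
    obtain ⟨k, f, hk, hf, hm⟩ := hB D _ hRad hne x
    exact hx k f hk hf hm
  · obtain ⟨f, hf, hm, hk⟩ := hC D _ hRad hne
    obtain ⟨k, hk1, hk2⟩ := h f hf hm
    exact hk k hk1 hk2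
  · obtain ⟨θ, hθ, hθ2⟩ := h
    exact hθ (hQ D _ hRad hne θ hθ2)
  · obtain ⟨V, hV, hV1, hV2⟩ := h
    exact hV (hE D _ hRad hne V hV1 hV2)
  · classical
    have hex : ∃ n : ℕ, 1 ≤ n ∧ ((x₀ : D) ^ n) ∈ Subring.center D := hr x₀ hx₀
    set M := Nat.find hex with hM
    obtain ⟨hM1, hM2⟩ := Nat.find_spec hex
    rw [← hM] at hM1 hM2
    have hmin : ∀ n, 1 ≤ n → n < M → ((x₀ : D) ^ n) ∉ Subring.center D := by
      intro n hn hlt hmem
      exact Nat.find_min hex hlt ⟨hn, hmem⟩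
    have hM3 : M ≠ 1 := by
      intro h1
      rw [h1, pow_one] at hM2
      exact hx₀c hM2
    obtain ⟨q, hq, hqM⟩ := Nat.exists_prime_and_dvd hM3
    obtain ⟨m, hm⟩ := hqM
    have hm1 : 1 ≤ m := by
      rcases Nat.eq_zero_or_pos m with h0 | h0
      · rw [h0, mul_zero] at hm; omega
      · exact h0
    have hmM : m < M := by
      rw [hm]
      calc m = 1 * m := (one_mul m).symm
        _ < q * m := Nat.mul_lt_mul_of_pos_right hq.one_lt hm1
    set w : Dˣ := x₀ ^ m with hw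
    have hwN : w ∈ N := N.pow_mem hx₀ m
    have hwc : (w : D) ∉ Subring.center D := by
      rw [hw, Units.val_pow_eq_pow_val]
      exact hmin m hm1 hmM
    have hwq : ((w : D) ^ q) ∈ Subring.center D := by
      rw [hw, Units.val_pow_eq_pow_val, ← pow_mul, mul_comm m q, ← hm]
      exact hM2
    have hq0 : (q : D) ≠ 0 := by
      intro h0
      exact hwc (hR2 D _ hRad w (hmem w hwN) q hq h0 hwq)
    have hq2 : q ≠ 2 := by
      rintro rfl
      exact hwc (hQ D _ hRad hne w hwq)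
    have hq3 : q ≠ 3 := by
      rintro rfl
      refine hwc (hF D _ hRad 3 hq hq2 hq0 ⟨-1, ?_⟩ w (hmem w hwN) hwq)
      rw [cyclotomic_three]
      have : (X ^ 2 - C (-1 : Subring.center D) * X + 1 : (Subring.center D)[X]) =
          X ^ 2 + X + 1 := by
        rw [map_neg, map_one]; ring
      rw [this]
    have hq5 : 5 ≤ q := by
      have h2 := hq.two_le
      by_contra hlt
      have h4 : q = 4 := by omega
      rw [h4] at hq
      exact absurd hq (by decide)
    rcases h q hq hq5 hq0 with h | h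
    · exact hwc (hF D _ hRad q hq hq2 hq0 h w (hmem w hwN) hwq)
    · exact hwc (h w hwN hwq)

end Pool.Agent.Herst
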