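import Pool.Agent.Herst.All

set_option autoImplicit false

/-! Submultiplicative ultrametric norms on `D` (MP_176fb9_al). -/

namespace Pool.Agent.Herst

universe u v

namespace NM_

variable {D : Type u} [DivisionRing D] {Γ : Type v} [Group Γ] [LinearOrder Γ]
  [MulLeftMono Γ] [MulRightMono Γ]

/-- a submultiplicative ultrametric norm with values in a totally ordered group -/
structure Nm (n : D → Γ) : Prop where
  mul : ∀ a b : D, a ≠ 0 → b ≠ 0 → n (a * b) ≤ n a * n b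
  add : ∀ a b : D, a ≠ 0 → b ≠ 0 → a + b ≠ 0 → n (a + b) ≤ max (n a) (n b)
  neg : ∀ a : D, a ≠ 0 → n (-a) ≤ n a

/-- size at most `r` -/
def Le (n : D → Γ) (x : D) (r : Γ) : Prop := x = 0 ∨ n x ≤ r

variable {n : D → Γ} {N : Set D}

theorem Le.mono {x : D} {r s : Γ} (h : Le n x r) (hrs : r ≤ s) : Le n x s :=
  h.imp id fun h => h.trans hrs

theorem Le.of {x : D} {r : Γ} (h : Le n x r) (hx : x ≠ 0) : n x ≤ r := h.resolve_left hx

theorem Le.mul (h : Nm n) {x y : D} {r s : Γ} (hx : Le n x r) (hy : Le n y s) :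
    Le n (x * y) (r * s) := by
  by_cases hx0 : x = 0
  · left; rw [hx0, zero_mul]
  by_cases hy0 : y = 0
  · left; rw [hy0, mul_zero]
  right
  exact (h.mul x y hx0 hy0).trans (mul_le_mul' (hx.of hx0) (hy.of hy0))

theorem Le.add (h : Nm n) {x y : D} {r : Γ} (hx : Le n x r) (hy : Le n y r) :
    Le n (x + y) r := by
  by_cases hx0 : x = 0
  · rw [hx0, zero_add]; exact hy
  by_cases hy0 : y = 0
  · rw [hy0, add_zero]; exact hx
  by_cases hxy : x + y = 0
  · exact Or.inl hxy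
  right
  exact (h.add x y hx0 hy0 hxy).trans (max_le (hx.of hx0) (hy.of hy0))

theorem Le.neg (h : Nm n) {x : D} {r : Γ} (hx : Le n x r) : Le n (-x) r := by
  by_cases hx0 : x = 0
  · left; rw [hx0, neg_zero]
  right
  exact (h.neg x hx0).trans (hx.of hx0)

theorem Le.sub (h : Nm n) {x y : D} {r : Γ} (hx : Le n x r) (hy : Le n y r) :
    Le n (x - y) r := by
  rw [sub_eq_add_neg]
  exact Le.add h hx (Le.neg h hy)

theorem Le.sum (h : Nm n) {ι : Type} (s : Finset ι) (f : ι → D) {r : Γ}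
    (hf : ∀ i ∈ s, Le n (f i) r) : Le n (∑ i ∈ s, f i) r := by
  classical
  induction s using Finset.induction_on with
  | empty => exact Or.inl (by simp)
  | insert a s ha ih =>
    rw [Finset.sum_insert ha]
    exact Le.add h (hf a (Finset.mem_insert_self a s))
      (ih fun i hi => hf i (Finset.mem_insert_of_mem hi))

theorem self_le (x : D) : Le n x (n x) := Or.inr le_rfl

/-- inverses of elements close to `1` -/
theorem inv_le (h : Nm n) {u : D} (hu1 : u ≠ 0 → n u < 1) (h0 : 1 + u ≠ 0) :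
    n (1 + u)⁻¹ ≤ n 1 := by
  set w := (1 + u)⁻¹ with hw
  have hw0 : w ≠ 0 := inv_ne_zero h0
  by_cases hu0 : u = 0
  · rw [hw, hu0, add_zero, inv_one]
  have e : w = 1 - w * u := by
    have h1 : w * (1 + u) = 1 := inv_mul_cancel₀ h0
    rw [mul_add, mul_one] at h1
    exact eq_sub_of_add_eq h1
  by_contra hcon
  rw [not_le] at hcon
  have h1 : n (w * u) < n w :=
    (h.mul w u hw0 hu0).trans_lt (mul_lt_of_lt_one_right' (n w) (hu1 hu0))
  have h2 : Le n (1 - w * u) (max (n 1) (n (w * u))) :=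
    Le.sub h ((self_le 1).mono (le_max_left _ _)) ((self_le _).mono (le_max_right _ _))
  rw [← e] at h2
  have h3 := h2.of hw0
  exact absurd (h3.trans_lt (max_lt hcon h1)) (lt_irrefl _)

/-- powers of elements close to `1` -/
theorem pow_sub (h : Nm n) {v : D} {ε : Γ} (hε : ε ≤ 1) (hv : Le n v ε) (i : ℕ) :
    Le n ((1 + v) ^ i - 1) ε := by
  induction i with
  | zero => left; simp
  | succ i ih =>
    have e : (1 + v) ^ (i + 1) - 1 = ((1 + v) ^ i - 1) + v + ((1 + v) ^ i - 1) * v := by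
      rw [pow_succ]; noncomm_ring
    rw [e]
    refine Le.add h (Le.add h ih hv) ((Le.mul h ih hv).mono ?_)
    calc ε * ε ≤ ε * 1 := mul_le_mul_right hε ε
      _ = ε := mul_one ε

/-- elements close to `1` with a central power of prime exponent -/
theorem prime_step (h : Nm n) {v : D} {ε : Γ} (hε : ε ≤ 1) (hv : Le n v ε) {q : ℕ}
    (hq0 : (q : D) ≠ 0) (h1 : n (q : D)⁻¹ * ε < 1) (h2 : ε * n (q : D)⁻¹ < 1)
    (hc : (1 + v) ^ q ∈ Subring.center D) : 1 + v ∈ Subring.center D := by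
  rw [Subring.mem_center_iff]
  intro y
  by_contra hcon
  set W := 1 + v with hW
  set z := W * y - y * W with hz
  have hz0 : z ≠ 0 := fun h0 => hcon (sub_eq_zero.1 h0).symm
  have hsum : ∀ m : ℕ, ∑ i ∈ Finset.range m, W ^ i * z * W ^ (m - 1 - i) =
      W ^ m * y - y * W ^ m := by
    intro m
    induction m with
    | zero => simp
    | succ m ih =>
      rw [Finset.sum_range_succ, Nat.add_sub_cancel, Nat.sub_self, pow_zero, mul_one]
      have e1 : ∑ i ∈ Finset.range m, W ^ i * z * W ^ (m - i) =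
          (∑ i ∈ Finset.range m, W ^ i * z * W ^ (m - 1 - i)) * W := by
        rw [Finset.sum_mul]
        refine Finset.sum_congr rfl fun i hi => ?_
        rw [Finset.mem_range] at hi
        have e2 : m - i = (m - 1 - i) + 1 := by omega
        rw [e2, pow_succ, ← mul_assoc]
      rw [e1, ih, hz, pow_succ]
      noncomm_ring
  have h3 := hsum q
  have h4 : W ^ q * y - y * W ^ q = 0 := by
    rw [Subring.mem_center_iff] at hc
    rw [hc y, sub_self]
  rw [h4] at h3
  have h5 : (q : D) * z = -∑ i ∈ Finset.range q, (W ^ i * z * W ^ (q - 1 - i) - z) := by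
    rw [Finset.sum_sub_distrib, h3, Finset.sum_const, Finset.card_range, zero_sub, neg_neg,
      nsmul_eq_mul]
  have h6 : Le n ((q : D) * z) (max (ε * n z) (n z * ε)) := by
    rw [h5]
    refine Le.neg h (Le.sum h _ _ fun i _ => ?_)
    have hi := pow_sub h hε hv i
    have hj := pow_sub h hε hv (q - 1 - i)
    have e : W ^ i * z * W ^ (q - 1 - i) - z =
        (W ^ i - 1) * z + z * (W ^ (q - 1 - i) - 1) +
          (W ^ i - 1) * (z * (W ^ (q - 1 - i) - 1)) := by noncomm_ring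
    rw [e]
    have k1 := Le.mul h hi (self_le (n := n) z)
    have k2 := Le.mul h (self_le (n := n) z) hj
    refine Le.add h (Le.add h (k1.mono (le_max_left _ _)) (k2.mono (le_max_right _ _))) ?_
    refine (Le.mul h hi k2).mono ((?_ : _ ≤ n z * ε).trans (le_max_right _ _))
    calc ε * (n z * ε) ≤ 1 * (n z * ε) := mul_le_mul_left hε _
      _ = n z * ε := one_mul _
  have hqz : (q : D) * z ≠ 0 := mul_ne_zero hq0 hz0
  have hqi : (q : D)⁻¹ ≠ 0 := inv_ne_zero hq0
  have h7 := h6.of hqz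
  rcases max_choice (ε * n z) (n z * ε) with h8 | h8 <;> rw [h8] at h7
  · have h9 := h.mul _ _ hqi hqz
    rw [inv_mul_cancel_left₀ hq0] at h9
    have h10 : n z ≤ (n (q : D)⁻¹ * ε) * n z := by
      refine h9.trans ?_
      rw [mul_assoc]
      exact mul_le_mul_right h7 _
    exact absurd (h10.trans_lt (mul_lt_of_lt_one_left' (n z) h1)) (lt_irrefl _)
  · have h9 := h.mul _ _ hqz hqi
    have e : (q : D) * z * (q : D)⁻¹ = z := by
      rw [Nat.cast_comm, mul_assoc, mul_inv_cancel₀ hq0, mul_one]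
    rw [e] at h9
    have h10 : n z ≤ n z * (ε * n (q : D)⁻¹) := by
      refine h9.trans ?_
      rw [← mul_assoc]
      exact mul_le_mul_left h7 _
    exact absurd (h10.trans_lt (mul_lt_of_lt_one_right' (n z) h2)) (lt_irrefl _)

/-- elements close to `1` with a central power -/
theorem central_of_pow (h : Nm n) {ε : Γ} (hε : ε ≤ 1)
    (h1 : ∀ q : ℕ, q.Prime → (q : D) ≠ 0 → n (q : D)⁻¹ * ε < 1 ∧ ε * n (q : D)⁻¹ < 1) :
    ∀ m : ℕ, (m : D) ≠ 0 → ∀ v : D, Le n v ε → (1 + v) ^ m ∈ Subring.center D →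
      1 + v ∈ Subring.center D := by
  intro m
  induction m using Nat.strong_induction_on with
  | _ m ih =>
    intro hm v hv hc
    by_cases hm1 : m = 1
    · rw [hm1, pow_one] at hc; exact hc
    obtain ⟨q, hq, l, rfl⟩ := Nat.exists_prime_and_dvd hm1
    rw [Nat.cast_mul] at hm
    have hq0 : (q : D) ≠ 0 := left_ne_zero_of_mul hm
    have hl0 : (l : D) ≠ 0 := right_ne_zero_of_mul hm
    have hl : 0 < l := by
      rcases Nat.eq_zero_or_pos l with h2 | h2
      · rw [h2, Nat.cast_zero] at hl0; exact absurd rfl hl0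
      · exact h2
    have hlt : l < q * l := by
      have := hq.two_le
      nlinarith
    refine ih l hlt hl0 v hv ?_
    have e : (1 + v) ^ l = 1 + ((1 + v) ^ l - 1) := by abel
    rw [e]
    refine prime_step h hε (pow_sub h hε hv l) hq0 (h1 q hq hq0).1 (h1 q hq hq0).2 ?_
    rw [← e, ← pow_mul, mul_comm]
    exact hc

theorem core (h : Nm n) (hN : Rad N) (hne : ∃ z ∈ N, z ∉ Subring.center D)
    (hsmall : ∀ γ : Γ, ∃ u : D, u ≠ 0 ∧ n u < γ)
    (hprime : ∃ γ : Γ, ∀ q : ℕ, q.Prime → (q : D) ≠ 0 → n (q : D)⁻¹ ≤ γ) : False := by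
  obtain ⟨x, hx, hxc⟩ := hne
  obtain ⟨γ, hγ⟩ := hprime
  have hx0 := hN.ne x hx
  -- the size of the perturbation
  obtain ⟨u1, hu1, hu1'⟩ := hsmall (min γ⁻¹ 1)
  set ε : Γ := n u1 with hεdef
  have hε1 : ε ≤ 1 := (hu1'.trans_le (min_le_right _ _)).le
  have hε2 : ε < γ⁻¹ := hu1'.trans_le (min_le_left _ _)
  have hprime : ∀ q : ℕ, q.Prime → (q : D) ≠ 0 → n (q : D)⁻¹ * ε < 1 ∧ ε * n (q : D)⁻¹ < 1 := by
    intro q hq hq0
    have h1 := hγ q hq hq0
    constructor
    · calc n (q : D)⁻¹ * ε ≤ γ * ε := mul_le_mul_left h1 ε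
        _ < γ * γ⁻¹ := mul_lt_mul_right hε2 γ
        _ = 1 := mul_inv_cancel γ
    · calc ε * n (q : D)⁻¹ ≤ ε * γ := mul_le_mul_right h1 ε
        _ < γ⁻¹ * γ := mul_lt_mul_left hε2 γ
        _ = 1 := inv_mul_cancel γ
  -- small elements which do not commute with `x`
  have hsm : ∀ δ : Γ, ∃ u : D, u ≠ 0 ∧ n u < δ ∧ u * x ≠ x * u := by
    intro δ
    obtain ⟨d, hd⟩ : ∃ d : D, d * x ≠ x * d := by
      by_contra hcon
      push Not at hcon
      exact hxc (Subring.mem_center_iff.2 hcon)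
    have hd0 : d ≠ 0 := by
      rintro rfl
      apply hd
      rw [zero_mul, mul_zero]
    obtain ⟨u, hu, hu'⟩ := hsmall (min δ ((n d)⁻¹ * δ))
    by_cases hux : u * x = x * u
    · refine ⟨d * u, mul_ne_zero hd0 hu, ?_, ?_⟩
      · calc n (d * u) ≤ n d * n u := h.mul d u hd0 hu
          _ < n d * ((n d)⁻¹ * δ) := mul_lt_mul_right (hu'.trans_le (min_le_right _ _)) _
          _ = δ := mul_inv_cancel_left _ _
      · intro h1
        apply hd
        rw [mul_assoc, hux, ← mul_assoc, ← mul_assoc] at h1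
        exact mul_right_cancel₀ hu h1
    · exact ⟨u, hu, hu'.trans_le (min_le_left _ _), hux⟩
  obtain ⟨u, hu0, hu, hux⟩ := hsm (min (ε * (n x * n 1 * n x⁻¹)⁻¹)
    (min ((n x)⁻¹ * ε * (n 1 * n x⁻¹)⁻¹) 1))
  have k1 : n u ≤ ε * (n x * n 1 * n x⁻¹)⁻¹ := (hu.trans_le (min_le_left _ _)).le
  have k2 : n u ≤ (n x)⁻¹ * ε * (n 1 * n x⁻¹)⁻¹ :=
    (hu.trans_le ((min_le_right _ _).trans (min_le_left _ _))).le
  have k3 : n u < 1 := hu.trans_le ((min_le_right _ _).trans (min_le_right _ _))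
  have h1u : 1 + u ≠ 0 := by
    intro h0
    apply hux
    rw [eq_neg_of_add_eq_zero_right h0]
    simp
  set w := (1 + u)⁻¹ with hw
  have hw0 : w ≠ 0 := inv_ne_zero h1u
  have hw1 : n w ≤ n 1 := inv_le h (fun _ => k3) h1u
  set W := (1 + u) * x * w * x⁻¹ with hW
  have hWN : W ∈ N := hN.mul _ (hN.conj x hx _ h1u) _ (hN.inv x hx)
  have hWx : (1 + u) * x * w = W * x := by
    rw [hW, mul_assoc _ x⁻¹, inv_mul_cancel₀ hx0, mul_one]
  have hW1 : W - 1 = (u * x - x * u) * (w * x⁻¹) := by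
    have e : u * x - x * u = (1 + u) * x - x * (1 + u) := by noncomm_ring
    have e2 : x * (1 + u) * (w * x⁻¹) = 1 := by
      rw [mul_assoc, hw, mul_inv_cancel_left₀ h1u, mul_inv_cancel₀ hx0]
    rw [e, sub_mul, e2, hW]
    simp only [mul_assoc]
  have hWle : Le n (W - 1) ε := by
    rw [hW1, sub_mul]
    have s1 := self_le (n := n) u
    have s2 := self_le (n := n) x
    have s3 : Le n (w * x⁻¹) (n 1 * n x⁻¹) :=
      (Le.mul h (self_le (n := n) w) (self_le (n := n) x⁻¹)).mono (mul_le_mul_left hw1 _)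
    refine Le.sub h ((Le.mul h (Le.mul h s1 s2) s3).mono ?_)
      ((Le.mul h (Le.mul h s2 s1) s3).mono ?_)
    · calc n u * n x * (n 1 * n x⁻¹) ≤ ε * (n x * n 1 * n x⁻¹)⁻¹ * n x * (n 1 * n x⁻¹) :=
            mul_le_mul_left (mul_le_mul_left k1 _) _
        _ = ε := by group
    · calc n x * n u * (n 1 * n x⁻¹) ≤ n x * ((n x)⁻¹ * ε * (n 1 * n x⁻¹)⁻¹) * (n 1 * n x⁻¹) :=
            mul_le_mul_left (mul_le_mul_right k2 _) _
        _ = ε := by group
  have hWc : W ∈ Subring.center D := by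
    by_contra hWc
    obtain ⟨M, f, hM, hM0, hf, -⟩ := qR3 D N hN W hWN hWc
    apply hWc
    have e : W = 1 + (W - 1) := by abel
    rw [e]
    refine central_of_pow h hε1 hprime M hM0 (W - 1) hWle ?_
    rw [← e, ← hf]
    exact f.2
  have h2 : (1 + u) * x * (1 + u)⁻¹ ∈ Algebra.adjoin (Subring.center D) {x} := by
    rw [← hw, hWx]
    have := Subalgebra.smul_mem (Algebra.adjoin (Subring.center D) {x})
      (Algebra.subset_adjoin (Set.mem_singleton x)) (⟨W, hWc⟩ : Subring.center D)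
    exact this
  have h3 := qN D N hN x hx (1 + u) h1u h2
  apply hux
  rw [add_mul, mul_add, one_mul, mul_one] at h3
  exact add_left_cancel h3

end NM_

/-- division rings with a nondiscrete submultiplicative ultrametric norm -/
theorem qNM (D : Type u) [DivisionRing D] {Γ : Type v} [Group Γ] [LinearOrder Γ]
    [MulLeftMono Γ] [MulRightMono Γ] (n : D → Γ)
    (hmul : ∀ a b : D, a ≠ 0 → b ≠ 0 → n (a * b) ≤ n a * n b)
    (hadd : ∀ a b : D, a ≠ 0 → b ≠ 0 → a + b ≠ 0 → n (a + b) ≤ max (n a) (n b))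
    (hneg : ∀ a : D, a ≠ 0 → n (-a) ≤ n a)
    (hsmall : ∀ γ : Γ, ∃ u : D, u ≠ 0 ∧ n u < γ)
    (hprime : ∃ γ : Γ, ∀ q : ℕ, q.Prime → (q : D) ≠ 0 → n (q : D)⁻¹ ≤ γ)
    (N : Subgroup Dˣ) (hN : N.Normal)
    (hr : ∀ x ∈ N, ∃ n : ℕ, 1 ≤ n ∧ ((x : D) ^ n) ∈ Subring.center D) :
    ∀ x ∈ N, (x : D) ∈ Subring.center D := by
  by_contra hcon
  push Not at hcon
  obtain ⟨x₀, hx₀, hx₀c⟩ := hcon
  exact NM_.core (NM_.Nm.mk hmul hadd hneg) (Main_.rad_ext N hN hr)
    ⟨x₀, ⟨x₀.ne_zero, x₀, hx₀, 1, one_mem _, by rw [mul_one]⟩, hx₀c⟩ hsmall hprime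

end Pool.Agent.Herst
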