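import Pool.Agent.Herst.UN

set_option autoImplicit false

/-! Division rings of fractions of normed rings (MP_176fb9_al). -/

namespace Pool.Agent.Herst

universe u v

namespace OR_

open UN_

section ring

variable {R : Type u} [Ring R] {Γ : Type v} [Group Γ] [LinearOrder Γ]
  [MulLeftMono Γ] [MulRightMono Γ] {n : R → Γ}

/-- elements close to `1` whose power of prime exponent commutes with `y` -/
theorem prime_step (h : Nm n) {v : R} {ε γ : Γ} (hε : ε ≤ 1) (hv : Le n v ε) {q : ℕ}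
    (hq : ∀ z : R, z ≠ 0 → (q : R) * z ≠ 0 ∧ n z ≤ γ * n (q * z) ∧ n z ≤ n (q * z) * γ)
    (h1 : γ * ε < 1) (h2 : ε * γ < 1) (y : R)
    (hc : (1 + v) ^ q * y = y * (1 + v) ^ q) : (1 + v) * y = y * (1 + v) := by
  by_contra hcon
  set W := 1 + v with hW
  set z := W * y - y * W with hz
  have hz0 : z ≠ 0 := fun h0 => hcon (sub_eq_zero.1 h0)
  have hsum : ∀ m : ℕ, ∑ i ∈ Finset.range m, W ^ i * z * W ^ (m - 1 - i) =
      W ^ m * y - y * W ^ m := by
    intro m
    induction m with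
    | zero => simp
    | succ m ih =>
      rw [Finset.sum_range_succ, Nat.add_sub_cancel, Nat.sub_self, pow_zero, mul_one]
      have e1 : ∑ i ∈ Finset.range m, W ^ i * z * W ^ (m - i) =
          (∑ i ∈ Finset.range m, W ^ i * z * W ^ (m - 1 - i)) * W := by
        rw [Finset.sum_mul]
        refine Finset.sum_congr rfl fun i hi => ?_
        rw [Finset.mem_range] at hi
        have e2 : m - i = (m - 1 - i) + 1 := by omega
        rw [e2, pow_succ, ← mul_assoc]
      rw [e1, ih, hz, pow_succ]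
      noncomm_ring
  have h3 := hsum q
  rw [hc, sub_self] at h3
  have h5 : (q : R) * z = -∑ i ∈ Finset.range q, (W ^ i * z * W ^ (q - 1 - i) - z) := by
    rw [Finset.sum_sub_distrib, h3, Finset.sum_const, Finset.card_range, zero_sub, neg_neg,
      nsmul_eq_mul]
  have h6 : Le n ((q : R) * z) (max (ε * n z) (n z * ε)) := by
    rw [h5]
    refine Le.neg h (Le.sum h _ _ fun i _ => ?_)
    have hi := pow_sub h hε hv i
    have hj := pow_sub h hε hv (q - 1 - i)
    have e : W ^ i * z * W ^ (q - 1 - i) - z =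
        (W ^ i - 1) * z + z * (W ^ (q - 1 - i) - 1) +
          (W ^ i - 1) * (z * (W ^ (q - 1 - i) - 1)) := by noncomm_ring
    rw [e]
    have k1 := Le.mul h hi (self_le (n := n) z)
    have k2 := Le.mul h (self_le (n := n) z) hj
    refine Le.add h (Le.add h (k1.mono (le_max_left _ _)) (k2.mono (le_max_right _ _))) ?_
    refine (Le.mul h hi k2).mono ((?_ : _ ≤ n z * ε).trans (le_max_right _ _))
    calc ε * (n z * ε) ≤ 1 * (n z * ε) := mul_le_mul_left hε _
      _ = n z * ε := one_mul _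
  obtain ⟨hqz, hq1, hq2⟩ := hq z hz0
  have h7 := h6.of hqz
  rcases max_choice (ε * n z) (n z * ε) with h8 | h8 <;> rw [h8] at h7
  · have h10 : n z ≤ (γ * ε) * n z := by
      refine hq1.trans ?_
      rw [mul_assoc]
      exact mul_le_mul_right h7 _
    exact absurd (h10.trans_lt (mul_lt_of_lt_one_left' (n z) h1)) (lt_irrefl _)
  · have h10 : n z ≤ n z * (ε * γ) := by
      refine hq2.trans ?_
      rw [← mul_assoc]
      exact mul_le_mul_left h7 _
    exact absurd (h10.trans_lt (mul_lt_of_lt_one_right' (n z) h2)) (lt_irrefl _)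

/-- elements close to `1` with a power which commutes with `y` -/
theorem comm_of_pow (h : Nm n) {ε γ : Γ} (hε : ε ≤ 1) (h1 : γ * ε < 1) (h2 : ε * γ < 1)
    {T : ℕ → Prop} (hT : ∀ q l : ℕ, T (q * l) → T q ∧ T l)
    (hq : ∀ q : ℕ, q.Prime → T q → ∀ z : R, z ≠ 0 →
      (q : R) * z ≠ 0 ∧ n z ≤ γ * n (q * z) ∧ n z ≤ n (q * z) * γ)
    (hT0 : ¬ T 0) (y : R) :
    ∀ m : ℕ, T m → ∀ v : R, Le n v ε → (1 + v) ^ m * y = y * (1 + v) ^ m →
      (1 + v) * y = y * (1 + v) := by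
  intro m
  induction m using Nat.strong_induction_on with
  | _ m ih =>
    intro hm v hv hc
    by_cases hm1 : m = 1
    · rw [hm1, pow_one] at hc; exact hc
    obtain ⟨q, hqp, l, rfl⟩ := Nat.exists_prime_and_dvd hm1
    obtain ⟨hTq, hTl⟩ := hT q l hm
    have hl : 0 < l := by
      rcases Nat.eq_zero_or_pos l with h2 | h2
      · rw [h2] at hTl; exact absurd hTl hT0
      · exact h2
    have hlt : l < q * l := by
      have := hqp.two_le
      nlinarith
    refine ih l hlt hTl v hv ?_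
    have e : (1 + v) ^ l = 1 + ((1 + v) ^ l - 1) := by abel
    rw [e]
    refine prime_step h hε (pow_sub h hε hv l) (hq q hqp hTq) h1 h2 y ?_
    rw [← e, ← pow_mul, mul_comm l q]
    exact hc

end ring

variable {D : Type u} [DivisionRing D] {Γ : Type v} [Group Γ] [LinearOrder Γ]
  [MulLeftMono Γ] [MulRightMono Γ]

/-- an element which commutes with an order is central -/
theorem central {A : Subring D} (hbr : ∀ x : D, ∃ b ∈ A, b ≠ 0 ∧ x * b ∈ A) {w : D}
    (hw : ∀ y ∈ A, w * y = y * w) : w ∈ Subring.center D := by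
  rw [Subring.mem_center_iff]
  intro x
  obtain ⟨b, hb, hb0, hxb⟩ := hbr x
  have h1 := hw _ hxb
  have h2 := hw _ hb
  have h3 : (x * w) * b = (w * x) * b := by
    rw [mul_assoc, h2, ← mul_assoc, ← h1, mul_assoc]
  exact mul_right_cancel₀ hb0 h3

theorem core {N : Set D} (hN : Rad N) (A : Subring D)
    (hbr : ∀ x : D, ∃ b ∈ A, b ≠ 0 ∧ x * b ∈ A) (hbl : ∀ x : D, ∃ b ∈ A, b ≠ 0 ∧ b * x ∈ A)
    (n : A → Γ) (h : Nm n) (hsmall : ∀ γ : Γ, ∃ a : A, a ≠ 0 ∧ n a < γ)
    (hunit : ∃ γ : Γ, ∀ a : A, n a < γ → ((1 + a : A) : D)⁻¹ ∈ A)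
    (hprime : ∃ γ : Γ, ∀ q : ℕ, q.Prime → (q : D) ≠ 0 → ∀ z : A, z ≠ 0 →
      n z ≤ γ * n (q * z) ∧ n z ≤ n (q * z) * γ)
    (x : D) (hx : x ∈ N) : x ∈ Subring.center D := by
  by_contra hxc
  have hx0 := hN.ne x hx
  obtain ⟨γ₁, hγ₁⟩ := hunit
  obtain ⟨γ₂, hγ₂⟩ := hprime
  obtain ⟨b, hb, hb0, hxb⟩ := hbr x
  obtain ⟨l, hl, hl0, hlx⟩ := hbl x⁻¹
  set bA : A := ⟨b, hb⟩ with hbA
  set aA : A := ⟨x * b, hxb⟩ with haA
  set lA : A := ⟨l, hl⟩ with hlA
  set kA : A := ⟨l * x⁻¹, hlx⟩ with hkA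
  have hk0 : l * x⁻¹ ≠ 0 := mul_ne_zero hl0 (inv_ne_zero hx0)
  -- an element of `A` which does not commute with a conjugate of `x`
  obtain ⟨c, hcA, hc⟩ : ∃ c ∈ A, (l * x⁻¹ * x * (l * x⁻¹)⁻¹) * c ≠
      c * (l * x⁻¹ * x * (l * x⁻¹)⁻¹) := by
    by_contra hcon
    push Not at hcon
    have h1 := central hbr hcon
    apply hxc
    have h2 : x = l * x⁻¹ * x * (l * x⁻¹)⁻¹ := by
      have h3 := Main_.center_comm h1 (l * x⁻¹)
      rw [mul_assoc, inv_mul_cancel₀ hk0, mul_one] at h3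
      exact mul_left_cancel₀ hk0 h3
    rw [h2]
    exact h1
  set cA : A := ⟨c, hcA⟩ with hcA'
  -- small elements which do not commute with `x`
  have hsm : ∀ δ : Γ, ∃ u u' : A, (u' : D) = x * u * x⁻¹ ∧ (u : D) * x ≠ x * u ∧
      Le n u δ ∧ Le n u' δ := by
    intro δ
    obtain ⟨v, hv0, hv⟩ := hsmall (min (min ((n bA)⁻¹ * δ * (n lA)⁻¹) ((n aA)⁻¹ * δ * (n kA)⁻¹))
      (min ((n bA)⁻¹ * δ * (n (cA * lA))⁻¹) ((n aA)⁻¹ * δ * (n (cA * kA))⁻¹)))
    have hbound : ∀ p r : A, n v ≤ (n p)⁻¹ * δ * (n r)⁻¹ → Le n (p * v * r) δ := by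
      intro p r hpr
      refine (Le.mul h (Le.mul h (self_le p) (Or.inr hpr)) (self_le r)).mono (le_of_eq ?_)
      group
    have b1 := hbound bA lA (hv.le.trans ((min_le_left _ _).trans (min_le_left _ _)))
    have b2 := hbound aA kA (hv.le.trans ((min_le_left _ _).trans (min_le_right _ _)))
    have b3 := hbound bA (cA * lA) (hv.le.trans ((min_le_right _ _).trans (min_le_left _ _)))
    have b4 := hbound aA (cA * kA) (hv.le.trans ((min_le_right _ _).trans (min_le_right _ _)))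
    by_contra hcon
    push Not at hcon
    have hv0' : (v : D) ≠ 0 := fun h0 => hv0 (Subtype.ext h0)
    have h1 : ((bA * v * lA : A) : D) * x = x * ((bA * v * lA : A) : D) := by
      by_contra hne
      refine hcon (bA * v * lA) (aA * v * kA) ?_ hne b1 b2
      simp only [Subring.coe_mul, hbA, haA, hlA, hkA, mul_assoc]
    have h2 : ((bA * v * (cA * lA) : A) : D) * x = x * ((bA * v * (cA * lA) : A) : D) := by
      by_contra hne
      refine hcon (bA * v * (cA * lA)) (aA * v * (cA * kA)) ?_ hne b3 b4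
      simp only [Subring.coe_mul, hbA, haA, hlA, hkA, hcA', mul_assoc]
    simp only [Subring.coe_mul, hbA, hlA, hcA'] at h1 h2
    -- `(b v)⁻¹ x b v` is the conjugate of `x`
    have hbv : b * (v : D) ≠ 0 := mul_ne_zero hb0 hv0'
    set w : D := (b * (v : D))⁻¹ * x * (b * (v : D)) with hw
    have e1 : w * l = l * x := by
      rw [hw, mul_assoc, mul_assoc, ← h1, mul_assoc (b * (v : D)) l x, inv_mul_cancel_left₀ hbv]
    have e2 : w * (c * l) = c * l * x := by
      rw [hw, mul_assoc, mul_assoc, ← h2, mul_assoc (b * (v : D)) (c * l) x,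
        inv_mul_cancel_left₀ hbv]
    have e3 : w = l * x⁻¹ * x * (l * x⁻¹)⁻¹ := by
      have e4 : w = l * x * l⁻¹ := by rw [← e1, mul_assoc, mul_inv_cancel₀ hl0, mul_one]
      rw [e4, mul_inv_rev, inv_inv]
      simp only [mul_assoc]
      rw [inv_mul_cancel_left₀ hx0]
    apply hc
    rw [← e3]
    have e5 : w * c * l = c * w * l := by rw [mul_assoc, e2, mul_assoc c w l, e1, mul_assoc]
    exact mul_right_cancel₀ hl0 e5
  -- the choice of `ε`
  obtain ⟨a1, ha1, ha1'⟩ := hsmall (min (min 1 (γ₂⁻¹)) γ₁)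
  set ε : Γ := n a1 with hεdef
  have hε1 : ε ≤ 1 := (ha1'.trans_le ((min_le_left _ _).trans (min_le_left _ _))).le
  have hε2 : ε < γ₂⁻¹ := ha1'.trans_le ((min_le_left _ _).trans (min_le_right _ _))
  have hεa : γ₂ * ε < 1 := by
    calc γ₂ * ε < γ₂ * γ₂⁻¹ := mul_lt_mul_right hε2 γ₂
      _ = 1 := mul_inv_cancel γ₂
  have hεb : ε * γ₂ < 1 := by
    calc ε * γ₂ < γ₂⁻¹ * γ₂ := mul_lt_mul_left hε2 γ₂
      _ = 1 := inv_mul_cancel γ₂
  obtain ⟨a2, ha2, ha2'⟩ := hsmall (min (min 1 (ε * (n 1)⁻¹)) γ₁)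
  obtain ⟨u, u', hu', hux, hu1, hu2⟩ := hsm (n a2)
  have k1 : n a2 < 1 := ha2'.trans_le ((min_le_left _ _).trans (min_le_left _ _))
  have k2 : n a2 ≤ ε * (n 1)⁻¹ := (ha2'.trans_le ((min_le_left _ _).trans (min_le_right _ _))).le
  have k3 : n a2 < γ₁ := ha2'.trans_le (min_le_right _ _)
  have hu0 : u ≠ 0 := by
    rintro rfl
    apply hux
    simp
  have hu'0 : u' ≠ 0 := by
    intro h0
    rw [h0] at hu'
    have h1 : x * (u : D) * x⁻¹ ≠ 0 := mul_ne_zero (mul_ne_zero hx0 fun h2 =>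
      hu0 (Subtype.ext h2)) (inv_ne_zero hx0)
    exact h1 hu'.symm
  have hs0 : (1 + (u : D)) ≠ 0 := by
    intro h0
    apply hux
    rw [eq_neg_of_add_eq_zero_right h0]
    simp
  have hs' : (1 + (u' : D)) = x * (1 + u) * x⁻¹ := by
    rw [hu', mul_add, add_mul, mul_one, mul_inv_cancel₀ hx0]
  have hs'0 : (1 + (u' : D)) ≠ 0 := by
    rw [hs']
    exact mul_ne_zero (mul_ne_zero hx0 hs0) (inv_ne_zero hx0)
  have hw'A : (1 + (u' : D))⁻¹ ∈ A := hγ₁ u' ((hu2.of hu'0).trans_lt k3)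
  set w' : A := ⟨(1 + (u' : D))⁻¹, hw'A⟩ with hw'
  have hw'1 : w' * (1 + u') = 1 := Subtype.ext (inv_mul_cancel₀ hs'0)
  have hw'2 : (1 + u') * w' = 1 := Subtype.ext (mul_inv_cancel₀ hs'0)
  have hw'le : Le n w' (n 1) := inv_le h (Or.inr ((hu2.of hu'0).trans_lt k1)) hw'1
  set W : A := (1 + u) * w' with hW
  have hWD : (W : D) = (1 + (u : D)) * x * (1 + (u : D))⁻¹ * x⁻¹ := by
    have e : (w' : D) = x * (1 + (u : D))⁻¹ * x⁻¹ := by
      rw [hw']
      show (1 + (u' : D))⁻¹ = _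
      rw [hs', mul_inv_rev, mul_inv_rev, inv_inv, mul_assoc]
    rw [hW, Subring.coe_mul, e]
    simp only [Subring.coe_add, Subring.coe_one, mul_assoc]
  have hWN : (W : D) ∈ N := by
    rw [hWD]
    exact hN.mul _ (hN.conj x hx _ hs0) _ (hN.inv x hx)
  have hW1 : W - 1 = (u - u') * w' := by
    rw [← hw'2, hW]
    noncomm_ring
  have hWle : Le n (W - 1) ε := by
    rw [hW1]
    refine (Le.mul h (Le.sub h hu1 hu2) hw'le).mono ?_
    calc n a2 * n 1 ≤ ε * (n 1)⁻¹ * n 1 := mul_le_mul_left k2 _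
      _ = ε := by rw [mul_assoc, inv_mul_cancel, mul_one]
  have hWc : (W : D) ∉ Subring.center D := by
    intro hWc
    have hWx : (1 + (u : D)) * x * (1 + (u : D))⁻¹ = W * x := by
      rw [hWD, mul_assoc _ x⁻¹, inv_mul_cancel₀ hx0, mul_one]
    have h2 : (1 + (u : D)) * x * (1 + (u : D))⁻¹ ∈
        Algebra.adjoin (Subring.center D) {x} := by
      rw [hWx]
      have := Subalgebra.smul_mem (Algebra.adjoin (Subring.center D) {x})
        (Algebra.subset_adjoin (Set.mem_singleton x)) (⟨W, hWc⟩ : Subring.center D)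
      exact this
    have h3 := qN D N hN x hx (1 + u) hs0 h2
    apply hux
    rw [add_mul, mul_add, one_mul, mul_one] at h3
    exact add_left_cancel h3
  obtain ⟨M, f, -, hM0, hf, -⟩ := qR3 D N hN W hWN hWc
  apply hWc
  refine central hbr fun y hy => ?_
  have hcomm := comm_of_pow h hε1 hεa hεb (T := fun m => (m : D) ≠ 0)
    (fun q l hql => by
      rw [Nat.cast_mul] at hql
      exact ⟨left_ne_zero_of_mul hql, right_ne_zero_of_mul hql⟩)
    (fun q hq hq0 z hz => ⟨fun h0 => by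
      have h1 : (q : D) * (z : D) = 0 := congrArg Subtype.val h0
      exact (mul_ne_zero hq0 fun h2 => hz (Subtype.ext h2)) h1, hγ₂ q hq hq0 z hz⟩)
    (fun h0 => h0 Nat.cast_zero) (⟨y, hy⟩ : A) M hM0 (W - 1) hWle
  rw [add_sub_cancel] at hcomm
  have hfin : W * ⟨y, hy⟩ = ⟨y, hy⟩ * W := by
    refine hcomm ?_
    apply Subtype.ext
    have hfc := Main_.center_comm f.2 y
    rw [hf] at hfc
    exact hfc
  exact congrArg Subtype.val hfin

end OR_

open OR_ UN_ in
/-- division rings of fractions of rings with a nondiscrete submultiplicative ultrametric norm -/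
theorem qOR (D : Type u) [DivisionRing D] (A : Subring D)
    (hbr : ∀ x : D, ∃ b ∈ A, b ≠ 0 ∧ x * b ∈ A) (hbl : ∀ x : D, ∃ b ∈ A, b ≠ 0 ∧ b * x ∈ A)
    {Γ : Type v} [Group Γ] [LinearOrder Γ] [MulLeftMono Γ] [MulRightMono Γ] (n : A → Γ)
    (hmul : ∀ a b : A, a ≠ 0 → b ≠ 0 → n (a * b) ≤ n a * n b)
    (hadd : ∀ a b : A, a ≠ 0 → b ≠ 0 → a + b ≠ 0 → n (a + b) ≤ max (n a) (n b))
    (hsmall : ∀ γ : Γ, ∃ a : A, a ≠ 0 ∧ n a < γ)
    (hunit : ∃ γ : Γ, ∀ a : A, n a < γ → ((1 + a : A) : D)⁻¹ ∈ A)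
    (hprime : ∃ γ : Γ, ∀ q : ℕ, q.Prime → (q : D) ≠ 0 → ∀ z : A, z ≠ 0 →
      n z ≤ γ * n (q * z) ∧ n z ≤ n (q * z) * γ)
    (N : Subgroup Dˣ) (hN : N.Normal)
    (hr : ∀ x ∈ N, ∃ n : ℕ, 1 ≤ n ∧ ((x : D) ^ n) ∈ Subring.center D) :
    ∀ x ∈ N, (x : D) ∈ Subring.center D := by
  intro x hx
  have hneg1 : (-1 : A) ≠ 0 := neg_ne_zero.2 one_ne_zero
  have hneg : ∀ a : A, a ≠ 0 → n (-a) ≤ n (-1) * n a := by
    intro a ha
    have := hmul (-1) a hneg1 ha
    rwa [neg_one_mul] at this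
  refine OR_.core (Main_.rad_ext N hN hr) A hbr hbl (fun a => max (n a) (n (-a))) ?_ ?_ ?_ ?_ x
    ⟨x.ne_zero, x, hx, 1, one_mem _, by rw [mul_one]⟩
  · constructor
    · intro a b hab
      have ha := left_ne_zero_of_mul hab
      have hb := right_ne_zero_of_mul hab
      refine max_le ?_ ?_
      · exact (hmul a b ha hb).trans (mul_le_mul' (le_max_left _ _) (le_max_left _ _))
      · rw [← neg_mul]
        exact (hmul (-a) b (neg_ne_zero.2 ha) hb).trans
          (mul_le_mul' (le_max_right _ _) (le_max_left _ _))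
    · intro a b ha hb hab
      refine max_le ?_ ?_
      · exact (hadd a b ha hb hab).trans (max_le_max (le_max_left _ _) (le_max_left _ _))
      · have h1 := hadd (-a) (-b) (neg_ne_zero.2 ha) (neg_ne_zero.2 hb)
          (by rw [← neg_add]; exact neg_ne_zero.2 hab)
        rw [← neg_add] at h1
        exact h1.trans (max_le_max (le_max_right _ _) (le_max_right _ _))
    · intro a _
      show max (n (-a)) (n (- -a)) ≤ max (n a) (n (-a))
      rw [neg_neg, max_comm]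
  · intro γ
    obtain ⟨a, ha, h1⟩ := hsmall (min γ ((n (-1))⁻¹ * γ))
    refine ⟨a, ha, max_lt (h1.trans_le (min_le_left _ _)) ?_⟩
    calc n (-a) ≤ n (-1) * n a := hneg a ha
      _ < n (-1) * ((n (-1))⁻¹ * γ) := mul_lt_mul_right (h1.trans_le (min_le_right _ _)) _
      _ = γ := mul_inv_cancel_left _ _
  · obtain ⟨γ, hγ⟩ := hunit
    exact ⟨γ, fun a ha => hγ a ((le_max_left _ _).trans_lt ha)⟩
  · obtain ⟨γ, hγ⟩ := hprime
    refine ⟨γ, fun q hq hq0 z hz => ?_⟩
    have h1 := hγ q hq hq0 z hz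
    have h2 := hγ q hq hq0 (-z) (neg_ne_zero.2 hz)
    rw [mul_neg] at h2
    constructor
    · exact max_le (h1.1.trans (mul_le_mul_right (le_max_left _ _) _))
        (h2.1.trans (mul_le_mul_right (le_max_right _ _) _))
    · exact max_le (h1.2.trans (mul_le_mul_left (le_max_left _ _) _))
        (h2.2.trans (mul_le_mul_left (le_max_right _ _) _))

end Pool.Agent.Herst
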