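import Pool.Agent.Herst.OR

set_option autoImplicit false

/-! Division rings which are locally division rings of fractions of normed rings
(MP_176fb9_al). -/

namespace Pool.Agent.Herst

universe u v

/-- `A` is a subring of the division subring `E` of `D`, `E` is its division ring of fractions,
and `A` has a submultiplicative ultrametric norm with arbitrarily small values, such that `1 + a`
is zero or a unit of `A` for small `a` and the primes `q ≠ char D` are bounded below. -/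
def NormedOrder {D : Type u} [DivisionRing D] (E A : Subring D) : Prop :=
  (∀ z ∈ E, z⁻¹ ∈ E) ∧ A ≤ E ∧ (∀ z ∈ E, ∃ b ∈ A, b ≠ 0 ∧ z * b ∈ A) ∧
  (∀ z ∈ E, ∃ b ∈ A, b ≠ 0 ∧ b * z ∈ A) ∧
  ∃ (Γ : Type v) (_ : Group Γ) (_ : LinearOrder Γ) (_ : MulLeftMono Γ) (_ : MulRightMono Γ)
    (n : A → Γ), (∀ a b : A, a ≠ 0 → b ≠ 0 → n (a * b) ≤ n a * n b) ∧
    (∀ a b : A, a ≠ 0 → b ≠ 0 → a + b ≠ 0 → n (a + b) ≤ max (n a) (n b)) ∧
    (∀ γ : Γ, ∃ a : A, a ≠ 0 ∧ n a < γ) ∧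
    (∃ γ : Γ, ∀ a : A, n a < γ → ((1 + a : A) : D)⁻¹ ∈ A) ∧
    (∃ γ : Γ, ∀ q : ℕ, q.Prime → (q : D) ≠ 0 → ∀ z : A, z ≠ 0 →
      n z ≤ γ * n (q * z) ∧ n z ≤ n (q * z) * γ)

theorem qORL (D : Type u) [DivisionRing D]
    (h : ∀ x y : D, x * y ≠ y * x → ∃ E A : Subring D, x ∈ E ∧ y ∈ E ∧
      NormedOrder.{u, v} E A) (N : Subgroup Dˣ) (hN : N.Normal)
    (hr : ∀ x ∈ N, ∃ n : ℕ, 1 ≤ n ∧ ((x : D) ^ n) ∈ Subring.center D) :
    ∀ x ∈ N, (x : D) ∈ Subring.center D := by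
  intro x hx
  rw [Subring.mem_center_iff]
  intro y
  by_contra hxy
  obtain ⟨E, A, hxE, hyE, hE, hAE, hbr, hbl, Γ, _, _, _, _, n, hmul, hadd, hsmall, hunit,
    hprime⟩ := h x y fun h => hxy h.symm
  have hEu : ∀ a : E, IsUnit a ∨ a = 0 := by
    intro a
    by_cases ha : a = 0
    · exact Or.inr ha
    · left
      have ha' : (a : D) ≠ 0 := fun h0 => ha (Subtype.ext h0)
      exact ⟨⟨a, ⟨(a : D)⁻¹, hE _ a.2⟩, Subtype.ext (mul_inv_cancel₀ ha'),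
        Subtype.ext (inv_mul_cancel₀ ha')⟩, rfl⟩
  let instE : DivisionRing E := DivisionRing.ofIsUnitOrEqZero hEu
  have hinv : ∀ a : E, ((a⁻¹ : E) : D) = (a : D)⁻¹ := by
    intro a
    by_cases ha : a = 0
    · rw [ha, inv_zero]
      simp
    · have ha' : (a : D) ≠ 0 := fun h0 => ha (Subtype.ext h0)
      have h1 : (a : D) * ((a⁻¹ : E) : D) = 1 := by
        have h2 := congrArg Subtype.val (mul_inv_cancel₀ ha)
        exact h2
      exact eq_inv_of_mul_eq_one_right h1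
  set A' : Subring E := A.comap E.subtype with hA'
  have hmemA : ∀ a : E, a ∈ A' ↔ (a : D) ∈ A := fun a => Iff.rfl
  set ι : A' →+* A := ⟨⟨⟨fun a => ⟨a.1.1, a.2⟩, rfl⟩, fun _ _ => rfl⟩, rfl, fun _ _ => rfl⟩ with hι
  have hιv : ∀ a : A', ((ι a : A) : D) = ((a : E) : D) := fun _ => rfl
  have hι0 : ∀ a : A', a ≠ 0 → ι a ≠ 0 := by
    intro a ha h0
    apply ha
    have h1 : ((ι a : A) : D) = 0 := by rw [h0]; rfl
    exact Subtype.ext (Subtype.ext h1)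
  have hq0 : ∀ q : ℕ, (q : E) ≠ 0 → (q : D) ≠ 0 := by
    intro q hq h0
    apply hq
    apply Subtype.ext
    simpa using h0
  set φ : Eˣ →* Dˣ := Units.map (E.subtype : E →* D) with hφ
  have hφv : ∀ z : Eˣ, ((φ z : Dˣ) : D) = ((z : E) : D) := fun _ => rfl
  have key := qOR E A' ?_ ?_ (fun a => n (ι a)) ?_ ?_ ?_ ?_ ?_ (N.comap φ) (hN.comap φ) ?_
  · -- conclusion
    have hx0 : (⟨x, hxE⟩ : E) ≠ 0 := fun h0 => x.ne_zero (congrArg Subtype.val h0)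
    have hxN : Units.mk0 (⟨x, hxE⟩ : E) hx0 ∈ N.comap φ := by
      rw [Subgroup.mem_comap]
      have e : φ (Units.mk0 (⟨x, hxE⟩ : E) hx0) = x := Units.ext rfl
      rw [e]
      exact hx
    have h1 := key _ hxN
    rw [Subring.mem_center_iff] at h1
    have h2 := congrArg Subtype.val (h1 ⟨y, hyE⟩)
    exact hxy h2
  · intro z
    obtain ⟨b, hb, hb0, hzb⟩ := hbr z z.2
    exact ⟨⟨b, hAE hb⟩, hb, fun h0 => hb0 (congrArg Subtype.val h0), hzb⟩
  · intro z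
    obtain ⟨b, hb, hb0, hzb⟩ := hbl z z.2
    exact ⟨⟨b, hAE hb⟩, hb, fun h0 => hb0 (congrArg Subtype.val h0), hzb⟩
  · intro a b ha hb
    show n (ι (a * b)) ≤ _
    rw [map_mul]
    exact hmul _ _ (hι0 a ha) (hι0 b hb)
  · intro a b ha hb hab
    show n (ι (a + b)) ≤ _
    rw [map_add]
    refine hadd _ _ (hι0 a ha) (hι0 b hb) ?_
    rw [← map_add]
    exact hι0 _ hab
  · intro γ
    obtain ⟨a, ha, h1⟩ := hsmall γ
    refine ⟨⟨⟨a, hAE a.2⟩, a.2⟩, fun h0 => ha ?_, h1⟩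
    have h2 : (((⟨⟨a, hAE a.2⟩, a.2⟩ : A') : E) : D) = 0 := by rw [h0]; rfl
    exact Subtype.ext h2
  · obtain ⟨γ, hγ⟩ := hunit
    refine ⟨γ, fun a ha => ?_⟩
    rw [hmemA, hinv]
    exact hγ (ι a) ha
  · obtain ⟨γ, hγ⟩ := hprime
    refine ⟨γ, fun q hq hq' z hz => ?_⟩
    have h1 := hγ q hq (hq0 q hq') (ι z) (hι0 z hz)
    have e : ι ((q : A') * z) = (q : A) * ι z := by rw [map_mul, map_natCast]
    show n (ι z) ≤ γ * n (ι ((q : A') * z)) ∧ n (ι z) ≤ n (ι ((q : A') * z)) * γ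
    rw [e]
    exact h1
  · intro z hz
    obtain ⟨k, hk, hkF⟩ := hr _ (Subgroup.mem_comap.1 hz)
    refine ⟨k, hk, ?_⟩
    rw [Subring.mem_center_iff]
    intro w
    apply Subtype.ext
    rw [Subring.mem_center_iff] at hkF
    exact hkF w

end Pool.Agent.Herst
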