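import Pool.Agent.Herst.All

set_option autoImplicit false

/-! Radical normal subgroups are central if `D` has a nontrivial valuation in the sense of
Schilling. -/

namespace Pool.Agent.Herst.OldInvariantValuation

open Pool.Agent.Herst

universe u

/-- Let `D` be a division ring with an invariant valuation ring `V` (a subring different from `D`
which contains `x` or `x⁻¹` for all `x`, and which is mapped into itself by all inner
automorphisms).  Then every normal subgroup of `D*` which is radical over the centre is central. -/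
theorem result (D : Type u) [DivisionRing D] (V : Subring D) (hV : V ≠ ⊤)
    (hV1 : ∀ x : D, x ∈ V ∨ x⁻¹ ∈ V) (hV2 : ∀ g : D, g ≠ 0 → ∀ x ∈ V, g * x * g⁻¹ ∈ V)
    (N : Subgroup Dˣ) (hN : N.Normal)
    (hr : ∀ x ∈ N, ∃ n : ℕ, 1 ≤ n ∧ ((x : D) ^ n) ∈ Subring.center D) :
    ∀ x ∈ N, (x : D) ∈ Subring.center D := by
  by_contra hcon
  push Not at hcon
  obtain ⟨x₀, hx₀, hx₀c⟩ := hcon
  exact hV (qE D _ (Main_.rad_ext N hN hr)
    ⟨x₀, ⟨x₀.ne_zero, x₀, hx₀, 1, one_mem _, by rw [mul_one]⟩, hx₀c⟩ V hV1 hV2)

end Pool.Agent.Herst.OldInvariantValuation
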