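import Pool.Agent.Herst.UN

set_option autoImplicit false

/-! Radical normal subgroups and homomorphisms from subrings of `D` to normed rings. -/

namespace Pool.Agent.Herst.OldOpenCentralizers

open Pool.Agent.Herst

universe u v w

/-- Let `D` be a division ring with centre `F`, `N` a normal subgroup of `D*` which is radical
over `F`, `A` a subring of `D` such that `A ∩ F` is a field, and `φ : A → R` a homomorphism to a
nonzero ring `R` with a submultiplicative ultrametric norm `n` (values of nonzero elements in an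
arbitrary totally ordered group `Γ`) which is bounded on the inverses of the primes.  Then every
`x ∈ N ∩ A` commutes with all units `s` of `A` for which `φ s = 1` or `n (φ s - 1)` is small. -/
theorem result (D : Type u) [DivisionRing D] (N : Subgroup Dˣ) (hN : N.Normal)
    (hr : ∀ x ∈ N, ∃ n : ℕ, 1 ≤ n ∧ ((x : D) ^ n) ∈ Subring.center D)
    (A : Subring D) (hA : ∀ c ∈ Subring.center D, c ∈ A → c⁻¹ ∈ A)
    {R : Type w} [Ring R] [Nontrivial R] (φ : A →+* R)
    {Γ : Type v} [Group Γ] [LinearOrder Γ] [MulLeftMono Γ] [MulRightMono Γ]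
    (n : R → Γ) (hmul : ∀ a b : R, a * b ≠ 0 → n (a * b) ≤ n a * n b)
    (hadd : ∀ a b : R, a ≠ 0 → b ≠ 0 → a + b ≠ 0 → n (a + b) ≤ max (n a) (n b))
    (hneg : ∀ a : R, a ≠ 0 → n (-a) ≤ n a)
    (hprime : ∃ γ : Γ, ∀ q : ℕ, q.Prime → ∀ b : R, (q : R) * b = 1 → n b ≤ γ)
    (x : Dˣ) (hx : x ∈ N) (hxA : (x : D) ∈ A) :
    ∃ γ : Γ, ∀ s : Aˣ, (φ s = 1 ∨ n (φ s - 1) < γ) → ((s : A) : D) * x = x * ((s : A) : D) :=
  qUN D N hN hr A hA φ n hmul hadd hneg hprime x hx hxA

end Pool.Agent.Herst.OldOpenCentralizers
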