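import Pool.Agent.Herst.Balg
import Pool.Agent.Herst.All

set_option autoImplicit false

/-! Normal subgroups which are algebraic over the centre and the abelianisation of `D*`. -/

namespace Pool.Agent.Herst.OldTorsionAbelianization

open Pool.Agent.Herst

universe u

/-- Let `D` be a division ring with centre `F` such that `D*/F*[D*,D*]` is not a torsion group
(some `x` has no power in `F*[D*,D*]`).  Then every normal subgroup of `D*` whose elements are
algebraic over the centre is central; in particular every normal subgroup which is radical over
the centre is central. -/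
theorem result (D : Type u) [DivisionRing D]
    (hD : ∃ x : Dˣ, ∀ (k : ℕ) (f : Dˣ), 1 ≤ k → (f : D) ∈ Subring.center D →
      x ^ k * f ∉ commutator Dˣ)
    (N : Subgroup Dˣ) (hN : N.Normal)
    (hr : ∀ x ∈ N, IsIntegral (Subring.center D) (x : D)) :
    ∀ x ∈ N, (x : D) ∈ Subring.center D := by
  by_contra hcon
  push Not at hcon
  obtain ⟨x, hx⟩ := hD
  obtain ⟨k, f, hk, hf, h⟩ := pBalg pCBH pT4 qNT D N hN hr hcon x
  exact hx k f hk hf h

end Pool.Agent.Herst.OldTorsionAbelianization
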