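import Pool.Agent.Herst.All

set_option autoImplicit false

/-! Submultiplicative ultrametric seminorms on subrings of `D` (MP_176fb9_al). -/

namespace Pool.Agent.Herst

universe u v

namespace SN_

variable {D : Type u} [DivisionRing D] {Γ₀ : Type v} [LinearOrderedCommGroupWithZero Γ₀]

/-- a submultiplicative ultrametric seminorm on the subring `A` -/
structure Sn (A : Subring D) (ν : D → Γ₀) : Prop where
  mul : ∀ a ∈ A, ∀ b ∈ A, ν (a * b) ≤ ν a * ν b
  add : ∀ a ∈ A, ∀ b ∈ A, ν (a + b) ≤ max (ν a) (ν b)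
  neg : ∀ a ∈ A, ν (-a) ≤ ν a
  zero : ν 0 = 0
  one : ν 1 ≠ 0

variable {A : Subring D} {ν : D → Γ₀}

namespace Sn

theorem one_le (h : Sn A ν) : 1 ≤ ν 1 := by
  have h1 := h.mul 1 A.one_mem 1 A.one_mem
  rw [one_mul] at h1
  have h0 : 0 < ν 1 := zero_lt_iff.2 h.one
  by_contra hcon
  rw [not_le] at hcon
  have : ν 1 * ν 1 < ν 1 := by
    calc ν 1 * ν 1 < ν 1 * 1 := mul_lt_mul_of_pos_left hcon h0
      _ = ν 1 := mul_one _
  exact absurd (h1.trans_lt this) (lt_irrefl _)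

theorem sub (h : Sn A ν) {a b : D} (ha : a ∈ A) (hb : b ∈ A) :
    ν (a - b) ≤ max (ν a) (ν b) := by
  rw [sub_eq_add_neg]
  exact (h.add a ha (-b) (A.neg_mem hb)).trans (max_le_max le_rfl (h.neg b hb))

theorem unit_ne (h : Sn A ν) {a b : D} (ha : a ∈ A) (hb : b ∈ A) (hab : a * b = 1) :
    ν a ≠ 0 := by
  intro h0
  have h1 := h.mul a ha b hb
  rw [hab, h0, zero_mul] at h1
  exact h.one (le_antisymm h1 zero_le)

theorem inv_le (h : Sn A ν) {u w : D} (hu : u ∈ A) (hw : w ∈ A) (hu1 : ν u < 1)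
    (hwu : w * (1 + u) = 1) : ν w ≤ ν 1 := by
  have e : w = 1 - w * u := by
    rw [mul_add, mul_one] at hwu
    exact eq_sub_of_add_eq hwu
  by_contra hcon
  rw [not_le] at hcon
  have h0 : 0 < ν w := (zero_lt_iff.2 h.one).trans hcon
  have h1 : ν (w * u) < ν w := by
    calc ν (w * u) ≤ ν w * ν u := h.mul w hw u hu
      _ < ν w * 1 := mul_lt_mul_of_pos_left hu1 h0
      _ = ν w := mul_one _
  have h2 := h.sub A.one_mem (A.mul_mem hw hu)
  rw [← e] at h2
  exact absurd (h2.trans_lt (max_lt hcon h1)) (lt_irrefl _)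

theorem sum (h : Sn A ν) {ι : Type} (s : Finset ι) (f : ι → D) {r : Γ₀}
    (hfA : ∀ i ∈ s, f i ∈ A) (hf : ∀ i ∈ s, ν (f i) ≤ r) : ν (∑ i ∈ s, f i) ≤ r := by
  classical
  induction s using Finset.induction_on with
  | empty => rw [Finset.sum_empty, h.zero]; exact zero_le
  | insert a s ha ih =>
    rw [Finset.sum_insert ha]
    have h1 : ∑ i ∈ s, f i ∈ A := A.sum_mem fun i hi => hfA i (Finset.mem_insert_of_mem hi)
    exact (h.add _ (hfA a (Finset.mem_insert_self a s)) _ h1).trans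
      (max_le (hf a (Finset.mem_insert_self a s))
        (ih (fun i hi => hfA i (Finset.mem_insert_of_mem hi))
          fun i hi => hf i (Finset.mem_insert_of_mem hi)))

theorem pow_sub (h : Sn A ν) {v : D} {ε : Γ₀} (hε : ε ≤ 1) (hvA : v ∈ A) (hv : ν v ≤ ε)
    (i : ℕ) : ν ((1 + v) ^ i - 1) ≤ ε := by
  have hA : ∀ i : ℕ, (1 + v) ^ i - 1 ∈ A := fun i =>
    A.sub_mem (A.pow_mem (A.add_mem A.one_mem hvA) i) A.one_mem
  induction i with
  | zero => rw [pow_zero, sub_self, h.zero]; exact zero_le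
  | succ i ih =>
    have e : (1 + v) ^ (i + 1) - 1 = (((1 + v) ^ i - 1) + v) + ((1 + v) ^ i - 1) * v := by
      rw [pow_succ]; noncomm_ring
    rw [e]
    refine (h.add _ (A.add_mem (hA i) hvA) _ (A.mul_mem (hA i) hvA)).trans (max_le ?_ ?_)
    · exact (h.add _ (hA i) _ hvA).trans (max_le ih hv)
    · refine (h.mul _ (hA i) _ hvA).trans ?_
      calc ν ((1 + v) ^ i - 1) * ν v ≤ ε * ε := mul_le_mul' ih hv
        _ ≤ ε * 1 := mul_le_mul' le_rfl hε
        _ = ε := mul_one ε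

/-- elements close to `1` whose power of prime exponent is central modulo the kernel -/
theorem prime_step (h : Sn A ν) {v : D} {ε : Γ₀} (hε : ε ≤ 1) (hvA : v ∈ A) (hv : ν v ≤ ε)
    {q : ℕ} (hq0 : (q : D) ≠ 0) (hqA : (q : D)⁻¹ ∈ A) (h1 : ν (q : D)⁻¹ * ε < 1)
    (hc : ∀ y ∈ A, ν ((1 + v) ^ q * y - y * (1 + v) ^ q) = 0) :
    ∀ y ∈ A, ν ((1 + v) * y - y * (1 + v)) = 0 := by
  intro y hy
  by_contra hz0
  set W := 1 + v with hW
  have hWA : W ∈ A := A.add_mem A.one_mem hvA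
  have hWi : ∀ i : ℕ, W ^ i ∈ A := fun i => A.pow_mem hWA i
  set z := W * y - y * W with hz
  have hzA : z ∈ A := A.sub_mem (A.mul_mem hWA hy) (A.mul_mem hy hWA)
  have hsum : ∀ m : ℕ, ∑ i ∈ Finset.range m, W ^ i * z * W ^ (m - 1 - i) =
      W ^ m * y - y * W ^ m := by
    intro m
    induction m with
    | zero => simp
    | succ m ih =>
      rw [Finset.sum_range_succ, Nat.add_sub_cancel, Nat.sub_self, pow_zero, mul_one]
      have e1 : ∑ i ∈ Finset.range m, W ^ i * z * W ^ (m - i) =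
          (∑ i ∈ Finset.range m, W ^ i * z * W ^ (m - 1 - i)) * W := by
        rw [Finset.sum_mul]
        refine Finset.sum_congr rfl fun i hi => ?_
        rw [Finset.mem_range] at hi
        have e2 : m - i = (m - 1 - i) + 1 := by omega
        rw [e2, pow_succ, ← mul_assoc]
      rw [e1, ih, hz, pow_succ]
      noncomm_ring
  have h3 := hsum q
  have h5 : (q : D) * z = (W ^ q * y - y * W ^ q) -
      ∑ i ∈ Finset.range q, (W ^ i * z * W ^ (q - 1 - i) - z) := by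
    rw [Finset.sum_sub_distrib, h3, Finset.sum_const, Finset.card_range, nsmul_eq_mul]
    abel
  have hterm : ∀ i ∈ Finset.range q, W ^ i * z * W ^ (q - 1 - i) - z ∈ A := fun i _ =>
    A.sub_mem (A.mul_mem (A.mul_mem (hWi i) hzA) (hWi _)) hzA
  have hqA' : (q : D) ∈ A := natCast_mem A q
  have h6 : ν ((q : D) * z) ≤ ε * ν z := by
    rw [h5]
    refine (h.sub (A.sub_mem (A.mul_mem (hWi q) hy) (A.mul_mem hy (hWi q)))
      (A.sum_mem hterm)).trans (max_le ?_ ?_)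
    · rw [hc y hy]; exact zero_le
    · refine h.sum _ _ hterm fun i _ => ?_
      have hi := h.pow_sub hε hvA hv i
      have hj := h.pow_sub hε hvA hv (q - 1 - i)
      rw [← hW] at hi hj
      have hiA : W ^ i - 1 ∈ A := A.sub_mem (hWi i) A.one_mem
      have hjA : W ^ (q - 1 - i) - 1 ∈ A := A.sub_mem (hWi _) A.one_mem
      have e : W ^ i * z * W ^ (q - 1 - i) - z =
          ((W ^ i - 1) * z + z * (W ^ (q - 1 - i) - 1)) +
            (W ^ i - 1) * (z * (W ^ (q - 1 - i) - 1)) := by noncomm_ring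
      rw [e]
      have k1 : ν ((W ^ i - 1) * z) ≤ ε * ν z :=
        (h.mul _ hiA _ hzA).trans (mul_le_mul' hi le_rfl)
      have k2 : ν (z * (W ^ (q - 1 - i) - 1)) ≤ ε * ν z := by
        refine (h.mul _ hzA _ hjA).trans ?_
        rw [mul_comm]
        exact mul_le_mul' hj le_rfl
      refine (h.add _ (A.add_mem (A.mul_mem hiA hzA) (A.mul_mem hzA hjA)) _
        (A.mul_mem hiA (A.mul_mem hzA hjA))).trans (max_le ?_ ?_)
      · exact (h.add _ (A.mul_mem hiA hzA) _ (A.mul_mem hzA hjA)).trans (max_le k1 k2)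
      · refine (h.mul _ hiA _ (A.mul_mem hzA hjA)).trans ?_
        calc ν (W ^ i - 1) * ν (z * (W ^ (q - 1 - i) - 1)) ≤ 1 * (ε * ν z) :=
              mul_le_mul' (hi.trans hε) k2
          _ = ε * ν z := one_mul _
  have h9 := h.mul _ hqA _ (A.mul_mem hqA' hzA)
  rw [inv_mul_cancel_left₀ hq0] at h9
  have h10 : ν z ≤ (ν (q : D)⁻¹ * ε) * ν z := by
    refine h9.trans ?_
    rw [mul_assoc]
    exact mul_le_mul' le_rfl h6
  have h11 : (ν (q : D)⁻¹ * ε) * ν z < ν z := by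
    calc (ν (q : D)⁻¹ * ε) * ν z < 1 * ν z := mul_lt_mul_of_pos_right h1 (zero_lt_iff.2 hz0)
      _ = ν z := one_mul _
  exact absurd (h10.trans_lt h11) (lt_irrefl _)

/-- elements close to `1` with a central power -/
theorem central_of_pow (h : Sn A ν) {ε : Γ₀} (hε : ε ≤ 1)
    (hqA : ∀ q : ℕ, (q : D)⁻¹ ∈ A)
    (h1 : ∀ q : ℕ, q.Prime → (q : D) ≠ 0 → ν (q : D)⁻¹ * ε < 1) :
    ∀ m : ℕ, (m : D) ≠ 0 → ∀ v ∈ A, ν v ≤ ε →
      (∀ y ∈ A, ν ((1 + v) ^ m * y - y * (1 + v) ^ m) = 0) →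
      ∀ y ∈ A, ν ((1 + v) * y - y * (1 + v)) = 0 := by
  intro m
  induction m using Nat.strong_induction_on with
  | _ m ih =>
    intro hm v hvA hv hc
    by_cases hm1 : m = 1
    · simpa [hm1] using hc
    obtain ⟨q, hq, l, rfl⟩ := Nat.exists_prime_and_dvd hm1
    rw [Nat.cast_mul] at hm
    have hq0 : (q : D) ≠ 0 := left_ne_zero_of_mul hm
    have hl0 : (l : D) ≠ 0 := right_ne_zero_of_mul hm
    have hl : 0 < l := by
      rcases Nat.eq_zero_or_pos l with h2 | h2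
      · rw [h2, Nat.cast_zero] at hl0; exact absurd rfl hl0
      · exact h2
    have hlt : l < q * l := by
      have := hq.two_le
      nlinarith
    refine ih l hlt hl0 v hvA hv ?_
    have e : (1 + v) ^ l = 1 + ((1 + v) ^ l - 1) := by abel
    rw [e]
    refine h.prime_step hε (A.sub_mem (A.pow_mem (A.add_mem A.one_mem hvA) l) A.one_mem)
      (h.pow_sub hε hvA hv l) hq0 (hqA q) (h1 q hq hq0) ?_
    rw [← e, ← pow_mul, mul_comm l q]
    exact hc

end Sn

end SN_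

open SN_

/-- elements of a radical normal subgroup which lie in a subring with a seminorm commute -/
theorem qSN (D : Type u) [DivisionRing D] {Γ₀ : Type v} [LinearOrderedCommGroupWithZero Γ₀]
    (A Z : Subring D) (hZA : Z ≤ A) (hZi : ∀ c ∈ Z, c⁻¹ ∈ Z)
    (hZc : ∀ c ∈ Z, ∀ a ∈ A, c * a = a * c) (ν : D → Γ₀)
    (hmul : ∀ a ∈ A, ∀ b ∈ A, ν (a * b) ≤ ν a * ν b)
    (hadd : ∀ a ∈ A, ∀ b ∈ A, ν (a + b) ≤ max (ν a) (ν b))
    (hneg : ∀ a ∈ A, ν (-a) ≤ ν a) (hzero : ν 0 = 0) (hone : ν 1 ≠ 0)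
    (hsmall : ∀ γ : Γ₀, γ ≠ 0 → ∃ c ∈ Z, c ≠ 0 ∧ ν c < γ)
    (hprime : ∃ γ : Γ₀, ∀ q : ℕ, q.Prime → (q : D) ≠ 0 → ν (q : D)⁻¹ ≤ γ)
    (N : Subgroup Dˣ) (hN : N.Normal)
    (hr : ∀ x ∈ N, ∃ n : ℕ, 1 ≤ n ∧ ((x : D) ^ n) ∈ Subring.center D)
    (hrZ : ∀ x ∈ N, (x : D) ∈ A → ∃ n : ℕ, 1 ≤ n ∧ ((x : D) ^ n) ∈ Z) :
    ∀ x ∈ N, ∀ g ∈ N, (x : D) ∈ A → (g : D) ∈ A → (x : D) * g = g * x := by
  intro x' hx' g' hg' hxA hgA
  by_contra hxg
  have h : Sn A ν := ⟨hmul, hadd, hneg, hzero, hone⟩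
  have hRad := Main_.rad_ext N hN hr
  have hmem : ∀ y ∈ N, (y : D) ∈ Main_.ext N := fun y hy =>
    ⟨y.ne_zero, y, hy, 1, one_mem _, by rw [mul_one]⟩
  set x : D := (x' : D) with hxdef
  set g : D := (g' : D) with hgdef
  have hx0 : x ≠ 0 := x'.ne_zero
  have hg0 : g ≠ 0 := g'.ne_zero
  -- inverses
  have hinvA : ∀ y ∈ N, (y : D) ∈ A → ((y : D)⁻¹) ∈ A := by
    intro y hy hyA
    obtain ⟨k, hk, hkZ⟩ := hrZ y hy hyA
    have e : (y : D)⁻¹ = (y : D) ^ (k - 1) * ((y : D) ^ k)⁻¹ := by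
      have hy0 : (y : D) ≠ 0 := y.ne_zero
      obtain ⟨k, rfl⟩ : ∃ j, k = j + 1 := ⟨k - 1, by omega⟩
      rw [Nat.add_sub_cancel, pow_succ', mul_inv_rev, mul_inv_cancel_left₀ (pow_ne_zero k hy0)]
    rw [e]
    exact A.mul_mem (A.pow_mem hyA _) (hZA (hZi _ hkZ))
  have hxiA : x⁻¹ ∈ A := hinvA x' hx' hxA
  have hgiA : g⁻¹ ∈ A := hinvA g' hg' hgA
  obtain ⟨m, hm, hmZ⟩ := hrZ g' hg' hgA
  rw [← hgdef] at hmZ
  set E := g * x - x * g with hE
  have hEA : E ∈ A := A.sub_mem (A.mul_mem hgA hxA) (A.mul_mem hxA hgA)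
  have hE0 : E ≠ 0 := sub_ne_zero.2 (Ne.symm hxg)
  have hνx : ν x ≠ 0 := h.unit_ne hxA hxiA (mul_inv_cancel₀ hx0)
  have hνxi : ν x⁻¹ ≠ 0 := h.unit_ne hxiA hxA (inv_mul_cancel₀ hx0)
  have hνg : ν g ≠ 0 := h.unit_ne hgA hgiA (mul_inv_cancel₀ hg0)
  have hνZ : ∀ c ∈ Z, c ≠ 0 → ν c ≠ 0 := fun c hc hc0 =>
    h.unit_ne (hZA hc) (hZA (hZi c hc)) (mul_inv_cancel₀ hc0)
  -- the size of the perturbation
  obtain ⟨γ, hγ⟩ := hprime
  have hγ1 : max γ 1 ≠ 0 := (zero_lt_one.trans_le (le_max_right γ 1)).ne'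
  obtain ⟨u1, hu1, hu10, hu1'⟩ := hsmall (min 1 (max γ 1)⁻¹) (by
    rcases min_choice (1 : Γ₀) (max γ 1)⁻¹ with h1 | h1 <;> rw [h1]
    · exact one_ne_zero
    · exact inv_ne_zero hγ1)
  set ε : Γ₀ := ν u1 with hεdef
  have hε0 : ε ≠ 0 := hνZ u1 hu1 hu10
  have hε1 : ε ≤ 1 := (hu1'.trans_le (min_le_left _ _)).le
  have hε2 : ε < (max γ 1)⁻¹ := hu1'.trans_le (min_le_right _ _)
  have hprime : ∀ q : ℕ, q.Prime → (q : D) ≠ 0 → ν (q : D)⁻¹ * ε < 1 := by
    intro q hq hq0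
    calc ν (q : D)⁻¹ * ε ≤ max γ 1 * ε :=
          mul_le_mul' ((hγ q hq hq0).trans (le_max_left _ _)) le_rfl
      _ < max γ 1 * (max γ 1)⁻¹ := mul_lt_mul_of_pos_left hε2 (zero_lt_iff.2 hγ1)
      _ = 1 := mul_inv_cancel₀ hγ1
  have hqA : ∀ q : ℕ, (q : D)⁻¹ ∈ A := fun q => hZA (hZi _ (natCast_mem Z q))
  set K₀ : Γ₀ := max (ν E) 1 * ν 1 * ν x⁻¹ with hK₀
  have hE1 : max (ν E) 1 ≠ 0 := (zero_lt_one.trans_le (le_max_right (ν E) 1)).ne'
  have hK₀0 : K₀ ≠ 0 := mul_ne_zero (mul_ne_zero hE1 hone) hνxi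
  set δ : Γ₀ := min (ν g)⁻¹ (ε * K₀⁻¹) with hδ
  have hδ0 : δ ≠ 0 := by
    rcases min_choice (ν g)⁻¹ (ε * K₀⁻¹) with h1 | h1 <;> rw [hδ, h1]
    · exact inv_ne_zero hνg
    · exact mul_ne_zero hε0 (inv_ne_zero hK₀0)
  -- the elements `W c`
  have key : ∀ c ∈ Z, c ≠ 0 → ν c < δ → ∃ W w V : D, W ∈ A ∧ w ∈ A ∧ V ∈ A ∧
      w * (1 + c * g) = 1 ∧ (W - 1) * x * (1 + c * g) = c * E ∧ V * (W - 1) = 1 ∧
      ν (W - 1) ≤ ν c * K₀ ∧ ∀ y ∈ A, ν (W * y - y * W) = 0 := by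
    intro c hc hc0 hcδ
    have hcA := hZA hc
    have hcgA : c * g ∈ A := A.mul_mem hcA hgA
    have hcg1 : ν (c * g) < 1 := by
      calc ν (c * g) ≤ ν c * ν g := h.mul c hcA g hgA
        _ < (ν g)⁻¹ * ν g :=
          mul_lt_mul_of_pos_right (hcδ.trans_le (min_le_left _ _)) (zero_lt_iff.2 hνg)
        _ = 1 := inv_mul_cancel₀ hνg
    have hccomm : Commute c g := hZc c hc g hgA
    -- the inverse of `1 + c g` in `A`
    set S : D := ∑ i ∈ Finset.range m, (-(c * g)) ^ i with hS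
    have hSA : S ∈ A := A.sum_mem fun i _ => A.pow_mem (A.neg_mem hcgA) i
    have hgeo : S * (1 + c * g) = 1 - (-(c * g)) ^ m := by
      have := geom_sum_mul_neg (-(c * g)) m
      rw [sub_neg_eq_add] at this
      exact this
    have hZm : 1 - (-(c * g)) ^ m ∈ Z := by
      refine Z.sub_mem Z.one_mem ?_
      rw [← neg_mul, (hccomm.neg_left).mul_pow]
      exact Z.mul_mem (Z.pow_mem (Z.neg_mem hc) m) hmZ
    have hne : 1 - (-(c * g)) ^ m ≠ 0 := by
      intro h0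
      have h1 : (-(c * g)) ^ m = 1 := (sub_eq_zero.1 h0).symm
      have h2 : ν (-(c * g)) < 1 := (h.neg _ hcgA).trans_lt hcg1
      have h3 : ∀ i : ℕ, 1 ≤ i → ν ((-(c * g)) ^ i) < 1 := by
        intro i hi
        induction i with
        | zero => omega
        | succ i ih =>
          rcases Nat.eq_zero_or_pos i with h4 | h4
          · rw [h4, zero_add, pow_one]; exact h2
          · rw [pow_succ]
            calc ν ((-(c * g)) ^ i * -(c * g)) ≤ ν ((-(c * g)) ^ i) * ν (-(c * g)) :=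
                  h.mul _ (A.pow_mem (A.neg_mem hcgA) i) _ (A.neg_mem hcgA)
              _ ≤ 1 * ν (-(c * g)) := mul_le_mul' (ih h4).le le_rfl
              _ = ν (-(c * g)) := one_mul _
              _ < 1 := h2
      have h5 := h3 m hm
      rw [h1] at h5
      exact absurd h5 (not_lt.2 h.one_le)
    set w : D := (1 - (-(c * g)) ^ m)⁻¹ * S with hw
    have hwA : w ∈ A := A.mul_mem (hZA (hZi _ hZm)) hSA
    have hw1 : w * (1 + c * g) = 1 := by
      rw [hw, mul_assoc, hgeo, inv_mul_cancel₀ hne]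
    have h1cg : 1 + c * g ≠ 0 := right_ne_zero_of_mul (by rw [hw1]; exact one_ne_zero)
    have hw' : w = (1 + c * g)⁻¹ := eq_inv_of_mul_eq_one_left hw1
    have hw2 : (1 + c * g) * w = 1 := by rw [hw', mul_inv_cancel₀ h1cg]
    have hνw : ν w ≤ ν 1 := h.inv_le hcgA hwA hcg1 hw1
    -- the element `W`
    set p : Dˣ := Units.mk0 (1 + c * g) h1cg with hp
    set W' : Dˣ := p * x' * p⁻¹ * x'⁻¹ with hW'
    have hW'N : W' ∈ N := N.mul_mem (hN.conj_mem x' hx' p) (N.inv_mem hx')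
    set W : D := (1 + c * g) * x * w * x⁻¹ with hW
    have hWW' : (W' : D) = W := by
      rw [hW', hW, hw', hxdef]
      simp [hp]
    have hWA : W ∈ A := A.mul_mem (A.mul_mem (A.mul_mem (A.add_mem A.one_mem hcgA) hxA) hwA) hxiA
    have hWx : (1 + c * g) * x * w = W * x := by
      rw [hW, mul_assoc _ x⁻¹, inv_mul_cancel₀ hx0, mul_one]
    have hcx : c * x = x * c := hZc c hc x hxA
    have hW1 : (W - 1) * x * (1 + c * g) = c * E := by
      rw [sub_mul, sub_mul, one_mul, ← hWx, mul_assoc _ w, hw1, mul_one, hE, add_mul, mul_add,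
        mul_sub, one_mul, mul_one, mul_assoc c g x, ← mul_assoc x c g, ← hcx, mul_assoc c x g]
      abel
    have hW1' : W - 1 = c * E * (w * x⁻¹) := by
      rw [← hW1, mul_assoc _ (1 + c * g), ← mul_assoc (1 + c * g), hw2, one_mul,
        mul_assoc (W - 1), mul_inv_cancel₀ hx0, mul_one]
    have hνW : ν (W - 1) ≤ ν c * K₀ := by
      rw [hW1']
      refine (h.mul _ (A.mul_mem hcA hEA) _ (A.mul_mem hwA hxiA)).trans ?_
      calc ν (c * E) * ν (w * x⁻¹) ≤ (ν c * max (ν E) 1) * (ν 1 * ν x⁻¹) :=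
            mul_le_mul' ((h.mul c hcA E hEA).trans (mul_le_mul' le_rfl (le_max_left _ _)))
              ((h.mul w hwA _ hxiA).trans (mul_le_mul' hνw le_rfl))
        _ = ν c * K₀ := by rw [hK₀]; simp only [mul_assoc]
    have hνWε : ν (W - 1) ≤ ε := by
      refine hνW.trans ?_
      calc ν c * K₀ ≤ (ε * K₀⁻¹) * K₀ :=
            mul_le_mul' (hcδ.le.trans (min_le_right _ _)) le_rfl
        _ = ε := by rw [mul_assoc, inv_mul_cancel₀ hK₀0, mul_one]
    -- `W` is not central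
    have hWc : W ∉ Subring.center D := by
      intro hWc
      have h2 : (1 + c * g) * x * (1 + c * g)⁻¹ ∈ Algebra.adjoin (Subring.center D) {x} := by
        rw [← hw', hWx]
        have := Subalgebra.smul_mem (Algebra.adjoin (Subring.center D) {x})
          (Algebra.subset_adjoin (Set.mem_singleton x)) (⟨W, hWc⟩ : Subring.center D)
        exact this
      have h3 := qN D _ hRad x (hmem x' hx') (1 + c * g) h1cg h2
      apply hE0
      have h4 : c * E = 0 := by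
        rw [hE, mul_sub, ← mul_assoc, ← mul_assoc, hcx, mul_assoc x c g]
        rw [add_mul, mul_add, one_mul, mul_one] at h3
        rw [add_left_cancel h3, sub_self]
      exact (mul_eq_zero.1 h4).resolve_left hc0
    -- the inverse of `W - 1` in `A`
    obtain ⟨k, hk, hkZ⟩ := hrZ W' hW'N (by rw [hWW']; exact hWA)
    rw [hWW'] at hkZ
    have hWk : W ^ k - 1 ≠ 0 := by
      intro h0
      exact hWc (qR1 D _ hRad W (by rw [← hWW']; exact hmem W' hW'N) k hk (sub_eq_zero.1 h0))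
    set V : D := (W ^ k - 1)⁻¹ * ∑ i ∈ Finset.range k, W ^ i with hV
    have hVA : V ∈ A := A.mul_mem (hZA (hZi _ (Z.sub_mem hkZ Z.one_mem)))
      (A.sum_mem fun i _ => A.pow_mem hWA i)
    have hV1 : V * (W - 1) = 1 := by
      rw [hV, mul_assoc, geom_sum_mul, inv_mul_cancel₀ hWk]
    refine ⟨W, w, V, hWA, hwA, hVA, hw1, hW1, hV1, hνW, ?_⟩
    -- `W` is central modulo the kernel
    obtain ⟨M, f, hM, hM0, hf, -⟩ := qR3 D _ hRad W (by rw [← hWW']; exact hmem W' hW'N) hWc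
    have e : W = 1 + (W - 1) := by abel
    intro y hy
    rw [e]
    refine h.central_of_pow hε1 hqA hprime M hM0 (W - 1) (A.sub_mem hWA A.one_mem) hνWε ?_ y hy
    intro y hy
    rw [← e, ← hf, Main_.center_comm f.2 y, sub_self, hzero]
  -- the commutator of `E` and `x`
  have hxEA : x * E ∈ A := A.mul_mem hxA hEA
  have hcomA : E * x - x * E ∈ A := A.sub_mem (A.mul_mem hEA hxA) hxEA
  have hred : ∀ c ∈ Z, c ≠ 0 → ν c < δ → ∀ W : D, W ∈ A → (W - 1) * x * (1 + c * g) = c * E →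
      (∀ y ∈ A, ν (W * y - y * W) = 0) →
      ν ((E * x - x * E) - (W - 1) * (x * E)) = 0 := by
    intro c hc hc0 hcδ W hWA hW1 hWy
    have hcA := hZA hc
    have hciA : c⁻¹ ∈ A := hZA (hZi c hc)
    have hcx : c * x = x * c := hZc c hc x hxA
    have e1 : c * ((E * x - x * E) - (W - 1) * (x * E)) =
        (W * x - x * W) * (x * (1 + c * g)) := by
      have e2 : c * ((E * x - x * E) - (W - 1) * (x * E)) =
          (c * E) * x - x * (c * E) - (W - 1) * (x * (c * E)) := by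
        have hcW : c * (W - 1) = (W - 1) * c := hZc c hc _ (A.sub_mem hWA A.one_mem)
        rw [mul_sub, mul_sub, ← mul_assoc c E x, ← mul_assoc c x E, hcx, mul_assoc x c E,
          ← mul_assoc c (W - 1), hcW, mul_assoc (W - 1) c, ← mul_assoc c x E, hcx, mul_assoc x c E]
      have e3 : x * (c * E) = x * (c * g * x - x * (c * g)) := by
        rw [hE, mul_sub, mul_assoc c g x, ← mul_assoc x c g, ← hcx, mul_assoc c x g]
      have e5 : (c * E) * x - x * (c * E) =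
          ((W - 1) * x * (1 + c * g)) * x - x * ((W - 1) * x * (1 + c * g)) := by
        rw [hW1]
      rw [e2, e5, e3]
      generalize c * g = G
      noncomm_ring
    have hPA : W * x - x * W ∈ A := A.sub_mem (A.mul_mem hWA hxA) (A.mul_mem hxA hWA)
    have hQA : x * (1 + c * g) ∈ A :=
      A.mul_mem hxA (A.add_mem A.one_mem (A.mul_mem hcA hgA))
    have e4 : (E * x - x * E) - (W - 1) * (x * E) =
        c⁻¹ * ((W * x - x * W) * (x * (1 + c * g))) := by
      rw [← e1, inv_mul_cancel_left₀ hc0]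
    rw [e4]
    refine le_antisymm ?_ zero_le
    refine (h.mul _ hciA _ (A.mul_mem hPA hQA)).trans ?_
    have h5 : ν ((W * x - x * W) * (x * (1 + c * g))) ≤ 0 := by
      refine (h.mul _ hPA _ hQA).trans ?_
      rw [hWy x hxA, zero_mul]
    rw [le_antisymm h5 zero_le, mul_zero]
  have hcom0 : ν (E * x - x * E) = 0 := by
    by_contra hne
    obtain ⟨c, hc, hc0, hcsm⟩ := hsmall
      (min δ (ν (E * x - x * E) * (K₀ * max (ν (x * E)) 1)⁻¹)) (by
        have hxE1 : max (ν (x * E)) 1 ≠ 0 :=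
          (zero_lt_one.trans_le (le_max_right (ν (x * E)) 1)).ne'
        rcases min_choice δ (ν (E * x - x * E) * (K₀ * max (ν (x * E)) 1)⁻¹) with h1 | h1 <;>
          rw [h1]
        · exact hδ0
        · exact mul_ne_zero hne (inv_ne_zero (mul_ne_zero hK₀0 hxE1)))
    have hxE1 : max (ν (x * E)) 1 ≠ 0 :=
      (zero_lt_one.trans_le (le_max_right (ν (x * E)) 1)).ne'
    have hKx : K₀ * max (ν (x * E)) 1 ≠ 0 := mul_ne_zero hK₀0 hxE1
    have hcδ := hcsm.trans_le (min_le_left _ _)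
    obtain ⟨W, w, V, hWA, hwA, hVA, hw1, hW1, hV1, hνW, hWy⟩ := key c hc hc0 hcδ
    have h1 := hred c hc hc0 hcδ W hWA hW1 hWy
    have hW1A : (W - 1) ∈ A := A.sub_mem hWA A.one_mem
    have e : E * x - x * E = ((E * x - x * E) - (W - 1) * (x * E)) + (W - 1) * (x * E) := by abel
    have h2 : ν (E * x - x * E) ≤ ν ((W - 1) * (x * E)) := by
      have h3 := h.add _ (A.sub_mem hcomA (A.mul_mem hW1A hxEA)) _ (A.mul_mem hW1A hxEA)
      rw [← e, h1, max_eq_right zero_le] at h3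
      exact h3
    have h4 : ν ((W - 1) * (x * E)) < ν (E * x - x * E) := by
      calc ν ((W - 1) * (x * E)) ≤ (ν c * K₀) * max (ν (x * E)) 1 :=
            (h.mul _ hW1A _ hxEA).trans (mul_le_mul' hνW (le_max_left _ _))
        _ = ν c * (K₀ * max (ν (x * E)) 1) := mul_assoc _ _ _
        _ < (ν (E * x - x * E) * (K₀ * max (ν (x * E)) 1)⁻¹) * (K₀ * max (ν (x * E)) 1) :=
          mul_lt_mul_of_pos_right (hcsm.trans_le (min_le_right _ _)) (zero_lt_iff.2 hKx)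
        _ = ν (E * x - x * E) := by rw [mul_assoc, inv_mul_cancel₀ hKx, mul_one]
    exact absurd (h2.trans_lt h4) (lt_irrefl _)
  -- conclusion
  obtain ⟨c, hc, hc0, hcδ⟩ := hsmall δ hδ0
  obtain ⟨W, w, V, hWA, hwA, hVA, hw1, hW1, hV1, hνW, hWy⟩ := key c hc hc0 hcδ
  have h1 := hred c hc hc0 hcδ W hWA hW1 hWy
  have hW1A : (W - 1) ∈ A := A.sub_mem hWA A.one_mem
  have h2 : ν ((W - 1) * (x * E)) = 0 := by
    refine le_antisymm ?_ zero_le
    have e : (W - 1) * (x * E) = (E * x - x * E) - ((E * x - x * E) - (W - 1) * (x * E)) := by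
      abel
    have h3 := h.sub hcomA (A.sub_mem hcomA (A.mul_mem hW1A hxEA))
    rw [← e, hcom0, h1, max_self] at h3
    exact h3
  have h3 : ν E = 0 := by
    refine le_antisymm ?_ zero_le
    have e : E = x⁻¹ * (V * ((W - 1) * (x * E))) := by
      rw [← mul_assoc V, hV1, one_mul, inv_mul_cancel_left₀ hx0]
    rw [e]
    refine (h.mul _ hxiA _ (A.mul_mem hVA (A.mul_mem hW1A hxEA))).trans ?_
    have h4 := h.mul _ hVA _ (A.mul_mem hW1A hxEA)
    rw [h2, mul_zero] at h4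
    rw [le_antisymm h4 zero_le, mul_zero]
  apply hone
  refine le_antisymm ?_ zero_le
  have h1cg : 1 + c * g ≠ 0 := right_ne_zero_of_mul (by rw [hw1]; exact one_ne_zero)
  have hw2 : (1 + c * g) * w = 1 := by
    rw [eq_inv_of_mul_eq_one_left hw1, mul_inv_cancel₀ h1cg]
  have e : (1 : D) = V * (c * (E * (w * x⁻¹))) := by
    have e1 : c * (E * (w * x⁻¹)) = W - 1 := by
      rw [← mul_assoc c, ← hW1, mul_assoc _ (1 + c * g), ← mul_assoc (1 + c * g), hw2, one_mul,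
        mul_assoc (W - 1), mul_inv_cancel₀ hx0, mul_one]
    rw [e1, hV1]
  have hwx : w * x⁻¹ ∈ A := A.mul_mem hwA hxiA
  rw [e]
  refine (h.mul _ hVA _ (A.mul_mem (hZA hc) (A.mul_mem hEA hwx))).trans ?_
  have h4 := h.mul _ (hZA hc) _ (A.mul_mem hEA hwx)
  have h5 := h.mul _ hEA _ hwx
  rw [h3, zero_mul] at h5
  rw [le_antisymm h5 zero_le, mul_zero] at h4
  rw [le_antisymm h4 zero_le, mul_zero]

end Pool.Agent.Herst
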