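import Pool.Agent.Herst.Targets

set_option autoImplicit false

/-! Radical normal subgroups of division rings (MP_176fb9_al): further targets,
see Blueprint.lean.txt (part 2). -/

namespace Pool.Agent.Herst

open Polynomial

universe u

/-- J16: elements which generate a Galois extension of the centre are central -/
def tG : Prop :=
  ∀ (D : Type u) [DivisionRing D] (N : Set D), Rad N → ∀ x ∈ N, x ∉ Subring.center D →
    ∀ (K : Type u) [Field K] [Algebra (Subring.center D) K] [IsGalois (Subring.center D) K]
      (β : K), minpoly (Subring.center D) β = minpoly (Subring.center D) x →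
      ∃ σ : K ≃ₐ[Subring.center D] K, σ β ∉ IntermediateField.adjoin (Subring.center D) {β}

/-- J17: the elements of `N` in `F(c)` -/
def tK : Prop :=
  ∀ (D : Type u) [DivisionRing D] (N : Set D), Rad N → ∀ c ∈ N, c ∉ Subring.center D →
    ∀ a ∈ N, a ∈ Algebra.adjoin (Subring.center D) {c} →
      ∃ (t : ℕ) (l : Subring.center D), a = l * c ^ t

/-- J18: elements of order `q` where `ζ_q` has degree at most `2` over the centre -/
def tF2 : Prop :=
  ∀ (D : Type u) [DivisionRing D] (N : Set D), Rad N → ∀ q : ℕ, q.Prime → (q : D) ≠ 0 →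
    (∃ P : (Subring.center D)[X], 0 < P.natDegree ∧ P.natDegree ≤ 2 ∧
      P ∣ cyclotomic q (Subring.center D)) →
    ∀ x ∈ N, x ^ q ∈ Subring.center D → x ∈ Subring.center D

/-- J19: elements of order `q` where `ζ_q` has degree at most `3` over the centre -/
def tF3 : Prop :=
  ∀ (D : Type u) [DivisionRing D] (N : Set D), Rad N → ∀ q : ℕ, q.Prime → (q : D) ≠ 0 →
    (∃ P : (Subring.center D)[X], 0 < P.natDegree ∧ P.natDegree ≤ 3 ∧
      P ∣ cyclotomic q (Subring.center D)) →
    ∀ x ∈ N, x ^ q ∈ Subring.center D → x ∈ Subring.center D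

/-- J20: algebraic normal subgroups and the abelianisation -/
def tBalg : Prop :=
  ∀ (D : Type u) [DivisionRing D] (N : Subgroup Dˣ), N.Normal →
    (∀ x ∈ N, IsIntegral (Subring.center D) (x : D)) →
    (∃ x ∈ N, (x : D) ∉ Subring.center D) →
    ∀ x : Dˣ, ∃ (k : ℕ) (f : Dˣ), 1 ≤ k ∧ (f : D) ∈ Subring.center D ∧
      x ^ k * f ∈ commutator Dˣ

end Pool.Agent.Herst
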