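import Pool.Agent.Herst.All

set_option autoImplicit false

/-! Subrings of `D` with a homomorphism to a ring with a submultiplicative ultrametric norm
(MP_176fb9_al). -/

namespace Pool.Agent.Herst

universe u v w

namespace UN_

variable {R : Type w} [Ring R] {Γ : Type v} [Group Γ] [LinearOrder Γ]
  [MulLeftMono Γ] [MulRightMono Γ]

/-- a submultiplicative ultrametric norm with values in a totally ordered group -/
structure Nm (n : R → Γ) : Prop where
  mul : ∀ a b : R, a * b ≠ 0 → n (a * b) ≤ n a * n b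
  add : ∀ a b : R, a ≠ 0 → b ≠ 0 → a + b ≠ 0 → n (a + b) ≤ max (n a) (n b)
  neg : ∀ a : R, a ≠ 0 → n (-a) ≤ n a

/-- size at most `r` -/
def Le (n : R → Γ) (x : R) (r : Γ) : Prop := x = 0 ∨ n x ≤ r

variable {n : R → Γ}

omit [Group Γ] [MulLeftMono Γ] [MulRightMono Γ] in
theorem Le.mono {x : R} {r s : Γ} (h : Le n x r) (hrs : r ≤ s) : Le n x s :=
  h.imp id fun h => h.trans hrs

omit [Group Γ] [MulLeftMono Γ] [MulRightMono Γ] in
theorem Le.of {x : R} {r : Γ} (h : Le n x r) (hx : x ≠ 0) : n x ≤ r := h.resolve_left hx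

theorem Le.mul (h : Nm n) {x y : R} {r s : Γ} (hx : Le n x r) (hy : Le n y s) :
    Le n (x * y) (r * s) := by
  by_cases hxy : x * y = 0
  · exact Or.inl hxy
  right
  exact (h.mul x y hxy).trans
    (mul_le_mul' (hx.of (left_ne_zero_of_mul hxy)) (hy.of (right_ne_zero_of_mul hxy)))

omit [MulLeftMono Γ] [MulRightMono Γ] in
theorem Le.add (h : Nm n) {x y : R} {r : Γ} (hx : Le n x r) (hy : Le n y r) :
    Le n (x + y) r := by
  by_cases hx0 : x = 0
  · rw [hx0, zero_add]; exact hy
  by_cases hy0 : y = 0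
  · rw [hy0, add_zero]; exact hx
  by_cases hxy : x + y = 0
  · exact Or.inl hxy
  right
  exact (h.add x y hx0 hy0 hxy).trans (max_le (hx.of hx0) (hy.of hy0))

omit [MulLeftMono Γ] [MulRightMono Γ] in
theorem Le.neg (h : Nm n) {x : R} {r : Γ} (hx : Le n x r) : Le n (-x) r := by
  by_cases hx0 : x = 0
  · left; rw [hx0, neg_zero]
  right
  exact (h.neg x hx0).trans (hx.of hx0)

omit [MulLeftMono Γ] [MulRightMono Γ] in
theorem Le.sub (h : Nm n) {x y : R} {r : Γ} (hx : Le n x r) (hy : Le n y r) :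
    Le n (x - y) r := by
  rw [sub_eq_add_neg]
  exact Le.add h hx (Le.neg h hy)

omit [MulLeftMono Γ] [MulRightMono Γ] in
theorem Le.sum (h : Nm n) {ι : Type} (s : Finset ι) (f : ι → R) {r : Γ}
    (hf : ∀ i ∈ s, Le n (f i) r) : Le n (∑ i ∈ s, f i) r := by
  classical
  induction s using Finset.induction_on with
  | empty => exact Or.inl (by simp)
  | insert a s ha ih =>
    rw [Finset.sum_insert ha]
    exact Le.add h (hf a (Finset.mem_insert_self a s))
      (ih fun i hi => hf i (Finset.mem_insert_of_mem hi))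

omit [Group Γ] [MulLeftMono Γ] [MulRightMono Γ] in
theorem self_le (x : R) : Le n x (n x) := Or.inr le_rfl

omit [MulRightMono Γ] in
/-- inverses of elements close to `1` -/
theorem inv_le (h : Nm n) {u w : R} (hu1 : u = 0 ∨ n u < 1) (hw1 : w * (1 + u) = 1) :
    Le n w (n 1) := by
  by_cases hw0 : w = 0
  · exact Or.inl hw0
  by_cases hu0 : u = 0
  · rw [hu0, add_zero, mul_one] at hw1
    rw [hw1]
    exact self_le 1
  have hu : n u < 1 := hu1.resolve_left hu0
  have e : w = 1 - w * u := by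
    rw [mul_add, mul_one] at hw1
    exact eq_sub_of_add_eq hw1
  right
  by_contra hcon
  rw [not_le] at hcon
  by_cases hwu : w * u = 0
  · rw [hwu, sub_zero] at e
    rw [e] at hcon
    exact absurd hcon (lt_irrefl _)
  have h1 : n (w * u) < n w :=
    (h.mul w u hwu).trans_lt (mul_lt_of_lt_one_right' (n w) hu)
  have h2 : Le n (1 - w * u) (max (n 1) (n (w * u))) :=
    Le.sub h ((self_le 1).mono (le_max_left _ _)) ((self_le _).mono (le_max_right _ _))
  rw [← e] at h2
  have h3 := h2.of hw0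
  exact absurd (h3.trans_lt (max_lt hcon h1)) (lt_irrefl _)

/-- powers of elements close to `1` -/
theorem pow_sub (h : Nm n) {v : R} {ε : Γ} (hε : ε ≤ 1) (hv : Le n v ε) (i : ℕ) :
    Le n ((1 + v) ^ i - 1) ε := by
  induction i with
  | zero => left; simp
  | succ i ih =>
    have e : (1 + v) ^ (i + 1) - 1 = ((1 + v) ^ i - 1) + v + ((1 + v) ^ i - 1) * v := by
      rw [pow_succ]; noncomm_ring
    rw [e]
    refine Le.add h (Le.add h ih hv) ((Le.mul h ih hv).mono ?_)
    calc ε * ε ≤ ε * 1 := mul_le_mul_right hε ε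
      _ = ε := mul_one ε

/-- elements close to `1` whose power of prime exponent commutes with `y` -/
theorem prime_step (h : Nm n) {v : R} {ε : Γ} (hε : ε ≤ 1) (hv : Le n v ε) {q : ℕ} {b : R}
    (hb : (q : R) * b = 1) (h1 : n b * ε < 1) (h2 : ε * n b < 1) (y : R)
    (hc : (1 + v) ^ q * y = y * (1 + v) ^ q) : (1 + v) * y = y * (1 + v) := by
  by_contra hcon
  set W := 1 + v with hW
  set z := W * y - y * W with hz
  have hz0 : z ≠ 0 := fun h0 => hcon (sub_eq_zero.1 h0)
  have hb' : b * (q : R) = 1 := by rw [← Nat.cast_comm, hb]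
  have hsum : ∀ m : ℕ, ∑ i ∈ Finset.range m, W ^ i * z * W ^ (m - 1 - i) =
      W ^ m * y - y * W ^ m := by
    intro m
    induction m with
    | zero => simp
    | succ m ih =>
      rw [Finset.sum_range_succ, Nat.add_sub_cancel, Nat.sub_self, pow_zero, mul_one]
      have e1 : ∑ i ∈ Finset.range m, W ^ i * z * W ^ (m - i) =
          (∑ i ∈ Finset.range m, W ^ i * z * W ^ (m - 1 - i)) * W := by
        rw [Finset.sum_mul]
        refine Finset.sum_congr rfl fun i hi => ?_
        rw [Finset.mem_range] at hi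
        have e2 : m - i = (m - 1 - i) + 1 := by omega
        rw [e2, pow_succ, ← mul_assoc]
      rw [e1, ih, hz, pow_succ]
      noncomm_ring
  have h3 := hsum q
  rw [hc, sub_self] at h3
  have h5 : (q : R) * z = -∑ i ∈ Finset.range q, (W ^ i * z * W ^ (q - 1 - i) - z) := by
    rw [Finset.sum_sub_distrib, h3, Finset.sum_const, Finset.card_range, zero_sub, neg_neg,
      nsmul_eq_mul]
  have h6 : Le n ((q : R) * z) (max (ε * n z) (n z * ε)) := by
    rw [h5]
    refine Le.neg h (Le.sum h _ _ fun i _ => ?_)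
    have hi := pow_sub h hε hv i
    have hj := pow_sub h hε hv (q - 1 - i)
    have e : W ^ i * z * W ^ (q - 1 - i) - z =
        (W ^ i - 1) * z + z * (W ^ (q - 1 - i) - 1) +
          (W ^ i - 1) * (z * (W ^ (q - 1 - i) - 1)) := by noncomm_ring
    rw [e]
    have k1 := Le.mul h hi (self_le (n := n) z)
    have k2 := Le.mul h (self_le (n := n) z) hj
    refine Le.add h (Le.add h (k1.mono (le_max_left _ _)) (k2.mono (le_max_right _ _))) ?_
    refine (Le.mul h hi k2).mono ((?_ : _ ≤ n z * ε).trans (le_max_right _ _))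
    calc ε * (n z * ε) ≤ 1 * (n z * ε) := mul_le_mul_left hε _
      _ = n z * ε := one_mul _
  have hqz : (q : R) * z ≠ 0 := by
    intro h0
    apply hz0
    rw [← one_mul z, ← hb', mul_assoc, h0, mul_zero]
  have h7 := h6.of hqz
  rcases max_choice (ε * n z) (n z * ε) with h8 | h8 <;> rw [h8] at h7
  · have e : b * ((q : R) * z) = z := by rw [← mul_assoc, hb', one_mul]
    have h9 := h.mul b ((q : R) * z) (by rw [e]; exact hz0)
    rw [e] at h9
    have h10 : n z ≤ (n b * ε) * n z := by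
      refine h9.trans ?_
      rw [mul_assoc]
      exact mul_le_mul_right h7 _
    exact absurd (h10.trans_lt (mul_lt_of_lt_one_left' (n z) h1)) (lt_irrefl _)
  · have e : (q : R) * z * b = z := by
      rw [Nat.cast_comm, mul_assoc, hb, mul_one]
    have h9 := h.mul ((q : R) * z) b (by rw [e]; exact hz0)
    rw [e] at h9
    have h10 : n z ≤ n z * (ε * n b) := by
      refine h9.trans ?_
      rw [← mul_assoc]
      exact mul_le_mul_left h7 _
    exact absurd (h10.trans_lt (mul_lt_of_lt_one_right' (n z) h2)) (lt_irrefl _)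

/-- elements close to `1` with a power which commutes with `y` -/
theorem comm_of_pow (h : Nm n) {ε : Γ} (hε : ε ≤ 1) {T : ℕ → Prop}
    (hT : ∀ q l : ℕ, T (q * l) → T q ∧ T l)
    (h1 : ∀ q : ℕ, q.Prime → T q → ∃ b : R, (q : R) * b = 1 ∧ n b * ε < 1 ∧ ε * n b < 1)
    (hT0 : ¬ T 0) (y : R) :
    ∀ m : ℕ, T m → ∀ v : R, Le n v ε → (1 + v) ^ m * y = y * (1 + v) ^ m →
      (1 + v) * y = y * (1 + v) := by
  intro m
  induction m using Nat.strong_induction_on with
  | _ m ih =>
    intro hm v hv hc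
    by_cases hm1 : m = 1
    · rw [hm1, pow_one] at hc; exact hc
    obtain ⟨q, hq, l, rfl⟩ := Nat.exists_prime_and_dvd hm1
    obtain ⟨hTq, hTl⟩ := hT q l hm
    have hl : 0 < l := by
      rcases Nat.eq_zero_or_pos l with h2 | h2
      · rw [h2] at hTl; exact absurd hTl hT0
      · exact h2
    have hlt : l < q * l := by
      have := hq.two_le
      nlinarith
    refine ih l hlt hTl v hv ?_
    have e : (1 + v) ^ l = 1 + ((1 + v) ^ l - 1) := by abel
    obtain ⟨b, hb, hb1, hb2⟩ := h1 q hq hTq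
    rw [e]
    refine prime_step h hε (pow_sub h hε hv l) hb hb1 hb2 y ?_
    rw [← e, ← pow_mul, mul_comm l q]
    exact hc

end UN_

open UN_ in
/-- the centraliser of an element of a radical normal subgroup is open -/
theorem qUN (D : Type u) [DivisionRing D] (N : Subgroup Dˣ) (hN : N.Normal)
    (hr : ∀ x ∈ N, ∃ n : ℕ, 1 ≤ n ∧ ((x : D) ^ n) ∈ Subring.center D)
    (A : Subring D) (hA : ∀ c ∈ Subring.center D, c ∈ A → c⁻¹ ∈ A)
    {R : Type w} [Ring R] [Nontrivial R] (φ : A →+* R)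
    {Γ : Type v} [Group Γ] [LinearOrder Γ] [MulLeftMono Γ] [MulRightMono Γ]
    (n : R → Γ) (hmul : ∀ a b : R, a * b ≠ 0 → n (a * b) ≤ n a * n b)
    (hadd : ∀ a b : R, a ≠ 0 → b ≠ 0 → a + b ≠ 0 → n (a + b) ≤ max (n a) (n b))
    (hneg : ∀ a : R, a ≠ 0 → n (-a) ≤ n a)
    (hprime : ∃ γ : Γ, ∀ q : ℕ, q.Prime → ∀ b : R, (q : R) * b = 1 → n b ≤ γ)
    (x : Dˣ) (hx : x ∈ N) (hxA : (x : D) ∈ A) :
    ∃ γ : Γ, ∀ s : Aˣ, (φ s = 1 ∨ n (φ s - 1) < γ) → ((s : A) : D) * x = x * ((s : A) : D) := by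
  have h : Nm n := ⟨hmul, hadd, hneg⟩
  have hRad := Main_.rad_ext N hN hr
  have hmem : ∀ y ∈ N, (y : D) ∈ Main_.ext N := fun y hy =>
    ⟨y.ne_zero, y, hy, 1, one_mem _, by rw [mul_one]⟩
  have hx0 : (x : D) ≠ 0 := x.ne_zero
  obtain ⟨k, hk, hkF⟩ := hr x hx
  -- the inverse of `x` is in `A`
  have hxi : ((x : D)⁻¹) ∈ A := by
    have e : ((x : D)⁻¹) = (x : D) ^ (k - 1) * ((x : D) ^ k)⁻¹ := by
      obtain ⟨j, rfl⟩ : ∃ j, k = j + 1 := ⟨k - 1, by omega⟩
      rw [Nat.add_sub_cancel, pow_succ', mul_inv_rev, mul_inv_cancel_left₀ (pow_ne_zero j hx0)]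
    rw [e]
    exact A.mul_mem (A.pow_mem hxA _) (hA _ hkF (A.pow_mem hxA _))
  set a : A := ⟨x, hxA⟩ with ha
  set ai : A := ⟨(x : D)⁻¹, hxi⟩ with hai
  have hai1 : a * ai = 1 := Subtype.ext (mul_inv_cancel₀ hx0)
  have hai2 : ai * a = 1 := Subtype.ext (inv_mul_cancel₀ hx0)
  -- if the image of the commutator is central then `s` and `x` commute
  have core : ∀ s : Aˣ, (∀ y : A, φ (s * a * ((s⁻¹ : Aˣ) : A) * ai) * φ y =
      φ y * φ (s * a * ((s⁻¹ : Aˣ) : A) * ai)) → ((s : A) : D) * x ≠ x * ((s : A) : D) →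
      False := by
    intro s hs hsx
    set W : A := s * a * ((s⁻¹ : Aˣ) : A) * ai with hW
    set p : Dˣ := Units.map (A.subtype : A →* D) s with hp
    have hp1 : (p : D) = ((s : A) : D) := rfl
    have hp2 : ((p⁻¹ : Dˣ) : D) = (((s⁻¹ : Aˣ) : A) : D) := rfl
    set W' : Dˣ := p * x * p⁻¹ * x⁻¹ with hW'
    have hW'N : W' ∈ N := N.mul_mem (hN.conj_mem x hx p) (N.inv_mem hx)
    have hWW' : (W' : D) = (W : D) := by
      rw [hW', hW]
      simp only [Units.val_mul, Subring.coe_mul, hp1, hp2, ha, hai, Units.val_inv_eq_inv_val]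
    have hWc : (W : D) ∉ Subring.center D := by
      intro hWc
      have h2 : (p : D) * x * (p : D)⁻¹ ∈ Algebra.adjoin (Subring.center D) {(x : D)} := by
        have e : (p : D) * x * (p : D)⁻¹ = (W : D) * x := by
          rw [← hWW', hW', ← Units.val_inv_eq_inv_val]
          push_cast
          simp
        rw [e]
        have := Subalgebra.smul_mem (Algebra.adjoin (Subring.center D) {(x : D)})
          (Algebra.subset_adjoin (Set.mem_singleton (x : D))) (⟨(W : D), hWc⟩ : Subring.center D)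
        exact this
      exact hsx (qN D _ hRad x (hmem x hx) p p.ne_zero h2)
    have hWne : ∀ j : ℕ, 1 ≤ j → (W : D) ^ j ≠ 1 := by
      intro j hj h0
      exact hWc (qR1 D _ hRad W (by rw [← hWW']; exact hmem W' hW'N) j hj h0)
    obtain ⟨j, hj, hjF⟩ := hr W' hW'N
    rw [hWW'] at hjF
    -- `W ^ k - 1` is a unit of `A`
    have hkj : (W : D) ^ (k * j) - 1 ∈ Subring.center D := by
      refine sub_mem ?_ (one_mem _)
      rw [mul_comm, pow_mul]
      exact pow_mem hjF k
    have hkj0 : (W : D) ^ (k * j) - 1 ≠ 0 :=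
      sub_ne_zero.2 (hWne _ (Nat.one_le_iff_ne_zero.2 (Nat.mul_ne_zero (by omega) (by omega))))
    obtain ⟨V, hV⟩ : ∃ V : A, (W ^ k - 1) * V = 1 := by
      refine ⟨(∑ i ∈ Finset.range j, (W ^ k) ^ i) *
        ⟨((W : D) ^ (k * j) - 1)⁻¹,
          hA _ hkj (A.sub_mem (A.pow_mem W.2 _) A.one_mem)⟩, ?_⟩
      rw [← mul_assoc, mul_geom_sum, ← pow_mul]
      apply Subtype.ext
      exact mul_inv_cancel₀ hkj0
    -- the image of `W ^ k` is `1`
    set ω : R := φ W with hω
    have e1 : φ (s : A) * φ a = ω * φ a * φ s := by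
      rw [hω, ← map_mul, ← map_mul, ← map_mul, hW]
      congr 1
      rw [mul_assoc _ ai a, hai2, mul_one, mul_assoc, Units.inv_mul, mul_one]
    have e2 : ∀ i : ℕ, φ (s : A) * φ a ^ i = ω ^ i * φ a ^ i * φ s := by
      intro i
      induction i with
      | zero => simp
      | succ i ih =>
        have hc : ∀ i : ℕ, φ a ^ i * ω = ω * φ a ^ i := by
          intro i
          rw [← map_pow]
          exact (hs _).symm
        calc φ (s : A) * φ a ^ (i + 1) = (φ (s : A) * φ a ^ i) * φ a := by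
              rw [pow_succ, mul_assoc]
          _ = ω ^ i * φ a ^ i * (φ (s : A) * φ a) := by rw [ih]; simp only [mul_assoc]
          _ = ω ^ i * (φ a ^ i * ω) * φ a * φ s := by rw [e1]; simp only [mul_assoc]
          _ = ω ^ (i + 1) * φ a ^ (i + 1) * φ s := by
              rw [hc i, pow_succ ω, pow_succ (φ a)]; simp only [mul_assoc]
    have e3 : φ (s : A) * φ a ^ k = φ a ^ k * φ s := by
      rw [← map_pow, ← map_mul, ← map_mul]
      congr 1
      apply Subtype.ext
      exact (Main_.center_comm hkF _).symm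
    have e4 : ω ^ k = 1 := by
      have e5 : φ a ^ k * φ (s : A) * (φ (((s⁻¹ : Aˣ) : A)) * φ ai ^ k) = 1 := by
        rw [← map_pow, ← map_pow, ← map_mul, ← map_mul, ← map_mul, ← map_one φ]
        congr 1
        have hcm : Commute a ai := by
          show a * ai = ai * a
          rw [hai1, hai2]
        rw [mul_assoc (a ^ k), ← mul_assoc (s : A), Units.mul_inv, one_mul, ← hcm.mul_pow, hai1,
          one_pow]
      have e6 := e2 k
      rw [e3] at e6
      calc ω ^ k = ω ^ k * (φ a ^ k * φ (s : A) * (φ (((s⁻¹ : Aˣ) : A)) * φ ai ^ k)) := by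
            rw [e5, mul_one]
        _ = (ω ^ k * φ a ^ k * φ (s : A)) * (φ (((s⁻¹ : Aˣ) : A)) * φ ai ^ k) := by
            simp only [mul_assoc]
        _ = 1 := by rw [← e6, e5]
    have e7 : (ω ^ k - 1) * φ V = 1 := by
      rw [hω, ← map_pow, ← map_one φ, ← map_sub, ← map_mul, hV]
    rw [e4, sub_self, zero_mul] at e7
    exact zero_ne_one e7
  obtain ⟨γ₀, hγ₀⟩ := hprime
  by_cases hΓ : ∃ δ : Γ, δ < 1
  · obtain ⟨δ, hδ⟩ := hΓ
    set ε : Γ := min γ₀⁻¹ 1 * δ with hε
    have hε0 : ε < min γ₀⁻¹ 1 := mul_lt_of_lt_one_right' _ hδ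
    have hε1 : ε ≤ 1 := (hε0.trans_le (min_le_right _ _)).le
    have hε2 : ε < γ₀⁻¹ := hε0.trans_le (min_le_left _ _)
    set ξ : R := φ a with hξ
    set ξi : R := φ ai with hξi
    refine ⟨min (min (ε * (n ξ * (n 1 * n ξi))⁻¹) ((n ξ)⁻¹ * ε * (n 1 * n ξi)⁻¹)) 1, ?_⟩
    intro s hs
    by_contra hsx
    set u : R := φ (s : A) - 1 with hu
    have hu0 : Le n u (min (min (ε * (n ξ * (n 1 * n ξi))⁻¹)
        ((n ξ)⁻¹ * ε * (n 1 * n ξi)⁻¹)) 1) := by
      rcases hs with hs | hs
      · left; rw [hu, hs, sub_self]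
      · exact Or.inr hs.le
    have hu1 : u = 0 ∨ n u < 1 := by
      rcases hs with hs | hs
      · left; rw [hu, hs, sub_self]
      · exact Or.inr (hs.trans_le (min_le_right _ _))
    have k1 : Le n u (ε * (n ξ * (n 1 * n ξi))⁻¹) :=
      hu0.mono ((min_le_left _ _).trans (min_le_left _ _))
    have k2 : Le n u ((n ξ)⁻¹ * ε * (n 1 * n ξi)⁻¹) :=
      hu0.mono ((min_le_left _ _).trans (min_le_right _ _))
    set σi : R := φ (((s⁻¹ : Aˣ) : A)) with hσi
    have hσ1 : φ (s : A) * σi = 1 := by rw [hσi, ← map_mul, Units.mul_inv, map_one]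
    have hσ2 : σi * φ (s : A) = 1 := by rw [hσi, ← map_mul, Units.inv_mul, map_one]
    have hξ1 : ξ * ξi = 1 := by rw [hξ, hξi, ← map_mul, hai1, map_one]
    have hσle : Le n σi (n 1) := by
      refine inv_le h hu1 ?_
      rw [hu, add_sub_cancel, hσ2]
    set W : A := s * a * ((s⁻¹ : Aˣ) : A) * ai with hW
    have hω : φ W = φ (s : A) * ξ * σi * ξi := by
      rw [hW, map_mul, map_mul, map_mul]
    have hω1 : φ W - 1 = (u * ξ - ξ * u) * (σi * ξi) := by
      have e1 : u * ξ - ξ * u = φ (s : A) * ξ - ξ * φ (s : A) := by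
        rw [hu]; noncomm_ring
      have e2 : ξ * φ (s : A) * (σi * ξi) = 1 := by
        rw [mul_assoc, ← mul_assoc (φ (s : A)), hσ1, one_mul, hξ1]
      rw [e1, sub_mul, e2, hω]
      simp only [mul_assoc]
    have hωε : Le n (φ W - 1) ε := by
      rw [hω1, sub_mul]
      have s2 := self_le (n := n) ξ
      have s3 : Le n (σi * ξi) (n 1 * n ξi) := Le.mul h hσle (self_le ξi)
      refine Le.sub h ((Le.mul h (Le.mul h k1 s2) s3).mono ?_)
        ((Le.mul h (Le.mul h s2 k2) s3).mono ?_)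
      · refine le_of_eq ?_
        group
      · refine le_of_eq ?_
        group
    refine core s (fun y => ?_) hsx
    by_cases hWc : (W : D) ∈ Subring.center D
    · rw [← map_mul, ← map_mul]
      congr 1
      exact Subtype.ext (Main_.center_comm hWc _)
    -- a power of `W` with exponent prime to the characteristic is central
    have hWN : (W : D) ∈ Main_.ext N := by
      set p : Dˣ := Units.map (A.subtype : A →* D) s with hp
      have hWW' : ((p * x * p⁻¹ * x⁻¹ : Dˣ) : D) = (W : D) := by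
        have hp1 : (p : D) = ((s : A) : D) := rfl
        have hp2 : ((p⁻¹ : Dˣ) : D) = (((s⁻¹ : Aˣ) : A) : D) := rfl
        simp only [Units.val_mul, Subring.coe_mul, hp1, hp2, ha, hai, hW,
          Units.val_inv_eq_inv_val]
      rw [← hWW']
      exact hmem _ (N.mul_mem (hN.conj_mem x hx p) (N.inv_mem hx))
    obtain ⟨M, f, -, hM0, hf, -⟩ := qR3 D _ hRad W hWN hWc
    have hcomm : ∀ m : ℕ, (m : D) ≠ 0 → ∀ v : R, Le n v ε →
        (1 + v) ^ m * φ y = φ y * (1 + v) ^ m → (1 + v) * φ y = φ y * (1 + v) := by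
      refine comm_of_pow h hε1 (T := fun m => (m : D) ≠ 0) ?_ ?_ ?_ (φ y)
      · intro q l hql
        rw [Nat.cast_mul] at hql
        exact ⟨left_ne_zero_of_mul hql, right_ne_zero_of_mul hql⟩
      · intro q hq hq0
        have hqc : ((q : D)⁻¹) ∈ A := hA _ (natCast_mem (Subring.center D) q) (natCast_mem A q)
        set b : R := φ ⟨(q : D)⁻¹, hqc⟩ with hb
        have hb1 : (q : R) * b = 1 := by
          rw [hb, ← map_natCast φ, ← map_mul, ← map_one φ]
          congr 1
          exact Subtype.ext (mul_inv_cancel₀ hq0)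
        have hb2 := hγ₀ q hq b hb1
        refine ⟨b, hb1, ?_, ?_⟩
        · calc n b * ε ≤ γ₀ * ε := mul_le_mul_left hb2 ε
            _ < γ₀ * γ₀⁻¹ := mul_lt_mul_right hε2 γ₀
            _ = 1 := mul_inv_cancel γ₀
        · calc ε * n b ≤ ε * γ₀ := mul_le_mul_right hb2 ε
            _ < γ₀⁻¹ * γ₀ := mul_lt_mul_left hε2 γ₀
            _ = 1 := inv_mul_cancel γ₀
      · exact fun h0 => h0 Nat.cast_zero
    have hfin := hcomm M hM0 (φ W - 1) hωε
    rw [add_sub_cancel] at hfin
    refine hfin ?_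
    rw [← map_pow, ← map_mul, ← map_mul]
    congr 1
    apply Subtype.ext
    have hfc := Main_.center_comm f.2 (y : D)
    rw [hf] at hfc
    exact hfc
  · push Not at hΓ
    refine ⟨1, fun s hs => ?_⟩
    rcases hs with hs | hs
    · by_contra hsx
      refine core s (fun y => ?_) hsx
      have hsi : φ (((s⁻¹ : Aˣ) : A)) = 1 := by
        have : φ (((s⁻¹ : Aˣ) : A)) = φ (s : A) * φ (((s⁻¹ : Aˣ) : A)) := by rw [hs, one_mul]
        rw [this, ← map_mul, Units.mul_inv, map_one]
      have e : φ (s * a * ((s⁻¹ : Aˣ) : A) * ai) = 1 := by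
        rw [map_mul, map_mul, map_mul, hs, hsi, one_mul, mul_one, ← map_mul, hai1, map_one]
      rw [e, one_mul, mul_one]
    · exact absurd hs (not_lt.2 (hΓ _))

end Pool.Agent.Herst
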